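import Mathlib
import Pool.Agent.Helper45.NC.Final

/-!
MP_ca8ee9_an, two prescribed eigenvalues (k = 2, all n).  Basic definitions.
-/

set_option autoImplicit false

namespace Pool.Agent.CMP

open Finset
open scoped ComplexConjugate

/-- value at `z` of the real affine function with coefficient vector `f` -/
noncomputable def ev (f : Fin 3 → ℝ) (z : ℂ) : ℝ := f 0 + f 1 * z.re + f 2 * z.im

/-- number of negative eigenvalues of the real symmetric matrix with rows `(x, y)`, `(y, w)` -/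
noncomputable def nu (x y w : ℝ) : ℕ :=
  (if x < 0 ∨ w < 0 ∨ x * w < y ^ 2 then 1 else 0) + (if x < 0 ∧ y ^ 2 < x * w then 1 else 0)

/-- number of nonpositive eigenvalues of the real symmetric matrix with rows `(x, y)`, `(y, w)` -/
noncomputable def nu0 (x y w : ℝ) : ℕ :=
  (if 0 < x ∧ y ^ 2 < x * w then 0 else 1) + (if 0 < x ∨ 0 < w ∨ x * w < y ^ 2 then 0 else 1)

/-- real symmetric affine pencils of size two: `M 0`, `M 1`, `M 2` are (the coefficient vectors of)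
the entries 11, 12, 22 -/
abbrev Pen := Fin 3 → Fin 3 → ℝ

noncomputable def nuP (M : Pen) (z : ℂ) : ℕ := nu (ev (M 0) z) (ev (M 1) z) (ev (M 2) z)

noncomputable def nu0P (M : Pen) (z : ℂ) : ℕ := nu0 (ev (M 0) z) (ev (M 1) z) (ev (M 2) z)

/-- indicator of `x < 0` -/
noncomputable def neg (x : ℝ) : ℕ := if x < 0 then 1 else 0

/-- indicator of `x ≤ 0` -/
noncomputable def npos (x : ℝ) : ℕ := if x ≤ 0 then 1 else 0

/-- the criterion: real symmetric affine pencils of size two -/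
def Crit (a₁ a₂ : ℂ) (β : Multiset ℂ) : Prop :=
  ∀ M : Pen, nuP M a₁ + nuP M a₂ ≤ (β.map (nuP M)).sum

/-- `p` and `q` are the columns of a compression of `diag b` to `diag (a₁, a₂)` -/
def Feas {n : ℕ} (b p q : Fin n → ℂ) (a₁ a₂ : ℂ) : Prop :=
  (∀ h : Fin 3 → ℝ, ∑ l, Complex.normSq (p l) * ev h (b l) = ev h a₁) ∧
  (∀ h : Fin 3 → ℝ, ∑ l, Complex.normSq (q l) * ev h (b l) = ev h a₂) ∧
  (∀ h : Fin 3 → ℝ, ∑ l, p l * conj (q l) * (ev h (b l) : ℂ) = 0)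

def Rel2 {n : ℕ} (b : Fin n → ℂ) (a₁ a₂ : ℂ) : Prop := ∃ p q : Fin n → ℂ, Feas b p q a₁ a₂

/-- `a` is different from all `b l` and lies on no line through two different `b l` -/
def Gen {n : ℕ} (b : Fin n → ℂ) (a : ℂ) : Prop :=
  (∀ l, a ≠ b l) ∧ ∀ l l', b l ≠ b l' → ((b l' - b l) * conj (a - b l)).im ≠ 0

/-- `(δp, δq)` is in the kernel of the derivative of the compression map at `(p, q)` -/
def Tan {n : ℕ} (b p q δp δq : Fin n → ℂ) : Prop :=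
  (∀ h : Fin 3 → ℝ, ∑ l, (p l * conj (δp l)).re * ev h (b l) = 0) ∧
  (∀ h : Fin 3 → ℝ, ∑ l, (q l * conj (δq l)).re * ev h (b l) = 0) ∧
  (∀ h : Fin 3 → ℝ, ∑ l, (p l * conj (δq l) + δp l * conj (q l)) * (ev h (b l) : ℂ) = 0)

/-- real multiplier `(α, β, γ)` at the point `(p, q)`, with the second order condition -/
def Mult {n : ℕ} (b p q : Fin n → ℂ) (α β γ : Fin 3 → ℝ) : Prop :=
  (∀ l, (ev α (b l) : ℂ) * p l + (ev β (b l) : ℂ) * q l = 0) ∧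
  (∀ l, (ev β (b l) : ℂ) * p l + (ev γ (b l) : ℂ) * q l = 0) ∧
  (∀ δp δq : Fin n → ℂ, Tan b p q δp δq →
    0 ≤ ∑ l, (ev α (b l) * Complex.normSq (δp l) +
      2 * ev β (b l) * (δp l * conj (δq l)).re + ev γ (b l) * Complex.normSq (δq l)))

/-- the same with real vectors `P`, `Q`, and only variations in the imaginary direction -/
def MultR {n : ℕ} (b : Fin n → ℂ) (P Q : Fin n → ℝ) (a x : ℂ) (α β γ : Fin 3 → ℝ) : Prop :=
  (∀ h : Fin 3 → ℝ, ∑ l, P l ^ 2 * ev h (b l) = ev h a) ∧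
  (∀ h : Fin 3 → ℝ, ∑ l, Q l ^ 2 * ev h (b l) = ev h x) ∧
  (∀ h : Fin 3 → ℝ, ∑ l, P l * Q l * ev h (b l) = 0) ∧
  (∀ l, ev α (b l) * P l + ev β (b l) * Q l = 0) ∧
  (∀ l, ev β (b l) * P l + ev γ (b l) * Q l = 0) ∧
  (∀ ξ η : Fin n → ℝ, (∀ h : Fin 3 → ℝ, ∑ l, (P l * η l - Q l * ξ l) * ev h (b l) = 0) →
    0 ≤ ∑ l, (ev α (b l) * ξ l ^ 2 + 2 * ev β (b l) * ξ l * η l + ev γ (b l) * η l ^ 2))

/-- blow-up of a pencil along the real line: `off` the real line the entry 11 is a large multiple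
of the imaginary part -/
noncomputable def kap (α c ψ : Fin 3 → ℝ) (z : ℂ) : ℕ :=
  if z.im = 0 then nu (ev α z) (ev c z) (ev ψ z) else neg z.im + neg (ev ψ z)

/-- the set of points of a multiset -/
def pts (β : Multiset ℂ) : Set ℂ := {z | z ∈ β}

/-- congruence of the pencil `M` by the matrix with rows `(p, q)`, `(r, s)` -/
def act (p q r s : ℝ) (M : Pen) : Pen :=
  ![fun i => M 0 i * p ^ 2 + 2 * M 1 i * p * r + M 2 i * r ^ 2,
    fun i => M 0 i * p * q + M 1 i * (p * s + q * r) + M 2 i * r * s,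
    fun i => M 0 i * q ^ 2 + 2 * M 1 i * q * s + M 2 i * s ^ 2]

/-- square of the Frobenius norm of a pencil -/
def nrm (M : Pen) : ℝ := ∑ i, (M 0 i ^ 2 + 2 * M 1 i ^ 2 + M 2 i ^ 2)

/-- the first order conditions for a pencil of minimal norm in its `SL₂` orbit -/
def Bal (M : Pen) : Prop :=
  (∑ i, M 0 i ^ 2 = ∑ i, M 2 i ^ 2) ∧ ∑ i, (M 0 i + M 2 i) * M 1 i = 0

/-- `M` violates the criterion weakly -/
def Weak {n : ℕ} (b : Fin n → ℂ) (a₁ a₂ : ℂ) (M : Pen) : Prop :=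
  ∑ l, nuP M (b l) < nu0P M a₁ + nu0P M a₂

/-- `M` vanishes at the point `z` -/
def VanAt (M : Pen) (z : ℂ) : Prop := ev (M 0) z = 0 ∧ ev (M 1) z = 0 ∧ ev (M 2) z = 0

/-- some affine function (some half plane) violates the criterion weakly -/
def Tight {n : ℕ} (b : Fin n → ℂ) (a₁ a₂ : ℂ) : Prop :=
  ∃ h : Fin 3 → ℝ, h ≠ 0 ∧ ∑ l, neg (ev h (b l)) < npos (ev h a₁) + npos (ev h a₂)

/-- kernel certificate of a weak violator -/
def Cert {n : ℕ} (b : Fin n → ℂ) (a₁ a₂ : ℂ) (M : Pen) (u v : Fin n → ℝ) (X₁ X₂ Y₁ Y₂ : ℝ) :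
    Prop :=
  X₁ ^ 2 + X₂ ^ 2 + Y₁ ^ 2 + Y₂ ^ 2 ≠ 0 ∧
  (∀ l, ev (M 0) (b l) * u l + ev (M 1) (b l) * v l = 0) ∧
  (∀ l, ev (M 1) (b l) * u l + ev (M 2) (b l) * v l = 0) ∧
  (ev (M 0) a₁ * X₁ + ev (M 1) a₁ * X₂ = 0) ∧ (ev (M 1) a₁ * X₁ + ev (M 2) a₁ * X₂ = 0) ∧
  (ev (M 0) a₂ * Y₁ + ev (M 1) a₂ * Y₂ = 0) ∧ (ev (M 1) a₂ * Y₁ + ev (M 2) a₂ * Y₂ = 0) ∧
  (∀ h : Fin 3 → ℝ, ∑ l, u l ^ 2 * ev h (b l) = X₁ ^ 2 * ev h a₁ + Y₁ ^ 2 * ev h a₂) ∧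
  (∀ h : Fin 3 → ℝ, ∑ l, u l * v l * ev h (b l) = X₁ * X₂ * ev h a₁ + Y₁ * Y₂ * ev h a₂) ∧
  (∀ h : Fin 3 → ℝ, ∑ l, v l ^ 2 * ev h (b l) = X₂ ^ 2 * ev h a₁ + Y₂ ^ 2 * ev h a₂)

end Pool.Agent.CMP
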