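import Mathlib
import Pool.Agent.CMP.Defs

/-!
MP_ca8ee9_an, two prescribed eigenvalues (k = 2, all n).  Statements of the modules.
-/

set_option autoImplicit false

namespace Pool.Agent.CMP

open Finset Pool.Agent.Helper45.NC
open scoped ComplexConjugate

/-! ### compressions -/

def St_Bridge : Prop := ∀ (n : ℕ) (b : Fin n → ℂ) (a₁ a₂ : ℂ),
  Rel2 b a₁ a₂ ↔ MDil {a₁, a₂} (ms b)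

def St_K1 : Prop := ∀ (a : ℂ) (β : Multiset ℂ), a ∈ convexHull ℝ (pts β) → MDil {a} β

def St_Sub : Prop := ∀ α β : Multiset ℂ, α ≤ β → MDil α β

def St_Int3 : Prop := ∀ x u y v w : ℝ, x ≤ u → u ≤ y → y ≤ v → v ≤ w →
  MDil {(u : ℂ), (v : ℂ)} {(x : ℂ), (y : ℂ), (w : ℂ)}

def St_FP2 : Prop := ∀ (a₁ a₂ : ℝ) (γ : Multiset ℝ), a₁ ≤ a₂ →
  1 ≤ (γ.filter (fun x => x ≤ a₁)).card → 2 ≤ (γ.filter (fun x => x ≤ a₂)).card →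
  1 ≤ (γ.filter (fun x => a₂ ≤ x)).card → 2 ≤ (γ.filter (fun x => a₁ ≤ x)).card →
  MDil {(a₁ : ℂ), (a₂ : ℂ)} (γ.map (fun x : ℝ => (x : ℂ)))

def St_AffM : Prop := ∀ (u v w : ℂ) (α β : Multiset ℂ), MDil α β →
  MDil (α.map (fun z => u * z + v * conj z + w)) (β.map (fun z => u * z + v * conj z + w))

def St_AffC : Prop := ∀ (u v w a₁ a₂ : ℂ) (β : Multiset ℂ), Crit a₁ a₂ β →
  Crit (u * a₁ + v * conj a₁ + w) (u * a₂ + v * conj a₂ + w)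
    (β.map (fun z => u * z + v * conj z + w))

/-! ### the criterion for half planes -/

def St_C1 : Prop := ∀ (a₁ a₂ : ℂ) (β : Multiset ℂ), Crit a₁ a₂ β → ∀ h : Fin 3 → ℝ,
  neg (ev h a₁) + neg (ev h a₂) ≤ (β.map (fun z => neg (ev h z))).sum

def St_Sep : Prop := ∀ (a : ℂ) (β : Multiset ℂ), a ∉ convexHull ℝ (pts β) →
  ∃ h : Fin 3 → ℝ, ev h a < 0 ∧ ∀ z ∈ β, 0 < ev h z

def St_Hull : Prop := ∀ (a₁ a₂ : ℂ) (β : Multiset ℂ), Crit a₁ a₂ β →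
  a₁ ∈ convexHull ℝ (pts β) ∧ a₂ ∈ convexHull ℝ (pts β)

def St_Cancel : Prop := ∀ (a₁ a₂ : ℂ) (β : Multiset ℂ), Crit a₁ a₂ β → (a₁ ∈ β ∨ a₂ ∈ β) →
  MDil {a₁, a₂} β

/-! ### Lemma L (half planes) -/

def St_TL : Prop := ∀ (a₁ a₂ : ℂ) (β : Multiset ℂ) (α c ψ : Fin 3 → ℝ), Crit a₁ a₂ β →
  (∀ z ∈ β, z.im ≠ 0 → ev ψ z ≠ 0) → (a₁.im ≠ 0 → ev ψ a₁ ≠ 0) → (a₂.im ≠ 0 → ev ψ a₂ ≠ 0) →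
  kap α c ψ a₁ + kap α c ψ a₂ ≤ (β.map (kap α c ψ)).sum

/-- one prescribed value on the line, exactly one `b` on the line to its left -/
def St_L1c : Prop := ∀ (a₁ : ℝ) (a₂ : ℂ) (x₀ : ℝ) (R : Multiset ℝ) (O : Multiset ℂ),
  Crit (a₁ : ℂ) a₂ ((x₀ : ℂ) ::ₘ (R.map (fun x : ℝ => (x : ℂ)) + O)) →
  x₀ < a₁ → (∀ y ∈ R, a₁ < y) → R ≠ 0 → a₂.im ≠ 0 → (∀ z ∈ O, z.im ≠ 0) →
  (O.map (fun z => neg z.im)).sum ≤ neg a₂.im →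
  a₂ ∈ convexHull ℝ (pts (R.map (fun x : ℝ => (x : ℂ)) + O))

/-- one prescribed value on the line, exactly one `b` on the line on each side -/
def St_L1d : Prop := ∀ (a₁ : ℝ) (a₂ : ℂ) (x₀ y₁ : ℝ) (O : Multiset ℂ),
  Crit (a₁ : ℂ) a₂ ((x₀ : ℂ) ::ₘ (y₁ : ℂ) ::ₘ O) →
  x₀ < a₁ → a₁ < y₁ → a₂.im ≠ 0 → (∀ z ∈ O, z.im ≠ 0) →
  (O.map (fun z => neg z.im)).sum ≤ neg a₂.im →
  a₂ ∈ convexHull ℝ (pts O)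

def St_L1 : Prop := ∀ (a₁ a₂ : ℂ) (β : Multiset ℂ), Crit a₁ a₂ β → a₁ ∉ β → a₁.im = 0 →
  a₂.im ≠ 0 → (β.map (fun z => neg z.im)).sum ≤ neg a₂.im → MDil {a₁, a₂} β

def St_L2zero : Prop := ∀ (a₁ a₂ : ℝ) (β : Multiset ℂ), Crit (a₁ : ℂ) (a₂ : ℂ) β → a₁ ≤ a₂ →
  (a₁ : ℂ) ∉ β → (a₂ : ℂ) ∉ β → (∀ z ∈ β, 0 ≤ z.im) → MDil {(a₁ : ℂ), (a₂ : ℂ)} β

def St_SepY : Prop := ∀ (b₀ : ℂ) (C : Multiset ℂ) (r : ℝ), b₀.im < 0 → (∀ z ∈ C, 0 < z.im) →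
  (∀ y : ℝ, (y : ℂ) ∈ convexHull ℝ (pts (b₀ ::ₘ C)) → r < y) →
  ∃ κ : ℝ, 0 < b₀.re - r + κ * b₀.im ∧ ∀ z ∈ C, 0 < z.re - r + κ * z.im

def St_Spec : Prop := ∀ (a₁ a₂ : ℝ) (b₀ : ℂ) (R : Multiset ℝ) (C : Multiset ℂ),
  Crit (a₁ : ℂ) (a₂ : ℂ) (b₀ ::ₘ (R.map (fun x : ℝ => (x : ℂ)) + C)) → b₀.im < 0 →
  (∀ z ∈ C, 0 < z.im) → a₁ < a₂ → (∀ y ∈ R, a₁ < y ∧ y < a₂) → False

def St_L2one : Prop := ∀ (a₁ a₂ : ℝ) (b₀ : ℂ) (R : Multiset ℝ) (C : Multiset ℂ),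
  Crit (a₁ : ℂ) (a₂ : ℂ) (b₀ ::ₘ (R.map (fun x : ℝ => (x : ℂ)) + C)) → a₁ ≤ a₂ →
  a₁ ∉ R → a₂ ∉ R → b₀.im < 0 → (∀ z ∈ C, 0 < z.im) → C ≠ 0 →
  MDil {(a₁ : ℂ), (a₂ : ℂ)} (b₀ ::ₘ (R.map (fun x : ℝ => (x : ℂ)) + C))

def St_L2 : Prop := ∀ (a₁ a₂ : ℂ) (β : Multiset ℂ), Crit a₁ a₂ β → a₁.im = 0 → a₂.im = 0 →
  a₁ ∉ β → a₂ ∉ β → (β.map (fun z => neg z.im)).sum ≤ 1 → MDil {a₁, a₂} β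

def St_L : Prop := ∀ (a₁ a₂ : ℂ) (β : Multiset ℂ), Crit a₁ a₂ β → a₁ ∉ β → a₂ ∉ β →
  ∀ h : Fin 3 → ℝ, h ≠ 0 →
  (β.map (fun z => neg (ev h z))).sum < npos (ev h a₁) + npos (ev h a₂) → MDil {a₁, a₂} β

/-! ### forms in two variables -/

def St_NuInv : Prop := ∀ x y w p q r s : ℝ, p * s - q * r ≠ 0 →
  nu (x * p ^ 2 + 2 * y * p * r + w * r ^ 2) (x * p * q + y * (p * s + q * r) + w * r * s)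
    (x * q ^ 2 + 2 * y * q * s + w * s ^ 2) = nu x y w ∧
  nu0 (x * p ^ 2 + 2 * y * p * r + w * r ^ 2) (x * p * q + y * (p * s + q * r) + w * r * s)
    (x * q ^ 2 + 2 * y * q * s + w * s ^ 2) = nu0 x y w

def St_NuLsc : Prop := ∀ x y w : ℝ, ∃ ε : ℝ, 0 < ε ∧ ∀ x' y' w' : ℝ,
  |x' - x| < ε → |y' - y| < ε → |w' - w| < ε → nu x y w ≤ nu x' y' w' ∧ nu0 x' y' w' ≤ nu0 x y w

def St_PertB : Prop := ∀ x y w x' y' w' : ℝ,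
  (∀ k₁ k₂ : ℝ, (k₁ ≠ 0 ∨ k₂ ≠ 0) → x * k₁ + y * k₂ = 0 → y * k₁ + w * k₂ = 0 →
    0 < x' * k₁ ^ 2 + 2 * y' * k₁ * k₂ + w' * k₂ ^ 2) →
  ∃ δ₀ : ℝ, 0 < δ₀ ∧ ∀ δ : ℝ, 0 < δ → δ < δ₀ →
    nu (x + δ * x') (y + δ * y') (w + δ * w') ≤ nu x y w

def St_PertA : Prop := ∀ x y w x' y' w' : ℝ,
  (∀ k₁ k₂ : ℝ, (k₁ ≠ 0 ∨ k₂ ≠ 0) → x * k₁ + y * k₂ = 0 → y * k₁ + w * k₂ = 0 →
    x' * k₁ ^ 2 + 2 * y' * k₁ * k₂ + w' * k₂ ^ 2 < 0) →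
  ∃ δ₀ : ℝ, 0 < δ₀ ∧ ∀ δ : ℝ, 0 < δ → δ < δ₀ →
    nu0 x y w ≤ nu (x + δ * x') (y + δ * y') (w + δ * w')

def St_Gordan : Prop := ∀ (ι : Type) [Fintype ι] (w : ι → Pen),
  (∃ N : Pen, ∀ i, 0 < ∑ j, ∑ k, N j k * w i j k) ∨
  (∃ y : ι → ℝ, (∀ i, 0 ≤ y i) ∧ (∃ i, y i ≠ 0) ∧ ∀ j k, ∑ i, y i * w i j k = 0)

/-! ### limits of violators -/

def St_LimA : Prop := ∀ (n : ℕ) (b : Fin n → ℂ) (a₁ a₂ : ℂ), ¬ Crit a₁ a₂ (ms b) →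
  ∃ M : Pen, ∑ l, nuP M (b l) < nuP M a₁ + nuP M a₂ ∧ M 0 0 * M 2 0 - M 1 0 ^ 2 ≠ 0

def St_NearMin : Prop := ∀ M : Pen, M 0 0 * M 2 0 - M 1 0 ^ 2 ≠ 0 → ∀ ε : ℝ, 0 < ε →
  ∃ p q r s : ℝ, p * s - q * r = 1 ∧ nrm (act p q r s M) ≠ 0 ∧
    ∀ p' q' r' s' : ℝ, p' * s' - q' * r' = 1 →
      nrm (act p q r s M) ≤ (1 + ε) * nrm (act p' q' r' s' (act p q r s M))

def St_MinBal : Prop := ∀ M : Pen,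
  (∀ p q r s : ℝ, p * s - q * r = 1 → nrm M ≤ nrm (act p q r s M)) → Bal M

def St_Lim : Prop := ∀ (n : ℕ) (b : Fin n → ℂ) (a₁ a₂ : ℂ),
  (∀ ε : ℝ, 0 < ε → ∃ a₁' a₂' : ℂ, ‖a₁' - a₁‖ < ε ∧ ‖a₂' - a₂‖ < ε ∧ ¬ Crit a₁' a₂' (ms b)) →
  ∃ M : Pen, M ≠ 0 ∧ Bal M ∧ Weak b a₁ a₂ M

/-! ### tight pencils -/

def St_Diag : Prop := ∀ (n : ℕ) (b : Fin n → ℂ) (a₁ a₂ : ℂ) (M : Pen), M ≠ 0 → Bal M →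
  Weak b a₁ a₂ M → (∃ c s : ℝ, c ^ 2 + s ^ 2 = 1 ∧ (act c (-s) s c M) 1 = 0) → Tight b a₁ a₂

def St_Zero : Prop := ∀ (n : ℕ) (b : Fin n → ℂ) (a₁ a₂ : ℂ) (M : Pen), Crit a₁ a₂ (ms b) →
  M ≠ 0 → Bal M → Weak b a₁ a₂ M → (∀ l, a₁ ≠ b l) → (∀ l, a₂ ≠ b l) →
  (VanAt M a₁ ∨ VanAt M a₂ ∨ ∃ l, VanAt M (b l)) → Tight b a₁ a₂

def St_Cert : Prop := ∀ (n : ℕ) (b : Fin n → ℂ) (a₁ a₂ : ℂ) (M : Pen), Crit a₁ a₂ (ms b) →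
  Weak b a₁ a₂ M → ¬ VanAt M a₁ → ¬ VanAt M a₂ → (∀ l, ¬ VanAt M (b l)) →
  ∃ (u v : Fin n → ℝ) (X₁ X₂ Y₁ Y₂ : ℝ), Cert b a₁ a₂ M u v X₁ X₂ Y₁ Y₂

def St_Rank2 : Prop := ∀ (n : ℕ) (b : Fin n → ℂ) (a₁ a₂ : ℂ) (M : Pen) (u v : Fin n → ℝ)
  (X₁ X₂ Y₁ Y₂ : ℝ), Cert b a₁ a₂ M u v X₁ X₂ Y₁ Y₂ → X₁ * Y₂ - X₂ * Y₁ ≠ 0 → Rel2 b a₁ a₂

def St_Rank1 : Prop := ∀ (n : ℕ) (b : Fin n → ℂ) (a₁ a₂ : ℂ) (M : Pen) (u v : Fin n → ℝ)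
  (X₁ X₂ Y₁ Y₂ : ℝ), M ≠ 0 → Bal M → Weak b a₁ a₂ M →
  ¬ VanAt M a₁ → ¬ VanAt M a₂ → (∀ l, ¬ VanAt M (b l)) →
  (∀ l, a₁ ≠ b l) → (∀ l, a₂ ≠ b l) →
  Cert b a₁ a₂ M u v X₁ X₂ Y₁ Y₂ → X₁ * Y₂ - X₂ * Y₁ = 0 → Tight b a₁ a₂

/-- points of the criterion which are limits of violators are realizable -/
def St_CL : Prop := ∀ (n : ℕ) (b : Fin n → ℂ) (a₁ a₂ : ℂ), Crit a₁ a₂ (ms b) →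
  (∀ ε : ℝ, 0 < ε → ∃ a₁' a₂' : ℂ, ‖a₁' - a₁‖ < ε ∧ ‖a₂' - a₂‖ < ε ∧ ¬ Crit a₁' a₂' (ms b)) →
  MDil {a₁, a₂} (ms b)

/-! ### topology -/

def St_CritOpen : Prop := ∀ (n : ℕ) (b : Fin n → ℂ) (a₁ a₂ : ℂ), ¬ Crit a₁ a₂ (ms b) →
  ∃ ε : ℝ, 0 < ε ∧ ∀ a₁' a₂' : ℂ, ‖a₁' - a₁‖ < ε → ‖a₂' - a₂‖ < ε → ¬ Crit a₁' a₂' (ms b)

def St_RelClosed : Prop := ∀ (n : ℕ) (b : Fin n → ℂ) (a₁ a₂ : ℂ), ¬ Rel2 b a₁ a₂ →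
  ∃ ε : ℝ, 0 < ε ∧ ∀ a₁' a₂' : ℂ, ‖a₁' - a₁‖ < ε → ‖a₂' - a₂‖ < ε → ¬ Rel2 b a₁' a₂'

def St_GenDense : Prop := ∀ (n : ℕ) (b : Fin n → ℂ) (a : ℂ) (ε : ℝ), 0 < ε →
  ∃ a' : ℂ, ‖a' - a‖ < ε ∧ Gen b a'

def St_TopAbs : Prop := ∀ (U K : Set ℂ) (F : Finset ℂ), IsOpen U → U.Nonempty →
  Bornology.IsBounded U → IsClosed K → Disjoint U K → closure U ⊆ U ∪ K →
  ∃ z' ∈ U, ∃ x ∈ K, x ∉ F ∧ (∀ y ∈ K, ‖x - z'‖ ≤ ‖y - z'‖) ∧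
    ∀ t : ℝ, 0 < t → t ≤ 1 → x + (t : ℂ) * (z' - x) ∈ U

/-! ### first and second order conditions -/

def St_GenSupp : Prop := ∀ (n : ℕ) (b : Fin n → ℂ) (a : ℂ) (w : Fin n → ℝ) (h : Fin 3 → ℝ),
  Gen b a → (∀ f : Fin 3 → ℝ, ∑ l, w l * ev f (b l) = ev f a) →
  (∀ l, w l ≠ 0 → ev h (b l) = 0) → h = 0

/-- Lagrange multipliers with the second order condition -/
def St_LagAbs : Prop := ∀ (E W : Type) [NormedAddCommGroup E] [NormedSpace ℝ E]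
  [FiniteDimensional ℝ E] [NormedAddCommGroup W] [NormedSpace ℝ W] [FiniteDimensional ℝ W]
  (Q : E →L[ℝ] E →L[ℝ] W) (L : ℂ →L[ℝ] W) (w₁ : W) (V₀ : E) (x₀ z : ℂ),
  (∀ u v, Q u v = Q v u) → Q V₀ V₀ = w₁ + L x₀ →
  (∀ V y, Q V V = w₁ + L y → ‖x₀ - z‖ ≤ ‖y - z‖) →
  (∀ w : W, ∃ dV dx, Q V₀ dV + L dx = w) →
  ∃ m : W →ₗ[ℝ] ℝ, (∀ dV, m (Q V₀ dV) = 0) ∧
    (∀ dx : ℂ, m (L dx) = (x₀ - z).re * dx.re + (x₀ - z).im * dx.im) ∧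
    ∀ dV, Q V₀ dV = 0 → 0 ≤ m (Q dV dV)

def St_Lag : Prop := ∀ (n : ℕ) (b p q : Fin n → ℂ) (a x z : ℂ), Gen b a → Feas b p q a x →
  (∀ y, Rel2 b a y → ‖x - z‖ ≤ ‖y - z‖) →
  ∃ α β₁ β₂ γ : Fin 3 → ℝ,
    (∀ l, (ev α (b l) : ℂ) * p l + (ev β₁ (b l) + ev β₂ (b l) * Complex.I) * q l = 0) ∧
    (∀ l, (ev β₁ (b l) - ev β₂ (b l) * Complex.I) * p l + (ev γ (b l) : ℂ) * q l = 0) ∧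
    γ 1 = (x - z).re ∧ γ 2 = (x - z).im ∧
    (∀ δp δq : Fin n → ℂ, Tan b p q δp δq →
      0 ≤ ∑ l, (ev α (b l) * Complex.normSq (δp l) +
        2 * ((ev β₁ (b l) - ev β₂ (b l) * Complex.I) * δp l * conj (δq l)).re +
        ev γ (b l) * Complex.normSq (δq l)))

def St_Phase : Prop := ∀ (n : ℕ) (b p q : Fin n → ℂ) (a x : ℂ) (α β₁ β₂ γ : Fin 3 → ℝ),
  a ≠ x → Feas b p q a x →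
  (∀ l, (ev α (b l) : ℂ) * p l + (ev β₁ (b l) + ev β₂ (b l) * Complex.I) * q l = 0) →
  (∀ l, (ev β₁ (b l) - ev β₂ (b l) * Complex.I) * p l + (ev γ (b l) : ℂ) * q l = 0) →
  (∀ δp δq : Fin n → ℂ, Tan b p q δp δq →
    0 ≤ ∑ l, (ev α (b l) * Complex.normSq (δp l) +
      2 * ((ev β₁ (b l) - ev β₂ (b l) * Complex.I) * δp l * conj (δq l)).re +
      ev γ (b l) * Complex.normSq (δq l))) →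
  ∃ (q' : Fin n → ℂ) (β : Fin 3 → ℝ), Feas b p q' a x ∧ Mult b p q' α β γ

/-- the values of the multiplier at `a` and `x` -/
def St_MultVal : Prop := ∀ (n : ℕ) (b p q : Fin n → ℂ) (a x : ℂ) (α β γ : Fin 3 → ℝ),
  Feas b p q a x →
  (∀ l, (ev α (b l) : ℂ) * p l + (ev β (b l) : ℂ) * q l = 0) →
  (∀ l, (ev β (b l) : ℂ) * p l + (ev γ (b l) : ℂ) * q l = 0) →
  ev α a = 0 ∧ ev β a = 0 ∧ ev β x = 0 ∧ ev γ x = 0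

def St_Nonzero : Prop := ∀ (n : ℕ) (b p q : Fin n → ℂ) (a x : ℂ) (α β γ : Fin 3 → ℝ),
  Gen b a → a ≠ x → (∀ l, x ≠ b l) → Feas b p q a x → Mult b p q α β γ →
  (γ 1 ≠ 0 ∨ γ 2 ≠ 0) → β ≠ 0 →
  ∀ l, ¬ (ev α (b l) = 0 ∧ ev β (b l) = 0 ∧ ev γ (b l) = 0)

def St_RealV : Prop := ∀ (n : ℕ) (b p q : Fin n → ℂ) (a x : ℂ) (α β γ : Fin 3 → ℝ),
  Feas b p q a x → Mult b p q α β γ →
  (∀ l, ¬ (ev α (b l) = 0 ∧ ev β (b l) = 0 ∧ ev γ (b l) = 0)) →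
  ∃ P Q : Fin n → ℝ, MultR b P Q a x α β γ

def St_Index : Prop := ∀ (n : ℕ) (b : Fin n → ℂ) (P Q : Fin n → ℝ) (a x : ℂ)
  (α β γ : Fin 3 → ℝ), a ≠ x → MultR b P Q a x α β γ →
  ∑ l, nu (ev α (b l)) (ev β (b l)) (ev γ (b l)) ≤ 1 + neg (ev γ a) + neg (ev α x)

def St_GordanN : Prop := ∀ (n : ℕ) (b : Fin n → ℂ) (P Q : Fin n → ℝ) (a x : ℂ)
  (α β γ : Fin 3 → ℝ), Gen b a → MultR b P Q a x α β γ → β ≠ 0 →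
  (∀ l, ¬ (ev α (b l) = 0 ∧ ev β (b l) = 0 ∧ ev γ (b l) = 0)) →
  ∃ N : Pen, ev (N 0) a < 0 ∧ ∀ l, ∀ k₁ k₂ : ℝ, (k₁ ≠ 0 ∨ k₂ ≠ 0) →
    ev α (b l) * k₁ + ev β (b l) * k₂ = 0 → ev β (b l) * k₁ + ev γ (b l) * k₂ = 0 →
    0 < ev (N 0) (b l) * k₁ ^ 2 + 2 * ev (N 1) (b l) * k₁ * k₂ + ev (N 2) (b l) * k₂ ^ 2

def St_Viol : Prop := ∀ (n : ℕ) (b : Fin n → ℂ) (a x z : ℂ) (α β γ : Fin 3 → ℝ) (N : Pen),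
  z ≠ x → γ 1 = (x - z).re → γ 2 = (x - z).im →
  ev α a = 0 → ev β a = 0 → ev β x = 0 → ev γ x = 0 →
  ∑ l, nu (ev α (b l)) (ev β (b l)) (ev γ (b l)) ≤ 1 + neg (ev γ a) + neg (ev α x) →
  ev (N 0) a < 0 →
  (∀ l, ∀ k₁ k₂ : ℝ, (k₁ ≠ 0 ∨ k₂ ≠ 0) →
    ev α (b l) * k₁ + ev β (b l) * k₂ = 0 → ev β (b l) * k₁ + ev γ (b l) * k₂ = 0 →
    0 < ev (N 0) (b l) * k₁ ^ 2 + 2 * ev (N 1) (b l) * k₁ * k₂ + ev (N 2) (b l) * k₂ ^ 2) →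
  ∃ t₀ : ℝ, 0 < t₀ ∧ ∀ t : ℝ, 0 < t → t < t₀ → ¬ Crit a (x + (t : ℂ) * (z - x)) (ms b)

/-- compensation of a variation of `q` off the line `γ = 0` -/
def St_Comp : Prop := ∀ (n : ℕ) (b p q : Fin n → ℂ) (a x : ℂ) (γ : Fin 3 → ℝ) (ε : Fin n → ℂ),
  Gen b a → Feas b p q a x → (∀ l, x ≠ b l) → γ ≠ 0 → (∀ l, ev γ (b l) ≠ 0 → q l = 0) →
  (∀ l, ev γ (b l) = 0 → ε l = 0) →
  ∑ l, (ev γ (b l) : ℂ) * (p l * conj (ε l)) = 0 →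
  ∃ δp δq : Fin n → ℂ, Tan b p q δp δq ∧ ∀ l, ev γ (b l) ≠ 0 → δq l = ε l

def St_Gamma : Prop := ∀ (n : ℕ) (b p q : Fin n → ℂ) (a x z : ℂ) (α γ : Fin 3 → ℝ),
  Gen b a → (∀ l, x ≠ b l) → z ≠ x → Feas b p q a x → Mult b p q α 0 γ →
  γ 1 = (x - z).re → γ 2 = (x - z).im →
  ∃ t₀ : ℝ, 0 < t₀ ∧ ∀ t : ℝ, 0 < t → t < t₀ → ¬ Crit a (x + (t : ℂ) * (z - x)) (ms b)

/-- sufficiency of the criterion -/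
def St_Suff : Prop := ∀ (n : ℕ) (b : Fin n → ℂ) (a₁ a₂ : ℂ), Crit a₁ a₂ (ms b) → Rel2 b a₁ a₂

/-! ### necessity, for pencils of any size -/

/-- number of negative eigenvalues of a Hermitian matrix -/
noncomputable def negC {r : ℕ} (N : Matrix (Fin r) (Fin r) ℂ) : ℕ :=
  (N.charpoly.roots.filter (fun z => z.re < 0)).card

/-- number of negative eigenvalues of a real symmetric matrix -/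
noncomputable def negR {r : ℕ} (N : Matrix (Fin r) (Fin r) ℝ) : ℕ :=
  (N.charpoly.roots.filter (fun z => z < 0)).card

def St_NecC : Prop := ∀ (k n r : ℕ) (a : Fin k → ℂ) (b : Fin n → ℂ)
  (N₀ N₁ N₂ : Matrix (Fin r) (Fin r) ℂ), N₀.IsHermitian → N₁.IsHermitian → N₂.IsHermitian →
  Dil a b →
  ∑ j, negC (N₀ + ((a j).re : ℂ) • N₁ + ((a j).im : ℂ) • N₂) ≤
    ∑ l, negC (N₀ + ((b l).re : ℂ) • N₁ + ((b l).im : ℂ) • N₂)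

def St_NegR : Prop := ∀ x y w : ℝ, negR !![x, y; y, w] = nu x y w

def St_NegC : Prop := ∀ x y w : ℝ, negC !![(x : ℂ), (y : ℂ); (y : ℂ), (w : ℂ)] = nu x y w

def St_NecR : Prop := ∀ (n : ℕ) (a₁ a₂ : ℂ) (b : Fin n → ℂ), Rel2 b a₁ a₂ → Crit a₁ a₂ (ms b)

end Pool.Agent.CMP
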