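import Mathlib
import Pool.Agent.CMP.Stmts

/-! Shared elementary lemmas for the modules. -/

set_option autoImplicit false

namespace Pool.Agent.CMP

open Finset Pool.Agent.Helper45.NC
open scoped ComplexConjugate

theorem sum_ms {n : ℕ} (b : Fin n → ℂ) (f : ℂ → ℕ) : ((ms b).map f).sum = ∑ l, f (b l) := by
  unfold ms
  rw [Multiset.map_map]
  rfl

theorem mem_ms {n : ℕ} (b : Fin n → ℂ) (z : ℂ) : z ∈ ms b ↔ ∃ l, b l = z := by
  unfold ms
  simp

theorem ev_mk (x y w : ℝ) (z : ℂ) : ev ![x, y, w] z = x + y * z.re + w * z.im := rfl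

theorem ev_add (f g : Fin 3 → ℝ) (z : ℂ) : ev (f + g) z = ev f z + ev g z := by
  simp only [ev, Pi.add_apply]; ring

theorem ev_sub (f g : Fin 3 → ℝ) (z : ℂ) : ev (f - g) z = ev f z - ev g z := by
  simp only [ev, Pi.sub_apply]; ring

theorem ev_neg (f : Fin 3 → ℝ) (z : ℂ) : ev (-f) z = - ev f z := by
  simp only [ev, Pi.neg_apply]; ring

theorem ev_smul (c : ℝ) (f : Fin 3 → ℝ) (z : ℂ) : ev (c • f) z = c * ev f z := by
  simp only [ev, Pi.smul_apply, smul_eq_mul]; ring

theorem ev_zero (z : ℂ) : ev 0 z = 0 := by simp [ev]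

theorem ev_ext {z w : ℂ} (h : ∀ f : Fin 3 → ℝ, ev f z = ev f w) : z = w := by
  apply Complex.ext
  · simpa [ev_mk] using h ![0, 1, 0]
  · simpa [ev_mk] using h ![0, 0, 1]

theorem ev_sum {ι : Type*} (s : Finset ι) (w : ι → ℝ) (z : ι → ℂ) (hw : ∑ i ∈ s, w i = 1)
    (f : Fin 3 → ℝ) : ev f (∑ i ∈ s, (w i : ℂ) * z i) = ∑ i ∈ s, w i * ev f (z i) := by
  have h1 : ∑ i ∈ s, w i * ev f (z i) = f 0 * ∑ i ∈ s, w i + f 1 * ∑ i ∈ s, w i * (z i).re +
      f 2 * ∑ i ∈ s, w i * (z i).im := by
    rw [Finset.mul_sum, Finset.mul_sum, Finset.mul_sum, ← Finset.sum_add_distrib,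
      ← Finset.sum_add_distrib]
    refine Finset.sum_congr rfl (fun i _ => ?_)
    unfold ev
    ring
  rw [h1, hw]
  unfold ev
  rw [Complex.re_sum, Complex.im_sum]
  simp only [Complex.re_ofReal_mul, Complex.im_ofReal_mul, mul_one]

theorem continuous_ev (f : Fin 3 → ℝ) : Continuous (ev f) := by
  unfold ev
  fun_prop

theorem continuous_ev2 : Continuous (fun x : (Fin 3 → ℝ) × ℂ => ev x.1 x.2) := by
  unfold ev
  fun_prop

/-- two affine functions vanishing at two different points are proportional -/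
theorem prop_of_two {z w : ℂ} (hzw : z ≠ w) {f g : Fin 3 → ℝ} (hf : f ≠ 0) (f1 : ev f z = 0)
    (f2 : ev f w = 0) (g1 : ev g z = 0) (g2 : ev g w = 0) : ∃ c : ℝ, g = c • f := by
  have hd : ¬ (w.re - z.re = 0 ∧ w.im - z.im = 0) := by
    rintro ⟨h1, h2⟩
    exact hzw (Complex.ext (by linarith) (by linarith))
  have hfd : f 1 * (w.re - z.re) + f 2 * (w.im - z.im) = 0 := by
    unfold ev at f1 f2; linarith
  have hgd : g 1 * (w.re - z.re) + g 2 * (w.im - z.im) = 0 := by
    unfold ev at g1 g2; linarith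
  have hf12 : ¬ (f 1 = 0 ∧ f 2 = 0) := by
    rintro ⟨h1, h2⟩
    apply hf
    have h0 : f 0 = 0 := by
      unfold ev at f1; rw [h1, h2] at f1; linarith
    funext i
    fin_cases i
    · exact h0
    · exact h1
    · exact h2
  have hcross : f 1 * g 2 - f 2 * g 1 = 0 := by
    by_contra hne
    apply hd
    constructor
    · have : (f 1 * g 2 - f 2 * g 1) * (w.re - z.re) = 0 := by
        linear_combination g 2 * hfd - f 2 * hgd
      exact (mul_eq_zero.1 this).resolve_left hne
    · have : (f 1 * g 2 - f 2 * g 1) * (w.im - z.im) = 0 := by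
        linear_combination f 1 * hgd - g 1 * hfd
      exact (mul_eq_zero.1 this).resolve_left hne
  have hex : ∃ c : ℝ, g 1 = c * f 1 ∧ g 2 = c * f 2 := by
    by_cases h1 : f 1 = 0
    · have h2 : f 2 ≠ 0 := fun h => hf12 ⟨h1, h⟩
      refine ⟨g 2 / f 2, ?_, ?_⟩
      · rw [h1]
        rw [h1] at hcross
        have : f 2 * g 1 = 0 := by linarith
        rw [(mul_eq_zero.1 this).resolve_left h2]
        ring
      · field_simp
    · refine ⟨g 1 / f 1, ?_, ?_⟩
      · field_simp
      · field_simp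
        linarith
  obtain ⟨c, c1, c2⟩ := hex
  refine ⟨c, ?_⟩
  funext i
  fin_cases i
  · simp only [Pi.smul_apply, smul_eq_mul, Fin.mk_zero]
    unfold ev at f1 g1
    rw [c1, c2] at g1
    linear_combination g1 - c * f1
  · exact c1
  · exact c2

theorem nu_le_two (x y w : ℝ) : nu x y w ≤ 2 := by
  unfold nu; split_ifs <;> norm_num

theorem nu_zero_iff (x y w : ℝ) : nu x y w = 0 ↔ 0 ≤ x ∧ 0 ≤ w ∧ y ^ 2 ≤ x * w := by
  unfold nu
  constructor
  · intro h
    by_cases h1 : x < 0 ∨ w < 0 ∨ x * w < y ^ 2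
    · rw [if_pos h1] at h
      omega
    · push Not at h1
      exact h1
  · rintro ⟨h1, h2, h3⟩
    rw [if_neg (by push Not; exact ⟨h1, h2, h3⟩), if_neg (by push Not; intro h; linarith)]

theorem nu_two_iff (x y w : ℝ) : nu x y w = 2 ↔ x < 0 ∧ y ^ 2 < x * w := by
  unfold nu
  constructor
  · intro h
    by_cases h2 : x < 0 ∧ y ^ 2 < x * w
    · exact h2
    · rw [if_neg h2] at h
      split_ifs at h <;> omega
  · intro h
    rw [if_pos (Or.inl h.1), if_pos h]

theorem nu_zero_right (x w : ℝ) : nu x 0 w = neg x + neg w := by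
  unfold nu neg
  rcases lt_trichotomy x 0 with hx | hx | hx <;> rcases lt_trichotomy w 0 with hw | hw | hw
  · rw [if_pos (Or.inl hx), if_pos ⟨hx, by nlinarith⟩, if_pos hx, if_pos hw]
  · subst hw; rw [if_pos (Or.inl hx), if_neg (by rintro ⟨_, h⟩; simp at h), if_pos hx, if_neg (lt_irrefl _)]
  · rw [if_pos (Or.inl hx), if_neg (by rintro ⟨_, h⟩; nlinarith), if_pos hx, if_neg (by linarith)]
  · subst hx; rw [if_pos (Or.inr (Or.inl hw)), if_neg (by rintro ⟨h, _⟩; exact lt_irrefl _ h),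
      if_neg (lt_irrefl _), if_pos hw]
  · subst hx; subst hw; simp
  · subst hx
    rw [if_neg (by push Not; exact ⟨le_refl _, hw.le, by simp⟩), if_neg (by rintro ⟨h, _⟩; exact lt_irrefl _ h),
      if_neg (lt_irrefl _), if_neg (by linarith)]
  · rw [if_pos (Or.inr (Or.inl hw)), if_neg (by rintro ⟨h, _⟩; linarith), if_neg (by linarith),
      if_pos hw]
  · subst hw
    rw [if_neg (by push Not; exact ⟨hx.le, le_refl _, by simp⟩), if_neg (by rintro ⟨h, _⟩; linarith),
      if_neg (by linarith), if_neg (lt_irrefl _)]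
  · rw [if_neg (by push Not; exact ⟨hx.le, hw.le, by simpa using (mul_pos hx hw).le⟩),
      if_neg (by rintro ⟨h, _⟩; linarith), if_neg (by linarith), if_neg (by linarith)]

theorem nu_le_nu0 (x y w : ℝ) : nu x y w ≤ nu0 x y w := by
  unfold nu nu0
  by_cases h1 : x < 0 ∧ y ^ 2 < x * w
  · have hw : w < 0 := by
      by_contra hw
      push Not at hw
      nlinarith [sq_nonneg y, h1.1, h1.2]
    have h3 : ¬ (0 < x ∧ y ^ 2 < x * w) := fun h => by linarith [h.1, h1.1]
    have h4 : ¬ (0 < x ∨ 0 < w ∨ x * w < y ^ 2) := by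
      push Not
      exact ⟨h1.1.le, hw.le, h1.2.le⟩
    rw [if_pos (Or.inl h1.1), if_pos h1, if_neg h3, if_neg h4]
  · rw [if_neg h1]
    by_cases h2 : x < 0 ∨ w < 0 ∨ x * w < y ^ 2
    · have h3 : ¬ (0 < x ∧ y ^ 2 < x * w) := by
        rintro ⟨g1, g2⟩
        rcases h2 with h | h | h
        · linarith
        · nlinarith [sq_nonneg y]
        · linarith
      rw [if_pos h2, if_neg h3]
      omega
    · rw [if_neg h2]
      omega

theorem sum_neg (β : Multiset ℂ) (f : ℂ → ℝ) :
    (β.map (fun z => neg (f z))).sum = (β.filter (fun z => f z < 0)).card := by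
  classical
  induction β using Multiset.induction_on with
  | empty => simp
  | cons z β ih =>
    rw [Multiset.map_cons, Multiset.sum_cons, ih]
    by_cases h : f z < 0
    · rw [Multiset.filter_cons_of_pos (p := fun z => f z < 0) β h, Multiset.card_cons]
      simp only [neg, if_pos h]
      omega
    · rw [Multiset.filter_cons_of_neg (p := fun z => f z < 0) β h]
      simp only [neg, if_neg h]
      omega

theorem act_zero (p q r s : ℝ) (M : Pen) (i : Fin 3) : (act p q r s M) 0 i =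
    M 0 i * p ^ 2 + 2 * M 1 i * p * r + M 2 i * r ^ 2 := rfl

theorem act_one (p q r s : ℝ) (M : Pen) (i : Fin 3) : (act p q r s M) 1 i =
    M 0 i * p * q + M 1 i * (p * s + q * r) + M 2 i * r * s := rfl

theorem act_two (p q r s : ℝ) (M : Pen) (i : Fin 3) : (act p q r s M) 2 i =
    M 0 i * q ^ 2 + 2 * M 1 i * q * s + M 2 i * s ^ 2 := rfl

theorem ev_act_zero (p q r s : ℝ) (M : Pen) (z : ℂ) : ev ((act p q r s M) 0) z =
    ev (M 0) z * p ^ 2 + 2 * ev (M 1) z * p * r + ev (M 2) z * r ^ 2 := by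
  unfold ev
  rw [act_zero, act_zero, act_zero]; ring

theorem ev_act_one (p q r s : ℝ) (M : Pen) (z : ℂ) : ev ((act p q r s M) 1) z =
    ev (M 0) z * p * q + ev (M 1) z * (p * s + q * r) + ev (M 2) z * r * s := by
  unfold ev
  rw [act_one, act_one, act_one]; ring

theorem ev_act_two (p q r s : ℝ) (M : Pen) (z : ℂ) : ev ((act p q r s M) 2) z =
    ev (M 0) z * q ^ 2 + 2 * ev (M 1) z * q * s + ev (M 2) z * s ^ 2 := by
  unfold ev
  rw [act_two, act_two, act_two]; ring

/-- composition of congruences -/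
theorem act_act (p q r s p' q' r' s' : ℝ) (M : Pen) :
    act p' q' r' s' (act p q r s M) =
      act (p * p' + q * r') (p * q' + q * s') (r * p' + s * r') (r * q' + s * s') M := by
  funext j i
  fin_cases j
  · show (act p' q' r' s' (act p q r s M)) 0 i = (act _ _ _ _ M) 0 i
    rw [act_zero, act_zero, act_zero, act_one, act_two]; ring
  · show (act p' q' r' s' (act p q r s M)) 1 i = (act _ _ _ _ M) 1 i
    rw [act_one, act_one, act_zero, act_one, act_two]; ring
  · show (act p' q' r' s' (act p q r s M)) 2 i = (act _ _ _ _ M) 2 i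
    rw [act_two, act_two, act_zero, act_one, act_two]; ring

theorem nuP_act (hI : St_NuInv) (p q r s : ℝ) (h : p * s - q * r ≠ 0) (M : Pen) (z : ℂ) :
    nuP (act p q r s M) z = nuP M z := by
  unfold nuP
  rw [ev_act_zero, ev_act_one, ev_act_two]
  exact (hI _ _ _ _ _ _ _ h).1

theorem nu0P_act (hI : St_NuInv) (p q r s : ℝ) (h : p * s - q * r ≠ 0) (M : Pen) (z : ℂ) :
    nu0P (act p q r s M) z = nu0P M z := by
  unfold nu0P
  rw [ev_act_zero, ev_act_one, ev_act_two]
  exact (hI _ _ _ _ _ _ _ h).2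

end Pool.Agent.CMP
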