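import Mathlib
import Pool.Agent.CMP.Basic

set_option autoImplicit false

namespace Pool.Agent.CMP

open Finset Pool.Agent.Helper45.NC
open scoped ComplexConjugate

/-- the affine function `f` composed with `z ↦ u z + v conj z + w` -/
noncomputable def affC_pb (u v w : ℂ) (f : Fin 3 → ℝ) : Fin 3 → ℝ :=
  ![f 0 + f 1 * w.re + f 2 * w.im, f 1 * (u.re + v.re) + f 2 * (u.im + v.im),
    f 1 * (v.im - u.im) + f 2 * (u.re - v.re)]

theorem affC_ev (u v w : ℂ) (f : Fin 3 → ℝ) (z : ℂ) :
    ev (affC_pb u v w f) z = ev f (u * z + v * conj z + w) := by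
  unfold affC_pb
  rw [ev_mk]
  unfold ev
  simp only [Complex.add_re, Complex.add_im, Complex.mul_re, Complex.mul_im, Complex.conj_re,
    Complex.conj_im]
  ring

theorem affC_nuP (u v w : ℂ) (M : Pen) (z : ℂ) :
    nuP (fun i => affC_pb u v w (M i)) z = nuP M (u * z + v * conj z + w) := by
  unfold nuP
  simp only [affC_ev]

theorem thm_AffC : St_AffC := by
  intro u v w a₁ a₂ β h M
  have h1 := h (fun i => affC_pb u v w (M i))
  rw [affC_nuP, affC_nuP] at h1
  have e : (β.map (nuP (fun i => affC_pb u v w (M i)))) =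
      ((β.map (fun z => u * z + v * conj z + w)).map (nuP M)) := by
    rw [Multiset.map_map]
    refine Multiset.map_congr rfl fun z _ => ?_
    exact affC_nuP u v w M z
  rw [e] at h1
  exact h1

end Pool.Agent.CMP
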