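import Mathlib
import Pool.Agent.CMP.Basic

set_option autoImplicit false

namespace Pool.Agent.CMP

open Finset Pool.Agent.Helper45.NC
open scoped ComplexConjugate Matrix

theorem AffM_dil {p q : ℕ} (u v w : ℂ) (a : Fin p → ℂ) (b : Fin q → ℂ) (h : Dil a b) :
    Dil (fun i => u * a i + v * conj (a i) + w) (fun i => u * b i + v * conj (b i) + w) := by
  obtain ⟨W, h1, h2⟩ := h
  refine ⟨W, h1, ?_⟩
  have h3 : Wᴴ * Matrix.diagonal (fun i => conj (b i)) * W =
      Matrix.diagonal (fun i => conj (a i)) := by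
    have h4 := congrArg Matrix.conjTranspose h2
    rw [Matrix.conjTranspose_mul, Matrix.conjTranspose_mul, Matrix.conjTranspose_conjTranspose,
      Matrix.diagonal_conjTranspose, Matrix.diagonal_conjTranspose, ← Matrix.mul_assoc] at h4
    exact h4
  have e1 : ∀ {m : ℕ} (c : Fin m → ℂ),
      Matrix.diagonal (fun i => u * c i + v * conj (c i) + w) =
        u • Matrix.diagonal c + v • Matrix.diagonal (fun i => conj (c i)) +
          w • (1 : Matrix (Fin m) (Fin m) ℂ) := by
    intro m c
    ext i j
    by_cases hij : i = j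
    · subst hij
      simp
    · simp [hij]
  rw [e1 b, e1 a, Matrix.mul_add, Matrix.mul_add, Matrix.add_mul, Matrix.add_mul,
    Matrix.mul_smul, Matrix.mul_smul, Matrix.mul_smul, Matrix.smul_mul, Matrix.smul_mul,
    Matrix.smul_mul, h2, h3, Matrix.mul_one, h1]

theorem thm_AffM : St_AffM := by
  intro u v w α β h
  obtain ⟨p, q, a, b, rfl, rfl, h⟩ := h
  refine ⟨p, q, fun i => u * a i + v * conj (a i) + w, fun i => u * b i + v * conj (b i) + w,
    ?_, ?_, AffM_dil u v w a b h⟩
  · unfold ms
    rw [Multiset.map_map]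
    rfl
  · unfold ms
    rw [Multiset.map_map]
    rfl

end Pool.Agent.CMP
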