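import Mathlib
import Pool.Agent.CMP.Basic

set_option autoImplicit false

namespace Pool.Agent.CMP

open Finset Pool.Agent.Helper45.NC
open scoped ComplexConjugate

theorem asm_CL (hLim : St_Lim) (hZero : St_Zero) (hCert : St_Cert) (hR2 : St_Rank2)
    (hR1 : St_Rank1) (hL : St_L) (hCan : St_Cancel) (hB : St_Bridge) : St_CL := by
  intro n b a₁ a₂ hC hV
  by_cases h1 : a₁ ∈ ms b
  · exact hCan a₁ a₂ _ hC (Or.inl h1)
  by_cases h2 : a₂ ∈ ms b
  · exact hCan a₁ a₂ _ hC (Or.inr h2)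
  have h1' : ∀ l, a₁ ≠ b l := fun l hl => h1 ((mem_ms b a₁).2 ⟨l, hl.symm⟩)
  have h2' : ∀ l, a₂ ≠ b l := fun l hl => h2 ((mem_ms b a₂).2 ⟨l, hl.symm⟩)
  have htight : Tight b a₁ a₂ → MDil {a₁, a₂} (ms b) := by
    rintro ⟨h, h0, hh⟩
    exact hL a₁ a₂ (ms b) hC h1 h2 h h0 (by rw [sum_ms]; exact hh)
  obtain ⟨M, hM0, hM1, hM2⟩ := hLim n b a₁ a₂ hV
  by_cases hvan : VanAt M a₁ ∨ VanAt M a₂ ∨ ∃ l, VanAt M (b l)
  · exact htight (hZero n b a₁ a₂ M hC hM0 hM1 hM2 h1' h2' hvan)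
  · push Not at hvan
    obtain ⟨v1, v2, v3⟩ := hvan
    obtain ⟨u, v, X₁, X₂, Y₁, Y₂, hc⟩ := hCert n b a₁ a₂ M hC hM2 v1 v2 v3
    by_cases hd : X₁ * Y₂ - X₂ * Y₁ = 0
    · exact htight (hR1 n b a₁ a₂ M u v X₁ X₂ Y₁ Y₂ hM0 hM1 hM2 v1 v2 v3 h1' h2' hc hd)
    · exact (hB n b a₁ a₂).1 (hR2 n b a₁ a₂ M u v X₁ X₂ Y₁ Y₂ hc hd)

theorem asm_Suff (hCL : St_CL) (hB : St_Bridge) (hO : St_CritOpen) (hRC : St_RelClosed)
    (hGD : St_GenDense) (hT : St_TopAbs) (hH : St_Hull) (hLag : St_Lag) (hPh : St_Phase)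
    (hMV : St_MultVal) (hNz : St_Nonzero) (hRV : St_RealV) (hIx : St_Index) (hGN : St_GordanN)
    (hVi : St_Viol) (hGa : St_Gamma) : St_Suff := by
  intro n b a₁ a₂ hC
  by_contra hR
  -- near a point of the criterion which is not realizable, the criterion holds
  have key : ∀ c₁ c₂ : ℂ, Crit c₁ c₂ (ms b) → ¬ Rel2 b c₁ c₂ → ∃ ε : ℝ, 0 < ε ∧
      ∀ c₁' c₂' : ℂ, ‖c₁' - c₁‖ < ε → ‖c₂' - c₂‖ < ε →
        Crit c₁' c₂' (ms b) ∧ ¬ Rel2 b c₁' c₂' := by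
    intro c₁ c₂ h1 h2
    by_contra hcon
    have h3 : ∃ ε : ℝ, 0 < ε ∧ ∀ c₁' c₂' : ℂ, ‖c₁' - c₁‖ < ε → ‖c₂' - c₂‖ < ε →
        Crit c₁' c₂' (ms b) := by
      by_contra h4
      push Not at h4
      exact h2 ((hB n b c₁ c₂).2 (hCL n b c₁ c₂ h1 h4))
    obtain ⟨ε₁, e1, h3⟩ := h3
    obtain ⟨ε₂, e2, h4⟩ := hRC n b c₁ c₂ h2
    exact hcon ⟨min ε₁ ε₂, lt_min e1 e2, fun c₁' c₂' g1 g2 =>
      ⟨h3 c₁' c₂' (lt_of_lt_of_le g1 (min_le_left _ _)) (lt_of_lt_of_le g2 (min_le_left _ _)),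
       h4 c₁' c₂' (lt_of_lt_of_le g1 (min_le_right _ _)) (lt_of_lt_of_le g2 (min_le_right _ _))⟩⟩
  obtain ⟨ε, he, hε⟩ := key a₁ a₂ hC hR
  obtain ⟨a, ha, hgen⟩ := hGD n b a₁ ε he
  have hstart : Crit a a₂ (ms b) ∧ ¬ Rel2 b a a₂ := hε a a₂ ha (by simpa using he)
  let U : Set ℂ := {z | Crit a z (ms b) ∧ ¬ Rel2 b a z}
  let K : Set ℂ := {z | Rel2 b a z}
  have hUo : IsOpen U := by
    rw [Metric.isOpen_iff]
    intro z hz
    obtain ⟨ε, he, hε⟩ := key a z hz.1 hz.2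
    refine ⟨ε, he, fun y hy => ?_⟩
    exact hε a y (by simpa using he) (by rwa [← dist_eq_norm])
  have hUn : U.Nonempty := ⟨a₂, hstart⟩
  have hUb : Bornology.IsBounded U := by
    have hb : Bornology.IsBounded (convexHull ℝ (pts (ms b))) := by
      rw [isBounded_convexHull]
      apply Set.Finite.isBounded
      have : pts (ms b) = Set.range b := by
        ext z
        exact mem_ms b z
      rw [this]
      exact Set.finite_range b
    exact hb.subset (fun z hz => (hH a z (ms b) hz.1).2)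
  have hKc : IsClosed K := by
    rw [← isOpen_compl_iff, Metric.isOpen_iff]
    intro z hz
    obtain ⟨ε, he, hε⟩ := hRC n b a z hz
    refine ⟨ε, he, fun y hy => ?_⟩
    exact hε a y (by simpa using he) (by rwa [← dist_eq_norm])
  have hUK : Disjoint U K := by
    rw [Set.disjoint_left]
    intro z hz hz'
    exact hz.2 hz'
  have hcl : closure U ⊆ U ∪ K := by
    intro z hz
    have hzC : Crit a z (ms b) := by
      by_contra hcon
      obtain ⟨ε, he, hε⟩ := hO n b a z hcon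
      rw [Metric.mem_closure_iff] at hz
      obtain ⟨y, hy, hyd⟩ := hz ε he
      exact hε a y (by simpa using he) (by rw [← dist_eq_norm, dist_comm]; exact hyd) hy.1
    by_cases hr : Rel2 b a z
    · exact Or.inr hr
    · exact Or.inl ⟨hzC, hr⟩
  let F : Finset ℂ := insert a (Finset.univ.image b)
  obtain ⟨z, hzU, x, hxK, hxF, hnear, hseg⟩ := hT U K F hUo hUn hUb hKc hUK hcl
  have hxa : a ≠ x := by
    intro h
    apply hxF
    simp [F, h]
  have hxb : ∀ l, x ≠ b l := by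
    intro l h
    apply hxF
    simp only [F, Finset.mem_insert, Finset.mem_image, Finset.mem_univ, true_and]
    exact Or.inr ⟨l, h.symm⟩
  have hzx : z ≠ x := by
    intro h
    apply hzU.2
    rw [h]
    exact hxK
  obtain ⟨p, q, hF⟩ := hxK
  obtain ⟨α, β₁, β₂, γ, m1, m2, g1, g2, m3⟩ := hLag n b p q a x z hgen hF hnear
  obtain ⟨q', β, hF', hMu⟩ := hPh n b p q a x α β₁ β₂ γ hxa hF m1 m2 m3
  have hviol : ∃ t₀ : ℝ, 0 < t₀ ∧ ∀ t : ℝ, 0 < t → t < t₀ →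
      ¬ Crit a (x + (t : ℂ) * (z - x)) (ms b) := by
    by_cases hβ : β = 0
    · subst hβ
      exact hGa n b p q' a x z α γ hgen hxb hzx hF' hMu g1 g2
    · have hγ : γ 1 ≠ 0 ∨ γ 2 ≠ 0 := by
        by_contra hcon
        push Not at hcon
        apply hzx
        have e1 : (x - z).re = 0 := by rw [← g1]; exact hcon.1
        have e2 : (x - z).im = 0 := by rw [← g2]; exact hcon.2
        have : x - z = 0 := Complex.ext e1 e2
        exact (sub_eq_zero.1 this).symm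
      have hnz := hNz n b p q' a x α β γ hgen hxa hxb hF' hMu hγ hβ
      obtain ⟨P, Q, hPQ⟩ := hRV n b p q' a x α β γ hF' hMu hnz
      obtain ⟨v1, v2, v3, v4⟩ := hMV n b p q' a x α β γ hF' hMu.1 hMu.2.1
      obtain ⟨N, hN1, hN2⟩ := hGN n b P Q a x α β γ hgen hPQ hβ hnz
      exact hVi n b a x z α β γ N hzx g1 g2 v1 v2 v3 v4 (hIx n b P Q a x α β γ hxa hPQ) hN1 hN2
  obtain ⟨t₀, ht₀, hv⟩ := hviol
  have ht : 0 < min (t₀ / 2) 1 := lt_min (by linarith) one_pos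
  exact hv (min (t₀ / 2) 1) ht (lt_of_le_of_lt (min_le_left _ _) (by linarith))
    (hseg _ ht (min_le_right _ _)).1

end Pool.Agent.CMP
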