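import Mathlib
import Pool.Agent.CMP.Basic

set_option autoImplicit false

namespace Pool.Agent.CMP

open Finset Pool.Agent.Helper45.NC
open scoped ComplexConjugate

theorem bridge_real {n : ℕ} (b : Fin n → ℂ) (w : Fin n → ℝ) (a : ℂ) :
    (∀ h : Fin 3 → ℝ, ∑ l, w l * ev h (b l) = ev h a) ↔
      (∑ l, (w l : ℂ) = 1 ∧ ∑ l, (w l : ℂ) * b l = a) := by
  constructor
  · intro h
    have h0 := h ![1, 0, 0]
    have h1 := h ![0, 1, 0]
    have h2 := h ![0, 0, 1]
    simp only [ev_mk, zero_mul, one_mul, zero_add, add_zero, mul_one] at h0 h1 h2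
    refine ⟨by exact_mod_cast h0, ?_⟩
    apply Complex.ext
    · rw [Complex.re_sum, ← h1]
      exact Finset.sum_congr rfl (fun l _ => by rw [Complex.re_ofReal_mul])
    · rw [Complex.im_sum, ← h2]
      exact Finset.sum_congr rfl (fun l _ => by rw [Complex.im_ofReal_mul])
  · rintro ⟨h1, h2⟩ h
    have h1' : ∑ l, w l = 1 := by exact_mod_cast h1
    rw [← h2, ev_sum Finset.univ w b h1' h]

theorem bridge_cpx {n : ℕ} (b w : Fin n → ℂ) :
    (∀ h : Fin 3 → ℝ, ∑ l, w l * (ev h (b l) : ℂ) = 0) ↔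
      (∑ l, w l = 0 ∧ ∑ l, w l * b l = 0 ∧ ∑ l, w l * conj (b l) = 0) := by
  have hb : ∀ z : ℂ, z = (z.re : ℂ) + (z.im : ℂ) * Complex.I := fun z => (Complex.re_add_im z).symm
  have hc : ∀ z : ℂ, conj z = (z.re : ℂ) - (z.im : ℂ) * Complex.I := by
    intro z
    apply Complex.ext <;> simp
  constructor
  · intro h
    have h0 := h ![1, 0, 0]
    have h1 := h ![0, 1, 0]
    have h2 := h ![0, 0, 1]
    simp only [ev_mk, zero_mul, one_mul, zero_add, add_zero, Complex.ofReal_one, mul_one] at h0 h1 h2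
    refine ⟨h0, ?_, ?_⟩
    · have e : ∑ l, w l * b l = ∑ l, w l * ((b l).re : ℂ) +
          (∑ l, w l * ((b l).im : ℂ)) * Complex.I := by
        rw [Finset.sum_mul, ← Finset.sum_add_distrib]
        refine Finset.sum_congr rfl (fun l _ => ?_)
        conv_lhs => rw [hb (b l)]
        ring
      rw [e, h1, h2]; simp
    · have e : ∑ l, w l * conj (b l) = ∑ l, w l * ((b l).re : ℂ) -
          (∑ l, w l * ((b l).im : ℂ)) * Complex.I := by
        rw [Finset.sum_mul, ← Finset.sum_sub_distrib]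
        refine Finset.sum_congr rfl (fun l _ => ?_)
        rw [hc (b l)]
        ring
      rw [e, h1, h2]; simp
  · rintro ⟨h0, h1, h2⟩ h
    have e : ∑ l, w l * (ev h (b l) : ℂ) = (h 0 : ℂ) * ∑ l, w l +
        ((h 1 : ℂ) / 2) * (∑ l, w l * b l + ∑ l, w l * conj (b l)) -
        ((h 2 : ℂ) * Complex.I / 2) * (∑ l, w l * b l - ∑ l, w l * conj (b l)) := by
      rw [← Finset.sum_add_distrib, ← Finset.sum_sub_distrib, Finset.mul_sum, Finset.mul_sum,
        Finset.mul_sum, ← Finset.sum_add_distrib, ← Finset.sum_sub_distrib]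
      refine Finset.sum_congr rfl (fun l _ => ?_)
      rw [hc (b l)]
      conv_rhs => rw [hb (b l)]
      simp only [Complex.add_re, Complex.ofReal_re, Complex.mul_re, Complex.I_re, mul_zero,
        Complex.ofReal_im, Complex.I_im, mul_one, sub_self, add_zero, Complex.add_im,
        Complex.mul_im, zero_add]
      unfold ev
      push_cast
      have hI : Complex.I * Complex.I = -1 := Complex.I_mul_I
      linear_combination ((h 2 : ℂ) * w l * ((b l).im : ℂ)) * hI
    rw [e, h0, h1, h2]; simp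

theorem bridge_sum {n : ℕ} (b x y : Fin n → ℂ) (i j : Fin 2) (W : Matrix (Fin n) (Fin 2) ℂ)
    (hx : ∀ l, W l i = x l) (hy : ∀ l, W l j = y l) :
    (W.conjTranspose * W) i j = ∑ l, conj (x l) * y l ∧
      (W.conjTranspose * Matrix.diagonal b * W) i j = ∑ l, conj (x l) * b l * y l := by
  constructor
  · rw [Matrix.mul_apply]
    refine Finset.sum_congr rfl (fun l _ => ?_)
    rw [Matrix.conjTranspose_apply, hx, hy]
    rfl
  · rw [Matrix.mul_apply]
    refine Finset.sum_congr rfl (fun l _ => ?_)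
    rw [Matrix.mul_diagonal, Matrix.conjTranspose_apply, hx, hy]
    rfl

theorem bridge_eq {n : ℕ} (b p q : Fin n → ℂ) (a₁ a₂ : ℂ) :
    Feas b p q a₁ a₂ ↔
      ((∑ l, conj (p l) * p l = 1 ∧ ∑ l, conj (p l) * b l * p l = a₁) ∧
       (∑ l, conj (q l) * q l = 1 ∧ ∑ l, conj (q l) * b l * q l = a₂) ∧
       (∑ l, conj (p l) * q l = 0 ∧ ∑ l, conj (q l) * b l * p l = 0 ∧
        ∑ l, conj (p l) * b l * q l = 0)) := by
  have hn : ∀ z : ℂ, (Complex.normSq z : ℂ) = conj z * z := by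
    intro z
    rw [mul_comm, Complex.mul_conj]
  have e1 : ∀ x : Fin n → ℂ, ∑ l, (Complex.normSq (x l) : ℂ) = ∑ l, conj (x l) * x l := by
    intro x
    exact Finset.sum_congr rfl (fun l _ => hn _)
  have e2 : ∀ x : Fin n → ℂ, ∑ l, (Complex.normSq (x l) : ℂ) * b l =
      ∑ l, conj (x l) * b l * x l := by
    intro x
    exact Finset.sum_congr rfl (fun l _ => by rw [hn]; ring)
  have e3 : ∑ l, conj (p l) * q l = conj (∑ l, p l * conj (q l)) := by
    rw [map_sum]
    refine Finset.sum_congr rfl (fun l _ => ?_)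
    rw [map_mul, Complex.conj_conj]
  have e4 : ∑ l, conj (p l) * b l * q l = conj (∑ l, p l * conj (q l) * conj (b l)) := by
    rw [map_sum]
    refine Finset.sum_congr rfl (fun l _ => ?_)
    rw [map_mul, map_mul, Complex.conj_conj, Complex.conj_conj]
    ring
  have e5 : ∑ l, conj (q l) * b l * p l = ∑ l, p l * conj (q l) * b l := by
    exact Finset.sum_congr rfl (fun l _ => by ring)
  have hz : ∀ z : ℂ, conj z = 0 ↔ z = 0 := fun z => by simp
  unfold Feas
  rw [bridge_real, bridge_real, bridge_cpx, e1, e1, e2, e2, e3, e4, e5, hz, hz]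

theorem thm_Bridge : St_Bridge := by
  intro n b a₁ a₂
  have hms : ms ![a₁, a₂] = {a₁, a₂} := rfl
  rw [← hms]
  have hd0 : (Matrix.diagonal ![a₁, a₂] : Matrix (Fin 2) (Fin 2) ℂ) 0 0 = a₁ := by simp
  have hd1 : (Matrix.diagonal ![a₁, a₂] : Matrix (Fin 2) (Fin 2) ℂ) 1 1 = a₂ := by simp
  have hd2 : (Matrix.diagonal ![a₁, a₂] : Matrix (Fin 2) (Fin 2) ℂ) 0 1 = 0 := by simp
  have hd3 : (Matrix.diagonal ![a₁, a₂] : Matrix (Fin 2) (Fin 2) ℂ) 1 0 = 0 := by simp
  constructor
  · rintro ⟨p, q, h⟩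
    rw [bridge_eq] at h
    obtain ⟨⟨h1, h2⟩, ⟨h3, h4⟩, h5, h6, h7⟩ := h
    apply MDil.of_dil
    let W : Matrix (Fin n) (Fin 2) ℂ := Matrix.of fun l i => if i = 0 then p l else q l
    have w0 : ∀ l, W l 0 = p l := fun l => by simp [W]
    have w1 : ∀ l, W l 1 = q l := fun l => by simp [W]
    have h8 : ∑ l, conj (q l) * p l = 0 := by
      have e3 : ∑ l, conj (q l) * p l = conj (∑ l, conj (p l) * q l) := by
        rw [map_sum]
        refine Finset.sum_congr rfl (fun l _ => ?_)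
        rw [map_mul, Complex.conj_conj]
        ring
      rw [e3, h5]; simp
    refine ⟨W, ?_, ?_⟩
    · ext i j
      fin_cases i <;> fin_cases j
      · exact ((bridge_sum b p p 0 0 W w0 w0).1.trans h1).trans (by simp)
      · exact ((bridge_sum b p q 0 1 W w0 w1).1.trans h5).trans (by simp)
      · exact ((bridge_sum b q p 1 0 W w1 w0).1.trans h8).trans (by simp)
      · exact ((bridge_sum b q q 1 1 W w1 w1).1.trans h3).trans (by simp)
    · ext i j
      fin_cases i <;> fin_cases j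
      · exact ((bridge_sum b p p 0 0 W w0 w0).2.trans h2).trans hd0.symm
      · exact ((bridge_sum b p q 0 1 W w0 w1).2.trans h7).trans hd2.symm
      · exact ((bridge_sum b q p 1 0 W w1 w0).2.trans h6).trans hd3.symm
      · exact ((bridge_sum b q q 1 1 W w1 w1).2.trans h4).trans hd1.symm
  · intro h
    obtain ⟨W, hW1, hW2⟩ := h.dil
    refine ⟨fun l => W l 0, fun l => W l 1, ?_⟩
    rw [bridge_eq]
    have w0 : ∀ l, W l 0 = (fun l => W l 0) l := fun l => rfl
    have w1 : ∀ l, W l 1 = (fun l => W l 1) l := fun l => rfl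
    refine ⟨⟨?_, ?_⟩, ⟨?_, ?_⟩, ?_, ?_, ?_⟩
    · rw [← (bridge_sum b _ _ 0 0 W w0 w0).1, hW1]; simp
    · rw [← (bridge_sum b _ _ 0 0 W w0 w0).2, hW2, hd0]
    · rw [← (bridge_sum b _ _ 1 1 W w1 w1).1, hW1]; simp
    · rw [← (bridge_sum b _ _ 1 1 W w1 w1).2, hW2, hd1]
    · rw [← (bridge_sum b _ _ 0 1 W w0 w1).1, hW1]; simp
    · rw [← (bridge_sum b _ _ 1 0 W w1 w0).2, hW2, hd3]
    · rw [← (bridge_sum b _ _ 0 1 W w0 w1).2, hW2, hd2]

end Pool.Agent.CMP
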