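import Mathlib
import Pool.Agent.CMP.Basic

set_option autoImplicit false

namespace Pool.Agent.CMP

open Finset Pool.Agent.Helper45.NC
open scoped ComplexConjugate

theorem c1_nu (x : ℝ) : nu x 0 1 = neg x := by
  unfold nu neg
  by_cases hx : x < 0
  · have h1 : (x < 0 ∨ (1 : ℝ) < 0 ∨ x * 1 < (0 : ℝ) ^ 2) := Or.inl hx
    have h2 : ¬ (x < 0 ∧ (0 : ℝ) ^ 2 < x * 1) := by
      rintro ⟨_, h⟩
      norm_num at h
      linarith
    rw [if_pos h1, if_neg h2, if_pos hx]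
  · have h1 : ¬ (x < 0 ∨ (1 : ℝ) < 0 ∨ x * 1 < (0 : ℝ) ^ 2) := by
      rintro (h | h | h)
      · exact hx h
      · linarith
      · norm_num at h
        exact hx h
    have h2 : ¬ (x < 0 ∧ (0 : ℝ) ^ 2 < x * 1) := fun h => hx h.1
    rw [if_neg h1, if_neg h2, if_neg hx]

theorem c1_nuP (h : Fin 3 → ℝ) (z : ℂ) : nuP ![h, 0, ![1, 0, 0]] z = neg (ev h z) := by
  unfold nuP
  have e0 : (![h, 0, ![1, 0, 0]] : Pen) 0 = h := rfl
  have e1 : (![h, 0, ![1, 0, 0]] : Pen) 1 = 0 := rfl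
  have e2 : (![h, 0, ![1, 0, 0]] : Pen) 2 = ![1, 0, 0] := rfl
  rw [e0, e1, e2, ev_zero, ev_mk]
  have e3 : (1 : ℝ) + 0 * z.re + 0 * z.im = 1 := by ring
  rw [e3, c1_nu]

theorem thm_C1 : St_C1 := by
  intro a₁ a₂ β hC h
  have key := hC ![h, 0, ![1, 0, 0]]
  rw [c1_nuP, c1_nuP] at key
  have e : (nuP ![h, 0, ![1, 0, 0]]) = fun z => neg (ev h z) := funext (c1_nuP h)
  rw [e] at key
  exact key

end Pool.Agent.CMP
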