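import Mathlib
import Pool.Agent.CMP.Basic

set_option autoImplicit false

namespace Pool.Agent.CMP

open Finset Pool.Agent.Helper45.NC
open scoped ComplexConjugate

theorem cancel_aux (hSep : St_Sep) (hK1 : St_K1) (a c : ℂ) (β : Multiset ℂ)
    (h : ∀ h : Fin 3 → ℝ, neg (ev h a) + neg (ev h c) ≤
      ((a ::ₘ β).map (fun z => neg (ev h z))).sum) : MDil {c} β := by
  apply hK1
  by_contra hc
  obtain ⟨g, h1, h2⟩ := hSep c β hc
  have key := h g
  rw [Multiset.map_cons, Multiset.sum_cons] at key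
  have e1 : neg (ev g c) = 1 := if_pos h1
  have e2 : (β.map (fun z => neg (ev g z))).sum = 0 := by
    apply Multiset.sum_eq_zero
    intro x hx
    obtain ⟨z, hz, rfl⟩ := Multiset.mem_map.1 hx
    exact if_neg (not_lt.2 (h2 z hz).le)
  rw [e1, e2] at key
  omega

theorem thm_Cancel (hC1 : St_C1) (hSep : St_Sep) (hK1 : St_K1) : St_Cancel := by
  intro a₁ a₂ β hC h
  have hc := hC1 a₁ a₂ β hC
  rcases h with h | h
  · obtain ⟨γ, rfl⟩ := Multiset.exists_cons_of_mem h
    have h1 := cancel_aux hSep hK1 a₁ a₂ γ hc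
    exact MDil.add (MDil.refl {a₁}) h1
  · obtain ⟨γ, rfl⟩ := Multiset.exists_cons_of_mem h
    have h1 := cancel_aux hSep hK1 a₂ a₁ γ (fun h => by rw [add_comm]; exact hc h)
    have e : ({a₁, a₂} : Multiset ℂ) = {a₂} + {a₁} := Multiset.cons_swap a₁ a₂ 0
    rw [e]
    exact MDil.add (MDil.refl {a₂}) h1

end Pool.Agent.CMP
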