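import Mathlib
import Pool.Agent.CMP.Basic

set_option autoImplicit false

namespace Pool.Agent.CMP

open Finset Pool.Agent.Helper45.NC
open scoped ComplexConjugate

/-- kernel vector of a singular symmetric matrix -/
noncomputable def ceK (x y : ℝ) : ℝ × ℝ := by
  classical exact if x ≠ 0 then (-y, x) else (1, 0)

lemma ceK_ne (x y : ℝ) : (ceK x y).1 ≠ 0 ∨ (ceK x y).2 ≠ 0 := by
  unfold ceK
  by_cases h : x = 0
  · left; simp [h]
  · right; simp [h]

lemma ceK_ker (x y w : ℝ) (h : x * w = y ^ 2) :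
    x * (ceK x y).1 + y * (ceK x y).2 = 0 ∧ y * (ceK x y).1 + w * (ceK x y).2 = 0 := by
  unfold ceK
  by_cases hx : x = 0
  · subst hx
    have hy : y = 0 := by
      have : y ^ 2 = 0 := by rw [← h]; ring
      exact pow_eq_zero_iff (two_ne_zero) |>.mp this
    subst hy
    simp
  · simp only [ne_eq, hx, not_false_eq_true, if_true]
    constructor
    · ring
    · linear_combination h

lemma ceK_line (x y w : ℝ) (h : x * w = y ^ 2) (hne : ¬ (x = 0 ∧ y = 0 ∧ w = 0))
    (k₁ k₂ : ℝ) (h1 : x * k₁ + y * k₂ = 0) (h2 : y * k₁ + w * k₂ = 0) :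
    ∃ c : ℝ, k₁ = c * (ceK x y).1 ∧ k₂ = c * (ceK x y).2 := by
  unfold ceK
  by_cases hx : x = 0
  · subst hx
    have hy : y = 0 := by
      have : y ^ 2 = 0 := by rw [← h]; ring
      exact pow_eq_zero_iff (two_ne_zero) |>.mp this
    subst hy
    have hw : w ≠ 0 := fun hw => hne ⟨rfl, rfl, hw⟩
    have hk : k₂ = 0 := by
      have : w * k₂ = 0 := by linarith
      exact (mul_eq_zero.mp this).resolve_left hw
    exact ⟨k₁, by simp [hk]⟩
  · simp only [ne_eq, hx, not_false_eq_true, if_true]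
    refine ⟨k₂ / x, ?_, ?_⟩
    · field_simp
      linarith
    · field_simp

/-- the points -/
noncomputable def ceP {n : ℕ} (b : Fin n → ℂ) (a₁ a₂ : ℂ) : Fin n ⊕ Fin 2 → ℂ :=
  Sum.elim b ![a₁, a₂]

/-- the signs -/
noncomputable def ceS (n : ℕ) : Fin n ⊕ Fin 2 → ℝ := Sum.elim (fun _ => 1) (fun _ => -1)

/-- evaluation vector -/
noncomputable def ceE (z : ℂ) : Fin 3 → ℝ := ![1, z.re, z.im]

lemma ceE_ev (h : Fin 3 → ℝ) (z : ℂ) : ev h z = ∑ k, h k * ceE z k := by
  simp [ev, ceE, Fin.sum_univ_three]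

/-- the Gordan vector of a point -/
noncomputable def ceW (s k₁ k₂ : ℝ) (z : ℂ) : Pen :=
  ![fun k => s * k₁ ^ 2 * ceE z k, fun k => s * (2 * k₁ * k₂) * ceE z k,
    fun k => s * k₂ ^ 2 * ceE z k]

lemma ceW_pair (s k₁ k₂ : ℝ) (z : ℂ) (N : Pen) :
    ∑ j, ∑ k, N j k * ceW s k₁ k₂ z j k =
      s * (ev (N 0) z * k₁ ^ 2 + 2 * ev (N 1) z * k₁ * k₂ + ev (N 2) z * k₂ ^ 2) := by
  simp only [ceE_ev, Fin.sum_univ_three, ceW]
  simp
  ring

lemma ce_ev_add (f g : Fin 3 → ℝ) (δ : ℝ) (z : ℂ) :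
    ev (fun k => f k + δ * g k) z = ev f z + δ * ev g z := by
  simp [ev]; ring

lemma ce_exists_min {ι : Type} [Fintype ι] (f : ι → ℝ) (hf : ∀ i, 0 < f i) :
    ∃ δ : ℝ, 0 < δ ∧ ∀ i, δ < f i := by
  classical
  by_cases hne : Nonempty ι
  · obtain ⟨i0, _, hi0⟩ := Finset.exists_min_image univ f univ_nonempty
    exact ⟨f i0 / 2, by have := hf i0; linarith, fun i => by
      have := hi0 i (mem_univ i); have := hf i0; linarith⟩
  · exact ⟨1, one_pos, fun i => absurd ⟨i⟩ hne⟩

theorem thm_Cert (hGordan : St_Gordan) (hPertA : St_PertA) (hPertB : St_PertB) : St_Cert := by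
  classical
  intro n b a₁ a₂ M hcrit hweak hv1 hv2 hvb
  set pt := ceP b a₁ a₂ with hpt
  have hvan : ∀ i, ¬ VanAt M (pt i) := by
    rintro (l | j)
    · exact hvb l
    · fin_cases j
      · exact hv1
      · exact hv2
  set S : Fin n ⊕ Fin 2 → Prop := fun i =>
    ev (M 0) (pt i) * ev (M 2) (pt i) = ev (M 1) (pt i) ^ 2 with hS
  set K : Fin n ⊕ Fin 2 → ℝ × ℝ := fun i => ceK (ev (M 0) (pt i)) (ev (M 1) (pt i)) with hK
  set W : Fin n ⊕ Fin 2 → Pen := fun i => ceW (ceS n i) (K i).1 (K i).2 (pt i) with hW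
  rcases hGordan {i // S i} (fun i => W i.1) with ⟨N, hN⟩ | ⟨y, hy0, hy1, hy2⟩
  · -- perturbation
    exfalso
    have key : ∀ i, ∀ k₁ k₂ : ℝ, (k₁ ≠ 0 ∨ k₂ ≠ 0) →
        ev (M 0) (pt i) * k₁ + ev (M 1) (pt i) * k₂ = 0 →
        ev (M 1) (pt i) * k₁ + ev (M 2) (pt i) * k₂ = 0 →
        0 < ceS n i * (ev (N 0) (pt i) * k₁ ^ 2 + 2 * ev (N 1) (pt i) * k₁ * k₂ +
          ev (N 2) (pt i) * k₂ ^ 2) := by
      intro i k₁ k₂ hk h1 h2
      have hdet : S i := by
        have e1 : (ev (M 0) (pt i) * ev (M 2) (pt i) - ev (M 1) (pt i) ^ 2) * k₁ = 0 := by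
          linear_combination ev (M 2) (pt i) * h1 - ev (M 1) (pt i) * h2
        have e2 : (ev (M 0) (pt i) * ev (M 2) (pt i) - ev (M 1) (pt i) ^ 2) * k₂ = 0 := by
          linear_combination ev (M 0) (pt i) * h2 - ev (M 1) (pt i) * h1
        rcases hk with hk | hk
        · have := (mul_eq_zero.mp e1).resolve_right hk
          simp only [hS]; linarith
        · have := (mul_eq_zero.mp e2).resolve_right hk
          simp only [hS]; linarith
      obtain ⟨c, hc1, hc2⟩ := ceK_line _ _ _ hdet (hvan i) k₁ k₂ h1 h2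
      have hc : c ≠ 0 := by
        rintro rfl
        rw [zero_mul] at hc1 hc2
        rcases hk with hk | hk
        · exact hk hc1
        · exact hk hc2
      have h3 := hN ⟨i, hdet⟩
      simp only [hW] at h3
      rw [ceW_pair] at h3
      have h4 : ceS n i * (ev (N 0) (pt i) * k₁ ^ 2 + 2 * ev (N 1) (pt i) * k₁ * k₂ +
          ev (N 2) (pt i) * k₂ ^ 2) = c ^ 2 * (ceS n i * (ev (N 0) (pt i) * (K i).1 ^ 2 +
            2 * ev (N 1) (pt i) * (K i).1 * (K i).2 + ev (N 2) (pt i) * (K i).2 ^ 2)) := by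
        rw [hc1, hc2]; simp only [hK]; ring
      rw [h4]
      exact mul_pos (by positivity) h3
    have hB : ∀ l : Fin n, ∃ δ₀ : ℝ, 0 < δ₀ ∧ ∀ δ : ℝ, 0 < δ → δ < δ₀ →
        nu (ev (M 0) (b l) + δ * ev (N 0) (b l)) (ev (M 1) (b l) + δ * ev (N 1) (b l))
          (ev (M 2) (b l) + δ * ev (N 2) (b l)) ≤
          nu (ev (M 0) (b l)) (ev (M 1) (b l)) (ev (M 2) (b l)) := by
      intro l
      refine hPertB _ _ _ _ _ _ fun k₁ k₂ hk h1 h2 => ?_
      have := key (Sum.inl l) k₁ k₂ hk h1 h2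
      simpa [ceS, hpt, ceP] using this
    have hA : ∀ j : Fin 2, ∃ δ₀ : ℝ, 0 < δ₀ ∧ ∀ δ : ℝ, 0 < δ → δ < δ₀ →
        nu0 (ev (M 0) (pt (Sum.inr j))) (ev (M 1) (pt (Sum.inr j))) (ev (M 2) (pt (Sum.inr j))) ≤
        nu (ev (M 0) (pt (Sum.inr j)) + δ * ev (N 0) (pt (Sum.inr j)))
          (ev (M 1) (pt (Sum.inr j)) + δ * ev (N 1) (pt (Sum.inr j)))
          (ev (M 2) (pt (Sum.inr j)) + δ * ev (N 2) (pt (Sum.inr j))) := by
      intro j
      refine hPertA _ _ _ _ _ _ fun k₁ k₂ hk h1 h2 => ?_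
      have := key (Sum.inr j) k₁ k₂ hk h1 h2
      simp only [ceS, Sum.elim_inr] at this
      linarith
    choose δB hδB hB2 using hB
    choose δA hδA hA2 using hA
    obtain ⟨δ, hδ, hδall⟩ := ce_exists_min (Sum.elim δB δA) (by
      rintro (l | j)
      · exact hδB l
      · exact hδA j)
    have hc := hcrit (fun j k => M j k + δ * N j k)
    have hb' : ∀ l, nuP (fun j k => M j k + δ * N j k) (b l) ≤ nuP M (b l) := by
      intro l
      unfold nuP
      rw [ce_ev_add, ce_ev_add, ce_ev_add]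
      exact hB2 l δ hδ (hδall (Sum.inl l))
    have ha1 : nu0P M a₁ ≤ nuP (fun j k => M j k + δ * N j k) a₁ := by
      unfold nuP nu0P
      rw [ce_ev_add, ce_ev_add, ce_ev_add]
      exact hA2 0 δ hδ (hδall (Sum.inr 0))
    have ha2 : nu0P M a₂ ≤ nuP (fun j k => M j k + δ * N j k) a₂ := by
      unfold nuP nu0P
      rw [ce_ev_add, ce_ev_add, ce_ev_add]
      exact hA2 1 δ hδ (hδall (Sum.inr 1))
    have hsum : ((ms b).map (nuP (fun j k => M j k + δ * N j k))).sum =
        ∑ l, nuP (fun j k => M j k + δ * N j k) (b l) := by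
      rw [ms, Multiset.map_map]
      rfl
    rw [hsum] at hc
    have hle : ∑ l, nuP (fun j k => M j k + δ * N j k) (b l) ≤ ∑ l, nuP M (b l) :=
      Finset.sum_le_sum fun l _ => hb' l
    unfold Weak at hweak
    omega
  · -- the certificate
    set Y : Fin n ⊕ Fin 2 → ℝ := fun i => if h : S i then y ⟨i, h⟩ else 0 with hY
    have hYnn : ∀ i, 0 ≤ Y i := by
      intro i
      simp only [hY]
      split_ifs with h
      · exact hy0 _
      · exact le_rfl
    have hrel : ∀ j k, ∑ i, Y i * W i j k = 0 := by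
      intro j k
      have h1 := Fintype.sum_subtype_add_sum_subtype S (fun i => Y i * W i j k)
      have h2 : ∑ i : {i // ¬ S i}, Y i.1 * W i.1 j k = 0 := by
        refine Finset.sum_eq_zero fun i _ => ?_
        simp only [hY]
        rw [dif_neg i.2, zero_mul]
      have h3 : ∑ i : {i // S i}, Y i.1 * W i.1 j k = ∑ i : {i // S i}, y i * W i.1 j k := by
        refine Finset.sum_congr rfl fun i _ => ?_
        simp only [hY]
        rw [dif_pos i.2]
      rw [← h1, h2, h3, hy2 j k, add_zero]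
    set U : Fin n ⊕ Fin 2 → ℝ := fun i => Real.sqrt (Y i) * (K i).1 with hU
    set V : Fin n ⊕ Fin 2 → ℝ := fun i => Real.sqrt (Y i) * (K i).2 with hV
    have hker : ∀ i, ev (M 0) (pt i) * U i + ev (M 1) (pt i) * V i = 0 ∧
        ev (M 1) (pt i) * U i + ev (M 2) (pt i) * V i = 0 := by
      intro i
      by_cases h : S i
      · have := ceK_ker _ _ _ h
        constructor
        · simp only [hU, hV, hK]
          linear_combination Real.sqrt (Y i) * this.1
        · simp only [hU, hV, hK]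
          linear_combination Real.sqrt (Y i) * this.2
      · have h0 : Y i = 0 := by simp only [hY]; rw [dif_neg h]
        simp [hU, hV, h0]
    have hUU : ∀ i, U i ^ 2 = Y i * (K i).1 ^ 2 := by
      intro i; simp only [hU]; rw [mul_pow, Real.sq_sqrt (hYnn i)]
    have hVV : ∀ i, V i ^ 2 = Y i * (K i).2 ^ 2 := by
      intro i; simp only [hV]; rw [mul_pow, Real.sq_sqrt (hYnn i)]
    have hUV : ∀ i, U i * V i = Y i * ((K i).1 * (K i).2) := by
      intro i
      have := Real.mul_self_sqrt (hYnn i)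
      simp only [hU, hV]
      linear_combination ((K i).1 * (K i).2) * this
    have hsgn : ∀ f : Fin n ⊕ Fin 2 → ℝ, ∑ i, ceS n i * f i =
        ∑ l, f (Sum.inl l) - (f (Sum.inr 0) + f (Sum.inr 1)) := by
      intro f
      rw [Fintype.sum_sum_type, Fin.sum_univ_two]
      simp [ceS]
      ring
    have r1 : ∀ h : Fin 3 → ℝ, ∑ i, ceS n i * (U i ^ 2 * ev h (pt i)) = 0 := by
      intro h
      have e : ∀ i, ceS n i * (U i ^ 2 * ev h (pt i)) = ∑ k, h k * (Y i * W i 0 k) := by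
        intro i
        rw [hUU, ceE_ev]
        simp only [hW, ceW, Finset.mul_sum]
        refine Finset.sum_congr rfl fun k _ => ?_
        simp
        ring
      simp only [e]
      rw [Finset.sum_comm]
      refine Finset.sum_eq_zero fun k _ => ?_
      rw [← Finset.mul_sum, hrel 0 k, mul_zero]
    have r2 : ∀ h : Fin 3 → ℝ, ∑ i, ceS n i * (U i * V i * ev h (pt i)) = 0 := by
      intro h
      have e : ∀ i, ceS n i * (U i * V i * ev h (pt i)) =
          ∑ k, (h k / 2) * (Y i * W i 1 k) := by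
        intro i
        rw [hUV, ceE_ev]
        simp only [hW, ceW, Finset.mul_sum]
        refine Finset.sum_congr rfl fun k _ => ?_
        simp
        ring
      simp only [e]
      rw [Finset.sum_comm]
      refine Finset.sum_eq_zero fun k _ => ?_
      rw [← Finset.mul_sum, hrel 1 k, mul_zero]
    have r3 : ∀ h : Fin 3 → ℝ, ∑ i, ceS n i * (V i ^ 2 * ev h (pt i)) = 0 := by
      intro h
      have e : ∀ i, ceS n i * (V i ^ 2 * ev h (pt i)) = ∑ k, h k * (Y i * W i 2 k) := by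
        intro i
        rw [hVV, ceE_ev]
        simp only [hW, ceW, Finset.mul_sum]
        refine Finset.sum_congr rfl fun k _ => ?_
        simp
        ring
      simp only [e]
      rw [Finset.sum_comm]
      refine Finset.sum_eq_zero fun k _ => ?_
      rw [← Finset.mul_sum, hrel 2 k, mul_zero]
    have R1 : ∀ h : Fin 3 → ℝ, ∑ l, U (Sum.inl l) ^ 2 * ev h (b l) =
        U (Sum.inr 0) ^ 2 * ev h a₁ + U (Sum.inr 1) ^ 2 * ev h a₂ := by
      intro h
      have := r1 h
      rw [hsgn] at this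
      have h2 : ∑ l, U (Sum.inl l) ^ 2 * ev h (b l) -
        (U (Sum.inr 0) ^ 2 * ev h a₁ + U (Sum.inr 1) ^ 2 * ev h a₂) = 0 := this
      linarith
    have R2 : ∀ h : Fin 3 → ℝ, ∑ l, U (Sum.inl l) * V (Sum.inl l) * ev h (b l) =
        U (Sum.inr 0) * V (Sum.inr 0) * ev h a₁ + U (Sum.inr 1) * V (Sum.inr 1) * ev h a₂ := by
      intro h
      have := r2 h
      rw [hsgn] at this
      have h2 : ∑ l, U (Sum.inl l) * V (Sum.inl l) * ev h (b l) -
        (U (Sum.inr 0) * V (Sum.inr 0) * ev h a₁ + U (Sum.inr 1) * V (Sum.inr 1) * ev h a₂) = 0 :=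
        this
      linarith
    have R3 : ∀ h : Fin 3 → ℝ, ∑ l, V (Sum.inl l) ^ 2 * ev h (b l) =
        V (Sum.inr 0) ^ 2 * ev h a₁ + V (Sum.inr 1) ^ 2 * ev h a₂ := by
      intro h
      have := r3 h
      rw [hsgn] at this
      have h2 : ∑ l, V (Sum.inl l) ^ 2 * ev h (b l) -
        (V (Sum.inr 0) ^ 2 * ev h a₁ + V (Sum.inr 1) ^ 2 * ev h a₂) = 0 := this
      linarith
    refine ⟨fun l => U (Sum.inl l), fun l => V (Sum.inl l), U (Sum.inr 0), V (Sum.inr 0),
      U (Sum.inr 1), V (Sum.inr 1), ?_, fun l => (hker (Sum.inl l)).1,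
      fun l => (hker (Sum.inl l)).2, (hker (Sum.inr 0)).1, (hker (Sum.inr 0)).2,
      (hker (Sum.inr 1)).1, (hker (Sum.inr 1)).2, R1, R2, R3⟩
    intro h0
    have hU0 : U (Sum.inr 0) = 0 := by
      have : U (Sum.inr 0) ^ 2 = 0 := by
        nlinarith [sq_nonneg (U (Sum.inr 0)), sq_nonneg (V (Sum.inr 0)),
          sq_nonneg (U (Sum.inr 1)), sq_nonneg (V (Sum.inr 1))]
      exact pow_eq_zero_iff two_ne_zero |>.mp this
    have hV0 : V (Sum.inr 0) = 0 := by
      have : V (Sum.inr 0) ^ 2 = 0 := by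
        nlinarith [sq_nonneg (U (Sum.inr 0)), sq_nonneg (V (Sum.inr 0)),
          sq_nonneg (U (Sum.inr 1)), sq_nonneg (V (Sum.inr 1))]
      exact pow_eq_zero_iff two_ne_zero |>.mp this
    have hU1 : U (Sum.inr 1) = 0 := by
      have : U (Sum.inr 1) ^ 2 = 0 := by
        nlinarith [sq_nonneg (U (Sum.inr 0)), sq_nonneg (V (Sum.inr 0)),
          sq_nonneg (U (Sum.inr 1)), sq_nonneg (V (Sum.inr 1))]
      exact pow_eq_zero_iff two_ne_zero |>.mp this
    have hV1 : V (Sum.inr 1) = 0 := by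
      have : V (Sum.inr 1) ^ 2 = 0 := by
        nlinarith [sq_nonneg (U (Sum.inr 0)), sq_nonneg (V (Sum.inr 0)),
          sq_nonneg (U (Sum.inr 1)), sq_nonneg (V (Sum.inr 1))]
      exact pow_eq_zero_iff two_ne_zero |>.mp this
    have hone : ∀ z : ℂ, ev ![1, 0, 0] z = 1 := by
      intro z; simp [ev]
    have hUl : ∀ l, U (Sum.inl l) = 0 := by
      intro l
      have h1 := R1 ![1, 0, 0]
      simp only [hone, mul_one, hU0, hU1] at h1
      have h2 : ∑ l, U (Sum.inl l) ^ 2 = 0 := by rw [h1]; ring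
      rw [Finset.sum_eq_zero_iff_of_nonneg fun l _ => sq_nonneg _] at h2
      exact pow_eq_zero_iff two_ne_zero |>.mp (h2 l (mem_univ l))
    have hVl : ∀ l, V (Sum.inl l) = 0 := by
      intro l
      have h1 := R3 ![1, 0, 0]
      simp only [hone, mul_one, hV0, hV1] at h1
      have h2 : ∑ l, V (Sum.inl l) ^ 2 = 0 := by rw [h1]; ring
      rw [Finset.sum_eq_zero_iff_of_nonneg fun l _ => sq_nonneg _] at h2
      exact pow_eq_zero_iff two_ne_zero |>.mp (h2 l (mem_univ l))
    have hUall : ∀ i, U i = 0 := by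
      rintro (l | j)
      · exact hUl l
      · fin_cases j
        · exact hU0
        · exact hU1
    have hVall : ∀ i, V i = 0 := by
      rintro (l | j)
      · exact hVl l
      · fin_cases j
        · exact hV0
        · exact hV1
    obtain ⟨i, hi⟩ := hy1
    have hYi : Y i.1 = y i := by
      simp only [hY]; rw [dif_pos i.2]
    have h1 := hUU i.1
    have h2 := hVV i.1
    rw [hUall, hYi] at h1
    rw [hVall, hYi] at h2
    rcases ceK_ne (ev (M 0) (pt i.1)) (ev (M 1) (pt i.1)) with hk | hk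
    · have h3 : y i * (K i.1).1 ^ 2 = 0 := by rw [← h1]; ring
      rcases mul_eq_zero.mp h3 with h4 | h4
      · exact hi h4
      · exact hk (pow_eq_zero_iff two_ne_zero |>.mp h4)
    · have h3 : y i * (K i.1).2 ^ 2 = 0 := by rw [← h2]; ring
      rcases mul_eq_zero.mp h3 with h4 | h4
      · exact hi h4
      · exact hk (pow_eq_zero_iff two_ne_zero |>.mp h4)

end Pool.Agent.CMP
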