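import Mathlib
import Pool.Agent.CMP.Basic

set_option autoImplicit false

namespace Pool.Agent.CMP

open Finset Pool.Agent.Helper45.NC
open scoped ComplexConjugate

namespace CompAux

/-- values of the coordinate functions -/
noncomputable def Bz (z : ℂ) : Fin 3 → ℝ := ![1, z.re, z.im]

theorem ev_B (h : Fin 3 → ℝ) (z : ℂ) : ev h z = ∑ j, Bz z j * h j := by
  simp [Bz, ev, Fin.sum_univ_three]; ring

theorem solve {E ι : Type*} [AddCommGroup E] [Module ℝ E] [Fintype ι] [DecidableEq ι]
    (T : E →ₗ[ℝ] (ι → ℝ)) (w : ι → ℝ)
    (h : ∀ c : ι → ℝ, (∀ d, ∑ i, T d i * c i = 0) → ∑ i, w i * c i = 0) : ∃ d, T d = w := by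
  have hw : w ∈ LinearMap.range T := by
    rw [← Subspace.forall_mem_dualAnnihilator_apply_eq_zero_iff]
    intro φ hφ
    rw [Submodule.mem_dualAnnihilator] at hφ
    rw [LinearMap.pi_apply_eq_sum_univ φ w]
    refine h (fun i => φ (fun j => if i = j then 1 else 0)) (fun d => ?_)
    have := hφ (T d) (LinearMap.mem_range_self T d)
    rw [LinearMap.pi_apply_eq_sum_univ φ (T d)] at this
    exact this
  obtain ⟨d, hd⟩ := hw
  exact ⟨d, hd⟩

theorem solveF {n : ℕ} (b : Fin n → ℂ) {E : Type*} [AddCommGroup E] [Module ℝ E]
    (F : Fin 4 → E → Fin n → ℝ) (hadd : ∀ i d d' l, F i (d + d') l = F i d l + F i d' l)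
    (hsmul : ∀ i (c : ℝ) d l, F i (c • d) l = c * F i d l) (G : Fin 4 → Fin n → ℝ)
    (H : ∀ c : Fin 4 → Fin 3 → ℝ, (∀ d, ∑ i, ∑ l, F i d l * ev (c i) (b l) = 0) →
      ∑ i, ∑ l, G i l * ev (c i) (b l) = 0) :
    ∃ d, ∀ i, ∀ h : Fin 3 → ℝ, ∑ l, F i d l * ev h (b l) = ∑ l, G i l * ev h (b l) := by
  let T : E →ₗ[ℝ] (Fin 4 × Fin 3 → ℝ) :=
    { toFun := fun d ij => ∑ l, F ij.1 d l * Bz (b l) ij.2
      map_add' := by
        intro x y
        funext ij
        simp only [Pi.add_apply]
        rw [← Finset.sum_add_distrib]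
        exact Finset.sum_congr rfl (fun l _ => by rw [hadd]; ring)
      map_smul' := by
        intro c x
        funext ij
        simp only [Pi.smul_apply, RingHom.id_apply, smul_eq_mul]
        rw [Finset.mul_sum]
        exact Finset.sum_congr rfl (fun l _ => by rw [hsmul]; ring) }
  have hsw : ∀ (f : Fin n → ℝ) (c : Fin 3 → ℝ),
      ∑ j, (∑ l, f l * Bz (b l) j) * c j = ∑ l, f l * ev c (b l) := by
    intro f c
    simp only [ev_B, Finset.mul_sum, Finset.sum_mul]
    rw [Finset.sum_comm]
    exact Finset.sum_congr rfl (fun l _ => Finset.sum_congr rfl (fun j _ => by ring))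
  obtain ⟨d, hd⟩ := solve T (fun ij => ∑ l, G ij.1 l * Bz (b l) ij.2) (by
    intro c hc
    have h1 := H (fun i j => c (i, j)) (by
      intro d
      have := hc d
      rw [Fintype.sum_prod_type] at this
      rw [← this]
      exact Finset.sum_congr rfl (fun i _ => (hsw (F i d) (fun j => c (i, j))).symm))
    rw [Fintype.sum_prod_type, ← h1]
    exact Finset.sum_congr rfl (fun i _ => hsw (G i) (fun j => c (i, j))))
  refine ⟨d, fun i h => ?_⟩
  rw [← hsw, ← hsw]
  refine Finset.sum_congr rfl (fun j _ => ?_)
  have := congrFun hd (i, j)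
  have h2 : ∑ l, F i d l * Bz (b l) j = ∑ l, G i l * Bz (b l) j := this
  rw [h2]

end CompAux

open CompAux in
theorem thm_Comp : St_Comp := by
  classical
  intro n b p q a x γ ε hGen hFeas hx hγ hq hε hsum
  obtain ⟨hF1, hF2, hF3⟩ := hFeas
  let dq' : (Fin n → ℂ) → Fin n → ℂ := fun δ l => if ev γ (b l) = 0 then δ l else 0
  have dqa : ∀ δ δ' l, dq' (δ + δ') l = dq' δ l + dq' δ' l := by
    intro δ δ' l
    simp only [dq', Pi.add_apply]
    split_ifs <;> simp
  have dqs : ∀ (c : ℝ) δ l, dq' (c • δ) l = (c : ℂ) * dq' δ l := by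
    intro c δ l
    simp only [dq', Pi.smul_apply]
    split_ifs <;> simp
  let Z : ((Fin n → ℂ) × (Fin n → ℂ)) → Fin n → ℂ := fun d l =>
    p l * conj (dq' d.2 l) + d.1 l * conj (q l)
  let F : Fin 4 → ((Fin n → ℂ) × (Fin n → ℂ)) → Fin n → ℝ := fun i d l =>
    ![(p l * conj (d.1 l)).re, (q l * conj (dq' d.2 l)).re, (Z d l).re, (Z d l).im] i
  let G : Fin 4 → Fin n → ℝ := fun i l =>
    ![0, 0, -(p l * conj (ε l)).re, -(p l * conj (ε l)).im] i
  have F0 : ∀ d l, F 0 d l = (p l * conj (d.1 l)).re := fun d l => rfl
  have F1 : ∀ d l, F 1 d l = (q l * conj (dq' d.2 l)).re := fun d l => rfl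
  have F2 : ∀ d l, F 2 d l = (Z d l).re := fun d l => rfl
  have F3 : ∀ d l, F 3 d l = (Z d l).im := fun d l => rfl
  have G0 : ∀ l, G 0 l = 0 := fun l => rfl
  have G1 : ∀ l, G 1 l = 0 := fun l => rfl
  have G2 : ∀ l, G 2 l = -(p l * conj (ε l)).re := fun l => rfl
  have G3 : ∀ l, G 3 l = -(p l * conj (ε l)).im := fun l => rfl
  have Zadd : ∀ d d' l, Z (d + d') l = Z d l + Z d' l := by
    intro d d' l
    simp only [Z, Prod.snd_add, Prod.fst_add, Pi.add_apply, dqa, map_add]
    ring
  have Zsmul : ∀ (c : ℝ) d l, Z (c • d) l = (c : ℂ) * Z d l := by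
    intro c d l
    simp only [Z, Prod.smul_snd, Prod.smul_fst, dqs, map_mul, Complex.conj_ofReal,
      Pi.smul_apply, Complex.real_smul]
    ring
  have hadd : ∀ i d d' l, F i (d + d') l = F i d l + F i d' l := by
    intro i d d' l
    fin_cases i
    · show F 0 (d + d') l = F 0 d l + F 0 d' l
      rw [F0, F0, F0]
      simp only [Prod.fst_add, Pi.add_apply, map_add, mul_add, Complex.add_re]
    · show F 1 (d + d') l = F 1 d l + F 1 d' l
      rw [F1, F1, F1]
      simp only [Prod.snd_add, dqa, map_add, mul_add, Complex.add_re]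
    · show F 2 (d + d') l = F 2 d l + F 2 d' l
      rw [F2, F2, F2, Zadd, Complex.add_re]
    · show F 3 (d + d') l = F 3 d l + F 3 d' l
      rw [F3, F3, F3, Zadd, Complex.add_im]
  have hsmul : ∀ i (c : ℝ) d l, F i (c • d) l = c * F i d l := by
    intro i c d l
    fin_cases i
    · show F 0 (c • d) l = c * F 0 d l
      rw [F0, F0, ← Complex.re_ofReal_mul]
      simp only [Prod.smul_fst, Pi.smul_apply, Complex.real_smul, map_mul, Complex.conj_ofReal]
      congr 1
      ring
    · show F 1 (c • d) l = c * F 1 d l
      rw [F1, F1, ← Complex.re_ofReal_mul]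
      simp only [Prod.smul_snd, dqs, map_mul, Complex.conj_ofReal]
      congr 1
      ring
    · show F 2 (c • d) l = c * F 2 d l
      rw [F2, F2, Zsmul, Complex.re_ofReal_mul]
    · show F 3 (c • d) l = c * F 3 d l
      rw [F3, F3, Zsmul, Complex.im_ofReal_mul]
  have hsre : ∀ f : Fin n → ℂ, ∀ g : Fin n → ℝ, (∑ l, f l * (g l : ℂ)).re = ∑ l, (f l).re * g l := by
    intro f g
    rw [Complex.re_sum]
    exact Finset.sum_congr rfl (fun l _ => by rw [Complex.re_mul_ofReal])
  have hsim : ∀ f : Fin n → ℂ, ∀ g : Fin n → ℝ, (∑ l, f l * (g l : ℂ)).im = ∑ l, (f l).im * g l := by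
    intro f g
    rw [Complex.im_sum]
    exact Finset.sum_congr rfl (fun l _ => by rw [Complex.im_mul_ofReal])
  have hsum' : ∑ l, (p l * conj (ε l)) * (ev γ (b l) : ℂ) = 0 := by
    rw [← hsum]
    exact Finset.sum_congr rfl (fun l _ => by ring)
  obtain ⟨d, hd⟩ := solveF b F hadd hsmul G (by
    intro c hc
    -- pointwise conditions
    have hpt : ∀ l, (ev (c 0) (b l) : ℂ) * p l +
        ((ev (c 2) (b l) : ℂ) + (ev (c 3) (b l) : ℂ) * Complex.I) * q l = 0 := by
      intro l
      have hz : ∀ z : ℂ, (p l * conj z).re * ev (c 0) (b l) + (z * conj (q l)).re * ev (c 2) (b l)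
          + (z * conj (q l)).im * ev (c 3) (b l) = 0 := by
        intro z
        have h := hc (Pi.single l z, 0)
        have hd0 : ∀ m, dq' (0 : Fin n → ℂ) m = 0 := by
          intro m; simp [dq']
        have hone : ∀ (f : Fin n → ℝ), (∀ m, m ≠ l → f m = 0) → ∑ m, f m = f l := by
          intro f hf
          exact Finset.sum_eq_single l (fun m _ hm => hf m hm)
            (fun hl => absurd (Finset.mem_univ l) hl)
        rw [Fin.sum_univ_four] at h
        have e0 : ∑ m, F 0 (Pi.single l z, 0) m * ev (c 0) (b m) =
            (p l * conj z).re * ev (c 0) (b l) := by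
          rw [hone]
          · rw [F0]; simp
          · intro m hm
            rw [F0]
            simp [Pi.single_eq_of_ne hm]
        have e1 : ∑ m, F 1 (Pi.single l z, 0) m * ev (c 1) (b m) = 0 := by
          refine Finset.sum_eq_zero (fun m _ => ?_)
          rw [F1]
          simp [hd0]
        have eZ : ∀ m, Z (Pi.single l z, 0) m = (Pi.single l z : Fin n → ℂ) m * conj (q m) := by
          intro m
          simp [Z, hd0]
        have e2 : ∑ m, F 2 (Pi.single l z, 0) m * ev (c 2) (b m) =
            (z * conj (q l)).re * ev (c 2) (b l) := by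
          rw [hone]
          · rw [F2, eZ]; simp
          · intro m hm
            rw [F2, eZ]
            simp [Pi.single_eq_of_ne hm]
        have e3 : ∑ m, F 3 (Pi.single l z, 0) m * ev (c 3) (b m) =
            (z * conj (q l)).im * ev (c 3) (b l) := by
          rw [hone]
          · rw [F3, eZ]; simp
          · intro m hm
            rw [F3, eZ]
            simp [Pi.single_eq_of_ne hm]
        rw [e0, e1, e2, e3] at h
        linarith
      have h1 := hz 1
      have h2 := hz Complex.I
      simp only [map_one, mul_one, one_mul, Complex.conj_re, Complex.conj_im, Complex.conj_I,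
        Complex.mul_re, Complex.mul_im, Complex.neg_re, Complex.neg_im, Complex.I_re,
        Complex.I_im] at h1 h2
      apply Complex.ext
      · simp only [Complex.add_re, Complex.mul_re, Complex.add_im, Complex.mul_im,
          Complex.ofReal_re, Complex.ofReal_im, Complex.I_re, Complex.I_im, Complex.zero_re]
        linarith
      · simp only [Complex.add_re, Complex.mul_re, Complex.add_im, Complex.mul_im,
          Complex.ofReal_re, Complex.ofReal_im, Complex.I_re, Complex.I_im, Complex.zero_im]
        linarith
    -- the value at `a`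
    have hAa : ev (c 0) a = 0 := by
      have h1 : ∑ l, (ev (c 0) (b l) : ℂ) * (p l * conj (p l)) = (ev (c 0) a : ℂ) := by
        rw [← hF1 (c 0)]
        push_cast
        refine Finset.sum_congr rfl (fun l _ => ?_)
        rw [Complex.mul_conj]
        ring
      have h2 : ∑ l, q l * conj (p l) * ((ev (c 2) (b l) : ℂ)) = 0 := by
        have h := congrArg conj (hF3 (c 2))
        rw [map_sum, map_zero] at h
        rw [← h]
        refine Finset.sum_congr rfl (fun l _ => ?_)
        rw [map_mul, map_mul, Complex.conj_conj, Complex.conj_ofReal]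
        ring
      have h3 : ∑ l, q l * conj (p l) * ((ev (c 3) (b l) : ℂ)) = 0 := by
        have h := congrArg conj (hF3 (c 3))
        rw [map_sum, map_zero] at h
        rw [← h]
        refine Finset.sum_congr rfl (fun l _ => ?_)
        rw [map_mul, map_mul, Complex.conj_conj, Complex.conj_ofReal]
        ring
      have h4 : ∑ l, (ev (c 0) (b l) : ℂ) * (p l * conj (p l)) =
          - (∑ l, q l * conj (p l) * ((ev (c 2) (b l) : ℂ)) +
            Complex.I * ∑ l, q l * conj (p l) * ((ev (c 3) (b l) : ℂ))) := by
        rw [Finset.mul_sum, ← Finset.sum_add_distrib, ← Finset.sum_neg_distrib]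
        refine Finset.sum_congr rfl (fun l _ => ?_)
        linear_combination conj (p l) * hpt l
      rw [h1, h2, h3] at h4
      simp only [mul_zero, add_zero, neg_zero] at h4
      exact_mod_cast h4
    rw [Fin.sum_univ_four]
    have g0 : ∑ l, G 0 l * ev (c 0) (b l) = 0 := Finset.sum_eq_zero (fun l _ => by rw [G0]; ring)
    have g1 : ∑ l, G 1 l * ev (c 1) (b l) = 0 := Finset.sum_eq_zero (fun l _ => by rw [G1]; ring)
    rw [g0, g1]
    simp only [G2, G3]
    have hre : ∑ l, (p l * conj (ε l)).re * ev γ (b l) = 0 := by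
      rw [← hsre, hsum']; rfl
    have him : ∑ l, (p l * conj (ε l)).im * ev γ (b l) = 0 := by
      rw [← hsim, hsum']; rfl
    by_cases hA : c 0 = 0
    · -- `supp q` has two positions
      have hqne : ∃ l, q l ≠ 0 := by
        by_contra hno
        push Not at hno
        have h := hF2 ![1, 0, 0]
        simp [hno, ev_mk] at h
      obtain ⟨l₁, hl₁⟩ := hqne
      have hqne2 : ∃ l, q l ≠ 0 ∧ b l ≠ b l₁ := by
        by_contra hno
        push Not at hno
        apply hx l₁
        apply ev_ext
        intro f
        rw [← hF2 f]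
        have h1 : ∑ l, Complex.normSq (q l) * ev f (b l) =
            ∑ l, Complex.normSq (q l) * ev f (b l₁) := by
          refine Finset.sum_congr rfl (fun l _ => ?_)
          by_cases hl : q l = 0
          · rw [hl]; simp
          · rw [hno l hl]
        rw [h1, ← Finset.sum_mul]
        have h2 := hF2 ![1, 0, 0]
        simp only [ev_mk, zero_mul, add_zero, mul_one] at h2
        rw [h2, one_mul]
      obtain ⟨l₂, hl₂, hb⟩ := hqne2
      have hγ0 : ∀ l, q l ≠ 0 → ev γ (b l) = 0 := by
        intro l hl
        by_contra h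
        exact hl (hq l h)
      have hC0 : ∀ l, q l ≠ 0 → ev (c 2) (b l) = 0 ∧ ev (c 3) (b l) = 0 := by
        intro l hl
        have h := hpt l
        rw [hA, ev_zero, Complex.ofReal_zero, zero_mul, zero_add] at h
        have h' := (mul_eq_zero.1 h).resolve_right hl
        have hr := congrArg Complex.re h'
        have hi := congrArg Complex.im h'
        simp at hr hi
        exact ⟨hr, hi⟩
      obtain ⟨c₁, hc₁⟩ := prop_of_two hb hγ (hγ0 l₂ hl₂) (hγ0 l₁ hl₁) (hC0 l₂ hl₂).1 (hC0 l₁ hl₁).1
      obtain ⟨c₂, hc₂⟩ := prop_of_two hb hγ (hγ0 l₂ hl₂) (hγ0 l₁ hl₁) (hC0 l₂ hl₂).2 (hC0 l₁ hl₁).2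
      rw [hc₁, hc₂]
      simp only [ev_smul]
      have e1 : ∑ l, -(p l * conj (ε l)).re * (c₁ * ev γ (b l)) =
          - c₁ * ∑ l, (p l * conj (ε l)).re * ev γ (b l) := by
        rw [Finset.mul_sum]
        exact Finset.sum_congr rfl (fun l _ => by ring)
      have e2 : ∑ l, -(p l * conj (ε l)).im * (c₂ * ev γ (b l)) =
          - c₂ * ∑ l, (p l * conj (ε l)).im * ev γ (b l) := by
        rw [Finset.mul_sum]
        exact Finset.sum_congr rfl (fun l _ => by ring)
      rw [e1, e2, hre, him]
      ring
    · -- only one position off the line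
      by_cases hex : ∃ l, p l * conj (ε l) ≠ 0
      · obtain ⟨l₀, hl₀⟩ := hex
        have hAl : ∀ l, p l * conj (ε l) ≠ 0 → ev γ (b l) ≠ 0 ∧ ev (c 0) (b l) = 0 := by
          intro l hl
          have hp : p l ≠ 0 := fun h => hl (by rw [h]; ring)
          have he : ε l ≠ 0 := fun h => hl (by rw [h]; simp)
          have h1 : ev γ (b l) ≠ 0 := fun h => he (hε l h)
          refine ⟨h1, ?_⟩
          have h := hpt l
          rw [hq l h1, mul_zero, add_zero] at h
          exact_mod_cast (mul_eq_zero.1 h).resolve_right hp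
        have hpos : ∀ l, p l * conj (ε l) ≠ 0 → b l = b l₀ := by
          intro l hl
          by_contra hne
          have h1 := (hAl l hl).2
          have h2 := (hAl l₀ hl₀).2
          apply hGen.2 l l₀ hne
          have hA12 : ¬ (c 0 1 = 0 ∧ c 0 2 = 0) := by
            rintro ⟨k1, k2⟩
            apply hA
            have k0 : c 0 0 = 0 := by
              unfold ev at hAa; rw [k1, k2] at hAa; linarith
            funext i
            fin_cases i
            · exact k0
            · exact k1
            · exact k2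
          have k1 : c 0 1 * ((b l₀).re - (b l).re) + c 0 2 * ((b l₀).im - (b l).im) = 0 := by
            unfold ev at h1 h2; linarith
          have k2 : c 0 1 * (a.re - (b l).re) + c 0 2 * (a.im - (b l).im) = 0 := by
            unfold ev at h1 hAa; linarith
          have e : ((b l₀ - b l) * conj (a - b l)).im =
              ((b l₀).im - (b l).im) * (a.re - (b l).re) -
                ((b l₀).re - (b l).re) * (a.im - (b l).im) := by
            simp only [Complex.mul_im, Complex.sub_re, Complex.sub_im, map_sub, Complex.conj_re,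
              Complex.conj_im]
            ring
          rw [e]
          by_contra hne'
          apply hA12
          constructor
          · have : c 0 1 * (((b l₀).im - (b l).im) * (a.re - (b l).re) -
                ((b l₀).re - (b l).re) * (a.im - (b l).im)) = 0 := by
              linear_combination ((b l₀).im - (b l).im) * k2 - (a.im - (b l).im) * k1
            exact (mul_eq_zero.1 this).resolve_right hne'
          · have : c 0 2 * (((b l₀).im - (b l).im) * (a.re - (b l).re) -
                ((b l₀).re - (b l).re) * (a.im - (b l).im)) = 0 := by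
              linear_combination (a.re - (b l).re) * k1 - ((b l₀).re - (b l).re) * k2
            exact (mul_eq_zero.1 this).resolve_right hne'
        have hcol : ∀ (f : Fin 3 → ℝ), (∑ l, (p l * conj (ε l)).re * ev f (b l) =
            (∑ l, (p l * conj (ε l)).re) * ev f (b l₀)) ∧
            (∑ l, (p l * conj (ε l)).im * ev f (b l) =
            (∑ l, (p l * conj (ε l)).im) * ev f (b l₀)) := by
          intro f
          rw [Finset.sum_mul, Finset.sum_mul]
          constructor
          · refine Finset.sum_congr rfl (fun l _ => ?_)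
            by_cases hl : p l * conj (ε l) = 0
            · rw [hl]; simp
            · rw [hpos l hl]
          · refine Finset.sum_congr rfl (fun l _ => ?_)
            by_cases hl : p l * conj (ε l) = 0
            · rw [hl]; simp
            · rw [hpos l hl]
        have hne0 := (hAl l₀ hl₀).1
        rw [(hcol γ).1] at hre
        rw [(hcol γ).2] at him
        have hre0 := (mul_eq_zero.1 hre).resolve_right hne0
        have him0 := (mul_eq_zero.1 him).resolve_right hne0
        have e1 : ∑ l, -(p l * conj (ε l)).re * ev (c 2) (b l) =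
            - ∑ l, (p l * conj (ε l)).re * ev (c 2) (b l) := by
          rw [← Finset.sum_neg_distrib]
          exact Finset.sum_congr rfl (fun l _ => by ring)
        have e2 : ∑ l, -(p l * conj (ε l)).im * ev (c 3) (b l) =
            - ∑ l, (p l * conj (ε l)).im * ev (c 3) (b l) := by
          rw [← Finset.sum_neg_distrib]
          exact Finset.sum_congr rfl (fun l _ => by ring)
        rw [e1, e2, (hcol (c 2)).1, (hcol (c 3)).2, hre0, him0]
        ring
      · push Not at hex
        simp [hex])
  refine ⟨d.1, fun l => if ev γ (b l) = 0 then d.2 l else ε l, ⟨?_, ?_, ?_⟩, ?_⟩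
  · intro h
    have := hd 0 h
    simp only [F0, G0, zero_mul, Finset.sum_const_zero] at this
    exact this
  · intro h
    have := hd 1 h
    simp only [F1, G1, zero_mul, Finset.sum_const_zero] at this
    refine Eq.trans ?_ this
    refine Finset.sum_congr rfl (fun l _ => ?_)
    by_cases hl : ev γ (b l) = 0
    · simp only [dq', if_pos hl]
    · rw [hq l hl]; simp
  · intro h
    have h2 := hd 2 h
    have h3 := hd 3 h
    simp only [F2, F3, G2, G3] at h2 h3
    have hterm : ∀ l, p l * conj (if ev γ (b l) = 0 then d.2 l else ε l) + d.1 l * conj (q l) =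
        Z d l + p l * conj (ε l) := by
      intro l
      by_cases hl : ev γ (b l) = 0
      · simp only [Z, dq', if_pos hl, hε l hl, map_zero, mul_zero, add_zero]
      · simp only [Z, dq', if_neg hl, map_zero, mul_zero, zero_add]
        ring
    simp only [hterm]
    apply Complex.ext
    · rw [hsre]
      simp only [Complex.add_re, add_mul, Finset.sum_add_distrib]
      rw [h2, ← Finset.sum_add_distrib]
      exact Finset.sum_eq_zero (fun l _ => by ring)
    · rw [hsim]
      simp only [Complex.add_im, add_mul, Finset.sum_add_distrib]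
      rw [h3, ← Finset.sum_add_distrib]
      exact Finset.sum_eq_zero (fun l _ => by ring)
  · intro l hl
    simp only [if_neg hl]

end Pool.Agent.CMP
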