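import Mathlib
import Pool.Agent.CMP.Basic

set_option autoImplicit false

namespace Pool.Agent.CMP

open Finset Pool.Agent.Helper45.NC
open scoped ComplexConjugate

theorem critOpen_ev (f : Fin 3 → ℝ) (a : ℂ) (ε : ℝ) (hε : 0 < ε) :
    ∃ δ : ℝ, 0 < δ ∧ ∀ a' : ℂ, ‖a' - a‖ < δ → |ev f a' - ev f a| < ε := by
  obtain ⟨δ, hδ, h⟩ := Metric.continuous_iff.1 (continuous_ev f) a ε hε
  refine ⟨δ, hδ, fun a' ha => ?_⟩
  have := h a' (by rw [dist_eq_norm]; exact ha)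
  rwa [Real.dist_eq] at this

theorem critOpen_nuP (hNuLsc : St_NuLsc) (M : Pen) (a : ℂ) :
    ∃ δ : ℝ, 0 < δ ∧ ∀ a' : ℂ, ‖a' - a‖ < δ → nuP M a ≤ nuP M a' := by
  obtain ⟨ε, hε, h⟩ := hNuLsc (ev (M 0) a) (ev (M 1) a) (ev (M 2) a)
  obtain ⟨δ0, h0, h0'⟩ := critOpen_ev (M 0) a ε hε
  obtain ⟨δ1, h1, h1'⟩ := critOpen_ev (M 1) a ε hε
  obtain ⟨δ2, h2, h2'⟩ := critOpen_ev (M 2) a ε hε
  refine ⟨min δ0 (min δ1 δ2), lt_min h0 (lt_min h1 h2), fun a' ha => ?_⟩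
  rw [lt_min_iff, lt_min_iff] at ha
  exact (h _ _ _ (h0' a' ha.1) (h1' a' ha.2.1) (h2' a' ha.2.2)).1

theorem thm_CritOpen (hNuLsc : St_NuLsc) : St_CritOpen := by
  intro n b a₁ a₂ h
  unfold Crit at h
  push Not at h
  obtain ⟨M, hM⟩ := h
  obtain ⟨δ1, h1, h1'⟩ := critOpen_nuP hNuLsc M a₁
  obtain ⟨δ2, h2, h2'⟩ := critOpen_nuP hNuLsc M a₂
  refine ⟨min δ1 δ2, lt_min h1 h2, fun a₁' a₂' ha₁ ha₂ hC => ?_⟩
  have e1 := h1' a₁' (ha₁.trans_le (min_le_left _ _))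
  have e2 := h2' a₂' (ha₂.trans_le (min_le_right _ _))
  have e3 := hC M
  omega

end Pool.Agent.CMP
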