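import Mathlib
import Pool.Agent.CMP.Basic

set_option autoImplicit false

namespace Pool.Agent.CMP

open Finset Pool.Agent.Helper45.NC
open scoped ComplexConjugate

theorem diag_nu0 (x w : ℝ) : nu0 x 0 w = npos x + npos w := by
  unfold nu0 npos
  rcases lt_or_ge 0 x with hx | hx
  · rcases lt_or_ge 0 w with hw | hw
    · rw [if_pos ⟨hx, by nlinarith [mul_pos hx hw]⟩, if_pos (Or.inl hx), if_neg (by linarith),
        if_neg (by linarith)]
    · have h1 : ¬ (0 < x ∧ (0 : ℝ) ^ 2 < x * w) := by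
        rintro ⟨_, h⟩
        nlinarith [mul_nonneg hx.le (neg_nonneg.mpr hw)]
      rw [if_neg h1, if_pos (Or.inl hx), if_neg (by linarith), if_pos hw]
  · have h1 : ¬ (0 < x ∧ (0 : ℝ) ^ 2 < x * w) := by
      rintro ⟨h, _⟩
      linarith
    rcases lt_or_ge 0 w with hw | hw
    · rw [if_neg h1, if_pos (Or.inr (Or.inl hw)), if_pos hx, if_neg (by linarith)]
    · have h2 : ¬ (0 < x ∨ 0 < w ∨ x * w < (0 : ℝ) ^ 2) := by
        rintro (h | h | h)
        · linarith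
        · linarith
        · nlinarith [mul_nonneg (neg_nonneg.mpr hx) (neg_nonneg.mpr hw)]
      rw [if_neg h1, if_neg h2, if_pos hx, if_pos hw]

theorem diag_zero_of_sq {f : Fin 3 → ℝ} (h : ∑ i, f i ^ 2 = 0) : f = 0 := by
  funext i
  have h1 := (Finset.sum_eq_zero_iff_of_nonneg (fun i _ => sq_nonneg (f i))).mp h i
    (Finset.mem_univ i)
  exact pow_eq_zero_iff (two_ne_zero) |>.mp h1

theorem thm_Diag (hNuInv : St_NuInv) : St_Diag := by
  intro n b a₁ a₂ M hM hBal hWeak hex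
  obtain ⟨c, s, hcs, h1⟩ := hex
  have hd : c * c - (-s) * s ≠ 0 := by
    have : c * c - (-s) * s = 1 := by linarith
    rw [this]
    exact one_ne_zero
  set M' := act c (-s) s c M with hM'
  have e0 : ∀ i, M' 0 i = M 0 i * c ^ 2 + 2 * M 1 i * c * s + M 2 i * s ^ 2 := fun i => rfl
  have e1 : ∀ i, M' 1 i = M 0 i * c * (-s) + M 1 i * (c * c + (-s) * s) + M 2 i * s * c :=
    fun i => rfl
  have e2 : ∀ i, M' 2 i = M 0 i * (-s) ^ 2 + 2 * M 1 i * (-s) * c + M 2 i * c ^ 2 := fun i => rfl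
  have f1 : ∀ i, M' 1 i = 0 := fun i => by rw [h1]; rfl
  -- balance
  have hb : ∑ i, M' 0 i ^ 2 = ∑ i, M' 2 i ^ 2 := by
    have g : ∑ i, M' 0 i ^ 2 - ∑ i, M' 2 i ^ 2 =
        (c ^ 2 - s ^ 2) * (∑ i, M 0 i ^ 2 - ∑ i, M 2 i ^ 2) +
          4 * c * s * ∑ i, (M 0 i + M 2 i) * M 1 i := by
      rw [← Finset.sum_sub_distrib, ← Finset.sum_sub_distrib, Finset.mul_sum, Finset.mul_sum,
        ← Finset.sum_add_distrib]
      refine Finset.sum_congr rfl (fun i _ => ?_)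
      rw [e0, e2]
      linear_combination ((M 0 i + M 2 i) * ((M 0 i - M 2 i) * (c ^ 2 - s ^ 2) +
        4 * M 1 i * c * s)) * hcs
    rw [hBal.1, hBal.2, sub_self, mul_zero, mul_zero, add_zero] at g
    linarith
  -- M' is not zero
  have hne : ¬ (M' 0 = 0 ∧ M' 2 = 0) := by
    rintro ⟨z0, z2⟩
    apply hM
    have k0 : ∀ i, M' 0 i = 0 := fun i => by rw [z0]; rfl
    have k2 : ∀ i, M' 2 i = 0 := fun i => by rw [z2]; rfl
    have w : ∀ i, M 0 i = 0 ∧ M 1 i = 0 ∧ M 2 i = 0 := by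
      intro i
      have t0 := k0 i
      have t1 := f1 i
      have t2 := k2 i
      rw [e0] at t0
      rw [e1] at t1
      rw [e2] at t2
      refine ⟨?_, ?_, ?_⟩
      · linear_combination c ^ 2 * t0 - 2 * c * s * t1 + s ^ 2 * t2 -
          M 0 i * (c ^ 2 + s ^ 2 + 1) * hcs
      · linear_combination c * s * t0 + (c ^ 2 - s ^ 2) * t1 - c * s * t2 -
          M 1 i * (c ^ 2 + s ^ 2 + 1) * hcs
      · linear_combination s ^ 2 * t0 + 2 * c * s * t1 + c ^ 2 * t2 -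
          M 2 i * (c ^ 2 + s ^ 2 + 1) * hcs
    funext j i
    fin_cases j
    · exact (w i).1
    · exact (w i).2.1
    · exact (w i).2.2
  have n0 : M' 0 ≠ 0 := by
    intro z0
    apply hne
    refine ⟨z0, diag_zero_of_sq ?_⟩
    rw [← hb, z0]
    simp
  have n2 : M' 2 ≠ 0 := by
    intro z2
    apply hne
    refine ⟨diag_zero_of_sq ?_, z2⟩
    rw [hb, z2]
    simp
  have hnu : ∀ z, nuP M z = neg (ev (M' 0) z) + neg (ev (M' 2) z) := by
    intro z
    rw [← nuP_act hNuInv c (-s) s c hd M z, ← hM']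
    unfold nuP
    rw [h1, ev_zero, nu_zero_right]
  have hnu0 : ∀ z, nu0P M z = npos (ev (M' 0) z) + npos (ev (M' 2) z) := by
    intro z
    rw [← nu0P_act hNuInv c (-s) s c hd M z, ← hM']
    unfold nu0P
    rw [h1, ev_zero, diag_nu0]
  unfold Weak at hWeak
  rw [Finset.sum_congr rfl (fun l _ => hnu (b l)), Finset.sum_add_distrib, hnu0, hnu0] at hWeak
  by_cases h3 : ∑ l, neg (ev (M' 0) (b l)) < npos (ev (M' 0) a₁) + npos (ev (M' 0) a₂)
  · exact ⟨M' 0, n0, h3⟩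
  · exact ⟨M' 2, n2, by omega⟩

end Pool.Agent.CMP
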