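import Mathlib
import Pool.Agent.CMP.Basic

set_option autoImplicit false

namespace Pool.Agent.CMP

open Finset Pool.Agent.Helper45.NC
open scoped ComplexConjugate

/-- a real number between two elements of `γ` is in the convex hull -/
theorem fp2_hull {γ : Multiset ℝ} {x a y : ℝ} (hx : x ∈ γ) (hy : y ∈ γ) (h1 : x ≤ a)
    (h2 : a ≤ y) : (a : ℂ) ∈ convexHull ℝ (pts (γ.map (fun x : ℝ => (x : ℂ)))) := by
  have px : (x : ℂ) ∈ pts (γ.map (fun x : ℝ => (x : ℂ))) := by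
    show (x : ℂ) ∈ γ.map (fun x : ℝ => (x : ℂ))
    exact Multiset.mem_map_of_mem _ hx
  have py : (y : ℂ) ∈ pts (γ.map (fun x : ℝ => (x : ℂ))) := by
    show (y : ℂ) ∈ γ.map (fun x : ℝ => (x : ℂ))
    exact Multiset.mem_map_of_mem _ hy
  have h3 : a ∈ segment ℝ x y := by
    rw [segment_eq_Icc (h1.trans h2)]
    exact ⟨h1, h2⟩
  obtain ⟨s, t, hs, ht, hst, h4⟩ := h3
  refine segment_subset_convexHull px py ⟨s, t, hs, ht, hst, ?_⟩
  rw [← h4]
  simp only [Complex.real_smul, smul_eq_mul, Complex.ofReal_add, Complex.ofReal_mul]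

theorem fp2_ex {γ : Multiset ℝ} {p : ℝ → Prop} [DecidablePred p]
    (h : 1 ≤ (γ.filter p).card) : ∃ x ∈ γ, p x := by
  have h0 : γ.filter p ≠ 0 := by
    intro h0
    rw [h0] at h
    simp at h
  obtain ⟨x, hx⟩ := Multiset.exists_mem_of_ne_zero h0
  rw [Multiset.mem_filter] at hx
  exact ⟨x, hx.1, hx.2⟩

theorem fp2_cons {γ : Multiset ℝ} {p : ℝ → Prop} [DecidablePred p] {x : ℝ}
    (h : 2 ≤ ((x ::ₘ γ).filter p).card) : ∃ y ∈ γ, p y := by
  apply fp2_ex
  rw [Multiset.filter_cons] at h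
  by_cases hx : p x
  · rw [if_pos hx, Multiset.card_add, Multiset.card_singleton] at h
    omega
  · rw [if_neg hx, zero_add] at h
    omega

theorem fp2_cons_neg {γ : Multiset ℝ} {p : ℝ → Prop} [DecidablePred p] {x : ℝ}
    (h : 1 ≤ ((x ::ₘ γ).filter p).card) (hx : ¬ p x) : ∃ y ∈ γ, p y := by
  apply fp2_ex
  rw [Multiset.filter_cons_of_neg _ hx] at h
  exact h

theorem fp2_rest (hK1 : St_K1) {a b : ℝ} {γ : Multiset ℝ} {x y : ℝ} (hx : x ∈ γ) (hy : y ∈ γ)
    (h1 : x ≤ b) (h2 : b ≤ y) :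
    MDil {(a : ℂ), (b : ℂ)} ((a ::ₘ γ).map (fun x : ℝ => (x : ℂ))) := by
  have h3 := hK1 (b : ℂ) _ (fp2_hull hx hy h1 h2)
  have h4 := MDil.add (MDil.refl {(a : ℂ)}) h3
  rw [Multiset.map_cons]
  rw [Multiset.singleton_add, Multiset.singleton_add] at h4
  exact h4

theorem thm_FP2 (hK1 : St_K1) (hSub : St_Sub) (hInt3 : St_Int3) : St_FP2 := by
  intro a₁ a₂ γ h12 c1 c2 c3 c4
  by_cases hA : a₁ ∈ γ
  · obtain ⟨γ', rfl⟩ := Multiset.exists_cons_of_mem hA
    obtain ⟨x, hx, hx2⟩ := fp2_cons c2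
    have hy : ∃ y ∈ γ', a₂ ≤ y := by
      rcases lt_or_eq_of_le h12 with hlt | heq
      · exact fp2_cons_neg c3 (not_le.mpr hlt)
      · obtain ⟨y, hy, hy2⟩ := fp2_cons c4
        exact ⟨y, hy, heq ▸ hy2⟩
    obtain ⟨y, hy, hy2⟩ := hy
    exact fp2_rest hK1 hx hy hx2 hy2
  · by_cases hB : a₂ ∈ γ
    · obtain ⟨γ', rfl⟩ := Multiset.exists_cons_of_mem hB
      obtain ⟨y, hy, hy2⟩ := fp2_cons c4
      have hlt : a₁ < a₂ := by
        rcases lt_or_eq_of_le h12 with hlt | heq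
        · exact hlt
        · exact absurd (heq ▸ hB) hA
      obtain ⟨x, hx, hx2⟩ := fp2_cons_neg c1 (not_le.mpr hlt)
      have h := fp2_rest (a := a₂) hK1 hx hy hx2 hy2
      rw [Multiset.pair_comm] at h
      exact h
    · obtain ⟨x, hx, hx1⟩ := fp2_ex c1
      obtain ⟨y, hy, hy2⟩ := fp2_ex c3
      have hxlt : x < a₁ := lt_of_le_of_ne hx1 (fun h => hA (h ▸ hx))
      have hylt : a₂ < y := lt_of_le_of_ne hy2 (fun h => hB (h ▸ hy))
      obtain ⟨δ₀, rfl⟩ := Multiset.exists_cons_of_mem hx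
      have hy' : y ∈ δ₀ := by
        rcases Multiset.mem_cons.mp hy with h | h
        · exfalso; linarith
        · exact h
      obtain ⟨δ, rfl⟩ := Multiset.exists_cons_of_mem hy'
      have hm1 : ∃ m ∈ δ, m ≤ a₂ := by
        obtain ⟨m, hm, hm2⟩ := fp2_cons c2
        rcases Multiset.mem_cons.mp hm with h | h
        · exfalso; linarith
        · exact ⟨m, h, hm2⟩
      have hm2 : ∃ m ∈ δ, a₁ ≤ m := by
        rw [Multiset.cons_swap] at c4
        obtain ⟨m, hm, hm2⟩ := fp2_cons c4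
        rcases Multiset.mem_cons.mp hm with h | h
        · exfalso; linarith
        · exact ⟨m, h, hm2⟩
      by_cases hmid : ∃ m ∈ δ, a₁ ≤ m ∧ m ≤ a₂
      · obtain ⟨m, hm, hma, hmb⟩ := hmid
        obtain ⟨ε, rfl⟩ := Multiset.exists_cons_of_mem hm
        refine MDil.trans (hInt3 x a₁ m a₂ y hx1 hma hmb hy2) (hSub _ _ ?_)
        rw [Multiset.map_cons, Multiset.map_cons, Multiset.map_cons, Multiset.cons_swap (y : ℂ)]
        have h5 : ({(x : ℂ), (m : ℂ), (y : ℂ)} : Multiset ℂ) =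
            (x : ℂ) ::ₘ (m : ℂ) ::ₘ (y : ℂ) ::ₘ 0 := rfl
        rw [h5]
        refine Multiset.cons_le_cons _ (Multiset.cons_le_cons _ (Multiset.cons_le_cons _ ?_))
        exact Multiset.zero_le _
      · obtain ⟨m, hm, hma⟩ := hm1
        obtain ⟨k, hk, hka⟩ := hm2
        have hm3 : m < a₁ := by
          by_contra h
          exact hmid ⟨m, hm, not_lt.mp h, hma⟩
        have hk3 : a₂ < k := by
          by_contra h
          exact hmid ⟨k, hk, hka, not_lt.mp h⟩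
        have h6 : MDil {(a₁ : ℂ)} (((x ::ₘ y ::ₘ 0 : Multiset ℝ)).map (fun x : ℝ => (x : ℂ))) :=
          hK1 _ _ (fp2_hull (x := x) (y := y) (by simp) (by simp) hx1 (h12.trans hy2))
        have h7 : MDil {(a₂ : ℂ)} (δ.map (fun x : ℝ => (x : ℂ))) :=
          hK1 _ _ (fp2_hull hm hk hma hk3.le)
        have h8 := MDil.add h6 h7
        rw [← Multiset.map_add, Multiset.cons_add, Multiset.cons_add, zero_add,
          Multiset.singleton_add] at h8
        exact h8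

end Pool.Agent.CMP
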