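import Mathlib
import Pool.Agent.CMP.Asm

set_option autoImplicit false

namespace Pool.Agent.CMP

open Finset Pool.Agent.Helper45.NC Matrix
open scoped ComplexConjugate

/-- the pencil of real symmetric matrices as a triple of affine functions -/
theorem pencil_eq (N₀ N₁ N₂ : Matrix (Fin 2) (Fin 2) ℝ) (h0 : N₀.IsSymm) (h1 : N₁.IsSymm)
    (h2 : N₂.IsSymm) (z : ℂ) :
    N₀ + z.re • N₁ + z.im • N₂ =
      !![ev ![N₀ 0 0, N₁ 0 0, N₂ 0 0] z, ev ![N₀ 0 1, N₁ 0 1, N₂ 0 1] z;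
         ev ![N₀ 0 1, N₁ 0 1, N₂ 0 1] z, ev ![N₀ 1 1, N₁ 1 1, N₂ 1 1] z] := by
  have e0 : N₀ 1 0 = N₀ 0 1 := h0.apply 0 1
  have e1 : N₁ 1 0 = N₁ 0 1 := h1.apply 0 1
  have e2 : N₂ 1 0 = N₂ 0 1 := h2.apply 0 1
  ext i j
  fin_cases i <;> fin_cases j <;>
    simp [ev, Matrix.add_apply, Matrix.smul_apply, e0, e1, e2, mul_comm]

theorem crit_iff (hN : St_NegR) {n : ℕ} (a : Fin 2 → ℂ) (b : Fin n → ℂ) :
    Crit (a 0) (a 1) (ms b) ↔
    ∀ N₀ N₁ N₂ : Matrix (Fin 2) (Fin 2) ℝ, N₀.IsSymm → N₁.IsSymm → N₂.IsSymm →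
      ∑ j, negR (N₀ + (a j).re • N₁ + (a j).im • N₂) ≤
        ∑ l, negR (N₀ + (b l).re • N₁ + (b l).im • N₂) := by
  constructor
  · intro hC N₀ N₁ N₂ h0 h1 h2
    simp only [pencil_eq N₀ N₁ N₂ h0 h1 h2, Fin.sum_univ_two]
    have key := hC ![![N₀ 0 0, N₁ 0 0, N₂ 0 0], ![N₀ 0 1, N₁ 0 1, N₂ 0 1],
      ![N₀ 1 1, N₁ 1 1, N₂ 1 1]]
    rw [sum_ms] at key
    simp only [nuP, Matrix.cons_val_zero, Matrix.cons_val_one, Matrix.cons_val_two,
      Matrix.tail_cons, Matrix.head_cons] at key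
    rw [hN, hN]
    refine le_trans key (le_of_eq ?_)
    exact Finset.sum_congr rfl (fun l _ => (hN _ _ _).symm)
  · intro h M
    have hs : ∀ i, (!![M 0 i, M 1 i; M 1 i, M 2 i] : Matrix (Fin 2) (Fin 2) ℝ).IsSymm := by
      intro i
      ext u v
      fin_cases u <;> fin_cases v <;> simp
    have key := h _ _ _ (hs 0) (hs 1) (hs 2)
    simp only [pencil_eq _ _ _ (hs 0) (hs 1) (hs 2), Fin.sum_univ_two] at key
    rw [sum_ms]
    have e : ∀ z : ℂ, nuP M z = negR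
        !![ev ![M 0 0, M 0 1, M 0 2] z, ev ![M 1 0, M 1 1, M 1 2] z;
          ev ![M 1 0, M 1 1, M 1 2] z, ev ![M 2 0, M 2 1, M 2 2] z] := by
      intro z
      rw [hN]
      simp [nuP, ev]
    rw [e, e]
    refine le_trans key (le_of_eq ?_)
    exact Finset.sum_congr rfl (fun l _ => (e _).symm)

theorem asm_final (hS : St_Suff) (hNR : St_NegR) (hN : St_NecR) (hB : St_Bridge)
    (n : ℕ) (a : Fin 2 → ℂ) (b : Fin n → ℂ) : Dil a b ↔
    ∀ N₀ N₁ N₂ : Matrix (Fin 2) (Fin 2) ℝ, N₀.IsSymm → N₁.IsSymm → N₂.IsSymm →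
      ∑ j, negR (N₀ + (a j).re • N₁ + (a j).im • N₂) ≤
        ∑ l, negR (N₀ + (b l).re • N₁ + (b l).im • N₂) := by
  rw [← crit_iff hNR]
  have e : Dil a b ↔ Rel2 b (a 0) (a 1) := by
    rw [hB n b (a 0) (a 1)]
    have h2 : ms a = {a 0, a 1} := by
      unfold ms
      rfl
    constructor
    · intro h
      rw [← h2]
      exact MDil.of_dil h
    · intro h
      rw [← h2] at h
      exact h.dil
  rw [e]
  exact ⟨hN n (a 0) (a 1) b, hS n b (a 0) (a 1)⟩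

end Pool.Agent.CMP
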