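import Mathlib
import Pool.Agent.CMP.Basic

set_option autoImplicit false

namespace Pool.Agent.CMP

open Finset Pool.Agent.Helper45.NC
open scoped ComplexConjugate

theorem Gamma_nonzero {n : ℕ} {b : Fin n → ℂ} {a : ℂ} (hgen : Gen b a) {γ : Fin 3 → ℝ}
    (hγ : γ 1 ≠ 0 ∨ γ 2 ≠ 0) {l l' : Fin n} (hl : b l ≠ b l') (h1 : ev γ (b l) = 0)
    (h2 : ev γ (b l') = 0) : ev γ a ≠ 0 := by
  intro h3
  apply hgen.2 l l' hl
  have d1 : γ 1 * (b l' - b l).re + γ 2 * (b l' - b l).im = 0 := by
    unfold ev at h1 h2
    simp only [Complex.sub_re, Complex.sub_im]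
    linarith
  have d2 : γ 1 * (a - b l).re + γ 2 * (a - b l).im = 0 := by
    unfold ev at h1 h3
    simp only [Complex.sub_re, Complex.sub_im]
    linarith
  have e : ((b l' - b l) * conj (a - b l)).im =
      (b l' - b l).im * (a - b l).re - (b l' - b l).re * (a - b l).im := by
    rw [Complex.mul_im, Complex.conj_re, Complex.conj_im]
    ring
  rw [e]
  rcases hγ with h | h
  · have : γ 1 * ((b l' - b l).im * (a - b l).re - (b l' - b l).re * (a - b l).im) = 0 := by
      linear_combination (b l' - b l).im * d2 - (a - b l).im * d1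
    exact (mul_eq_zero.1 this).resolve_left h
  · have : γ 2 * ((b l' - b l).im * (a - b l).re - (b l' - b l).re * (a - b l).im) = 0 := by
      linear_combination (a - b l).re * d1 - (b l' - b l).re * d2
    exact (mul_eq_zero.1 this).resolve_left h

theorem thm_Gamma (hGenSupp : St_GenSupp) (hComp : St_Comp) : St_Gamma := by
  intro n b p q a x z α γ hgen hxb hzx hF hM g1 g2
  classical
  obtain ⟨m1, m2, m3⟩ := hM
  obtain ⟨f1, f2, f3⟩ := hF
  have hα0 : α = 0 := by
    refine hGenSupp n b a (fun l => Complex.normSq (p l)) α hgen f1 ?_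
    intro l hl
    have h1 := m1 l
    rw [ev_zero, Complex.ofReal_zero, zero_mul, add_zero] at h1
    have hp : p l ≠ 0 := fun h => hl (by simp [h])
    exact Complex.ofReal_eq_zero.1 ((mul_eq_zero.1 h1).resolve_right hp)
  have hq : ∀ l, ev γ (b l) ≠ 0 → q l = 0 := by
    intro l hl
    have h1 := m2 l
    rw [ev_zero, Complex.ofReal_zero, zero_mul, zero_add] at h1
    exact (mul_eq_zero.1 h1).resolve_left (fun h => hl (Complex.ofReal_eq_zero.1 h))
  have hγ12 : γ 1 ≠ 0 ∨ γ 2 ≠ 0 := by
    by_contra hcon
    push Not at hcon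
    apply hzx
    have e1 : (x - z).re = 0 := by rw [← g1]; exact hcon.1
    have e2 : (x - z).im = 0 := by rw [← g2]; exact hcon.2
    have : x - z = 0 := Complex.ext e1 e2
    exact (sub_eq_zero.1 this).symm
  have hγ0 : γ ≠ 0 := by
    rintro rfl
    simp at hγ12
  have hγx : ev γ x = 0 := by
    rw [← f2 γ]
    apply Finset.sum_eq_zero
    intro l _
    by_cases h : ev γ (b l) = 0
    · rw [h, mul_zero]
    · rw [hq l h]; simp
  have hsum1 : ∑ l, Complex.normSq (q l) = 1 := by
    have := f2 ![1, 0, 0]
    simpa [ev_mk] using this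
  -- two different points in the support of q
  obtain ⟨l₀, hl₀⟩ : ∃ l, q l ≠ 0 := by
    by_contra hcon
    push Not at hcon
    simp [hcon] at hsum1
  obtain ⟨l₁, hl₁, hne⟩ : ∃ l, q l ≠ 0 ∧ b l₀ ≠ b l := by
    by_contra hcon
    push Not at hcon
    apply hxb l₀
    apply ev_ext
    intro f
    rw [← f2 f]
    have : ∀ l, Complex.normSq (q l) * ev f (b l) = Complex.normSq (q l) * ev f (b l₀) := by
      intro l
      by_cases h : q l = 0
      · simp [h]
      · rw [hcon l h]
    simp only [this, ← Finset.sum_mul, hsum1, one_mul]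
  have hz0 : ev γ (b l₀) = 0 := by
    by_contra h
    exact hl₀ (hq _ h)
  have hz1 : ev γ (b l₁) = 0 := by
    by_contra h
    exact hl₁ (hq _ h)
  have hγa : ev γ a ≠ 0 := Gamma_nonzero hgen hγ12 hne hz0 hz1
  -- the key inequality
  have key : ∀ ε : Fin n → ℂ, ∑ l, (ev γ (b l) : ℂ) * (p l * conj (ε l)) = 0 →
      0 ≤ ∑ l, ev γ (b l) * Complex.normSq (ε l) := by
    intro ε hε
    obtain ⟨δp, δq, hT, hδ⟩ := hComp n b p q a x γ (fun l => if ev γ (b l) = 0 then 0 else ε l)
      hgen ⟨f1, f2, f3⟩ hxb hγ0 hq (fun l hl => by simp [hl]) (by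
        rw [← hε]
        refine Finset.sum_congr rfl (fun l _ => ?_)
        by_cases h : ev γ (b l) = 0
        · simp [h]
        · simp [h])
    have h1 := m3 δp δq hT
    rw [hα0] at h1
    refine le_of_le_of_eq h1 (Finset.sum_congr rfl (fun l _ => ?_))
    rw [ev_zero]
    by_cases h : ev γ (b l) = 0
    · rw [h]; ring
    · rw [hδ l h, if_neg h]; ring
  have hclaim : ∑ l, neg (ev γ (b l)) ≤ neg (ev γ a) := by
    by_cases hneg : ev γ a < 0
    · have h1 : neg (ev γ a) = 1 := by unfold neg; rw [if_pos hneg]
      rw [h1]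
      by_contra hcon
      push Not at hcon
      have hcard : ∑ l, neg (ev γ (b l)) =
          (Finset.univ.filter (fun l => ev γ (b l) < 0)).card := by
        rw [Finset.card_eq_sum_ones, Finset.sum_filter]
        rfl
      rw [hcard, Finset.one_lt_card] at hcon
      obtain ⟨m, hm, m', hm', hmm⟩ := hcon
      rw [Finset.mem_filter] at hm hm'
      have hm := hm.2
      have hm' := hm'.2
      by_cases hp : p m = 0
      · have h2 := key (fun l => if l = m then 1 else 0) (by
          rw [Finset.sum_eq_single m]
          · simp [hp]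
          · intro l _ hl
            simp [hl]
          · simp)
        rw [Finset.sum_eq_single m] at h2
        · simp at h2
          linarith
        · intro l _ hl
          simp [hl]
        · simp
      · set ε : Fin n → ℂ := fun l => if l = m then (ev γ (b m') : ℂ) * conj (p m') else
          if l = m' then -((ev γ (b m) : ℂ) * conj (p m)) else 0 with hεdef
        have e1 : ε m = (ev γ (b m') : ℂ) * conj (p m') := by simp [hεdef]
        have e2 : ε m' = -((ev γ (b m) : ℂ) * conj (p m)) := by simp [hεdef, hmm.symm]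
        have e3 : ∀ l, l ≠ m ∧ l ≠ m' → ε l = 0 := by
          rintro l ⟨h1, h2⟩
          simp [hεdef, h1, h2]
        have h2 := key ε (by
          rw [Fintype.sum_eq_add m m' hmm (fun l hl => by rw [e3 l hl]; simp), e1, e2]
          simp only [map_neg, map_mul, Complex.conj_ofReal, Complex.conj_conj]
          ring)
        rw [Fintype.sum_eq_add m m' hmm (fun l hl => by rw [e3 l hl]; simp), e1, e2] at h2
        have h3 : 0 < Complex.normSq (-((ev γ (b m) : ℂ) * conj (p m))) := by
          rw [Complex.normSq_pos]
          simp only [ne_eq, neg_eq_zero, mul_eq_zero, Complex.ofReal_eq_zero, map_eq_zero]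
          push Not
          exact ⟨hm.ne, hp⟩
        have h4 := Complex.normSq_nonneg ((ev γ (b m') : ℂ) * conj (p m'))
        nlinarith
    · have h1 : neg (ev γ a) = 0 := by unfold neg; rw [if_neg hneg]
      rw [h1]
      have hpos : 0 < ev γ a := lt_of_le_of_ne (not_lt.1 hneg) (Ne.symm hγa)
      apply le_of_eq
      apply Finset.sum_eq_zero
      intro m _
      unfold neg
      rw [if_neg]
      intro hm
      have hs : ∑ l, ev γ (b l) * Complex.normSq (p l) = ev γ a := by
        rw [← f1 γ]
        exact Finset.sum_congr rfl (fun l _ => by ring)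
      have h2 := key (fun l => (if l = m then (ev γ a : ℂ) else 0) -
        (ev γ (b m) : ℂ) * conj (p m) * p l) (by
          have e : ∀ l, (ev γ (b l) : ℂ) * (p l * conj ((if l = m then (ev γ a : ℂ) else 0) -
              (ev γ (b m) : ℂ) * conj (p m) * p l)) =
              (if l = m then (ev γ a : ℂ) * (ev γ (b m) : ℂ) * p m else 0) -
              (ev γ (b m) : ℂ) * p m * ((ev γ (b l) * Complex.normSq (p l) : ℝ) : ℂ) := by
            intro l
            have hn : ((Complex.normSq (p l) : ℝ) : ℂ) = p l * conj (p l) := by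
              rw [Complex.mul_conj]
            by_cases hl : l = m
            · subst hl
              simp only [if_true, map_sub, map_mul, Complex.conj_ofReal, Complex.conj_conj]
              push_cast
              rw [hn]
              ring
            · simp only [if_neg hl, map_sub, map_mul, Complex.conj_ofReal, Complex.conj_conj,
                map_zero]
              push_cast
              rw [hn]
              ring
          simp only [e, Finset.sum_sub_distrib, ← Finset.mul_sum]
          rw [Finset.sum_ite_eq' Finset.univ m, if_pos (Finset.mem_univ _), ← Complex.ofReal_sum, hs]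
          ring)
      have e : ∀ l, ev γ (b l) * Complex.normSq ((if l = m then (ev γ a : ℂ) else 0) -
          (ev γ (b m) : ℂ) * conj (p m) * p l) =
          (if l = m then ev γ (b m) * (ev γ a ^ 2 - 2 * ev γ a * (ev γ (b m) *
            Complex.normSq (p m))) else 0) +
          ev γ (b m) ^ 2 * Complex.normSq (p m) * (ev γ (b l) * Complex.normSq (p l)) := by
        intro l
        by_cases hl : l = m
        · subst hl
          simp only [if_true]
          simp only [Complex.normSq_apply, Complex.sub_re, Complex.sub_im, Complex.mul_re,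
            Complex.mul_im, Complex.conj_re, Complex.conj_im, Complex.ofReal_re,
            Complex.ofReal_im]
          ring
        · simp only [if_neg hl, zero_sub, zero_add]
          simp only [Complex.normSq_apply, Complex.neg_re, Complex.neg_im, Complex.mul_re,
            Complex.mul_im, Complex.conj_re, Complex.conj_im, Complex.ofReal_re,
            Complex.ofReal_im]
          ring
      simp only [e, Finset.sum_add_distrib, ← Finset.mul_sum, hs] at h2
      rw [Finset.sum_ite_eq' Finset.univ m, if_pos (Finset.mem_univ _)] at h2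
      have hn := Complex.normSq_nonneg (p m)
      have h3 : ev γ (b m) * (ev γ a ^ 2 - 2 * ev γ a * (ev γ (b m) * Complex.normSq (p m))) +
          ev γ (b m) ^ 2 * Complex.normSq (p m) * ev γ a =
          (ev γ (b m) * ev γ a) * (ev γ a - ev γ (b m) * Complex.normSq (p m)) := by ring
      rw [h3] at h2
      have h4 : ev γ (b m) * ev γ a < 0 := mul_neg_of_neg_of_pos hm hpos
      have h5 : 0 < ev γ a - ev γ (b m) * Complex.normSq (p m) := by nlinarith
      have h6 := mul_neg_of_neg_of_pos h4 h5
      linarith
  refine ⟨1, one_pos, ?_⟩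
  intro t ht0 _ hC
  have hM := hC ![![1, 0, 0], 0, γ]
  rw [sum_ms] at hM
  have hval : ∀ w : ℂ, nuP ![![1, 0, 0], 0, γ] w = neg (ev γ w) := by
    intro w
    unfold nuP
    simp only [Matrix.cons_val_zero, Matrix.cons_val_one, Matrix.cons_val]
    rw [ev_mk, ev_zero, nu_zero_right]
    have : neg (1 + 0 * w.re + 0 * w.im) = 0 := by
      unfold neg
      rw [if_neg (by norm_num)]
    rw [this, zero_add]
  simp only [hval] at hM
  have hd : 0 < (z - x).re ^ 2 + (z - x).im ^ 2 := by
    by_contra hcon
    push Not at hcon
    apply hzx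
    have h1 : (z - x).re = 0 := by nlinarith [sq_nonneg (z - x).re, sq_nonneg (z - x).im]
    have h2 : (z - x).im = 0 := by nlinarith [sq_nonneg (z - x).re, sq_nonneg (z - x).im]
    exact sub_eq_zero.1 (Complex.ext h1 h2)
  have hγt : ev γ (x + (t : ℂ) * (z - x)) = - (t * ((z - x).re ^ 2 + (z - x).im ^ 2)) := by
    have : ev γ (x + (t : ℂ) * (z - x)) = ev γ x + t * (γ 1 * (z - x).re + γ 2 * (z - x).im) := by
      unfold ev
      simp only [Complex.add_re, Complex.add_im, Complex.re_ofReal_mul, Complex.im_ofReal_mul]
      ring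
    rw [this, hγx, g1, g2]
    simp only [Complex.sub_re, Complex.sub_im]
    ring
  have hneg1 : neg (ev γ (x + (t : ℂ) * (z - x))) = 1 := by
    unfold neg
    rw [if_pos]
    rw [hγt]
    have := mul_pos ht0 hd
    linarith
  rw [hneg1] at hM
  omega

end Pool.Agent.CMP
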