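import Mathlib
import Pool.Agent.CMP.Basic

set_option autoImplicit false

namespace Pool.Agent.CMP

open Finset Pool.Agent.Helper45.NC
open scoped ComplexConjugate

lemma GenDense_quad (c p q : ℝ) (h : p ≠ 0 ∨ q ≠ 0) :
    {t : ℝ | c + t * p - t ^ 2 * q = 0}.Finite := by
  by_contra hinf
  have hP : (Polynomial.C c + Polynomial.C p * Polynomial.X - Polynomial.C q * Polynomial.X ^ 2 :
      Polynomial ℝ) = 0 := by
    refine Polynomial.eq_zero_of_infinite_isRoot _ (Set.Infinite.mono ?_ hinf)
    intro t ht
    change Polynomial.IsRoot _ t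
    rw [Polynomial.IsRoot.def]
    have ht' : c + t * p - t ^ 2 * q = 0 := ht
    simp only [Polynomial.eval_sub, Polynomial.eval_add, Polynomial.eval_C, Polynomial.eval_mul,
      Polynomial.eval_X, Polynomial.eval_pow]
    linarith
  have h1 := congrArg (fun P => Polynomial.coeff P 1) hP
  have h2 := congrArg (fun P => Polynomial.coeff P 2) hP
  simp [Polynomial.coeff_C, Polynomial.coeff_X_pow] at h1 h2
  rcases h with h | h
  · exact h h1
  · exact h h2

theorem thm_GenDense : St_GenDense := by
  intro n b a ε hε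
  set F : ℝ → ℂ := fun t => a + ((t : ℂ) + (t : ℂ) ^ 2 * Complex.I) with hF
  have hre : ∀ t, (F t).re = a.re + t := by
    intro t; simp [hF, pow_two]
  have him : ∀ t, (F t).im = a.im + t ^ 2 := by
    intro t; simp [hF, pow_two]
  have hfin1 : (⋃ l : Fin n, {t : ℝ | F t = b l}).Finite := by
    refine Set.finite_iUnion fun l => ?_
    refine (Set.finite_singleton ((b l).re - a.re)).subset ?_
    intro t ht
    have ht' : F t = b l := ht
    have := congrArg Complex.re ht'
    rw [hre] at this
    rw [Set.mem_singleton_iff]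
    linarith
  have hfin2 : (⋃ l : Fin n, ⋃ l' : Fin n, {t : ℝ | b l ≠ b l' ∧
      ((b l' - b l) * conj (F t - b l)).im = 0}).Finite := by
    refine Set.finite_iUnion fun l => Set.finite_iUnion fun l' => ?_
    by_cases hb : b l = b l'
    · refine Set.finite_empty.subset ?_
      intro t ht
      exact ht.1 hb
    · have hd : (b l' - b l).im ≠ 0 ∨ (b l' - b l).re ≠ 0 := by
        by_contra hc
        push Not at hc
        exact hb (sub_eq_zero.mp (Complex.ext hc.2 hc.1)).symm
      refine (GenDense_quad (((b l' - b l) * conj (a - b l)).im) _ _ hd).subset ?_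
      intro t ht
      have ht2 := ht.2
      change _ + t * _ - t ^ 2 * _ = 0
      rw [Complex.mul_im, Complex.conj_re, Complex.conj_im, Complex.sub_re (F t), Complex.sub_im (F t), hre,
        him] at ht2
      rw [Complex.mul_im, Complex.conj_re, Complex.conj_im, Complex.sub_re a, Complex.sub_im a]
      linarith
  have hδ : 0 < min 1 (ε / 2) := lt_min one_pos (by linarith)
  obtain ⟨t, ht, hnot⟩ := ((Set.Ioo_infinite hδ).sdiff (hfin1.union hfin2)).nonempty
  refine ⟨F t, ?_, ?_, ?_⟩
  · have h1 : F t - a = (t : ℂ) + (t : ℂ) ^ 2 * Complex.I := by simp [hF]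
    rw [h1]
    have ht0 : 0 < t := ht.1
    have ht1 : t < 1 := ht.2.trans_le (min_le_left _ _)
    have ht2 : t < ε / 2 := ht.2.trans_le (min_le_right _ _)
    refine lt_of_le_of_lt (norm_add_le _ _) ?_
    rw [norm_mul, Complex.norm_I, mul_one, norm_pow, Complex.norm_real, Real.norm_eq_abs,
      abs_of_pos ht0]
    nlinarith
  · intro l hl
    exact hnot (Or.inl (Set.mem_iUnion.mpr ⟨l, hl⟩))
  · intro l l' hb h0
    exact hnot (Or.inr (Set.mem_iUnion.mpr ⟨l, Set.mem_iUnion.mpr ⟨l', hb, h0⟩⟩))

end Pool.Agent.CMP
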