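import Mathlib
import Pool.Agent.CMP.Basic

set_option autoImplicit false

namespace Pool.Agent.CMP

open Finset Pool.Agent.Helper45.NC
open scoped ComplexConjugate

theorem thm_GenSupp : St_GenSupp := by
  intro n b a w h hGen hw hsupp
  obtain ⟨hne, hline⟩ := hGen
  -- `h` vanishes at `a`
  have hha : ev h a = 0 := by
    rw [← hw h]
    apply Finset.sum_eq_zero
    intro l _
    by_cases hl : w l = 0
    · rw [hl, zero_mul]
    · rw [hsupp l hl, mul_zero]
  have h1 : ∑ l, w l = 1 := by
    have := hw ![1, 0, 0]
    simpa [ev] using this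
  have hre : ∑ l, w l * (b l).re = a.re := by
    have := hw ![0, 1, 0]
    simpa [ev] using this
  have him : ∑ l, w l * (b l).im = a.im := by
    have := hw ![0, 0, 1]
    simpa [ev] using this
  -- a support point
  have hex0 : ∃ l0, w l0 ≠ 0 := by
    by_contra hcon
    push Not at hcon
    rw [Finset.sum_eq_zero (fun l _ => hcon l)] at h1
    exact zero_ne_one h1
  obtain ⟨l0, hl0⟩ := hex0
  -- a second one at a different position
  have hex1 : ∃ l1, w l1 ≠ 0 ∧ b l0 ≠ b l1 := by
    by_contra hcon
    push Not at hcon
    apply hne l0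
    apply Complex.ext
    · rw [← hre]
      have : ∀ l ∈ (Finset.univ : Finset (Fin n)), w l * (b l).re = w l * (b l0).re := by
        intro l _
        by_cases hl : w l = 0
        · rw [hl, zero_mul, zero_mul]
        · rw [hcon l hl]
      rw [Finset.sum_congr rfl this, ← Finset.sum_mul, h1, one_mul]
    · rw [← him]
      have : ∀ l ∈ (Finset.univ : Finset (Fin n)), w l * (b l).im = w l * (b l0).im := by
        intro l _
        by_cases hl : w l = 0
        · rw [hl, zero_mul, zero_mul]
        · rw [hcon l hl]
      rw [Finset.sum_congr rfl this, ← Finset.sum_mul, h1, one_mul]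
  obtain ⟨l1, hl1, hb⟩ := hex1
  have hdet := hline l0 l1 hb
  have e0 := hsupp l0 hl0
  have e1 := hsupp l1 hl1
  simp only [ev] at e0 e1 hha
  have hdet' : ((b l1).im - (b l0).im) * (a.re - (b l0).re) -
      ((b l1).re - (b l0).re) * (a.im - (b l0).im) ≠ 0 := by
    intro hz
    apply hdet
    simp only [Complex.mul_im, Complex.sub_re, Complex.sub_im, Complex.conj_re, Complex.conj_im,
      map_sub]
    linarith [hz]
  have h1z : h 1 = 0 := by
    have : h 1 * (((b l1).im - (b l0).im) * (a.re - (b l0).re) -
      ((b l1).re - (b l0).re) * (a.im - (b l0).im)) = 0 := by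
      linear_combination ((b l1).im - (b l0).im) * (hha - e0) -
        (a.im - (b l0).im) * (e1 - e0)
    rcases mul_eq_zero.1 this with h | h
    · exact h
    · exact absurd h hdet'
  have h2z : h 2 = 0 := by
    have : h 2 * (((b l1).im - (b l0).im) * (a.re - (b l0).re) -
      ((b l1).re - (b l0).re) * (a.im - (b l0).im)) = 0 := by
      linear_combination -((b l1).re - (b l0).re) * (hha - e0) +
        (a.re - (b l0).re) * (e1 - e0)
    rcases mul_eq_zero.1 this with h | h
    · exact h
    · exact absurd h hdet'
  have h0z : h 0 = 0 := by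
    rw [h1z, h2z] at e0
    linarith
  funext i
  fin_cases i
  · exact h0z
  · exact h1z
  · exact h2z

end Pool.Agent.CMP
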