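import Mathlib
import Pool.Agent.CMP.Basic

set_option autoImplicit false

namespace Pool.Agent.CMP

open Finset Pool.Agent.Helper45.NC
open scoped ComplexConjugate

theorem thm_Gordan : St_Gordan := by
  intro ι _ w
  classical
  let L : (ι → ℝ) →ₗ[ℝ] Pen :=
    { toFun := fun y => ∑ i, y i • w i
      map_add' := fun y z => by
        simp only [Pi.add_apply, add_smul, Finset.sum_add_distrib]
      map_smul' := fun c y => by
        simp only [Pi.smul_apply, smul_eq_mul, mul_smul, Finset.smul_sum, RingHom.id_apply] }
  have hL : ∀ y, L y = ∑ i, y i • w i := fun _ => rfl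
  have hconv : Convex ℝ (L '' stdSimplex ℝ ι) := (convex_stdSimplex ℝ ι).linear_image L
  have hcomp : IsCompact (L '' stdSimplex ℝ ι) :=
    (isCompact_stdSimplex ℝ ι).image L.continuous_of_finiteDimensional
  by_cases h0 : (0 : Pen) ∈ L '' stdSimplex ℝ ι
  · right
    obtain ⟨y, hy, hy0⟩ := h0
    refine ⟨y, hy.1, ?_, ?_⟩
    · by_contra hcon
      push Not at hcon
      have h1 := hy.2
      rw [Finset.sum_eq_zero (fun i _ => hcon i)] at h1
      exact zero_ne_one h1
    · intro j k
      rw [hL] at hy0
      have h1 := congrFun (congrFun hy0 j) k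
      rw [Finset.sum_apply, Finset.sum_apply] at h1
      exact h1
  · left
    obtain ⟨f, u, hf0, hf⟩ := geometric_hahn_banach_point_closed hconv hcomp.isClosed h0
    rw [map_zero] at hf0
    refine ⟨fun j k => f (Pi.single j (Pi.single k 1)), fun i => ?_⟩
    have hmem : w i ∈ L '' stdSimplex ℝ ι := by
      refine ⟨Pi.single i 1, single_mem_stdSimplex ℝ i, ?_⟩
      rw [hL, Finset.sum_eq_single i]
      · rw [Pi.single_eq_same, one_smul]
      · intro j _ hj
        rw [Pi.single_eq_of_ne hj, zero_smul]
      · intro h; exact absurd (Finset.mem_univ i) h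
    have h1 : 0 < f (w i) := hf0.trans (hf _ hmem)
    have h2 : w i = ∑ j, ∑ k, w i j k • (Pi.single j (Pi.single k (1 : ℝ)) : Pen) := by
      funext j' k'
      rw [Finset.sum_apply, Finset.sum_apply, Finset.sum_eq_single j']
      · rw [Finset.sum_apply, Finset.sum_apply, Finset.sum_eq_single k']
        · simp
        · intro k _ hk
          simp [Pi.single_eq_of_ne hk.symm]
        · intro h; exact absurd (Finset.mem_univ _) h
      · intro j _ hj
        rw [Finset.sum_apply, Finset.sum_apply]
        refine Finset.sum_eq_zero (fun k _ => ?_)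
        simp [Pi.single_eq_of_ne hj.symm]
      · intro h; exact absurd (Finset.mem_univ _) h
    rw [h2, map_sum] at h1
    refine lt_of_lt_of_eq h1 (Finset.sum_congr rfl (fun j _ => ?_))
    rw [map_sum]
    refine Finset.sum_congr rfl (fun k _ => ?_)
    rw [map_smul, smul_eq_mul, mul_comm]

end Pool.Agent.CMP
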