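import Mathlib
import Pool.Agent.CMP.Basic

set_option autoImplicit false

namespace Pool.Agent.CMP

open Finset Pool.Agent.Helper45.NC
open scoped ComplexConjugate

/-- the kernel vector of a singular nonzero symmetric matrix -/
theorem gordanN_ker (x y w : ℝ) (hdet : x * w = y ^ 2) (hne : ¬ (x = 0 ∧ y = 0 ∧ w = 0)) :
    ∃ k₁ k₂ : ℝ, (k₁ ≠ 0 ∨ k₂ ≠ 0) ∧ x * k₁ + y * k₂ = 0 ∧ y * k₁ + w * k₂ = 0 ∧
      ∀ m₁ m₂ : ℝ, x * m₁ + y * m₂ = 0 → y * m₁ + w * m₂ = 0 →
        ∃ t : ℝ, m₁ = t * k₁ ∧ m₂ = t * k₂ := by
  by_cases hx : x = 0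
  · have hy : y = 0 := by
      rw [hx] at hdet
      have : y ^ 2 = 0 := by linarith
      exact pow_eq_zero_iff (n := 2) (by norm_num) |>.1 this
    have hw : w ≠ 0 := fun h => hne ⟨hx, hy, h⟩
    refine ⟨1, 0, Or.inl one_ne_zero, by rw [hx]; ring, by rw [hy]; ring, ?_⟩
    intro m₁ m₂ _ h2
    refine ⟨m₁, by ring, ?_⟩
    rw [hy] at h2
    have : w * m₂ = 0 := by linarith
    rw [(mul_eq_zero.1 this).resolve_left hw]
    ring
  · refine ⟨-y, x, Or.inr hx, by ring, by linarith [hdet], ?_⟩
    intro m₁ m₂ h1 _
    refine ⟨m₂ / x, ?_, ?_⟩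
    · field_simp
      linarith
    · field_simp

theorem thm_GordanN (hGordan : St_Gordan) (hGenSupp : St_GenSupp) : St_GordanN := by
  classical
  intro n b P Q a x α β γ hgen _ hβ hnz
  -- kernel data
  have hk : ∀ l : Fin n, ∃ k : ℝ × ℝ, ev α (b l) * ev γ (b l) = ev β (b l) ^ 2 →
      (k.1 ≠ 0 ∨ k.2 ≠ 0) ∧ ev α (b l) * k.1 + ev β (b l) * k.2 = 0 ∧
      ev β (b l) * k.1 + ev γ (b l) * k.2 = 0 ∧
      ∀ m₁ m₂ : ℝ, ev α (b l) * m₁ + ev β (b l) * m₂ = 0 →
        ev β (b l) * m₁ + ev γ (b l) * m₂ = 0 → ∃ t : ℝ, m₁ = t * k.1 ∧ m₂ = t * k.2 := by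
    intro l
    by_cases hdet : ev α (b l) * ev γ (b l) = ev β (b l) ^ 2
    · obtain ⟨k₁, k₂, h1, h2, h3, h4⟩ := gordanN_ker _ _ _ hdet (hnz l)
      exact ⟨(k₁, k₂), fun _ => ⟨h1, h2, h3, h4⟩⟩
    · exact ⟨(0, 0), fun h => absurd h hdet⟩
  choose k hk using hk
  let S : Fin n → Prop := fun l => ev α (b l) * ev γ (b l) = ev β (b l) ^ 2
  let pt : Option (Fin n) → ℂ := fun i => match i with
    | none => a
    | some l => if S l then b l else a
  let c : Option (Fin n) → Fin 3 → ℝ := fun i => match i with
    | none => ![-1, 0, 0]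
    | some l => if S l then ![(k l).1 ^ 2, 2 * (k l).1 * (k l).2, (k l).2 ^ 2] else ![-1, 0, 0]
  let w : Option (Fin n) → Pen := fun i j m => c i j * (![1, (pt i).re, (pt i).im] m)
  have hval : ∀ (N : Pen) (i : Option (Fin n)), ∑ j, ∑ m, N j m * w i j m =
      c i 0 * ev (N 0) (pt i) + c i 1 * ev (N 1) (pt i) + c i 2 * ev (N 2) (pt i) := by
    intro N i
    simp only [w, Fin.sum_univ_three, ev, Matrix.cons_val_zero, Matrix.cons_val_one,
      Matrix.cons_val_two, Matrix.head_cons, Matrix.tail_cons, Matrix.cons_val]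
    ring
  rcases hGordan (Option (Fin n)) w with ⟨N, hN⟩ | ⟨y, hy0, ⟨i₀, hi₀⟩, hy⟩
  · refine ⟨N, ?_, ?_⟩
    · have h := lt_of_lt_of_eq (hN none) (hval N none)
      simp only [c, pt, Matrix.cons_val_zero, Matrix.cons_val_one, Matrix.cons_val_two,
        Matrix.head_cons, Matrix.tail_cons, Matrix.cons_val] at h
      linarith
    · intro l m₁ m₂ hm h1 h2
      have hdet : S l := by
        show ev α (b l) * ev γ (b l) = ev β (b l) ^ 2
        by_contra hne
        have e1 : (ev α (b l) * ev γ (b l) - ev β (b l) ^ 2) * m₁ = 0 := by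
          linear_combination ev γ (b l) * h1 - ev β (b l) * h2
        have e2 : (ev α (b l) * ev γ (b l) - ev β (b l) ^ 2) * m₂ = 0 := by
          linear_combination ev α (b l) * h2 - ev β (b l) * h1
        have hne' : ev α (b l) * ev γ (b l) - ev β (b l) ^ 2 ≠ 0 := sub_ne_zero.2 hne
        rcases hm with hm | hm
        · exact hm ((mul_eq_zero.1 e1).resolve_left hne')
        · exact hm ((mul_eq_zero.1 e2).resolve_left hne')
      obtain ⟨t, ht1, ht2⟩ := (hk l hdet).2.2.2 m₁ m₂ h1 h2
      have ht : t ≠ 0 := by
        rintro rfl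
        rcases hm with hm | hm
        · exact hm (by rw [ht1]; ring)
        · exact hm (by rw [ht2]; ring)
      have h := lt_of_lt_of_eq (hN (some l)) (hval N (some l))
      simp only [c, pt, if_pos hdet, Matrix.cons_val_zero, Matrix.cons_val_one,
        Matrix.cons_val_two, Matrix.head_cons, Matrix.tail_cons, Matrix.cons_val] at h
      have e : ev (N 0) (b l) * m₁ ^ 2 + 2 * ev (N 1) (b l) * m₁ * m₂ + ev (N 2) (b l) * m₂ ^ 2 =
          t ^ 2 * ((k l).1 ^ 2 * ev (N 0) (b l) + 2 * (k l).1 * (k l).2 * ev (N 1) (b l) +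
            (k l).2 ^ 2 * ev (N 2) (b l)) := by
        rw [ht1, ht2]; ring
      rw [e]
      exact mul_pos (by positivity) h
  · exfalso
    -- the relations for all affine functions
    have hrel : ∀ (j : Fin 3) (h : Fin 3 → ℝ), ∑ i, y i * c i j * ev h (pt i) = 0 := by
      intro j h
      have e : ∀ i, y i * c i j * ev h (pt i) = h 0 * (y i * w i j 0) + h 1 * (y i * w i j 1) +
          h 2 * (y i * w i j 2) := by
        intro i
        simp only [w, ev, Matrix.cons_val_zero, Matrix.cons_val_one,
          Matrix.cons_val_two, Matrix.head_cons, Matrix.tail_cons, Matrix.cons_val]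
        ring
      simp only [e, Finset.sum_add_distrib, ← Finset.mul_sum, hy]
      ring
    have hrelo : ∀ (j : Fin 3) (h : Fin 3 → ℝ), y none * c none j * ev h a +
        ∑ l, y (some l) * c (some l) j * ev h (pt (some l)) = 0 := by
      intro j h
      have := hrel j h
      rw [Fintype.sum_option] at this
      exact this
    have hc2 : ∀ h : Fin 3 → ℝ, ∑ l, (if S l then y (some l) * (k l).2 ^ 2 else 0) *
        ev h (pt (some l)) = 0 := by
      intro h
      have h2 := hrelo 2 h
      have e0 : c none 2 = 0 := by simp [c]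
      rw [e0, mul_zero, zero_mul, zero_add] at h2
      refine Eq.trans (Finset.sum_congr rfl (fun l _ => ?_)) h2
      by_cases hS : S l
      · simp [c, hS]
      · simp [c, hS]
    have hk2 : ∀ l, S l → y (some l) * (k l).2 ^ 2 = 0 := by
      have h := hc2 ![1, 0, 0]
      simp only [ev_mk, zero_mul, add_zero, mul_one] at h
      rw [Finset.sum_eq_zero_iff_of_nonneg] at h
      · intro l hS
        have := h l (Finset.mem_univ l)
        rwa [if_pos hS] at this
      · intro l _
        split_ifs
        · exact mul_nonneg (hy0 _) (sq_nonneg _)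
        · exact le_rfl
    set κ : ℝ := y none + ∑ l, (if S l then 0 else y (some l)) with hκ
    have hc1 : ∀ h : Fin 3 → ℝ, ∑ l, (if S l then y (some l) * (k l).1 ^ 2 else 0) *
        ev h (b l) = κ * ev h a := by
      intro h
      have h1 := hrelo 0 h
      have e0 : c none 0 = -1 := by simp [c]
      have e1 : ∀ l, y (some l) * c (some l) 0 * ev h (pt (some l)) =
          (if S l then y (some l) * (k l).1 ^ 2 else 0) * ev h (b l) -
          (if S l then 0 else y (some l)) * ev h a := by
        intro l
        by_cases hS : S l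
        · simp [c, pt, hS]
        · simp [c, pt, hS]
      rw [e0, Finset.sum_congr rfl (fun l _ => e1 l), Finset.sum_sub_distrib,
        ← Finset.sum_mul Finset.univ (fun l => if S l then 0 else y (some l))] at h1
      rw [hκ, add_mul]
      linarith
    have hκ0 : 0 ≤ κ := by
      rw [hκ]
      refine add_nonneg (hy0 _) (Finset.sum_nonneg (fun l _ => ?_))
      split_ifs
      · exact le_rfl
      · exact hy0 _
    have hκpos : 0 < κ := by
      rcases hκ0.lt_or_eq with h | h
      · exact h
      · exfalso
        have hn : y none = 0 := by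
          have h2 : 0 ≤ ∑ l, (if S l then 0 else y (some l)) := by
            refine Finset.sum_nonneg (fun l _ => ?_)
            split_ifs
            · exact le_rfl
            · exact hy0 _
          have h3 := hy0 none
          linarith
        have hoff : ∀ l, ¬ S l → y (some l) = 0 := by
          have h2 : ∑ l, (if S l then 0 else y (some l)) = 0 := by linarith
          rw [Finset.sum_eq_zero_iff_of_nonneg] at h2
          · intro l hS
            have := h2 l (Finset.mem_univ l)
            rwa [if_neg hS] at this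
          · intro l _
            split_ifs
            · exact le_rfl
            · exact hy0 _
        have h1 := hc1 ![1, 0, 0]
        simp only [ev_mk, zero_mul, add_zero, mul_one] at h1
        rw [← h] at h1
        rw [Finset.sum_eq_zero_iff_of_nonneg] at h1
        · cases i₀ with
          | none => exact hi₀ hn
          | some l =>
            by_cases hS : S l
            · have h4 := h1 l (Finset.mem_univ l)
              rw [if_pos hS] at h4
              have h5 := hk2 l hS
              rcases (hk l hS).1 with h6 | h6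
              · exact (mul_ne_zero hi₀ (pow_ne_zero 2 h6)) h4
              · exact (mul_ne_zero hi₀ (pow_ne_zero 2 h6)) h5
            · exact hi₀ (hoff l hS)
        · intro l _
          split_ifs
          · exact mul_nonneg (hy0 _) (sq_nonneg _)
          · exact le_rfl
    apply hβ
    refine hGenSupp n b a (fun l => (if S l then y (some l) * (k l).1 ^ 2 else 0) / κ) β hgen ?_ ?_
    · intro f
      have h := hc1 f
      have e : ∀ l, (if S l then y (some l) * (k l).1 ^ 2 else 0) / κ * ev f (b l) =
          (1 / κ) * ((if S l then y (some l) * (k l).1 ^ 2 else 0) * ev f (b l)) := by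
        intro l; ring
      simp only [e]
      rw [← Finset.mul_sum, h]
      field_simp
    · intro l hl
      have hS : S l := by
        by_contra hS
        apply hl
        simp [hS]
      have h1 : y (some l) * (k l).1 ^ 2 ≠ 0 := by
        intro h0
        apply hl
        simp [h0]
      have hyl : y (some l) ≠ 0 := fun h => h1 (by rw [h, zero_mul])
      have hk1 : (k l).1 ≠ 0 := fun h => h1 (by rw [h]; ring)
      have hk20 : (k l).2 = 0 := by
        have := (mul_eq_zero.1 (hk2 l hS)).resolve_left hyl
        exact pow_eq_zero_iff (n := 2) (by norm_num) |>.1 this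
      have h3 := (hk l hS).2.2.1
      rw [hk20, mul_zero, add_zero] at h3
      exact (mul_eq_zero.1 h3).resolve_right hk1

end Pool.Agent.CMP
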