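import Mathlib
import Pool.Agent.CMP.Basic

set_option autoImplicit false

namespace Pool.Agent.CMP

open Finset Pool.Agent.Helper45.NC
open scoped ComplexConjugate

theorem Hull_sum {β : Multiset ℂ} {h : Fin 3 → ℝ} (hβ : ∀ z ∈ β, 0 < ev h z) :
    (β.map (fun z => neg (ev h z))).sum = 0 := by
  apply Multiset.sum_eq_zero
  intro x hx
  obtain ⟨z, hz, rfl⟩ := Multiset.mem_map.1 hx
  unfold neg
  rw [if_neg (not_lt.2 (hβ z hz).le)]

theorem thm_Hull (hC1 : St_C1) (hSep : St_Sep) : St_Hull := by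
  intro a₁ a₂ β hC
  constructor
  · by_contra hcon
    obtain ⟨h, h1, h2⟩ := hSep a₁ β hcon
    have h3 := hC1 a₁ a₂ β hC h
    rw [Hull_sum h2] at h3
    have h4 : neg (ev h a₁) = 1 := if_pos h1
    omega
  · by_contra hcon
    obtain ⟨h, h1, h2⟩ := hSep a₂ β hcon
    have h3 := hC1 a₁ a₂ β hC h
    rw [Hull_sum h2] at h3
    have h4 : neg (ev h a₂) = 1 := if_pos h1
    omega

end Pool.Agent.CMP
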