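import Mathlib
import Pool.Agent.CMP.Basic

set_option autoImplicit false

namespace Pool.Agent.CMP

open Finset Pool.Agent.Helper45.NC
open scoped ComplexConjugate

theorem Index_rel {I : Type*} [Fintype I] [DecidableEq I] (T : Finset I) (v : I → Fin 3 → ℝ)
    (hT : 3 < T.card) : ∃ c : I → ℝ, (∀ i, i ∉ T → c i = 0) ∧ (∃ i, c i ≠ 0) ∧
      ∀ k, ∑ i, c i * v i k = 0 := by
  classical
  let Φ : ({i // i ∈ T} → ℝ) →ₗ[ℝ] (Fin 3 → ℝ) :=
    { toFun := fun c k => ∑ i : {i // i ∈ T}, c i * v i k
      map_add' := by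
        intro x y; funext k
        simp only [Pi.add_apply, add_mul, Finset.sum_add_distrib]
      map_smul' := by
        intro r x; funext k
        simp only [Pi.smul_apply, smul_eq_mul, RingHom.id_apply, Finset.mul_sum, mul_assoc] }
  have hlt : Module.finrank ℝ (Fin 3 → ℝ) < Module.finrank ℝ ({i // i ∈ T} → ℝ) := by
    rw [Module.finrank_fintype_fun_eq_card, Module.finrank_fintype_fun_eq_card]
    simpa using hT
  have hker := LinearMap.ker_ne_bot_of_finrank_lt (f := Φ) hlt
  obtain ⟨c, hc, hc0⟩ := (Submodule.ne_bot_iff _).1 hker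
  have hc' : ∀ k, ∑ i : {i // i ∈ T}, c i * v i k = 0 := by
    intro k
    have := congrFun (LinearMap.mem_ker.1 hc) k
    simpa [Φ] using this
  refine ⟨fun i => if h : i ∈ T then c ⟨i, h⟩ else 0, ?_, ?_, ?_⟩
  · intro i hi
    simp [hi]
  · have : ∃ i, c i ≠ 0 := by
      by_contra hcon
      push Not at hcon
      exact hc0 (funext hcon)
    obtain ⟨i, hi⟩ := this
    exact ⟨i.1, by simpa [i.2] using hi⟩
  · intro k
    have h1 : ∑ i, (if h : i ∈ T then c ⟨i, h⟩ else 0) * v i k =
        ∑ i ∈ T, (if h : i ∈ T then c ⟨i, h⟩ else 0) * v i k := by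
      symm
      apply Finset.sum_subset (Finset.subset_univ T)
      intro i _ hi
      simp [hi]
    rw [h1, ← Finset.sum_coe_sort T]
    refine Eq.trans ?_ (hc' k)
    refine Finset.sum_congr rfl (fun i _ => ?_)
    simp [i.2]

theorem thm_Index : St_Index := by
  intro n b P Q a x α β γ hax hM
  obtain ⟨hP, hQ, hPQ, r1, r2, hso⟩ := hM
  classical
  have va : ev α a = 0 := by
    rw [← hP α]
    have h1 : ∀ l, P l ^ 2 * ev α (b l) = - (P l * Q l * ev β (b l)) := by
      intro l; linear_combination P l * r1 l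
    simp only [h1, Finset.sum_neg_distrib, hPQ β, neg_zero]
  have vx : ev γ x = 0 := by
    rw [← hQ γ]
    have h1 : ∀ l, Q l ^ 2 * ev γ (b l) = - (P l * Q l * ev β (b l)) := by
      intro l; linear_combination Q l * r2 l
    simp only [h1, Finset.sum_neg_distrib, hPQ β, neg_zero]
  -- vanishing vectors
  have hzero : ∀ l, P l = 0 → Q l = 0 → nu (ev α (b l)) (ev β (b l)) (ev γ (b l)) = 0 := by
    intro l h1 h2
    have key : ∀ s t : ℝ, 0 ≤ ev α (b l) * s ^ 2 + 2 * ev β (b l) * s * t + ev γ (b l) * t ^ 2 := by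
      intro s t
      have := hso (fun i => if i = l then s else 0) (fun i => if i = l then t else 0) (by
        intro h
        apply Finset.sum_eq_zero
        intro i _
        by_cases hi : i = l
        · subst hi; rw [h1, h2]; ring
        · simp [hi])
      rw [Finset.sum_eq_single l] at this
      · simpa using this
      · intro i _ hi
        simp [hi]
      · simp
    rw [nu_zero_iff]
    have k1 := key 1 0
    have k2 := key 0 1
    simp only [one_pow, mul_one, mul_zero, add_zero, ne_eq, OfNat.ofNat_ne_zero,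
      not_false_eq_true, zero_pow, zero_add] at k1 k2
    refine ⟨k1, k2, ?_⟩
    have k3 := key (ev β (b l)) (-(ev α (b l)))
    have k4 := key (ev γ (b l)) (-(ev β (b l)))
    by_contra hcon
    push Not at hcon
    rcases eq_or_lt_of_le k1 with h | h
    · -- α = 0
      have h' : ev β (b l) ≠ 0 := by
        intro h0
        rw [← h, h0] at hcon
        simp at hcon
      have k5 := key (-(ev γ (b l) + 1) / (2 * ev β (b l))) 1
      rw [← h] at k5
      have : 2 * ev β (b l) * (-(ev γ (b l) + 1) / (2 * ev β (b l))) = -(ev γ (b l) + 1) := by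
        field_simp
      rw [this] at k5
      nlinarith
    · nlinarith
  have hdet : ∀ l, ¬ (P l = 0 ∧ Q l = 0) → ev α (b l) * ev γ (b l) = ev β (b l) ^ 2 := by
    intro l h
    have e1 : (ev α (b l) * ev γ (b l) - ev β (b l) ^ 2) * P l = 0 := by
      linear_combination ev γ (b l) * r1 l - ev β (b l) * r2 l
    have e2 : (ev α (b l) * ev γ (b l) - ev β (b l) ^ 2) * Q l = 0 := by
      linear_combination ev α (b l) * r2 l - ev β (b l) * r1 l
    by_contra hne
    have hne' : ev α (b l) * ev γ (b l) - ev β (b l) ^ 2 ≠ 0 := fun h0 => hne (by linarith)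
    exact h ⟨(mul_eq_zero.1 e1).resolve_left hne', (mul_eq_zero.1 e2).resolve_left hne'⟩
  let N : Finset (Fin n) := Finset.univ.filter
    (fun l => nu (ev α (b l)) (ev β (b l)) (ev γ (b l)) ≠ 0)
  have hN1 : ∀ l ∈ N, ¬ (P l = 0 ∧ Q l = 0) := by
    intro l hl h
    exact (Finset.mem_filter.1 hl).2 (hzero l h.1 h.2)
  have hN2 : ∀ l ∈ N, ev α (b l) + ev γ (b l) < 0 := by
    intro l hl
    have h1 := hdet l (hN1 l hl)
    have h2 := (Finset.mem_filter.1 hl).2
    by_contra hcon
    push Not at hcon
    apply h2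
    rw [nu_zero_iff]
    have h3 := sq_nonneg (ev β (b l))
    refine ⟨?_, ?_, h1.ge⟩
    · by_contra hx
      push Not at hx
      nlinarith
    · by_contra hx
      push Not at hx
      nlinarith
  have hsum : ∑ l, nu (ev α (b l)) (ev β (b l)) (ev γ (b l)) = N.card := by
    rw [Finset.card_eq_sum_ones, Finset.sum_filter]
    refine Finset.sum_congr rfl (fun l _ => ?_)
    by_cases hl : nu (ev α (b l)) (ev β (b l)) (ev γ (b l)) = 0
    · rw [if_neg (by simpa using hl), hl]
    · rw [if_pos hl]
      have h1 := nu_le_two (ev α (b l)) (ev β (b l)) (ev γ (b l))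
      have h2 : nu (ev α (b l)) (ev β (b l)) (ev γ (b l)) ≠ 2 := by
        rw [Ne, nu_two_iff]
        rintro ⟨_, h⟩
        have := hdet l (fun hh => hl (hzero l hh.1 hh.2))
        linarith
      omega
  rw [hsum]
  by_contra hcon
  push Not at hcon
  -- the linear relation
  let E : Finset Bool := Finset.univ.filter (fun e => if e then ¬ ev α x < 0 else ¬ ev γ a < 0)
  have hE : E.card + (neg (ev γ a) + neg (ev α x)) = 2 := by
    simp only [E, neg]
    by_cases h1 : ev γ a < 0 <;> by_cases h2 : ev α x < 0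
    · simp [h1, h2, Finset.filter]
    · have : (Finset.univ.filter (fun e : Bool => if e then ¬ ev α x < 0 else ¬ ev γ a < 0)) = {true} := by
        ext e; cases e <;> simp [h1, h2]
      rw [this]; simp [h1, h2]
    · have : (Finset.univ.filter (fun e : Bool => if e then ¬ ev α x < 0 else ¬ ev γ a < 0)) = {false} := by
        ext e; cases e <;> simp [h1, h2]
      rw [this]; simp [h1, h2]
    · have : (Finset.univ.filter (fun e : Bool => if e then ¬ ev α x < 0 else ¬ ev γ a < 0)) = Finset.univ := by
        ext e; cases e <;> simp [h1, h2]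
      rw [this]; simp [h1, h2]
  have hT : 3 < (N.disjSum E).card := by
    rw [Finset.card_disjSum]
    omega
  obtain ⟨c, hc1, hc2, hc3⟩ := Index_rel (N.disjSum E)
    (Sum.elim (fun l => ![1, (b l).re, (b l).im])
      (fun e => if e then ![-1, -x.re, -x.im] else ![-1, -a.re, -a.im])) hT
  set A := c (Sum.inr false) with hA
  set B := c (Sum.inr true) with hB
  have hA0 : ev γ a < 0 → A = 0 := by
    intro h
    apply hc1
    simp [E, h]
  have hB0 : ev α x < 0 → B = 0 := by
    intro h
    apply hc1
    simp [E, h]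
  let s : Fin n → ℝ := fun l => c (Sum.inl l)
  have hs0 : ∀ l, l ∉ N → s l = 0 := by
    intro l hl
    apply hc1
    simpa using hl
  have hrel : ∀ h : Fin 3 → ℝ, ∑ l, s l * ev h (b l) = A * ev h a + B * ev h x := by
    intro h
    have e0 := hc3 0
    have e1 := hc3 1
    have e2 := hc3 2
    simp only [Fintype.sum_sum_type, Sum.elim_inl, Sum.elim_inr, Fintype.sum_bool] at e0 e1 e2
    simp at e0 e1 e2
    have e3 : ∑ l, s l * ev h (b l) = h 0 * ∑ l, s l + h 1 * ∑ l, s l * (b l).re +
        h 2 * ∑ l, s l * (b l).im := by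
      rw [Finset.mul_sum, Finset.mul_sum, Finset.mul_sum, ← Finset.sum_add_distrib,
        ← Finset.sum_add_distrib]
      refine Finset.sum_congr rfl (fun l _ => ?_)
      unfold ev; ring
    rw [e3]
    simp only [s]
    unfold ev
    linear_combination h 0 * e0 + h 1 * e1 + h 2 * e2
  have hsne : ∃ l ∈ N, s l ≠ 0 := by
    by_contra hcon2
    push Not at hcon2
    have hs : ∀ l, s l = 0 := by
      intro l
      by_cases hl : l ∈ N
      · exact hcon2 l hl
      · exact hs0 l hl
    have hz : ∀ h : Fin 3 → ℝ, A * ev h a + B * ev h x = 0 := by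
      intro h
      rw [← hrel h]
      simp [hs]
    have z0 := hz ![1, 0, 0]
    have z1 := hz ![0, 1, 0]
    have z2 := hz ![0, 0, 1]
    simp only [ev_mk, zero_mul, one_mul, add_zero, mul_one, zero_add] at z0 z1 z2
    have hAz : A = 0 := by
      by_contra hne
      apply hax
      have hBA : B = -A := by linarith
      rw [hBA] at z1 z2
      apply Complex.ext
      · have : A * (a.re - x.re) = 0 := by linarith
        have := (mul_eq_zero.1 this).resolve_left hne
        linarith
      · have : A * (a.im - x.im) = 0 := by linarith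
        have := (mul_eq_zero.1 this).resolve_left hne
        linarith
    have hBz : B = 0 := by rw [hAz] at z0; linarith
    obtain ⟨i, hi⟩ := hc2
    rcases i with l | e
    · exact hi (hs l)
    · cases e
      · exact hi hAz
      · exact hi hBz
  -- the variation
  let w : Fin n → ℝ := fun l => s l / (P l ^ 2 + Q l ^ 2)
  have hw : ∀ l, w l * (P l ^ 2 + Q l ^ 2) = s l := by
    intro l
    by_cases hl : P l = 0 ∧ Q l = 0
    · have : l ∉ N := fun h => hN1 l h hl
      rw [hs0 l this, hl.1, hl.2]; ring
    · have : P l ^ 2 + Q l ^ 2 ≠ 0 := by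
        intro h
        apply hl
        constructor <;> nlinarith [sq_nonneg (P l), sq_nonneg (Q l)]
      simp only [w]
      field_simp
  have hineq := hso (fun l => (B - w l) * Q l) (fun l => (w l - A) * P l) (by
    intro h
    have e1 : ∀ l, (P l * ((w l - A) * P l) - Q l * ((B - w l) * Q l)) * ev h (b l) =
        s l * ev h (b l) - A * (P l ^ 2 * ev h (b l)) - B * (Q l ^ 2 * ev h (b l)) := by
      intro l
      linear_combination ev h (b l) * hw l
    simp only [e1, Finset.sum_sub_distrib, ← Finset.mul_sum, hP, hQ, hrel]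
    ring)
  have hform : ∀ l, ev α (b l) * ((B - w l) * Q l) ^ 2 +
      2 * ev β (b l) * ((B - w l) * Q l) * ((w l - A) * P l) +
      ev γ (b l) * ((w l - A) * P l) ^ 2 =
      (ev α (b l) + ev γ (b l)) * (w l * s l) - 2 * (B * (s l * ev α (b l)) + A * (s l * ev γ (b l)))
      + B ^ 2 * (Q l ^ 2 * ev α (b l)) + A ^ 2 * (P l ^ 2 * ev γ (b l)) +
      2 * (A * B) * (Q l ^ 2 * ev γ (b l)) := by
    intro l
    rw [← hw l]
    have q1 := r1 l
    have q2 := r2 l
    -- κ relations: α P² = γ Q² = - β P Q
    have k1 : ev α (b l) * P l ^ 2 = - (ev β (b l) * P l * Q l) := by linear_combination P l * q1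
    have k2 : ev γ (b l) * Q l ^ 2 = - (ev β (b l) * P l * Q l) := by linear_combination Q l * q2
    linear_combination (-(w l) ^ 2 + 2 * B * w l) * k1 + (-(w l) ^ 2 + 2 * A * w l - 2 * A * B) * k2
  simp only [hform, Finset.sum_add_distrib, Finset.sum_sub_distrib, ← Finset.mul_sum, hP, hQ, hrel,
    va, vx] at hineq
  have hneg : ∑ l, (ev α (b l) + ev γ (b l)) * (w l * s l) < 0 := by
    obtain ⟨l₀, hl₀, hne⟩ := hsne
    apply Finset.sum_neg'
    · intro l _
      by_cases hl : l ∈ N
      · have h1 := hN2 l hl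
        have h2 : 0 ≤ w l * s l := by
          rw [← hw l]
          have : w l * (w l * (P l ^ 2 + Q l ^ 2)) = w l ^ 2 * (P l ^ 2 + Q l ^ 2) := by ring
          rw [this]
          positivity
        nlinarith
      · rw [hs0 l hl]; simp
    · refine ⟨l₀, Finset.mem_univ _, ?_⟩
      have h1 := hN2 l₀ hl₀
      have h2 : 0 < w l₀ * s l₀ := by
        have hw0 : w l₀ ≠ 0 := by
          intro h
          apply hne
          rw [← hw l₀, h, zero_mul]
        have hpos : 0 < P l₀ ^ 2 + Q l₀ ^ 2 := by
          rcases not_and_or.1 (hN1 l₀ hl₀) with h | h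
          · have := sq_pos_of_ne_zero h
            nlinarith [sq_nonneg (Q l₀)]
          · have := sq_pos_of_ne_zero h
            nlinarith [sq_nonneg (P l₀)]
        rw [← hw l₀]
        have : w l₀ * (w l₀ * (P l₀ ^ 2 + Q l₀ ^ 2)) = w l₀ ^ 2 * (P l₀ ^ 2 + Q l₀ ^ 2) := by ring
        rw [this]
        exact mul_pos (sq_pos_of_ne_zero hw0) hpos
      nlinarith
  have hAa : 0 ≤ A ^ 2 * ev γ a := by
    by_cases h : ev γ a < 0
    · rw [hA0 h]; simp
    · push Not at h
      positivity
  have hBx : 0 ≤ B ^ 2 * ev α x := by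
    by_cases h : ev α x < 0
    · rw [hB0 h]; simp
    · push Not at h
      positivity
  nlinarith

end Pool.Agent.CMP
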