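import Mathlib
import Pool.Agent.CMP.Basic

set_option autoImplicit false

namespace Pool.Agent.CMP

open Finset Pool.Agent.Helper45.NC
open scoped ComplexConjugate

theorem int3_card_filter (x : ℝ) (S : Multiset ℝ) (t : ℝ) :
    ((x ::ₘ S).filter (fun s => t < s)).card =
      (S.filter (fun s => t < s)).card + (if t < x then 1 else 0) := by
  by_cases h : t < x
  · rw [Multiset.filter_cons_of_pos (p := fun s => t < s) S h, Multiset.card_cons, if_pos h]
  · rw [Multiset.filter_cons_of_neg (p := fun s => t < s) S h, if_neg h]
    simp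

theorem thm_Int3 : St_Int3 := by
  intro x u y v w h1 h2 h3 h4
  apply OnLine.mdil
  refine ⟨0, u ::ₘ v ::ₘ 0, x ::ₘ y ::ₘ w ::ₘ 0, 0, 1, one_ne_zero, ?_, ?_, ?_⟩
  · simp
  · simp
  · refine ⟨by simp, ?_⟩
    intro t
    simp only [int3_card_filter, Multiset.filter_zero, Multiset.card_zero]
    by_cases a1 : t < x
    · have b1 : t < u := lt_of_lt_of_le a1 h1
      have b2 : t < y := lt_of_lt_of_le b1 h2
      have b3 : t < v := lt_of_lt_of_le b2 h3
      have b4 : t < w := lt_of_lt_of_le b3 h4
      rw [if_pos a1, if_pos b1, if_pos b2, if_pos b3, if_pos b4]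
      omega
    · by_cases b1 : t < u
      · have b2 : t < y := lt_of_lt_of_le b1 h2
        have b3 : t < v := lt_of_lt_of_le b2 h3
        have b4 : t < w := lt_of_lt_of_le b3 h4
        rw [if_neg a1, if_pos b1, if_pos b2, if_pos b3, if_pos b4]
        omega
      · by_cases b2 : t < y
        · have b3 : t < v := lt_of_lt_of_le b2 h3
          have b4 : t < w := lt_of_lt_of_le b3 h4
          rw [if_neg a1, if_neg b1, if_pos b2, if_pos b3, if_pos b4]
          omega
        · by_cases b3 : t < v
          · have b4 : t < w := lt_of_lt_of_le b3 h4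
            rw [if_neg a1, if_neg b1, if_neg b2, if_pos b3, if_pos b4]
            omega
          · by_cases b4 : t < w
            · rw [if_neg a1, if_neg b1, if_neg b2, if_neg b3, if_pos b4]
              omega
            · rw [if_neg a1, if_neg b1, if_neg b2, if_neg b3, if_neg b4]
              omega

end Pool.Agent.CMP
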