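import Mathlib
import Pool.Agent.CMP.Basic

set_option autoImplicit false

namespace Pool.Agent.CMP

open Finset Pool.Agent.Helper45.NC
open scoped ComplexConjugate

theorem K1_weights {n : ℕ} (b : Fin n → ℂ) (a : ℂ) (h : a ∈ convexHull ℝ (Set.range b)) :
    ∃ w : Fin n → ℝ, (∀ l, 0 ≤ w l) ∧ ∑ l, w l = 1 ∧ ∑ l, (w l : ℂ) * b l = a := by
  rw [convexHull_range_eq_exists_affineCombination] at h
  obtain ⟨s, w, hw0, hw1, hs⟩ := h
  rw [Finset.affineCombination_eq_linear_combination _ _ _ hw1] at hs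
  classical
  refine ⟨fun l => if l ∈ s then w l else 0, fun l => ?_, ?_, ?_⟩
  · by_cases hl : l ∈ s
    · simpa [hl] using hw0 l hl
    · simp [hl]
  · rw [← hw1]
    rw [Finset.sum_ite_mem, Finset.univ_inter]
  · rw [← hs]
    have h1 : ∀ l, (((if l ∈ s then w l else 0 : ℝ) : ℝ) : ℂ) * b l =
        if l ∈ s then w l • b l else 0 := by
      intro l
      by_cases hl : l ∈ s
      · simp [hl]
      · simp [hl]
    rw [Finset.sum_congr rfl fun l _ => h1 l, Finset.sum_ite_mem, Finset.univ_inter]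

theorem thm_K1 : St_K1 := by
  intro a β ha
  obtain ⟨b, hb⟩ := exists_ms β
  rw [← hb] at ha ⊢
  have hr : pts (ms b) = Set.range b := by
    ext z
    show z ∈ ms b ↔ _
    rw [mem_ms]
    rfl
  rw [hr] at ha
  obtain ⟨w, hw0, hw1, hwa⟩ := K1_weights b a ha
  have key : Dil (fun _ : Unit => a) b := by
    obtain ⟨W, hW⟩ : ∃ W : Matrix (Fin β.card) Unit ℂ,
        ∀ l i, W l i = ((Real.sqrt (w l) : ℝ) : ℂ) :=
      ⟨Matrix.of fun l _ => ((Real.sqrt (w l) : ℝ) : ℂ), fun l i => rfl⟩
    have hW' : ∀ l i, W.conjTranspose i l = ((Real.sqrt (w l) : ℝ) : ℂ) := by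
      intro l i
      rw [Matrix.conjTranspose_apply, hW]
      exact Complex.conj_ofReal _
    refine ⟨W, ?_, ?_⟩
    · ext i j
      rw [Matrix.mul_apply]
      have h2 : ∀ l, W.conjTranspose i l * W l j = ((w l : ℝ) : ℂ) := by
        intro l
        rw [hW', hW, ← Complex.ofReal_mul, Real.mul_self_sqrt (hw0 l)]
      rw [Finset.sum_congr rfl fun l _ => h2 l, ← Complex.ofReal_sum, hw1, Complex.ofReal_one,
        Subsingleton.elim i j, Matrix.one_apply_eq]
    · ext i j
      rw [Matrix.mul_apply]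
      have h2 : ∀ l, (W.conjTranspose * Matrix.diagonal b) i l * W l j =
          ((w l : ℝ) : ℂ) * b l := by
        intro l
        rw [Matrix.mul_diagonal, hW', hW, mul_right_comm, ← Complex.ofReal_mul,
          Real.mul_self_sqrt (hw0 l)]
      rw [Finset.sum_congr rfl fun l _ => h2 l, hwa, Subsingleton.elim i j,
        Matrix.diagonal_apply_eq]
  have h3 := MDil.of_dil key
  rwa [ms_unit] at h3

end Pool.Agent.CMP
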