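import Mathlib
import Pool.Agent.CMP.Basic

/-!
MP_ca8ee9_an, k = 2: module L (weak violation by a half plane).
-/

set_option autoImplicit false

namespace Pool.Agent.CMP

open Finset Pool.Agent.Helper45.NC
open scoped ComplexConjugate

theorem L_npos_of_ne {x : ℝ} (h : x ≠ 0) : npos x = neg x := by
  unfold npos neg
  rcases lt_or_gt_of_ne h with h1 | h1
  · rw [if_pos h1.le, if_pos h1]
  · rw [if_neg (not_le.2 h1), if_neg (not_lt.2 h1.le)]

theorem L_npos_zero : npos 0 = 1 := if_pos le_rfl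

theorem L_crit_symm {a₁ a₂ : ℂ} {β : Multiset ℂ} (h : Crit a₁ a₂ β) : Crit a₂ a₁ β := by
  intro M
  rw [add_comm]
  exact h M

theorem L_im (a : ℂ) : ev ![0, 0, 1] a = a.im := by
  rw [ev_mk, zero_mul, one_mul, add_zero, zero_add]

/-- the case `h = im` -/
theorem L_std (hL1 : St_L1) (hL2 : St_L2) (hC1 : St_C1) (a₁ a₂ : ℂ) (β : Multiset ℂ)
    (hC : Crit a₁ a₂ β) (h1 : a₁ ∉ β) (h2 : a₂ ∉ β)
    (hlt : (β.map (fun z => neg z.im)).sum < npos a₁.im + npos a₂.im) : MDil {a₁, a₂} β := by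
  by_cases i1 : a₁.im = 0
  · by_cases i2 : a₂.im = 0
    · refine hL2 a₁ a₂ β hC i1 i2 h1 h2 ?_
      rw [i1, i2, L_npos_zero] at hlt
      omega
    · refine hL1 a₁ a₂ β hC h1 i1 i2 ?_
      rw [i1, L_npos_zero, L_npos_of_ne i2] at hlt
      omega
  · by_cases i2 : a₂.im = 0
    · rw [Multiset.pair_comm]
      refine hL1 a₂ a₁ β (L_crit_symm hC) h2 i2 i1 ?_
      rw [i2, L_npos_zero, L_npos_of_ne i1] at hlt
      omega
    · exfalso
      have h3 := hC1 a₁ a₂ β hC ![0, 0, 1]
      have h4 : (fun z : ℂ => neg (ev ![0, 0, 1] z)) = fun z => neg z.im := by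
        funext z
        rw [L_im]
      rw [h4, L_im, L_im] at h3
      rw [L_npos_of_ne i1, L_npos_of_ne i2] at hlt
      omega

theorem thm_L (hL1 : St_L1) (hL2 : St_L2) (hAffM : St_AffM) (hAffC : St_AffC) (hC1 : St_C1) :
    St_L := by
  intro a₁ a₂ β hC ha1 ha2 h hne hlt
  by_cases hu : h 1 = 0 ∧ h 2 = 0
  · exfalso
    have hev : ∀ z, ev h z = h 0 := by
      intro z
      unfold ev
      rw [hu.1, hu.2, zero_mul, zero_mul, add_zero, add_zero]
    have h3 := hC1 a₁ a₂ β hC h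
    have h0 : h 0 ≠ 0 := by
      intro h0
      apply hne
      funext i
      fin_cases i
      · exact h0
      · exact hu.1
      · exact hu.2
    rw [hev a₁, hev a₂] at h3 hlt
    rw [L_npos_of_ne h0] at hlt
    omega
  · obtain ⟨u, hud⟩ : ∃ u : ℂ, u = ⟨h 2, h 1⟩ := ⟨_, rfl⟩
    have hu0 : u ≠ 0 := by
      intro h0
      apply hu
      rw [hud] at h0
      have e1 := congrArg Complex.re h0
      have e2 := congrArg Complex.im h0
      exact ⟨e2, e1⟩
    obtain ⟨c, hcd⟩ : ∃ c : ℂ, c = ⟨0, h 0⟩ := ⟨_, rfl⟩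
    have him : ∀ z : ℂ, (u * z + 0 * conj z + c).im = ev h z := by
      intro z
      rw [zero_mul, add_zero, Complex.add_im, Complex.mul_im, hud, hcd]
      unfold ev
      ring
    have hinv : ∀ z : ℂ, u⁻¹ * (u * z + 0 * conj z + c) + 0 * conj (u * z + 0 * conj z + c) +
        (-(u⁻¹ * c)) = z := by
      intro z
      have h1 : u⁻¹ * (u * z) = z := by rw [← mul_assoc, inv_mul_cancel₀ hu0, one_mul]
      rw [zero_mul, zero_mul, add_zero, add_zero, mul_add, h1]
      ring
    have hmem : ∀ a, a ∉ β → u * a + 0 * conj a + c ∉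
        β.map (fun z => u * z + 0 * conj z + c) := by
      intro a ha hm
      obtain ⟨z, hz, he⟩ := Multiset.mem_map.1 hm
      apply ha
      have h1 := hinv a
      rw [← he, hinv z] at h1
      rw [← h1]
      exact hz
    have hC' := hAffC u 0 c a₁ a₂ β hC
    have hd : MDil {u * a₁ + 0 * conj a₁ + c, u * a₂ + 0 * conj a₂ + c}
        (β.map (fun z => u * z + 0 * conj z + c)) := by
      refine L_std hL1 hL2 hC1 _ _ _ hC' (hmem a₁ ha1) (hmem a₂ ha2) ?_
      rw [him a₁, him a₂, Multiset.map_map]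
      have h4 : ((fun z : ℂ => neg z.im) ∘ fun z => u * z + 0 * conj z + c) =
          fun z => neg (ev h z) := by
        funext z
        show neg (u * z + 0 * conj z + c).im = _
        rw [him z]
      rw [h4]
      exact hlt
    have hd2 := hAffM u⁻¹ 0 (-(u⁻¹ * c)) _ _ hd
    rw [Multiset.map_map] at hd2
    have h5 : ((fun z : ℂ => u⁻¹ * z + 0 * conj z + (-(u⁻¹ * c))) ∘
        fun z => u * z + 0 * conj z + c) = fun z => z := by
      funext z
      exact hinv z
    rw [h5, Multiset.map_id'] at hd2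
    have h6 : ({u * a₁ + 0 * conj a₁ + c, u * a₂ + 0 * conj a₂ + c} : Multiset ℂ).map
        (fun z : ℂ => u⁻¹ * z + 0 * conj z + (-(u⁻¹ * c))) = {a₁, a₂} := by
      show (Multiset.cons (u * a₁ + 0 * conj a₁ + c)
        ({u * a₂ + 0 * conj a₂ + c} : Multiset ℂ)).map _ = _
      rw [Multiset.map_cons, Multiset.map_singleton, hinv a₁, hinv a₂]
      rfl
    rw [h6] at hd2
    exact hd2

end Pool.Agent.CMP
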