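import Mathlib
import Pool.Agent.CMP.Basic

set_option autoImplicit false

namespace Pool.Agent.CMP

open Finset Pool.Agent.Helper45.NC
open scoped ComplexConjugate

theorem L1_tilt (hTL : St_TL) (a₁ : ℝ) (a₂ : ℂ) (ρ : Multiset ℝ) (O : Multiset ℂ)
    (hC : Crit (a₁ : ℂ) a₂ (ρ.map (fun x : ℝ => (x : ℂ)) + O)) (ha₂ : a₂.im ≠ 0)
    (hO : ∀ z ∈ O, z.im ≠ 0) (hneg : (O.map (fun z => neg z.im)).sum ≤ neg a₂.im)
    (s t : ℝ) : neg (s * a₁ + t) ≤ (ρ.map (fun x => neg (s * x + t))).sum := by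
  have h1 : ∀ z : ℂ, ev ![1, 0, 0] z = 1 := by
    intro z; rw [ev_mk]; ring
  have hn1 : neg 1 = 0 := by
    unfold neg; rw [if_neg (by norm_num)]
  have h := hTL a₁ a₂ _ ![t, s, 0] 0 ![1, 0, 0] hC (fun z _ _ => by rw [h1]; exact one_ne_zero)
    (fun _ => by rw [h1]; exact one_ne_zero) (fun _ => by rw [h1]; exact one_ne_zero)
  have hk : ∀ z : ℂ, kap ![t, s, 0] 0 ![1, 0, 0] z =
      if z.im = 0 then neg (s * z.re + t) else neg z.im := by
    intro z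
    unfold kap
    by_cases h0 : z.im = 0
    · rw [if_pos h0, if_pos h0, ev_zero, nu_zero_right, h1, hn1, add_zero, ev_mk, h0]
      congr 1
      ring
    · rw [if_neg h0, if_neg h0, h1, hn1, add_zero]
  have e1 : (Multiset.map (kap ![t, s, 0] 0 ![1, 0, 0])
      (ρ.map (fun x : ℝ => (x : ℂ)) + O)).sum =
      (ρ.map (fun x => neg (s * x + t))).sum + (O.map (fun z => neg z.im)).sum := by
    rw [Multiset.map_add, Multiset.sum_add, Multiset.map_map]
    congr 2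
    · refine Multiset.map_congr rfl fun x _ => ?_
      rw [Function.comp_apply, hk, if_pos (Complex.ofReal_im x), Complex.ofReal_re]
    · refine Multiset.map_congr rfl fun z hz => ?_
      rw [hk, if_neg (hO z hz)]
  rw [e1, hk, hk, if_pos (Complex.ofReal_im a₁), if_neg ha₂, Complex.ofReal_re] at h
  omega

theorem L1_gap (R : Multiset ℝ) (a : ℝ) (h : ∀ x ∈ R, a < x) : ∃ r, a < r ∧ ∀ x ∈ R, r ≤ x := by
  induction R using Multiset.induction_on with
  | empty => exact ⟨a + 1, by linarith, fun x hx => absurd hx (Multiset.notMem_zero x)⟩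
  | cons y R ih =>
    obtain ⟨r, hr, hrR⟩ := ih fun x hx => h x (Multiset.mem_cons_of_mem hx)
    refine ⟨min r y, lt_min hr (h y (Multiset.mem_cons_self y R)), fun x hx => ?_⟩
    rcases Multiset.mem_cons.1 hx with rfl | hx
    · exact min_le_right _ _
    · exact (min_le_left _ _).trans (hrR x hx)

theorem L1_max (L : Multiset ℝ) (h : L ≠ 0) : ∃ x ∈ L, ∀ y ∈ L, y ≤ x := by
  induction L using Multiset.induction_on with
  | empty => exact absurd rfl h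
  | cons a L ih =>
    by_cases hL : L = 0
    · subst hL
      exact ⟨a, by simp, fun y hy => by simpa using (le_of_eq (by simpa using hy))⟩
    · obtain ⟨x, hx, hmax⟩ := ih hL
      rcases le_total a x with hax | hax
      · refine ⟨x, Multiset.mem_cons_of_mem hx, fun y hy => ?_⟩
        rcases Multiset.mem_cons.1 hy with rfl | hy
        · exact hax
        · exact hmax y hy
      · refine ⟨a, Multiset.mem_cons_self a L, fun y hy => ?_⟩
        rcases Multiset.mem_cons.1 hy with rfl | hy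
        · exact le_rfl
        · exact (hmax y hy).trans hax

theorem L1_min (L : Multiset ℝ) (h : L ≠ 0) : ∃ x ∈ L, ∀ y ∈ L, x ≤ y := by
  have h1 : L.map (fun x => -x) ≠ 0 := by
    intro h2
    exact h (Multiset.map_eq_zero.1 h2)
  obtain ⟨x, hx, hmax⟩ := L1_max _ h1
  obtain ⟨x', hx', rfl⟩ := Multiset.mem_map.1 hx
  refine ⟨x', hx', fun y hy => ?_⟩
  have h3 := hmax (-y) (Multiset.mem_map.2 ⟨y, hy, rfl⟩)
  linarith

theorem L1_seg (x' x y' : ℝ) (h1 : x' ≤ x) (h2 : x ≤ y') (S : Set ℂ) (hx' : (x' : ℂ) ∈ S)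
    (hy' : (y' : ℂ) ∈ S) : (x : ℂ) ∈ convexHull ℝ S := by
  have h3 : x ∈ segment ℝ x' y' := by
    rw [segment_eq_Icc (h1.trans h2)]
    exact ⟨h1, h2⟩
  obtain ⟨a, b, ha, hb, hab, h⟩ := h3
  have h4 := (convex_convexHull ℝ S) (subset_convexHull ℝ S hx') (subset_convexHull ℝ S hy')
    ha hb hab
  have h5 : a • (x' : ℂ) + b • (y' : ℂ) = (x : ℂ) := by
    rw [← h]
    simp only [smul_eq_mul, Complex.real_smul]
    push_cast
    ring
  rw [← h5]
  exact h4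

theorem L1_realHull (R : Multiset ℝ) (y y' : ℝ) (hR : ∀ x ∈ R, y ≤ x ∧ x ≤ y') (z : ℂ)
    (hz : z ∈ convexHull ℝ (pts (R.map (fun x : ℝ => (x : ℂ))))) :
    z.im = 0 ∧ y ≤ z.re ∧ z.re ≤ y' := by
  have hconv : Convex ℝ {z : ℂ | z.im = 0 ∧ y ≤ z.re ∧ z.re ≤ y'} := by
    rintro u ⟨u1, u2, u3⟩ v ⟨v1, v2, v3⟩ a b ha hb hab
    refine ⟨?_, ?_, ?_⟩
    · simp [u1, v1]
    · simp only [Complex.add_re, Complex.real_smul, Complex.re_ofReal_mul]
      have h1 := mul_le_mul_of_nonneg_left u2 ha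
      have h2 := mul_le_mul_of_nonneg_left v2 hb
      have h3 : a * y + b * y = y := by rw [← add_mul, hab, one_mul]
      linarith
    · simp only [Complex.add_re, Complex.real_smul, Complex.re_ofReal_mul]
      have h1 := mul_le_mul_of_nonneg_left u3 ha
      have h2 := mul_le_mul_of_nonneg_left v3 hb
      have h3 : a * y' + b * y' = y' := by rw [← add_mul, hab, one_mul]
      linarith
  refine convexHull_min ?_ hconv hz
  intro u hu
  obtain ⟨x, hx, rfl⟩ := Multiset.mem_map.1 hu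
  exact ⟨Complex.ofReal_im x, by rw [Complex.ofReal_re]; exact (hR x hx).1,
    by rw [Complex.ofReal_re]; exact (hR x hx).2⟩

theorem L1_pair (a b : ℂ) : ({a, b} : Multiset ℂ) = {a} + {b} := by
  rw [Multiset.singleton_add]; rfl

/-- at least two on each side -/
theorem L1_many (hHull : St_Hull) (hK1 : St_K1) (a₁ : ℝ) (a₂ : ℂ) (L R : Multiset ℝ)
    (O : Multiset ℂ)
    (hC : Crit (a₁ : ℂ) a₂ ((L + R).map (fun x : ℝ => (x : ℂ)) + O))
    (hL : ∀ x ∈ L, x < a₁) (hR : ∀ x ∈ R, a₁ < x) (hL2 : 2 ≤ Multiset.card L)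
    (hR2 : 2 ≤ Multiset.card R) :
    MDil {(a₁ : ℂ), a₂} ((L + R).map (fun x : ℝ => (x : ℂ)) + O) := by
  obtain ⟨x, hx, hxmax⟩ := L1_max L (by rintro rfl; simp at hL2)
  obtain ⟨L', rfl⟩ := Multiset.exists_cons_of_mem hx
  obtain ⟨y, hy, hymin⟩ := L1_min R (by rintro rfl; simp at hR2)
  obtain ⟨R', rfl⟩ := Multiset.exists_cons_of_mem hy
  have hL'0 : L' ≠ 0 := by rintro rfl; simp at hL2
  have hR'0 : R' ≠ 0 := by rintro rfl; simp at hR2
  obtain ⟨x', hx'⟩ := Multiset.exists_mem_of_ne_zero hL'0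
  obtain ⟨y', hy'⟩ := Multiset.exists_mem_of_ne_zero hR'0
  have hx'x := hxmax x' (Multiset.mem_cons_of_mem hx')
  have hyy' := hymin y' (Multiset.mem_cons_of_mem hy')
  have hxa := hL x (Multiset.mem_cons_self x L')
  have hay := hR y (Multiset.mem_cons_self y R')
  set B : Multiset ℂ := (L' + R').map (fun x : ℝ => (x : ℂ)) + O with hB
  have e1 : ((x ::ₘ L' + y ::ₘ R').map (fun x : ℝ => (x : ℂ)) + O) =
      ({(x : ℂ), (y : ℂ)} : Multiset ℂ) + B := by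
    rw [L1_pair, hB, Multiset.cons_add, Multiset.add_cons, Multiset.map_cons, Multiset.map_cons,
      ← Multiset.singleton_add, ← Multiset.singleton_add (y : ℂ)]
    simp only [add_assoc]
  have hx'B : (x' : ℂ) ∈ pts B := by
    change (x' : ℂ) ∈ B
    rw [hB]
    exact Multiset.mem_add.2 (Or.inl (Multiset.mem_map.2
      ⟨x', Multiset.mem_add.2 (Or.inl hx'), rfl⟩))
  have hy'B : (y' : ℂ) ∈ pts B := by
    change (y' : ℂ) ∈ B
    rw [hB]
    exact Multiset.mem_add.2 (Or.inl (Multiset.mem_map.2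
      ⟨y', Multiset.mem_add.2 (Or.inr hy'), rfl⟩))
  have hsub : pts ((x ::ₘ L' + y ::ₘ R').map (fun x : ℝ => (x : ℂ)) + O) ⊆
      convexHull ℝ (pts B) := by
    rw [e1]
    intro z hz
    rcases Multiset.mem_add.1 hz with hz | hz
    · have hz' : z = x ∨ z = y := by simpa using hz
      rcases hz' with rfl | rfl
      · exact L1_seg x' x y' hx'x (by linarith) _ hx'B hy'B
      · exact L1_seg x' y y' (by linarith) hyy' _ hx'B hy'B
    · exact subset_convexHull ℝ _ hz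
  have h2 : a₂ ∈ convexHull ℝ (pts B) :=
    convexHull_min hsub (convex_convexHull ℝ _) (hHull _ _ _ hC).2
  have h1 : (a₁ : ℂ) ∈ convexHull ℝ (pts ({(x : ℂ), (y : ℂ)} : Multiset ℂ)) :=
    L1_seg x a₁ y hxa.le hay.le _ (by change (x : ℂ) ∈ ({(x : ℂ), (y : ℂ)} : Multiset ℂ); simp)
      (by change (y : ℂ) ∈ ({(x : ℂ), (y : ℂ)} : Multiset ℂ); simp)
  rw [e1, L1_pair (a₁ : ℂ) a₂]
  exact MDil.add (hK1 _ _ h1) (hK1 _ _ h2)

/-- one on each side -/
theorem L1_one (hK1 : St_K1) (hL1d : St_L1d) (a₁ : ℝ) (a₂ : ℂ) (x₀ y₁ : ℝ) (O : Multiset ℂ)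
    (hC : Crit (a₁ : ℂ) a₂ ((x₀ : ℂ) ::ₘ (y₁ : ℂ) ::ₘ O)) (hx : x₀ < a₁) (hy : a₁ < y₁)
    (ha₂ : a₂.im ≠ 0) (hO : ∀ z ∈ O, z.im ≠ 0)
    (hneg : (O.map (fun z => neg z.im)).sum ≤ neg a₂.im) :
    MDil {(a₁ : ℂ), a₂} ((x₀ : ℂ) ::ₘ (y₁ : ℂ) ::ₘ O) := by
  have h2 := hL1d a₁ a₂ x₀ y₁ O hC hx hy ha₂ hO hneg
  have h1 : (a₁ : ℂ) ∈ convexHull ℝ (pts ({(x₀ : ℂ), (y₁ : ℂ)} : Multiset ℂ)) :=
    L1_seg x₀ a₁ y₁ hx.le hy.le _
      (by change (x₀ : ℂ) ∈ ({(x₀ : ℂ), (y₁ : ℂ)} : Multiset ℂ); simp)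
      (by change (y₁ : ℂ) ∈ ({(x₀ : ℂ), (y₁ : ℂ)} : Multiset ℂ); simp)
  have e1 : ((x₀ : ℂ) ::ₘ (y₁ : ℂ) ::ₘ O) = ({(x₀ : ℂ), (y₁ : ℂ)} : Multiset ℂ) + O := by
    rw [L1_pair, ← Multiset.singleton_add, ← Multiset.singleton_add (y₁ : ℂ), add_assoc]
  rw [e1, L1_pair (a₁ : ℂ) a₂]
  exact MDil.add (hK1 _ _ h1) (hK1 _ _ h2)

/-- one on the left, at least two on the right -/
theorem L1_left (hK1 : St_K1) (hSub : St_Sub) (hInt3 : St_Int3) (hL1c : St_L1c) (a₁ : ℝ)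
    (a₂ : ℂ) (x₀ : ℝ) (R : Multiset ℝ) (O : Multiset ℂ)
    (hC : Crit (a₁ : ℂ) a₂ ((x₀ : ℂ) ::ₘ (R.map (fun x : ℝ => (x : ℂ)) + O)))
    (hx : x₀ < a₁) (hR : ∀ y ∈ R, a₁ < y) (hR2 : 2 ≤ Multiset.card R)
    (ha₂ : a₂.im ≠ 0) (hO : ∀ z ∈ O, z.im ≠ 0)
    (hneg : (O.map (fun z => neg z.im)).sum ≤ neg a₂.im) :
    MDil {(a₁ : ℂ), a₂} ((x₀ : ℂ) ::ₘ (R.map (fun x : ℝ => (x : ℂ)) + O)) := by
  have hR0 : R ≠ 0 := by rintro rfl; simp at hR2
  have h2 := hL1c a₁ a₂ x₀ R O hC hx hR hR0 ha₂ hO hneg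
  obtain ⟨y, hy, hymin⟩ := L1_min R hR0
  obtain ⟨R₁, rfl⟩ := Multiset.exists_cons_of_mem hy
  have hR₁0 : R₁ ≠ 0 := by rintro rfl; simp at hR2
  obtain ⟨y', hy', hymax⟩ := L1_max R₁ hR₁0
  obtain ⟨R₂, rfl⟩ := Multiset.exists_cons_of_mem hy'
  have hyy' : y ≤ y' := hymin y' (Multiset.mem_cons_of_mem hy')
  have hbd : ∀ x ∈ y ::ₘ y' ::ₘ R₂, y ≤ x ∧ x ≤ y' := by
    intro x hx
    refine ⟨hymin x hx, ?_⟩
    rcases Multiset.mem_cons.1 hx with rfl | hx
    · exact hyy'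
    · exact hymax x hx
  have hO0 : O ≠ 0 := by
    rintro rfl
    rw [add_zero] at h2
    exact ha₂ (L1_realHull _ y y' hbd a₂ h2).1
  obtain ⟨o₀, ho₀⟩ := Multiset.exists_mem_of_ne_zero hO0
  have e1 : pts ((y ::ₘ y' ::ₘ R₂).map (fun x : ℝ => (x : ℂ)) + O) =
      pts ((y ::ₘ y' ::ₘ R₂).map (fun x : ℝ => (x : ℂ))) ∪ pts O := by
    ext z
    exact Multiset.mem_add
  rw [e1, convexHull_union ⟨(y : ℂ), Multiset.mem_map.2 ⟨y, by simp, rfl⟩⟩ ⟨o₀, ho₀⟩,
    mem_convexJoin] at h2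
  obtain ⟨ξ, hξ, o, ho, hseg⟩ := h2
  obtain ⟨hξ0, hξ1, hξ2⟩ := L1_realHull _ y y' hbd ξ hξ
  have hξe : ξ = (ξ.re : ℂ) := by
    apply Complex.ext
    · rw [Complex.ofReal_re]
    · rw [Complex.ofReal_im]; exact hξ0
  have hay := hR y hy
  have k1 : MDil {a₂} ({(ξ.re : ℂ), o} : Multiset ℂ) := by
    refine hK1 _ _ ?_
    rw [hξe] at hseg
    refine segment_subset_convexHull ?_ ?_ hseg
    · change (ξ.re : ℂ) ∈ ({(ξ.re : ℂ), o} : Multiset ℂ); simp
    · change o ∈ ({(ξ.re : ℂ), o} : Multiset ℂ); simp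
  have k2 : MDil {(a₁ : ℂ), (ξ.re : ℂ)} {(x₀ : ℂ), (y : ℂ), (y' : ℂ)} :=
    hInt3 x₀ a₁ y ξ.re y' hx.le hay.le hξ1 hξ2
  have k3 : MDil {o} O := hK1 _ _ ho
  have k4 : MDil {(a₁ : ℂ), a₂} (({(a₁ : ℂ), (ξ.re : ℂ)} : Multiset ℂ) + {o}) := by
    have h := MDil.add (MDil.refl {(a₁ : ℂ)}) k1
    rw [L1_pair (ξ.re : ℂ) o, ← add_assoc, ← L1_pair, ← L1_pair] at h
    exact h
  have k5 := k4.trans (MDil.add k2 k3)
  refine k5.trans (hSub _ _ ?_)
  have e2 : ((x₀ : ℂ) ::ₘ ((y ::ₘ y' ::ₘ R₂).map (fun x : ℝ => (x : ℂ)) + O)) =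
      (({(x₀ : ℂ), (y : ℂ), (y' : ℂ)} : Multiset ℂ) + O) + R₂.map (fun x : ℝ => (x : ℂ)) := by
    have e3 : ({(x₀ : ℂ), (y : ℂ), (y' : ℂ)} : Multiset ℂ) = {(x₀ : ℂ)} + {(y : ℂ)} + {(y' : ℂ)} := by
      rw [add_assoc, Multiset.singleton_add, Multiset.singleton_add]; rfl
    rw [e3, Multiset.map_cons, Multiset.map_cons, ← Multiset.singleton_add,
      ← Multiset.singleton_add (y : ℂ), ← Multiset.singleton_add (y' : ℂ)]
    simp only [add_assoc]
    rw [add_comm O]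
  rw [e2]
  exact Multiset.le_add_right _ _

theorem L1_mir (z : ℂ) : 0 * z + (-1) * conj z + 0 = - conj z := by ring

/-- one on the right, at least two on the left -/
theorem L1_right (hK1 : St_K1) (hSub : St_Sub) (hInt3 : St_Int3) (hL1c : St_L1c)
    (hAffM : St_AffM) (hAffC : St_AffC) (a₁ : ℝ)
    (a₂ : ℂ) (y₁ : ℝ) (L : Multiset ℝ) (O : Multiset ℂ)
    (hC : Crit (a₁ : ℂ) a₂ ((y₁ : ℂ) ::ₘ (L.map (fun x : ℝ => (x : ℂ)) + O)))
    (hy : a₁ < y₁) (hL : ∀ y ∈ L, y < a₁) (hL2 : 2 ≤ Multiset.card L)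
    (ha₂ : a₂.im ≠ 0) (hO : ∀ z ∈ O, z.im ≠ 0)
    (hneg : (O.map (fun z => neg z.im)).sum ≤ neg a₂.im) :
    MDil {(a₁ : ℂ), a₂} ((y₁ : ℂ) ::ₘ (L.map (fun x : ℝ => (x : ℂ)) + O)) := by
  have hC' := hAffC 0 (-1) 0 _ _ _ hC
  have hmr : ∀ x : ℝ, - conj (x : ℂ) = ((-x : ℝ) : ℂ) := by
    intro x
    rw [Complex.conj_ofReal]; push_cast; ring
  simp only [L1_mir] at hC'
  have e1 : ((y₁ : ℂ) ::ₘ (L.map (fun x : ℝ => (x : ℂ)) + O)).map (fun z => - conj z) =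
      (((-y₁ : ℝ) : ℂ)) ::ₘ ((L.map (fun x => -x)).map (fun x : ℝ => (x : ℂ)) +
        O.map (fun z => - conj z)) := by
    rw [Multiset.map_cons, Multiset.map_add, Multiset.map_map, Multiset.map_map, hmr]
    congr 2
    exact Multiset.map_congr rfl fun x _ => hmr x
  rw [e1, hmr] at hC'
  have him : ∀ z : ℂ, (- conj z).im = z.im := by
    intro z
    rw [Complex.neg_im, Complex.conj_im, neg_neg]
  have h1 := L1_left hK1 hSub hInt3 hL1c (-a₁) (- conj a₂) (-y₁) (L.map (fun x => -x))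
    (O.map (fun z => - conj z)) hC' (by linarith)
    (fun y hy' => by
      obtain ⟨x, hx, rfl⟩ := Multiset.mem_map.1 hy'
      have := hL x hx
      linarith) (by rw [Multiset.card_map]; exact hL2) (by rw [him]; exact ha₂)
    (fun z hz => by
      obtain ⟨x, hx, rfl⟩ := Multiset.mem_map.1 hz
      rw [him]; exact hO x hx)
    (by
      rw [him, Multiset.map_map]
      have e2 : O.map ((fun z : ℂ => neg z.im) ∘ fun z => - conj z) =
          O.map (fun z => neg z.im) := Multiset.map_congr rfl fun z _ => by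
        rw [Function.comp_apply, him]
      rw [e2]; exact hneg)
  have h2 := hAffM 0 (-1) 0 _ _ h1
  simp only [L1_mir] at h2
  rw [← hmr a₁, ← e1] at h2
  have hinv : ∀ z : ℂ, - conj (- conj z) = z := by
    intro z
    rw [map_neg, Complex.conj_conj, neg_neg]
  have e3 : ∀ β : Multiset ℂ, (β.map (fun z => - conj z)).map (fun z => - conj z) = β := by
    intro β
    rw [Multiset.map_map]
    have : ((fun z : ℂ => - conj z) ∘ fun z => - conj z) = id := by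
      funext z
      exact hinv z
    rw [this, Multiset.map_id]
  rw [e3] at h2
  have e4 : ({- conj (a₁ : ℂ), - conj a₂} : Multiset ℂ).map (fun z => - conj z) =
      {(a₁ : ℂ), a₂} := by
    rw [L1_pair, Multiset.map_add, Multiset.map_singleton, Multiset.map_singleton, hinv, hinv,
      L1_pair]
  rw [e4] at h2
  exact h2

theorem L1_core (hTL : St_TL) (hHull : St_Hull) (hK1 : St_K1) (hSub : St_Sub)
    (hInt3 : St_Int3) (hL1c : St_L1c) (hL1d : St_L1d) (hAffM : St_AffM) (hAffC : St_AffC)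
    (a₁ : ℝ) (a₂ : ℂ) (L R : Multiset ℝ) (O : Multiset ℂ)
    (hC : Crit (a₁ : ℂ) a₂ ((L + R).map (fun x : ℝ => (x : ℂ)) + O))
    (hL : ∀ x ∈ L, x < a₁) (hR : ∀ x ∈ R, a₁ < x) (ha₂ : a₂.im ≠ 0) (hO : ∀ z ∈ O, z.im ≠ 0)
    (hneg : (O.map (fun z => neg z.im)).sum ≤ neg a₂.im) :
    MDil {(a₁ : ℂ), a₂} ((L + R).map (fun x : ℝ => (x : ℂ)) + O) := by
  have hLne : L ≠ 0 := by
    rintro rfl
    obtain ⟨r, hr, hrR⟩ := L1_gap R a₁ hR
    have h := L1_tilt hTL a₁ a₂ _ O hC ha₂ hO hneg 1 (-r)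
    rw [zero_add] at h
    have h0 : (R.map (fun x => neg (1 * x + -r))).sum = 0 := by
      refine Multiset.sum_eq_zero fun k hk => ?_
      obtain ⟨x, hx, rfl⟩ := Multiset.mem_map.1 hk
      have := hrR x hx
      unfold neg
      rw [if_neg (by linarith)]
    rw [h0] at h
    unfold neg at h
    rw [if_pos (by linarith)] at h
    omega
  have hRne : R ≠ 0 := by
    rintro rfl
    obtain ⟨r, hr, hrR⟩ := L1_gap (L.map (fun x => -x)) (-a₁) (fun x hx => by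
      obtain ⟨y, hy, rfl⟩ := Multiset.mem_map.1 hx
      have := hL y hy
      linarith)
    have h := L1_tilt hTL a₁ a₂ _ O hC ha₂ hO hneg (-1) (-r)
    rw [add_zero] at h
    have h0 : (L.map (fun x => neg (-1 * x + -r))).sum = 0 := by
      refine Multiset.sum_eq_zero fun k hk => ?_
      obtain ⟨x, hx, rfl⟩ := Multiset.mem_map.1 hk
      have := hrR (-x) (Multiset.mem_map.2 ⟨x, hx, rfl⟩)
      unfold neg
      rw [if_neg (by linarith)]
    rw [h0] at h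
    unfold neg at h
    rw [if_pos (by linarith)] at h
    omega
  have hLc : 1 ≤ Multiset.card L := Multiset.card_pos.2 hLne
  have hRc : 1 ≤ Multiset.card R := Multiset.card_pos.2 hRne
  by_cases hL2 : 2 ≤ Multiset.card L
  · by_cases hR2 : 2 ≤ Multiset.card R
    · exact L1_many hHull hK1 a₁ a₂ L R O hC hL hR hL2 hR2
    · obtain ⟨y₁, rfl⟩ := Multiset.card_eq_one.1 (show Multiset.card R = 1 by omega)
      have e1 : ((L + {y₁}).map (fun x : ℝ => (x : ℂ)) + O) =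
          (y₁ : ℂ) ::ₘ (L.map (fun x : ℝ => (x : ℂ)) + O) := by
        rw [Multiset.map_add, Multiset.map_singleton, ← Multiset.singleton_add,
          add_comm (L.map (fun x : ℝ => (x : ℂ))), add_assoc]
      rw [e1] at hC ⊢
      exact L1_right hK1 hSub hInt3 hL1c hAffM hAffC a₁ a₂ y₁ L O hC
        (hR y₁ (Multiset.mem_singleton_self y₁)) hL hL2 ha₂ hO hneg
  · obtain ⟨x₀, rfl⟩ := Multiset.card_eq_one.1 (show Multiset.card L = 1 by omega)
    have hx := hL x₀ (Multiset.mem_singleton_self x₀)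
    by_cases hR2 : 2 ≤ Multiset.card R
    · have e1 : (({x₀} + R).map (fun x : ℝ => (x : ℂ)) + O) =
          (x₀ : ℂ) ::ₘ (R.map (fun x : ℝ => (x : ℂ)) + O) := by
        rw [Multiset.map_add, Multiset.map_singleton, ← Multiset.singleton_add, add_assoc]
      rw [e1] at hC ⊢
      exact L1_left hK1 hSub hInt3 hL1c a₁ a₂ x₀ R O hC hx hR hR2 ha₂ hO hneg
    · obtain ⟨y₁, rfl⟩ := Multiset.card_eq_one.1 (show Multiset.card R = 1 by omega)
      have e1 : ((({x₀} : Multiset ℝ) + {y₁}).map (fun x : ℝ => (x : ℂ)) + O) =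
          (x₀ : ℂ) ::ₘ (y₁ : ℂ) ::ₘ O := by
        rw [Multiset.map_add, Multiset.map_singleton, Multiset.map_singleton,
          ← Multiset.singleton_add, ← Multiset.singleton_add (y₁ : ℂ), add_assoc]
      rw [e1] at hC ⊢
      exact L1_one hK1 hL1d a₁ a₂ x₀ y₁ O hC hx (hR y₁ (Multiset.mem_singleton_self y₁)) ha₂ hO
        hneg

theorem thm_L1 (hTL : St_TL) (hHull : St_Hull) (hK1 : St_K1) (hSub : St_Sub) (hInt3 : St_Int3) (hL1c : St_L1c) (hL1d : St_L1d) (hAffM : St_AffM) (hAffC : St_AffC) : St_L1 := by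
  classical
  intro a₁ a₂ β hC ha₁β ha₁ ha₂ hneg
  have ha₁e : a₁ = (a₁.re : ℂ) := by
    apply Complex.ext
    · rw [Complex.ofReal_re]
    · rw [Complex.ofReal_im]; exact ha₁
  set ρ : Multiset ℝ := (β.filter (fun z => z.im = 0)).map Complex.re with hρ
  set O : Multiset ℂ := β.filter (fun z => ¬ z.im = 0) with hOdef
  have hβ : β = ρ.map (fun x : ℝ => (x : ℂ)) + O := by
    have h1 : ρ.map (fun x : ℝ => (x : ℂ)) = β.filter (fun z => z.im = 0) := by
      rw [hρ, Multiset.map_map]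
      have h2 : (β.filter (fun z => z.im = 0)).map ((fun x : ℝ => (x : ℂ)) ∘ Complex.re) =
          (β.filter (fun z => z.im = 0)).map id := by
        refine Multiset.map_congr rfl fun z hz => ?_
        have h3 := (Multiset.mem_filter.1 hz).2
        apply Complex.ext
        · rw [Function.comp_apply, Complex.ofReal_re]; rfl
        · rw [Function.comp_apply, Complex.ofReal_im]; exact h3.symm
      rw [h2, Multiset.map_id]
    rw [h1, hOdef]
    exact (Multiset.filter_add_not _ _).symm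
  have hρne : ∀ x ∈ ρ, x ≠ a₁.re := by
    rintro x hx rfl
    apply ha₁β
    rw [hβ, ha₁e]
    exact Multiset.mem_add.2 (Or.inl (Multiset.mem_map.2 ⟨a₁.re, hx, rfl⟩))
  set L : Multiset ℝ := ρ.filter (fun x => x < a₁.re) with hLdef
  set R : Multiset ℝ := ρ.filter (fun x => ¬ x < a₁.re) with hRdef
  have hLR : ρ = L + R := (Multiset.filter_add_not _ _).symm
  have hO : ∀ z ∈ O, z.im ≠ 0 := fun z hz => (Multiset.mem_filter.1 hz).2
  have hnegO : (O.map (fun z => neg z.im)).sum ≤ neg a₂.im := by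
    refine le_trans ?_ hneg
    conv_rhs => rw [hβ]
    rw [Multiset.map_add, Multiset.sum_add]
    exact Nat.le_add_left _ _
  rw [hβ, hLR, ha₁e] at hC
  rw [hβ, hLR, ha₁e]
  exact L1_core hTL hHull hK1 hSub hInt3 hL1c hL1d hAffM hAffC a₁.re a₂ L R O hC
    (fun x hx => (Multiset.mem_filter.1 hx).2)
    (fun x hx => lt_of_le_of_ne (not_lt.1 (Multiset.mem_filter.1 hx).2)
      (hρne x (Multiset.mem_filter.1 hx).1).symm) ha₂ hO hnegO

end Pool.Agent.CMP
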