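import Mathlib
import Pool.Agent.CMP.Basic

set_option autoImplicit false

namespace Pool.Agent.CMP

open Finset Pool.Agent.Helper45.NC
open scoped ComplexConjugate

theorem L1c_nonneg {ψ : Fin 3 → ℝ} {β : Multiset ℂ} {a : ℂ} (ha : a ∈ convexHull ℝ (pts β))
    (hψ : ∀ z ∈ β, 0 ≤ ev ψ z) : 0 ≤ ev ψ a := by
  have hconv : Convex ℝ {z : ℂ | 0 ≤ ev ψ z} := by
    intro x hx y hy s t hs ht hst
    have e : ev ψ (s • x + t • y) = s * ev ψ x + t * ev ψ y := by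
      unfold ev
      simp only [Complex.add_re, Complex.add_im, Complex.real_smul, Complex.re_ofReal_mul,
        Complex.im_ofReal_mul]
      linear_combination (-(ψ 0)) * hst
    change 0 ≤ ev ψ (s • x + t • y)
    rw [e]
    exact add_nonneg (mul_nonneg hs hx) (mul_nonneg ht hy)
  exact convexHull_min (s := pts β) (t := {z : ℂ | 0 ≤ ev ψ z}) (fun z hz => hψ z hz) hconv ha

theorem thm_L1c (hTL : St_TL) (hSep : St_Sep) (hHull : St_Hull) : St_L1c := by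
  intro a₁ a₂ x₀ R O hC hx hR hR0 h2 hO hs
  classical
  by_contra hcon
  obtain ⟨ψ, hψ2, hψ⟩ := hSep a₂ _ hcon
  have e0 : ∀ (f : Fin 3 → ℝ) (x : ℝ), ev f (x : ℂ) = f 0 + f 1 * x := by
    intro f x
    unfold ev
    rw [Complex.ofReal_re, Complex.ofReal_im]
    ring
  have hψR : ∀ y ∈ R, 0 < ev ψ (y : ℂ) := by
    intro y hy
    apply hψ
    rw [Multiset.mem_add]
    exact Or.inl (Multiset.mem_map_of_mem _ hy)
  have hψO : ∀ z ∈ O, 0 < ev ψ z := by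
    intro z hz
    apply hψ
    rw [Multiset.mem_add]
    exact Or.inr hz
  have hψx : ev ψ (x₀ : ℂ) < 0 := by
    by_contra hge
    push Not at hge
    have := L1c_nonneg (hHull _ _ _ hC).2 (ψ := ψ) (by
      intro z hz
      rcases Multiset.mem_cons.1 hz with h | hz
      · rw [h]; exact hge
      · exact (hψ z hz).le)
    linarith
  -- the smallest element of R
  obtain ⟨y₁, hy₁, hmin⟩ : ∃ y ∈ R, ∀ y' ∈ R, y ≤ y' := by
    have hne : R.toFinset.Nonempty := by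
      obtain ⟨y, hy⟩ := Multiset.exists_mem_of_ne_zero hR0
      exact ⟨y, Multiset.mem_toFinset.2 hy⟩
    refine ⟨R.toFinset.min' hne, Multiset.mem_toFinset.1 (Finset.min'_mem _ hne), ?_⟩
    intro y' hy'
    exact Finset.min'_le _ _ (Multiset.mem_toFinset.2 hy')
  have hay := hR y₁ hy₁
  have hψy := hψR y₁ hy₁
  rw [e0] at hψx hψy
  have hs1 : 0 < ψ 1 := by
    by_contra hle
    push Not at hle
    nlinarith
  set x₁ := (a₁ + y₁) / 2 with hx₁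
  have h := hTL (a₁ : ℂ) a₂ _ ![-(ψ 1 * x₁), ψ 1, 0] ![-(ψ 1 * y₁), ψ 1, 0] ψ hC (by
    intro z hz hzi
    rcases Multiset.mem_cons.1 hz with h | hz
    · exact absurd (by rw [h]; exact Complex.ofReal_im _) hzi
    exact (hψ z hz).ne') (fun h => absurd (Complex.ofReal_im _) h) (fun _ => hψ2.ne)
  have kr : ∀ x : ℝ, kap ![-(ψ 1 * x₁), ψ 1, 0] ![-(ψ 1 * y₁), ψ 1, 0] ψ (x : ℂ) =
      nu (ψ 1 * (x - x₁)) (ψ 1 * (x - y₁)) (ψ 0 + ψ 1 * x) := by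
    intro x
    unfold kap
    rw [if_pos (Complex.ofReal_im x), e0, e0, e0]
    simp only [Matrix.cons_val_zero, Matrix.cons_val_one]
    have q1 : -(ψ 1 * x₁) + ψ 1 * x = ψ 1 * (x - x₁) := by ring
    have q2 : -(ψ 1 * y₁) + ψ 1 * x = ψ 1 * (x - y₁) := by ring
    rw [q1, q2]
  have k1 : 1 ≤ kap ![-(ψ 1 * x₁), ψ 1, 0] ![-(ψ 1 * y₁), ψ 1, 0] ψ (a₁ : ℂ) := by
    rw [kr]
    unfold nu
    rw [if_pos (Or.inl ?_)]
    · omega
    · have : a₁ - x₁ < 0 := by rw [hx₁]; linarith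
      exact mul_neg_of_pos_of_neg hs1 this
  have k2 : kap ![-(ψ 1 * x₁), ψ 1, 0] ![-(ψ 1 * y₁), ψ 1, 0] ψ a₂ = neg a₂.im + 1 := by
    unfold kap
    rw [if_neg h2]
    have h4 : neg (ev ψ a₂) = 1 := if_pos hψ2
    rw [h4]
  have k3 : kap ![-(ψ 1 * x₁), ψ 1, 0] ![-(ψ 1 * y₁), ψ 1, 0] ψ (x₀ : ℂ) ≤ 1 := by
    rw [kr]
    unfold nu
    have hdet : ¬ (ψ 1 * (x₀ - x₁) < 0 ∧ (ψ 1 * (x₀ - y₁)) ^ 2 < ψ 1 * (x₀ - x₁) *
        (ψ 0 + ψ 1 * x₀)) := by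
      rintro ⟨-, hlt⟩
      have p1 : 0 < ψ 1 * (y₁ - x₁) := mul_pos hs1 (by rw [hx₁]; linarith)
      have p2 : 0 < ψ 1 * (x₁ - x₀) := mul_pos hs1 (by rw [hx₁]; linarith)
      have p3 : 0 < -(ψ 0 + ψ 1 * x₀) := by linarith
      have p4 : -(ψ 0 + ψ 1 * x₀) < ψ 1 * (y₁ - x₀) := by linarith
      have p5 : ψ 1 * (x₁ - x₀) * -(ψ 0 + ψ 1 * x₀) ≤ ψ 1 * (x₁ - x₀) * (ψ 1 * (y₁ - x₀)) :=
        mul_le_mul_of_nonneg_left p4.le p2.le
      have p6 : ψ 1 * (x₁ - x₀) * (ψ 1 * (y₁ - x₀)) ≤ ψ 1 * (y₁ - x₀) * (ψ 1 * (y₁ - x₀)) := by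
        apply mul_le_mul_of_nonneg_right _ (by linarith)
        nlinarith
      nlinarith
    rw [if_neg hdet]
    split_ifs <;> omega
  have k4 : ((R.map (fun x : ℝ => (x : ℂ))).map
      (kap ![-(ψ 1 * x₁), ψ 1, 0] ![-(ψ 1 * y₁), ψ 1, 0] ψ)).sum = 0 := by
    rw [Multiset.map_map]
    apply Multiset.sum_eq_zero
    intro m hm
    obtain ⟨y, hy, rfl⟩ := Multiset.mem_map.1 hm
    simp only [Function.comp_apply]
    rw [kr, nu_zero_iff]
    have hyy := hmin y hy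
    have hψy' := hψR y hy
    rw [e0] at hψy'
    have hx1y : x₁ < y₁ := by rw [hx₁]; linarith
    have p1 : 0 ≤ ψ 1 * (y - y₁) := mul_nonneg hs1.le (by linarith)
    have p2 : ψ 1 * (y - y₁) ≤ ψ 1 * (y - x₁) := mul_le_mul_of_nonneg_left (by linarith) hs1.le
    have p3 : ψ 1 * (y - y₁) ≤ ψ 0 + ψ 1 * y := by linarith
    refine ⟨by linarith, hψy'.le, ?_⟩
    rw [sq]
    exact mul_le_mul p2 p3 p1 (by linarith)
  have k5 : (O.map (kap ![-(ψ 1 * x₁), ψ 1, 0] ![-(ψ 1 * y₁), ψ 1, 0] ψ)).sum =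
      (O.map (fun z => neg z.im)).sum := by
    congr 1
    refine Multiset.map_congr rfl fun z hz => ?_
    unfold kap
    rw [if_neg (hO z hz)]
    have h : neg (ev ψ z) = 0 := if_neg (not_lt.2 (hψO z hz).le)
    rw [h, add_zero]
  rw [Multiset.map_cons, Multiset.sum_cons, Multiset.map_add, Multiset.sum_add, k4, k5] at h
  omega

end Pool.Agent.CMP
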