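import Mathlib
import Pool.Agent.CMP.Basic

set_option autoImplicit false

namespace Pool.Agent.CMP

open Finset Pool.Agent.Helper45.NC
open scoped ComplexConjugate

theorem L1d_kap_real (α c ψ : Fin 3 → ℝ) (x : ℝ) :
    kap α c ψ (x : ℂ) = nu (ev α x) (ev c x) (ev ψ x) := by
  unfold kap
  rw [if_pos (Complex.ofReal_im x)]

theorem L1d_sum {ψ : Fin 3 → ℝ} (α c : Fin 3 → ℝ) (O : Multiset ℂ) (hO : ∀ z ∈ O, z.im ≠ 0)
    (hψ : ∀ z ∈ O, 0 < ev ψ z) :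
    (O.map (kap α c ψ)).sum = (O.map (fun z => neg z.im)).sum := by
  congr 1
  refine Multiset.map_congr rfl fun z hz => ?_
  unfold kap
  rw [if_neg (hO z hz)]
  have h : neg (ev ψ z) = 0 := if_neg (not_lt.2 (hψ z hz).le)
  rw [h, add_zero]

theorem L1d_nonneg {ψ : Fin 3 → ℝ} {β : Multiset ℂ} {a : ℂ} (ha : a ∈ convexHull ℝ (pts β))
    (hψ : ∀ z ∈ β, 0 ≤ ev ψ z) : 0 ≤ ev ψ a := by
  have hconv : Convex ℝ {z : ℂ | 0 ≤ ev ψ z} := by
    intro x hx y hy s t hs ht hst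
    have e : ev ψ (s • x + t • y) = s * ev ψ x + t * ev ψ y := by
      unfold ev
      simp only [Complex.add_re, Complex.add_im, Complex.real_smul, Complex.re_ofReal_mul,
        Complex.im_ofReal_mul]
      linear_combination (-(ψ 0)) * hst
    change 0 ≤ ev ψ (s • x + t • y)
    rw [e]
    exact add_nonneg (mul_nonneg hs hx) (mul_nonneg ht hy)
  exact convexHull_min (s := pts β) (t := {z : ℂ | 0 ≤ ev ψ z}) (fun z hz => hψ z hz) hconv ha

/-- determinant negative: at least one negative eigenvalue -/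
theorem L1d_nu_pos {x y w : ℝ} (h : x * w < y ^ 2) : 1 ≤ nu x y w := by
  unfold nu
  rw [if_pos (Or.inr (Or.inr h))]
  omega

theorem L1d_nu_le_one {x y w : ℝ} (h : x * w < y ^ 2) : nu x y w ≤ 1 := by
  unfold nu
  have h1 : ¬ (x < 0 ∧ y ^ 2 < x * w) := fun h' => lt_asymm h h'.2
  rw [if_neg h1]
  split_ifs <;> omega

theorem L1d_nu_le_one' {x y w : ℝ} (h : 0 < x) : nu x y w ≤ 1 := by
  unfold nu
  have h1 : ¬ (x < 0 ∧ y ^ 2 < x * w) := fun h' => lt_asymm h h'.1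
  rw [if_neg h1]
  split_ifs <;> omega

theorem L1d_main (hTL : St_TL) {a₁ : ℝ} {a₂ : ℂ} {x₀ y₁ : ℝ} {O : Multiset ℂ}
    (hC : Crit (a₁ : ℂ) a₂ ((x₀ : ℂ) ::ₘ (y₁ : ℂ) ::ₘ O)) (h2 : a₂.im ≠ 0)
    (hO : ∀ z ∈ O, z.im ≠ 0) (hs : (O.map (fun z => neg z.im)).sum ≤ neg a₂.im)
    {ψ : Fin 3 → ℝ} (hψ2 : ev ψ a₂ < 0) (hψ : ∀ z ∈ O, 0 < ev ψ z) (α c : Fin 3 → ℝ) :
    nu (ev α a₁) (ev c a₁) (ev ψ a₁) + 1 ≤ nu (ev α x₀) (ev c x₀) (ev ψ x₀) +
      nu (ev α y₁) (ev c y₁) (ev ψ y₁) := by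
  have h := hTL (a₁ : ℂ) a₂ _ α c ψ hC (by
    intro z hz hzi
    rcases Multiset.mem_cons.1 hz with h | hz
    · exact absurd (by rw [h]; exact Complex.ofReal_im _) hzi
    rcases Multiset.mem_cons.1 hz with h | hz
    · exact absurd (by rw [h]; exact Complex.ofReal_im _) hzi
    exact (hψ z hz).ne') (fun h => absurd (Complex.ofReal_im _) h) (fun _ => hψ2.ne)
  rw [Multiset.map_cons, Multiset.map_cons, Multiset.sum_cons, Multiset.sum_cons,
    L1d_sum α c O hO hψ, L1d_kap_real, L1d_kap_real, L1d_kap_real] at h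
  have h3 : kap α c ψ a₂ = neg a₂.im + 1 := by
    unfold kap
    rw [if_neg h2]
    have h4 : neg (ev ψ a₂) = 1 := if_pos hψ2
    rw [h4]
  omega

theorem thm_L1d (hTL : St_TL) (hSep : St_Sep) (hHull : St_Hull) : St_L1d := by
  intro a₁ a₂ x₀ y₁ O hC hx hy h2 hO hs
  by_contra hcon
  obtain ⟨ψ, hψ2, hψ⟩ := hSep a₂ O hcon
  have hm := L1d_main hTL hC h2 hO hs hψ2 hψ
  have e0 : ∀ (f : Fin 3 → ℝ) (x : ℝ), ev f (x : ℂ) = f 0 + f 1 * x := by
    intro f x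
    unfold ev
    rw [Complex.ofReal_re, Complex.ofReal_im]
    ring
  -- the constant
  have hC1 : ∃ C : ℝ, -ev ψ x₀ < (C * (x₀ - a₁)) ^ 2 ∧ -ev ψ y₁ < (C * (y₁ - a₁)) ^ 2 ∧
      ev ψ a₁ < (C * (y₁ - a₁)) ^ 2 ∧ ev ψ a₁ < (C * (x₀ - a₁)) ^ 2 := by
    have p1 : 0 < (x₀ - a₁) ^ 2 := by
      have : x₀ - a₁ ≠ 0 := by linarith
      positivity
    have p2 : 0 < (y₁ - a₁) ^ 2 := by
      have : y₁ - a₁ ≠ 0 := by linarith
      positivity
    have p3 : 0 < min ((x₀ - a₁) ^ 2) ((y₁ - a₁) ^ 2) := lt_min p1 p2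
    set m := min ((x₀ - a₁) ^ 2) ((y₁ - a₁) ^ 2) with hmdef
    set K := |ev ψ x₀| + |ev ψ y₁| + |ev ψ a₁| with hK
    have hK0 : 0 ≤ K := by positivity
    have hC : ∀ t : ℝ, m ≤ t → K < (1 + K / m) ^ 2 * t := by
      intro t ht
      have h1 : 0 ≤ K / m := div_nonneg hK0 p3.le
      have h2 : 1 + K / m ≤ (1 + K / m) ^ 2 := by nlinarith
      have h3 : (1 + K / m) * m = m + K := by field_simp
      calc K < m + K := by linarith
        _ = (1 + K / m) * m := h3.symm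
        _ ≤ (1 + K / m) * t := mul_le_mul_of_nonneg_left ht (by linarith)
        _ ≤ (1 + K / m) ^ 2 * t := mul_le_mul_of_nonneg_right h2 (p3.le.trans ht)
    have q1 := hC _ (min_le_left ((x₀ - a₁) ^ 2) ((y₁ - a₁) ^ 2))
    have q2 := hC _ (min_le_right ((x₀ - a₁) ^ 2) ((y₁ - a₁) ^ 2))
    rw [← mul_pow] at q1 q2
    have a1 := neg_abs_le (ev ψ x₀)
    have a2 := neg_abs_le (ev ψ y₁)
    have a3 := le_abs_self (ev ψ a₁)
    have b1 := abs_nonneg (ev ψ x₀)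
    have b2 := abs_nonneg (ev ψ y₁)
    have b3 := abs_nonneg (ev ψ a₁)
    exact ⟨1 + K / m, by linarith, by linarith, by linarith, by linarith⟩
  obtain ⟨C, c1, c2, c3, c4⟩ := hC1
  rcases lt_or_ge (ev ψ x₀) 0 with hx0 | hx0 <;> rcases lt_or_ge (ev ψ y₁) 0 with hy0 | hy0
  · -- both negative
    have ha : ev ψ a₁ < 0 := by
      rw [e0] at hx0 hy0 ⊢
      have h1 : 0 < (y₁ - a₁) * (-(ψ 0 + ψ 1 * x₀)) := mul_pos (by linarith) (by linarith)
      have h2 : 0 < (a₁ - x₀) * (-(ψ 0 + ψ 1 * y₁)) := mul_pos (by linarith) (by linarith)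
      have h3 : (y₁ - x₀) * (ψ 0 + ψ 1 * a₁) < 0 := by nlinarith
      by_contra h4
      have h5 := mul_nonneg (show 0 ≤ y₁ - x₀ by linarith) (not_lt.1 h4)
      linarith
    have h := hm ![-1, 0, 0] ![-(C * a₁), C, 0]
    have f1 : ∀ x : ℝ, ev ![-1, 0, 0] (x : ℂ) = -1 := by intro x; rw [e0]; simp
    have f2 : ∀ x : ℝ, ev ![-(C * a₁), C, 0] (x : ℂ) = C * (x - a₁) := by
      intro x; rw [e0]; simp; ring
    rw [f1, f1, f1, f2, f2, f2] at h
    have g1 : nu (-1) (C * (a₁ - a₁)) (ev ψ a₁) = 2 := by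
      rw [nu_two_iff]
      refine ⟨by norm_num, ?_⟩
      rw [sub_self, mul_zero]
      linarith
    have g2 : nu (-1) (C * (x₀ - a₁)) (ev ψ x₀) ≤ 1 := L1d_nu_le_one (by linarith)
    have g3 : nu (-1) (C * (y₁ - a₁)) (ev ψ y₁) ≤ 1 := L1d_nu_le_one (by linarith)
    omega
  · -- negative at `x₀`
    have h := hm ![1, 0, 0] ![C * y₁, -C, 0]
    have f1 : ∀ x : ℝ, ev ![1, 0, 0] (x : ℂ) = 1 := by intro x; rw [e0]; simp
    have f2 : ∀ x : ℝ, ev ![C * y₁, -C, 0] (x : ℂ) = C * (y₁ - x) := by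
      intro x; rw [e0]; simp; ring
    rw [f1, f1, f1, f2, f2, f2] at h
    have g1 : 1 ≤ nu 1 (C * (y₁ - a₁)) (ev ψ a₁) := L1d_nu_pos (by linarith)
    have g2 : nu 1 (C * (y₁ - x₀)) (ev ψ x₀) ≤ 1 := L1d_nu_le_one' one_pos
    have g3 : nu 1 (C * (y₁ - y₁)) (ev ψ y₁) = 0 := by
      rw [nu_zero_iff, sub_self, mul_zero]
      exact ⟨zero_le_one, hy0, by linarith⟩
    omega
  · -- negative at `y₁`
    have h := hm ![1, 0, 0] ![-(C * x₀), C, 0]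
    have f1 : ∀ x : ℝ, ev ![1, 0, 0] (x : ℂ) = 1 := by intro x; rw [e0]; simp
    have f2 : ∀ x : ℝ, ev ![-(C * x₀), C, 0] (x : ℂ) = C * (x - x₀) := by
      intro x; rw [e0]; simp; ring
    rw [f1, f1, f1, f2, f2, f2] at h
    have g1 : 1 ≤ nu 1 (C * (a₁ - x₀)) (ev ψ a₁) := by
      refine L1d_nu_pos ?_
      have : (C * (a₁ - x₀)) ^ 2 = (C * (x₀ - a₁)) ^ 2 := by ring
      rw [this]
      linarith
    have g2 : nu 1 (C * (y₁ - x₀)) (ev ψ y₁) ≤ 1 := L1d_nu_le_one' one_pos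
    have g3 : nu 1 (C * (x₀ - x₀)) (ev ψ x₀) = 0 := by
      rw [nu_zero_iff, sub_self, mul_zero]
      exact ⟨zero_le_one, hx0, by linarith⟩
    omega
  · -- both nonnegative
    have ha := (hHull _ _ _ hC).2
    have h := L1d_nonneg (ψ := ψ) ha (by
      intro z hz
      rcases Multiset.mem_cons.1 hz with h | hz
      · rw [h]; exact hx0
      rcases Multiset.mem_cons.1 hz with h | hz
      · rw [h]; exact hy0
      exact (hψ z hz).le)
    linarith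

end Pool.Agent.CMP
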