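import Mathlib
import Pool.Agent.CMP.Basic

/-!
MP_ca8ee9_an, k = 2: module L2 (two prescribed values on the line).
-/

set_option autoImplicit false

namespace Pool.Agent.CMP

open Finset Pool.Agent.Helper45.NC
open scoped ComplexConjugate

theorem L2_real (z : ℂ) (h : z.im = 0) : ((z.re : ℝ) : ℂ) = z :=
  Complex.ext rfl h.symm

theorem L2_aux (hL2zero : St_L2zero) (hL2one : St_L2one) (hAffM : St_AffM) (hAffC : St_AffC)
    (r₁ r₂ : ℝ) (β : Multiset ℂ) (hC : Crit (r₁ : ℂ) (r₂ : ℂ) β) (hle : r₁ ≤ r₂)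
    (h1 : (r₁ : ℂ) ∉ β) (h2 : (r₂ : ℂ) ∉ β) (hs : (β.map (fun z => neg z.im)).sum ≤ 1) :
    MDil {(r₁ : ℂ), (r₂ : ℂ)} β := by
  classical
  by_cases hpos : ∀ z ∈ β, 0 ≤ z.im
  · exact hL2zero r₁ r₂ β hC hle h1 h2 hpos
  push Not at hpos
  obtain ⟨b₀, hb₀, hneg⟩ := hpos
  obtain ⟨γ, hγ⟩ := Multiset.exists_cons_of_mem hb₀
  have hb1 : neg b₀.im = 1 := if_pos hneg
  rw [hγ, Multiset.map_cons, Multiset.sum_cons, hb1] at hs
  have hs0 : (γ.map (fun z => neg z.im)).sum = 0 := by omega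
  rw [sum_neg, Multiset.card_eq_zero, Multiset.filter_eq_nil] at hs0
  have hγ0 : ∀ z ∈ γ, 0 ≤ z.im := fun z hz => not_lt.1 (hs0 z hz)
  obtain ⟨R, hR⟩ : ∃ R : Multiset ℝ, R = (γ.filter (fun z => z.im = 0)).map Complex.re :=
    ⟨_, rfl⟩
  obtain ⟨C, hCd⟩ : ∃ C : Multiset ℂ, C = γ.filter (fun z => ¬ z.im = 0) := ⟨_, rfl⟩
  have hRm : R.map (fun x : ℝ => (x : ℂ)) = γ.filter (fun z => z.im = 0) := by
    rw [hR, Multiset.map_map]
    have : ∀ s : Multiset ℂ, (∀ z ∈ s, z.im = 0) →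
        s.map ((fun x : ℝ => (x : ℂ)) ∘ Complex.re) = s := by
      intro s hs
      conv_rhs => rw [← Multiset.map_id s]
      exact Multiset.map_congr rfl fun z hz => L2_real z (hs z hz)
    exact this _ fun z hz => (Multiset.mem_filter.1 hz).2
  have hsplit : R.map (fun x : ℝ => (x : ℂ)) + C = γ := by
    rw [hRm, hCd]
    exact Multiset.filter_add_not _ _
  have hCpos : ∀ z ∈ C, 0 < z.im := by
    intro z hz
    rw [hCd] at hz
    have h3 := Multiset.mem_filter.1 hz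
    exact lt_of_le_of_ne (hγ0 z h3.1) fun h => h3.2 h.symm
  have hβ : β = b₀ ::ₘ (R.map (fun x : ℝ => (x : ℂ)) + C) := by rw [hsplit]; exact hγ
  have hnR : ∀ r : ℝ, (r : ℂ) ∉ β → r ∉ R := by
    intro r hr hm
    apply hr
    rw [hβ]
    exact Multiset.mem_cons_of_mem (Multiset.mem_add.2
      (Or.inl (Multiset.mem_map_of_mem (fun x : ℝ => (x : ℂ)) hm)))
  by_cases hC0 : C = 0
  · -- mirror
    have hconj : ∀ s : Multiset ℂ, s.map (fun z => (0 : ℂ) * z + 1 * conj z + 0) = s.map conj := by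
      intro s
      refine Multiset.map_congr rfl fun z _ => ?_
      rw [zero_mul, zero_add, one_mul, add_zero]
    have hr : ∀ r : ℝ, (0 : ℂ) * (r : ℂ) + 1 * conj (r : ℂ) + 0 = (r : ℂ) := by
      intro r
      rw [zero_mul, zero_add, one_mul, add_zero, Complex.conj_ofReal]
    have hC' := hAffC 0 1 0 (r₁ : ℂ) (r₂ : ℂ) β hC
    rw [hr r₁, hr r₂, hconj β] at hC'
    have hnm : ∀ r : ℝ, (r : ℂ) ∉ β → (r : ℂ) ∉ β.map conj := by
      intro r hr hm
      obtain ⟨z, hz, he⟩ := Multiset.mem_map.1 hm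
      apply hr
      have h3 := congrArg conj he
      rw [Complex.conj_conj, Complex.conj_ofReal] at h3
      rw [← h3]
      exact hz
    have hpos' : ∀ z ∈ β.map conj, 0 ≤ z.im := by
      intro z hz
      obtain ⟨y, hy, rfl⟩ := Multiset.mem_map.1 hz
      rw [Complex.conj_im]
      rw [hβ, hC0, add_zero] at hy
      rcases Multiset.mem_cons.1 hy with h | h
      · rw [h]; linarith
      · obtain ⟨x, -, hx⟩ := Multiset.mem_map.1 h
        rw [← hx, Complex.ofReal_im, neg_zero]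
    have hd := hL2zero r₁ r₂ (β.map conj) hC' hle (hnm r₁ h1) (hnm r₂ h2) hpos'
    have hd2 := hAffM 0 1 0 _ _ hd
    rw [hconj (β.map conj), Multiset.map_map] at hd2
    have h5 : (conj ∘ conj : ℂ → ℂ) = fun z => z := by
      funext z
      exact Complex.conj_conj z
    rw [h5, Multiset.map_id'] at hd2
    have h6 : ({(r₁ : ℂ), (r₂ : ℂ)} : Multiset ℂ).map
        (fun z => (0 : ℂ) * z + 1 * conj z + 0) = {(r₁ : ℂ), (r₂ : ℂ)} := by
      show (Multiset.cons (r₁ : ℂ) ({(r₂ : ℂ)} : Multiset ℂ)).map _ = _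
      rw [Multiset.map_cons, Multiset.map_singleton, hr r₁, hr r₂]
      rfl
    rw [h6] at hd2
    exact hd2
  · rw [hβ]
    rw [hβ] at hC
    exact hL2one r₁ r₂ b₀ R C hC hle (hnR r₁ h1) (hnR r₂ h2) hneg hCpos hC0

theorem thm_L2 (hL2zero : St_L2zero) (hL2one : St_L2one) (hAffM : St_AffM)
    (hAffC : St_AffC) : St_L2 := by
  intro a₁ a₂ β hC i1 i2 h1 h2 hs
  have e1 := L2_real a₁ i1
  have e2 := L2_real a₂ i2
  rw [← e1] at hC h1 ⊢
  rw [← e2] at hC h2 ⊢
  rcases le_total a₁.re a₂.re with h | h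
  · exact L2_aux hL2zero hL2one hAffM hAffC a₁.re a₂.re β hC h h1 h2 hs
  · rw [Multiset.pair_comm]
    refine L2_aux hL2zero hL2one hAffM hAffC a₂.re a₁.re β ?_ h h2 h1 hs
    intro M
    rw [add_comm]
    exact hC M

end Pool.Agent.CMP
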