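import Mathlib
import Pool.Agent.CMP.Basic

set_option autoImplicit false

namespace Pool.Agent.CMP

open Finset Pool.Agent.Helper45.NC
open scoped ComplexConjugate

namespace L2o

theorem ex_eps {ι : Type*} (S : Multiset ι) (f : ι → ℝ) (h : ∀ z ∈ S, 0 < f z) :
    ∃ ε : ℝ, 0 < ε ∧ ∀ z ∈ S, ε < f z := by
  induction S using Multiset.induction_on with
  | empty => exact ⟨1, one_pos, fun z hz => absurd hz (Multiset.notMem_zero z)⟩
  | cons a S ih =>
    obtain ⟨ε, h1, h2⟩ := ih (fun z hz => h z (Multiset.mem_cons_of_mem hz))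
    have ha := h a (Multiset.mem_cons_self a S)
    refine ⟨min ε (f a / 2), lt_min h1 (by linarith), ?_⟩
    intro z hz
    rcases Multiset.mem_cons.1 hz with rfl | hz
    · exact lt_of_le_of_lt (min_le_right _ _) (by linarith)
    · exact lt_of_le_of_lt (min_le_left _ _) (h2 z hz)

/-- the real points of the convex hull -/
def Y (b₀ : ℂ) (C : Multiset ℂ) : Set ℝ := {y | (y : ℂ) ∈ convexHull ℝ (pts (b₀ ::ₘ C))}

theorem Y_conn (b₀ : ℂ) (C : Multiset ℂ) {x y z : ℝ} (hx : x ∈ Y b₀ C) (hz : z ∈ Y b₀ C)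
    (hxy : x ≤ y) (hyz : y ≤ z) : y ∈ Y b₀ C := by
  have h1 : Convex ℝ (Y b₀ C) :=
    (convex_convexHull ℝ (pts (b₀ ::ₘ C))).linear_preimage Complex.ofRealCLM.toLinearMap
  exact h1.ordConnected.out hx hz ⟨hxy, hyz⟩

theorem Y_nonempty (b₀ : ℂ) (C : Multiset ℂ) (hb : b₀.im < 0) (hC : ∀ z ∈ C, 0 < z.im)
    (hC0 : C ≠ 0) : ∃ y, y ∈ Y b₀ C := by
  obtain ⟨z, hz⟩ := Multiset.exists_mem_of_ne_zero hC0
  have hzi := hC z hz
  have h1 : b₀ ∈ convexHull ℝ (pts (b₀ ::ₘ C)) :=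
    subset_convexHull ℝ _ (Multiset.mem_cons_self b₀ C)
  have h2 : z ∈ convexHull ℝ (pts (b₀ ::ₘ C)) :=
    subset_convexHull ℝ _ (Multiset.mem_cons_of_mem hz)
  have hd : 0 < z.im - b₀.im := by linarith
  have h3 := (convex_convexHull ℝ (pts (b₀ ::ₘ C))) h1 h2
    (a := z.im / (z.im - b₀.im)) (b := - b₀.im / (z.im - b₀.im))
    (by positivity) (div_nonneg (by linarith) hd.le) (by field_simp; ring)
  refine ⟨(z.im / (z.im - b₀.im)) * b₀.re + (- b₀.im / (z.im - b₀.im)) * z.re, ?_⟩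
  have h4 : (((z.im / (z.im - b₀.im)) * b₀.re + (- b₀.im / (z.im - b₀.im)) * z.re : ℝ) : ℂ) =
      (z.im / (z.im - b₀.im)) • b₀ + (- b₀.im / (z.im - b₀.im)) • z := by
    apply Complex.ext
    · simp only [Complex.ofReal_re, Complex.add_re, Complex.real_smul, Complex.re_ofReal_mul]
    · simp only [Complex.ofReal_im, Complex.add_im, Complex.real_smul, Complex.im_ofReal_mul]
      field_simp
      ring
  show _ ∈ convexHull ℝ (pts (b₀ ::ₘ C))
  rw [h4]
  exact h3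

/-- mirror image of the separation lemma -/
theorem SepYm (hSepY : St_SepY) (b₀ : ℂ) (C : Multiset ℂ) (r : ℝ) (hb : b₀.im < 0)
    (hC : ∀ z ∈ C, 0 < z.im) (hY : ∀ y ∈ Y b₀ C, y < r) :
    ∃ κ : ℝ, 0 < r - b₀.re + κ * b₀.im ∧ ∀ z ∈ C, 0 < r - z.re + κ * z.im := by
  have hg : ∀ z ∈ convexHull ℝ (pts ((- conj b₀) ::ₘ C.map (fun z => - conj z))),
      - conj z ∈ convexHull ℝ (pts (b₀ ::ₘ C)) := by
    have h1 : Convex ℝ {z : ℂ | - conj z ∈ convexHull ℝ (pts (b₀ ::ₘ C))} :=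
      (convex_convexHull ℝ (pts (b₀ ::ₘ C))).linear_preimage (- Complex.conjAe.toLinearMap)
    have h2 : pts ((- conj b₀) ::ₘ C.map (fun z => - conj z)) ⊆
        {z : ℂ | - conj z ∈ convexHull ℝ (pts (b₀ ::ₘ C))} := by
      intro z hz
      have hz' : z ∈ (- conj b₀) ::ₘ C.map (fun z => - conj z) := hz
      rcases Multiset.mem_cons.1 hz' with rfl | hz
      · show - conj (- conj b₀) ∈ convexHull ℝ (pts (b₀ ::ₘ C))
        rw [map_neg, Complex.conj_conj, neg_neg]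
        exact subset_convexHull ℝ _ (Multiset.mem_cons_self b₀ C)
      · obtain ⟨w, hw, rfl⟩ := Multiset.mem_map.1 hz
        show - conj (- conj w) ∈ convexHull ℝ (pts (b₀ ::ₘ C))
        rw [map_neg, Complex.conj_conj, neg_neg]
        exact subset_convexHull ℝ _ (Multiset.mem_cons_of_mem hw)
    exact fun z hz => convexHull_min h2 h1 hz
  obtain ⟨κ, k1, k2⟩ := hSepY (- conj b₀) (C.map (fun z => - conj z)) (-r) (by simpa using hb)
    (by
      intro z hz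
      obtain ⟨w, hw, rfl⟩ := Multiset.mem_map.1 hz
      simpa using hC w hw)
    (by
      intro y hy
      have h3 := hg _ hy
      rw [Complex.conj_ofReal] at h3
      have h4 : -y ∈ Y b₀ C := by
        show ((-y : ℝ) : ℂ) ∈ convexHull ℝ (pts (b₀ ::ₘ C))
        rw [Complex.ofReal_neg]
        exact h3
      have := hY _ h4
      linarith)
  refine ⟨κ, ?_, ?_⟩
  · have : (- conj b₀).re = - b₀.re ∧ (- conj b₀).im = b₀.im := by simp
    rw [this.1, this.2] at k1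
    linarith
  · intro z hz
    have h5 := k2 (- conj z) (Multiset.mem_map_of_mem (fun z => - conj z) hz)
    have : (- conj z).re = - z.re ∧ (- conj z).im = z.im := by simp
    rw [this.1, this.2] at h5
    linarith

theorem sum_cons3 (b₀ : ℂ) (R : Multiset ℝ) (C : Multiset ℂ) (f : ℂ → ℕ) :
    ((b₀ ::ₘ (R.map (fun x : ℝ => (x : ℂ)) + C)).map f).sum =
      f b₀ + ((R.map (fun x : ℝ => f (x : ℂ))).sum + (C.map f).sum) := by
  rw [Multiset.map_cons, Multiset.sum_cons, Multiset.map_add, Multiset.sum_add,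
    Multiset.map_map]
  rfl

theorem sum_zero {ι : Type*} (C : Multiset ι) (f : ι → ℕ) (h : ∀ z ∈ C, f z = 0) :
    (C.map f).sum = 0 := by
  rw [Multiset.sum_eq_zero]
  intro x hx
  obtain ⟨z, hz, rfl⟩ := Multiset.mem_map.1 hx
  exact h z hz

theorem sum_le_card (R : Multiset ℝ) (f : ℝ → ℕ) (p : ℝ → Prop) [DecidablePred p]
    (h1 : ∀ y ∈ R, f y ≤ 1) (h2 : ∀ y ∈ R, ¬ p y → f y = 0) :
    (R.map f).sum ≤ (R.filter p).card := by
  induction R using Multiset.induction_on with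
  | empty => simp
  | cons a R ih =>
    have ih' := ih (fun y hy => h1 y (Multiset.mem_cons_of_mem hy))
      (fun y hy => h2 y (Multiset.mem_cons_of_mem hy))
    rw [Multiset.map_cons, Multiset.sum_cons]
    by_cases ha : p a
    · rw [Multiset.filter_cons_of_pos (p := p) R ha, Multiset.card_cons]
      have := h1 a (Multiset.mem_cons_self a R)
      omega
    · rw [Multiset.filter_cons_of_neg (p := p) R ha]
      have := h2 a (Multiset.mem_cons_self a R) ha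
      omega

theorem neg_le_one (x : ℝ) : neg x ≤ 1 := by unfold neg; split_ifs <;> omega

theorem neg_pos' {x : ℝ} (h : 0 ≤ x) : neg x = 0 := by
  unfold neg; rw [if_neg (not_lt.2 h)]

theorem neg_neg' {x : ℝ} (h : x < 0) : neg x = 1 := by
  unfold neg; rw [if_pos h]

/-- separation from the left -/
theorem left (hC1 : St_C1) (hSepY : St_SepY) (a₁ a₂ : ℝ) (b₀ : ℂ) (R : Multiset ℝ)
    (C : Multiset ℂ) (hcr : Crit (a₁ : ℂ) (a₂ : ℂ) (b₀ ::ₘ (R.map (fun x : ℝ => (x : ℂ)) + C)))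
    (hb : b₀.im < 0) (hC : ∀ z ∈ C, 0 < z.im) (r : ℝ) (hY : ∀ y ∈ Y b₀ C, r < y) :
    (if a₁ ≤ r then 1 else 0) + (if a₂ ≤ r then 1 else 0) ≤
      (R.filter (fun x => x ≤ r)).card := by
  obtain ⟨κ, k1, k2⟩ := hSepY b₀ C r hb hC hY
  obtain ⟨ε₁, e1, e2⟩ := ex_eps C (fun z => z.re - r + κ * z.im) k2
  obtain ⟨ε₂, e3, e4⟩ := ex_eps (R.filter (fun x => r < x)) (fun x => x - r) (by
    intro x hx
    have := (Multiset.mem_filter.1 hx).2
    show 0 < x - r
    linarith)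
  obtain ⟨ε₃, e5, e6⟩ : ∃ ε₃ : ℝ, 0 < ε₃ ∧ ε₃ < b₀.re - r + κ * b₀.im :=
    ⟨(b₀.re - r + κ * b₀.im) / 2, by linarith, by linarith⟩
  obtain ⟨ε, h0, h1, h2, h3⟩ : ∃ ε : ℝ, 0 < ε ∧ ε ≤ ε₁ ∧ ε ≤ ε₂ ∧ ε ≤ ε₃ :=
    ⟨min ε₁ (min ε₂ ε₃), lt_min e1 (lt_min e3 e5), min_le_left _ _,
      (min_le_right _ _).trans (min_le_left _ _), (min_le_right _ _).trans (min_le_right _ _)⟩
  have h4 := hC1 _ _ _ hcr ![-r - ε, 1, κ]
  rw [sum_cons3, neg_pos' (x := ev ![-r - ε, 1, κ] b₀) (by rw [ev_mk]; linarith),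
    sum_zero C _ (fun z hz => neg_pos' (by rw [ev_mk]; have := e2 z hz; linarith))] at h4
  have h5 : (R.map (fun x : ℝ => neg (ev ![-r - ε, 1, κ] (x : ℂ)))).sum ≤
      (R.filter (fun x => x ≤ r)).card := by
    apply sum_le_card
    · intro y _
      exact neg_le_one _
    · intro y hy hyr
      apply neg_pos'
      rw [ev_mk, Complex.ofReal_re, Complex.ofReal_im]
      have := e4 y (Multiset.mem_filter.2 ⟨hy, not_le.1 hyr⟩)
      linarith
  have h6 : ∀ a : ℝ, (if a ≤ r then 1 else 0) ≤ neg (ev ![-r - ε, 1, κ] (a : ℂ)) := by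
    intro a
    split_ifs with h
    · rw [neg_neg' (by rw [ev_mk, Complex.ofReal_re, Complex.ofReal_im]; linarith)]
    · exact Nat.zero_le _
  have h7 := h6 a₁
  have h8 := h6 a₂
  omega

/-- separation from the right -/
theorem right (hC1 : St_C1) (hSepY : St_SepY) (a₁ a₂ : ℝ) (b₀ : ℂ) (R : Multiset ℝ)
    (C : Multiset ℂ) (hcr : Crit (a₁ : ℂ) (a₂ : ℂ) (b₀ ::ₘ (R.map (fun x : ℝ => (x : ℂ)) + C)))
    (hb : b₀.im < 0) (hC : ∀ z ∈ C, 0 < z.im) (r : ℝ) (hY : ∀ y ∈ Y b₀ C, y < r) :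
    (if r ≤ a₁ then 1 else 0) + (if r ≤ a₂ then 1 else 0) ≤
      (R.filter (fun x => r ≤ x)).card := by
  obtain ⟨κ, k1, k2⟩ := SepYm hSepY b₀ C r hb hC hY
  obtain ⟨ε₁, e1, e2⟩ := ex_eps C (fun z => r - z.re + κ * z.im) k2
  obtain ⟨ε₂, e3, e4⟩ := ex_eps (R.filter (fun x => x < r)) (fun x => r - x) (by
    intro x hx
    have := (Multiset.mem_filter.1 hx).2
    show 0 < r - x
    linarith)
  obtain ⟨ε₃, e5, e6⟩ : ∃ ε₃ : ℝ, 0 < ε₃ ∧ ε₃ < r - b₀.re + κ * b₀.im :=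
    ⟨(r - b₀.re + κ * b₀.im) / 2, by linarith, by linarith⟩
  obtain ⟨ε, h0, h1, h2, h3⟩ : ∃ ε : ℝ, 0 < ε ∧ ε ≤ ε₁ ∧ ε ≤ ε₂ ∧ ε ≤ ε₃ :=
    ⟨min ε₁ (min ε₂ ε₃), lt_min e1 (lt_min e3 e5), min_le_left _ _,
      (min_le_right _ _).trans (min_le_left _ _), (min_le_right _ _).trans (min_le_right _ _)⟩
  have h4 := hC1 _ _ _ hcr ![r - ε, -1, κ]
  rw [sum_cons3, neg_pos' (x := ev ![r - ε, -1, κ] b₀) (by rw [ev_mk]; linarith),
    sum_zero C _ (fun z hz => neg_pos' (by rw [ev_mk]; have := e2 z hz; linarith))] at h4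
  have h5 : (R.map (fun x : ℝ => neg (ev ![r - ε, -1, κ] (x : ℂ)))).sum ≤
      (R.filter (fun x => r ≤ x)).card := by
    apply sum_le_card
    · intro y _
      exact neg_le_one _
    · intro y hy hyr
      apply neg_pos'
      rw [ev_mk, Complex.ofReal_re, Complex.ofReal_im]
      have := e4 y (Multiset.mem_filter.2 ⟨hy, not_le.1 hyr⟩)
      linarith
  have h6 : ∀ a : ℝ, (if r ≤ a then 1 else 0) ≤ neg (ev ![r - ε, -1, κ] (a : ℂ)) := by
    intro a
    split_ifs with h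
    · rw [neg_neg' (by rw [ev_mk, Complex.ofReal_re, Complex.ofReal_im]; linarith)]
    · exact Nat.zero_le _
  have h7 := h6 a₁
  have h8 := h6 a₂
  omega

theorem kap_tilt (α : Fin 3 → ℝ) (z : ℂ) :
    kap α 0 ![1, 0, 0] z = if z.im = 0 then neg (ev α z) else neg z.im := by
  have h1 : ev ![1, 0, 0] z = 1 := by rw [ev_mk]; ring
  unfold kap
  rw [h1, ev_zero, nu_zero_right, neg_pos' (x := 1) zero_le_one]
  simp

/-- the tilt -/
theorem tilt (hTL : St_TL) (a₁ a₂ : ℝ) (b₀ : ℂ) (R : Multiset ℝ)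
    (C : Multiset ℂ) (hcr : Crit (a₁ : ℂ) (a₂ : ℂ) (b₀ ::ₘ (R.map (fun x : ℝ => (x : ℂ)) + C)))
    (hb : b₀.im < 0) (hC : ∀ z ∈ C, 0 < z.im) (α : Fin 3 → ℝ) :
    neg (ev α a₁) + neg (ev α a₂) ≤ 1 + (R.map (fun x : ℝ => neg (ev α (x : ℂ)))).sum := by
  have h1 := hTL (a₁ : ℂ) (a₂ : ℂ) _ α 0 ![1, 0, 0] hcr
    (fun z _ _ => by rw [ev_mk]; simp) (fun _ => by rw [ev_mk]; simp)
    (fun _ => by rw [ev_mk]; simp)
  rw [sum_cons3, kap_tilt, kap_tilt, kap_tilt, if_pos (Complex.ofReal_im _),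
    if_pos (Complex.ofReal_im _), if_neg hb.ne, neg_neg' hb,
    sum_zero C _ (fun z hz => by
      rw [kap_tilt, if_neg (hC z hz).ne', neg_pos' (hC z hz).le])] at h1
  have h2 : (R.map (fun x : ℝ => kap α 0 ![1, 0, 0] (x : ℂ))).sum =
      (R.map (fun x : ℝ => neg (ev α (x : ℂ)))).sum := by
    congr 1
    apply Multiset.map_congr rfl
    intro x _
    rw [kap_tilt, if_pos (Complex.ofReal_im _)]
  rw [h2] at h1
  omega

theorem tiltL (hTL : St_TL) (a₁ a₂ : ℝ) (b₀ : ℂ) (R : Multiset ℝ)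
    (C : Multiset ℂ) (hcr : Crit (a₁ : ℂ) (a₂ : ℂ) (b₀ ::ₘ (R.map (fun x : ℝ => (x : ℂ)) + C)))
    (hb : b₀.im < 0) (hC : ∀ z ∈ C, 0 < z.im) (ha : a₁ ≤ a₂) :
    1 ≤ (R.filter (fun x => x ≤ a₂)).card := by
  obtain ⟨ε, e3, e4⟩ := ex_eps (R.filter (fun x => a₂ < x)) (fun x => x - a₂) (by
    intro x hx
    have := (Multiset.mem_filter.1 hx).2
    show 0 < x - a₂
    linarith)
  have h1 := tilt hTL a₁ a₂ b₀ R C hcr hb hC ![-a₂ - ε, 1, 0]
  rw [neg_neg' (by rw [ev_mk, Complex.ofReal_re, Complex.ofReal_im]; linarith),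
    neg_neg' (by rw [ev_mk, Complex.ofReal_re, Complex.ofReal_im]; linarith)] at h1
  have h5 : (R.map (fun x : ℝ => neg (ev ![-a₂ - ε, 1, 0] (x : ℂ)))).sum ≤
      (R.filter (fun x => x ≤ a₂)).card := by
    apply sum_le_card
    · intro y _
      exact neg_le_one _
    · intro y hy hyr
      apply neg_pos'
      rw [ev_mk, Complex.ofReal_re, Complex.ofReal_im]
      have := e4 y (Multiset.mem_filter.2 ⟨hy, not_le.1 hyr⟩)
      linarith
  omega

theorem tiltR (hTL : St_TL) (a₁ a₂ : ℝ) (b₀ : ℂ) (R : Multiset ℝ)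
    (C : Multiset ℂ) (hcr : Crit (a₁ : ℂ) (a₂ : ℂ) (b₀ ::ₘ (R.map (fun x : ℝ => (x : ℂ)) + C)))
    (hb : b₀.im < 0) (hC : ∀ z ∈ C, 0 < z.im) (ha : a₁ ≤ a₂) :
    1 ≤ (R.filter (fun x => a₁ ≤ x)).card := by
  obtain ⟨ε, e3, e4⟩ := ex_eps (R.filter (fun x => x < a₁)) (fun x => a₁ - x) (by
    intro x hx
    have := (Multiset.mem_filter.1 hx).2
    show 0 < a₁ - x
    linarith)
  have h1 := tilt hTL a₁ a₂ b₀ R C hcr hb hC ![a₁ - ε, -1, 0]
  rw [neg_neg' (by rw [ev_mk, Complex.ofReal_re, Complex.ofReal_im]; linarith),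
    neg_neg' (by rw [ev_mk, Complex.ofReal_re, Complex.ofReal_im]; linarith)] at h1
  have h5 : (R.map (fun x : ℝ => neg (ev ![a₁ - ε, -1, 0] (x : ℂ)))).sum ≤
      (R.filter (fun x => a₁ ≤ x)).card := by
    apply sum_le_card
    · intro y _
      exact neg_le_one _
    · intro y hy hyr
      apply neg_pos'
      rw [ev_mk, Complex.ofReal_re, Complex.ofReal_im]
      have := e4 y (Multiset.mem_filter.2 ⟨hy, not_le.1 hyr⟩)
      linarith
  omega

/-- choice of a point in the intersection of an interval with an order connected set -/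
theorem choose_pt (S : Set ℝ) (hS : ∀ x y z : ℝ, x ∈ S → z ∈ S → x ≤ y → y ≤ z → y ∈ S)
    (hne : ∃ y, y ∈ S) (a₁ a₂ : ℝ) (ha : a₁ ≤ a₂) (P Q P' Q' : Prop)
    (h1 : P → ∃ y ∈ S, y ≤ a₁) (h2 : Q → ∃ y ∈ S, y ≤ a₂)
    (h3 : P' → ∃ y ∈ S, a₂ ≤ y) (h4 : Q' → ∃ y ∈ S, a₁ ≤ y) (h5 : ¬ (P ∧ P')) :
    ∃ y ∈ S, (P → y ≤ a₁) ∧ (Q → y ≤ a₂) ∧ (P' → a₂ ≤ y) ∧ (Q' → a₁ ≤ y) := by
  obtain ⟨yu, hu, hu1, hu2⟩ : ∃ y ∈ S, (P → y ≤ a₁) ∧ (Q → y ≤ a₂) := by
    by_cases hP : P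
    · obtain ⟨y, hy, hy1⟩ := h1 hP
      exact ⟨y, hy, fun _ => hy1, fun _ => hy1.trans ha⟩
    · by_cases hQ : Q
      · obtain ⟨y, hy, hy1⟩ := h2 hQ
        exact ⟨y, hy, fun h => absurd h hP, fun _ => hy1⟩
      · obtain ⟨y, hy⟩ := hne
        exact ⟨y, hy, fun h => absurd h hP, fun h => absurd h hQ⟩
  obtain ⟨yv, hv, hv1, hv2⟩ : ∃ y ∈ S, (P' → a₂ ≤ y) ∧ (Q' → a₁ ≤ y) := by
    by_cases hP : P'
    · obtain ⟨y, hy, hy1⟩ := h3 hP
      exact ⟨y, hy, fun _ => hy1, fun _ => ha.trans hy1⟩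
    · by_cases hQ : Q'
      · obtain ⟨y, hy, hy1⟩ := h4 hQ
        exact ⟨y, hy, fun h => absurd h hP, fun _ => hy1⟩
      · obtain ⟨y, hy⟩ := hne
        exact ⟨y, hy, fun h => absurd h hP, fun h => absurd h hQ⟩
  by_cases c1 : (P' → a₂ ≤ yu) ∧ (Q' → a₁ ≤ yu)
  · exact ⟨yu, hu, hu1, hu2, c1.1, c1.2⟩
  by_cases c2 : (P → yv ≤ a₁) ∧ (Q → yv ≤ a₂)
  · exact ⟨yv, hv, c2.1, c2.2, hv1, hv2⟩
  by_cases hP' : P'
  · have hP : ¬ P := fun h => h5 ⟨h, hP'⟩
    have hyu : yu ≤ a₂ := by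
      by_contra hcon
      exact c1 ⟨fun _ => (not_le.1 hcon).le, fun _ => ha.trans (not_le.1 hcon).le⟩
    exact ⟨a₂, hS yu a₂ yv hu hv hyu (hv1 hP'), fun h => absurd h hP, fun _ => le_refl _,
      fun _ => le_refl _, fun _ => ha⟩
  · by_cases hQ' : Q'
    · have hyu : yu ≤ a₁ := by
        by_contra hcon
        exact c1 ⟨fun h => absurd h hP', fun _ => (not_le.1 hcon).le⟩
      exact ⟨a₁, hS yu a₁ yv hu hv hyu (hv2 hQ'), fun _ => le_refl _, fun _ => ha,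
        fun h => absurd h hP', fun _ => le_refl _⟩
    · exact absurd ⟨fun h => absurd h hP', fun h => absurd h hQ'⟩ c1

theorem card_cons_filter (y : ℝ) (R : Multiset ℝ) (p : ℝ → Prop) [DecidablePred p] :
    ((y ::ₘ R).filter p).card = (if p y then 1 else 0) + (R.filter p).card := by
  by_cases h : p y
  · rw [Multiset.filter_cons_of_pos (p := p) R h, Multiset.card_cons, if_pos h]
    omega
  · rw [Multiset.filter_cons_of_neg (p := p) R h, if_neg h]
    omega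

end L2o

open L2o

theorem thm_L2one (hTL : St_TL) (hC1 : St_C1) (hFP2 : St_FP2) (hK1 : St_K1) (hSub : St_Sub) (hSepY : St_SepY) (hSpec : St_Spec) : St_L2one := by
  intro a₁ a₂ b₀ R C hcr ha hR1 hR2 hb hC hC0
  have hq := tiltL hTL a₁ a₂ b₀ R C hcr hb hC ha
  have ht := tiltR hTL a₁ a₂ b₀ R C hcr hb hC ha
  have hmono1 : (R.filter (fun x => x ≤ a₁)).card ≤ (R.filter (fun x => x ≤ a₂)).card :=
    Multiset.card_le_card (Multiset.monotone_filter_right R (fun x hx => le_trans hx ha))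
  have hex := choose_pt (Y b₀ C) (fun x y z hx hz => Y_conn b₀ C hx hz)
    (Y_nonempty b₀ C hb hC hC0) a₁ a₂ ha
    ((R.filter (fun x => x ≤ a₁)).card = 0) ((R.filter (fun x => x ≤ a₂)).card ≤ 1)
    ((R.filter (fun x => a₂ ≤ x)).card = 0) ((R.filter (fun x => a₁ ≤ x)).card ≤ 1)
    (by
      intro h
      by_contra hcon
      push Not at hcon
      have := left hC1 hSepY a₁ a₂ b₀ R C hcr hb hC a₁ hcon
      rw [if_pos (le_refl _), h] at this
      omega)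
    (by
      intro h
      by_contra hcon
      push Not at hcon
      have := left hC1 hSepY a₁ a₂ b₀ R C hcr hb hC a₂ hcon
      rw [if_pos (le_refl _), if_pos ha] at this
      omega)
    (by
      intro h
      by_contra hcon
      push Not at hcon
      have := right hC1 hSepY a₁ a₂ b₀ R C hcr hb hC a₂ hcon
      rw [if_pos (le_refl a₂), h] at this
      omega)
    (by
      intro h
      by_contra hcon
      push Not at hcon
      have := right hC1 hSepY a₁ a₂ b₀ R C hcr hb hC a₁ hcon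
      rw [if_pos (le_refl _), if_pos ha] at this
      omega)
    (by
      rintro ⟨h1, h2⟩
      have h1' : ∀ y ∈ R, a₁ < y := by
        intro y hy
        by_contra hcon
        have : y ∈ R.filter (fun x => x ≤ a₁) := Multiset.mem_filter.2 ⟨hy, not_lt.1 hcon⟩
        rw [Multiset.card_eq_zero.1 h1] at this
        exact Multiset.notMem_zero _ this
      have h2' : ∀ y ∈ R, y < a₂ := by
        intro y hy
        by_contra hcon
        have : y ∈ R.filter (fun x => a₂ ≤ x) := Multiset.mem_filter.2 ⟨hy, not_lt.1 hcon⟩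
        rw [Multiset.card_eq_zero.1 h2] at this
        exact Multiset.notMem_zero _ this
      rcases lt_or_eq_of_le ha with hlt | heq
      · exact hSpec a₁ a₂ b₀ R C hcr hb hC hlt (fun y hy => ⟨h1' y hy, h2' y hy⟩)
      · rw [← heq, h1] at hq
        omega)
  obtain ⟨y, hy, y1, y2, y3, y4⟩ := hex
  have hM : MDil {(a₁ : ℂ), (a₂ : ℂ)} ((y ::ₘ R).map (fun x : ℝ => (x : ℂ))) := by
    apply hFP2 a₁ a₂ (y ::ₘ R) ha
    · rw [card_cons_filter]
      by_cases h : (R.filter (fun x => x ≤ a₁)).card = 0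
      · rw [if_pos (y1 h)]; omega
      · omega
    · rw [card_cons_filter]
      by_cases h : (R.filter (fun x => x ≤ a₂)).card ≤ 1
      · rw [if_pos (y2 h)]; omega
      · omega
    · rw [card_cons_filter]
      by_cases h : (R.filter (fun x => a₂ ≤ x)).card = 0
      · rw [if_pos (y3 h)]; omega
      · omega
    · rw [card_cons_filter]
      by_cases h : (R.filter (fun x => a₁ ≤ x)).card ≤ 1
      · rw [if_pos (y4 h)]; omega
      · omega
  refine MDil.trans hM ?_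
  have h1 : MDil {(y : ℂ)} (b₀ ::ₘ C) := hK1 _ _ hy
  have h2 := MDil.add h1 (MDil.refl (R.map (fun x : ℝ => (x : ℂ))))
  rw [Multiset.singleton_add, Multiset.cons_add, add_comm C] at h2
  rw [Multiset.map_cons]
  exact h2

end Pool.Agent.CMP
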