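import Mathlib
import Pool.Agent.CMP.Basic

set_option autoImplicit false

namespace Pool.Agent.CMP

open Finset Pool.Agent.Helper45.NC
open scoped ComplexConjugate

theorem l2z_nu (x : ℝ) : nu x 0 1 = neg x := by
  unfold nu neg
  by_cases hx : x < 0
  · have h1 : (x < 0 ∨ (1 : ℝ) < 0 ∨ x * 1 < (0 : ℝ) ^ 2) := Or.inl hx
    have h2 : ¬ (x < 0 ∧ (0 : ℝ) ^ 2 < x * 1) := by
      rintro ⟨_, h⟩
      norm_num at h
      linarith
    rw [if_pos h1, if_neg h2, if_pos hx]
  · have h1 : ¬ (x < 0 ∨ (1 : ℝ) < 0 ∨ x * 1 < (0 : ℝ) ^ 2) := by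
      rintro (h | h | h)
      · exact hx h
      · linarith
      · norm_num at h
        exact hx h
    have h2 : ¬ (x < 0 ∧ (0 : ℝ) ^ 2 < x * 1) := fun h => hx h.1
    rw [if_neg h1, if_neg h2, if_neg hx]

theorem l2z_kap_real (α : Fin 3 → ℝ) (z : ℂ) (hz : z.im = 0) :
    kap α 0 ![1, 0, 0] z = neg (ev α z) := by
  unfold kap
  rw [if_pos hz, ev_zero, ev_mk]
  have e3 : (1 : ℝ) + 0 * z.re + 0 * z.im = 1 := by ring
  rw [e3, l2z_nu]

theorem l2z_kap_pos (α : Fin 3 → ℝ) (z : ℂ) (hz : z.im ≠ 0) (hz0 : 0 ≤ z.im) :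
    kap α 0 ![1, 0, 0] z = 0 := by
  unfold kap
  rw [if_neg hz, ev_mk]
  have e3 : (1 : ℝ) + 0 * z.re + 0 * z.im = 1 := by ring
  rw [e3]
  unfold neg
  rw [if_neg (not_lt.2 hz0), if_neg (by norm_num)]

theorem l2z_count (P : ℝ → Prop) [DecidablePred P] (g : ℂ → ℕ) (β : Multiset ℂ) :
    (∀ z ∈ β, g z ≤ if z.im = 0 ∧ P z.re then 1 else 0) →
    (β.map g).sum ≤ (((β.filter (fun z => z.im = 0)).map Complex.re).filter P).card := by
  induction β using Multiset.induction with
  | empty => intro _; simp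
  | cons z β ih =>
    intro h
    have h1 := h z (Multiset.mem_cons_self z β)
    have h2 := ih (fun y hy => h y (Multiset.mem_cons_of_mem hy))
    rw [Multiset.map_cons, Multiset.sum_cons]
    by_cases hz : z.im = 0
    · rw [Multiset.filter_cons_of_pos (p := fun z : ℂ => z.im = 0) β hz, Multiset.map_cons]
      by_cases hp : P z.re
      · rw [Multiset.filter_cons_of_pos _ hp, Multiset.card_cons]
        rw [if_pos ⟨hz, hp⟩] at h1
        omega
      · rw [Multiset.filter_cons_of_neg _ hp]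
        rw [if_neg (fun h => hp h.2)] at h1
        omega
    · rw [Multiset.filter_cons_of_neg (p := fun z : ℂ => z.im = 0) β hz]
      rw [if_neg (fun h => hz h.1)] at h1
      omega

theorem l2z_right (β : Multiset ℂ) (a : ℝ) :
    ∃ r : ℝ, a < r ∧ ∀ z ∈ β, z.re < r → z.re ≤ a := by
  induction β using Multiset.induction with
  | empty => exact ⟨a + 1, by linarith, fun z hz => absurd hz (Multiset.notMem_zero z)⟩
  | cons z β ih =>
    obtain ⟨r, h1, h2⟩ := ih
    by_cases hz : z.re ≤ a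
    · refine ⟨r, h1, ?_⟩
      intro y hy hyr
      rcases Multiset.mem_cons.1 hy with rfl | hy
      · exact hz
      · exact h2 y hy hyr
    · push Not at hz
      refine ⟨min r z.re, lt_min h1 hz, ?_⟩
      intro y hy hyr
      rcases Multiset.mem_cons.1 hy with rfl | hy
      · exact absurd (lt_of_lt_of_le hyr (min_le_right _ _)) (lt_irrefl _)
      · exact h2 y hy (lt_of_lt_of_le hyr (min_le_left _ _))

theorem l2z_left (β : Multiset ℂ) (a : ℝ) :
    ∃ r : ℝ, r < a ∧ ∀ z ∈ β, r < z.re → a ≤ z.re := by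
  induction β using Multiset.induction with
  | empty => exact ⟨a - 1, by linarith, fun z hz => absurd hz (Multiset.notMem_zero z)⟩
  | cons z β ih =>
    obtain ⟨r, h1, h2⟩ := ih
    by_cases hz : a ≤ z.re
    · refine ⟨r, h1, ?_⟩
      intro y hy hyr
      rcases Multiset.mem_cons.1 hy with rfl | hy
      · exact hz
      · exact h2 y hy hyr
    · push Not at hz
      refine ⟨max r z.re, max_lt h1 hz, ?_⟩
      intro y hy hyr
      rcases Multiset.mem_cons.1 hy with rfl | hy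
      · exact absurd (lt_of_le_of_lt (le_max_right _ _) hyr) (lt_irrefl _)
      · exact h2 y hy (lt_of_le_of_lt (le_max_left _ _) hyr)

theorem thm_L2zero (hTL : St_TL) (hFP2 : St_FP2) (hSub : St_Sub) : St_L2zero := by
  intro a₁ a₂ β hC h12 ha1 ha2 hpos
  have T : ∀ α : Fin 3 → ℝ, neg (ev α (a₁ : ℂ)) + neg (ev α (a₂ : ℂ)) ≤
      (β.map (kap α 0 ![1, 0, 0])).sum := by
    intro α
    have h1 : ∀ z : ℂ, ev ![1, 0, 0] z ≠ 0 := by
      intro z
      rw [ev_mk]
      norm_num
    have h := hTL a₁ a₂ β α 0 ![1, 0, 0] hC (fun z _ _ => h1 z) (fun _ => h1 _) (fun _ => h1 _)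
    rw [l2z_kap_real α (a₁ : ℂ) (Complex.ofReal_im a₁),
      l2z_kap_real α (a₂ : ℂ) (Complex.ofReal_im a₂)] at h
    exact h
  set γ : Multiset ℝ := (β.filter (fun z => z.im = 0)).map Complex.re with hγ
  have hg : γ.map (fun x : ℝ => (x : ℂ)) = β.filter (fun z => z.im = 0) := by
    rw [hγ, Multiset.map_map]
    conv_rhs => rw [← Multiset.map_id (β.filter (fun z => z.im = 0))]
    refine Multiset.map_congr rfl (fun z hz => ?_)
    have hz2 : z.im = 0 := (Multiset.mem_filter.1 hz).2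
    apply Complex.ext
    · simp
    · simp [hz2]
  have evl : ∀ (r : ℝ) (z : ℂ), ev ![-r, 1, 0] z = z.re - r := by
    intro r z; rw [ev_mk]; ring
  have evr : ∀ (r : ℝ) (z : ℂ), ev ![r, -1, 0] z = r - z.re := by
    intro r z; rw [ev_mk]; ring
  -- counting to the left
  have L : ∀ a : ℝ, ∃ r : ℝ, a < r ∧ neg (a₁ - r) + neg (a₂ - r) ≤
      (γ.filter (fun x => x ≤ a)).card := by
    intro a
    obtain ⟨r, hr, h⟩ := l2z_right β a
    refine ⟨r, hr, ?_⟩
    have h1 := T ![-r, 1, 0]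
    rw [evl, evl, Complex.ofReal_re, Complex.ofReal_re] at h1
    refine le_trans h1 (l2z_count (fun x => x ≤ a) _ β ?_)
    intro z hz
    by_cases h0 : z.im = 0
    · rw [l2z_kap_real _ z h0, evl]
      unfold neg
      by_cases h3 : z.re < r
      · rw [if_pos (by linarith), if_pos ⟨h0, h z hz h3⟩]
      · rw [if_neg (by linarith)]
        exact Nat.zero_le _
    · rw [l2z_kap_pos _ z h0 (hpos z hz)]
      exact Nat.zero_le _
  have R : ∀ a : ℝ, ∃ r : ℝ, r < a ∧ neg (r - a₁) + neg (r - a₂) ≤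
      (γ.filter (fun x => a ≤ x)).card := by
    intro a
    obtain ⟨r, hr, h⟩ := l2z_left β a
    refine ⟨r, hr, ?_⟩
    have h1 := T ![r, -1, 0]
    rw [evr, evr, Complex.ofReal_re, Complex.ofReal_re] at h1
    refine le_trans h1 (l2z_count (fun x => a ≤ x) _ β ?_)
    intro z hz
    by_cases h0 : z.im = 0
    · rw [l2z_kap_real _ z h0, evr]
      unfold neg
      by_cases h3 : r < z.re
      · rw [if_pos (by linarith), if_pos ⟨h0, h z hz h3⟩]
      · rw [if_neg (by linarith)]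
        exact Nat.zero_le _
    · rw [l2z_kap_pos _ z h0 (hpos z hz)]
      exact Nat.zero_le _
  have hneg : ∀ x : ℝ, x < 0 → neg x = 1 := fun x hx => if_pos hx
  have c1 : 1 ≤ (γ.filter (fun x => x ≤ a₁)).card := by
    obtain ⟨r, hr, h⟩ := L a₁
    rw [hneg (a₁ - r) (by linarith)] at h
    omega
  have c2 : 2 ≤ (γ.filter (fun x => x ≤ a₂)).card := by
    obtain ⟨r, hr, h⟩ := L a₂
    rw [hneg (a₁ - r) (by linarith), hneg (a₂ - r) (by linarith)] at h
    omega
  have c3 : 1 ≤ (γ.filter (fun x => a₂ ≤ x)).card := by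
    obtain ⟨r, hr, h⟩ := R a₂
    rw [hneg (r - a₂) (by linarith)] at h
    omega
  have c4 : 2 ≤ (γ.filter (fun x => a₁ ≤ x)).card := by
    obtain ⟨r, hr, h⟩ := R a₁
    rw [hneg (r - a₁) (by linarith), hneg (r - a₂) (by linarith)] at h
    omega
  have key := hFP2 a₁ a₂ γ h12 c1 c2 c3 c4
  rw [hg] at key
  exact key.trans (hSub _ _ (Multiset.filter_le _ _))

end Pool.Agent.CMP
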