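import Mathlib
import Pool.Agent.CMP.Basic

set_option autoImplicit false

namespace Pool.Agent.CMP

open Finset Pool.Agent.Helper45.NC
open scoped ComplexConjugate

noncomputable def Lag_P (z : ℂ) : Fin 3 → ℝ := ![1, z.re, z.im]

theorem Lag_ev (h : Fin 3 → ℝ) (z : ℂ) : ev h z = ∑ i, h i * Lag_P z i := by
  rw [Fin.sum_univ_three]
  simp [ev, Lag_P]

theorem Lag_ev_single (z : ℂ) (i : Fin 3) : ev (Pi.single i 1) z = Lag_P z i := by
  rw [Lag_ev, Finset.sum_eq_single i]
  · rw [Pi.single_eq_same, one_mul]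
  · intro j _ hj
    rw [Pi.single_eq_of_ne hj, zero_mul]
  · intro h
    exact absurd (Finset.mem_univ i) h

abbrev Lag_E (n : ℕ) : Type := (Fin n → ℂ) × (Fin n → ℂ)

abbrev Lag_W : Type := (Fin 3 → ℝ) × (Fin 3 → ℂ) × (Fin 3 → ℝ)

/-- the compression map, polarised -/
noncomputable def Lag_q {n : ℕ} (b : Fin n → ℂ) (V V' : Lag_E n) : Lag_W :=
  (fun i => ∑ l, (V.1 l * conj (V'.1 l)).re * Lag_P (b l) i,
    fun i => ∑ l, (1 / 2 : ℂ) * (V.1 l * conj (V'.2 l) + V'.1 l * conj (V.2 l)) *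
      (Lag_P (b l) i : ℂ),
    fun i => ∑ l, (V.2 l * conj (V'.2 l)).re * Lag_P (b l) i)

theorem Lag_q_symm {n : ℕ} (b : Fin n → ℂ) (V V' : Lag_E n) : Lag_q b V V' = Lag_q b V' V := by
  unfold Lag_q
  refine Prod.ext (funext fun i => ?_) (Prod.ext (funext fun i => ?_) (funext fun i => ?_))
  · change ∑ l, (V.1 l * conj (V'.1 l)).re * Lag_P (b l) i =
      ∑ l, (V'.1 l * conj (V.1 l)).re * Lag_P (b l) i
    refine Finset.sum_congr rfl fun l _ => ?_
    congr 1
    simp only [Complex.mul_re, Complex.conj_re, Complex.conj_im]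
    ring
  · change ∑ l, (1 / 2 : ℂ) * (V.1 l * conj (V'.2 l) + V'.1 l * conj (V.2 l)) *
        (Lag_P (b l) i : ℂ) =
      ∑ l, (1 / 2 : ℂ) * (V'.1 l * conj (V.2 l) + V.1 l * conj (V'.2 l)) *
        (Lag_P (b l) i : ℂ)
    refine Finset.sum_congr rfl fun l _ => ?_
    ring
  · change ∑ l, (V.2 l * conj (V'.2 l)).re * Lag_P (b l) i =
      ∑ l, (V'.2 l * conj (V.2 l)).re * Lag_P (b l) i
    refine Finset.sum_congr rfl fun l _ => ?_
    congr 1
    simp only [Complex.mul_re, Complex.conj_re, Complex.conj_im]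
    ring

theorem Lag_q_add {n : ℕ} (b : Fin n → ℂ) (V V₂ V' : Lag_E n) :
    Lag_q b (V + V₂) V' = Lag_q b V V' + Lag_q b V₂ V' := by
  unfold Lag_q
  refine Prod.ext (funext fun i => ?_) (Prod.ext (funext fun i => ?_) (funext fun i => ?_))
  · change ∑ l, ((V.1 l + V₂.1 l) * conj (V'.1 l)).re * Lag_P (b l) i =
      ∑ l, (V.1 l * conj (V'.1 l)).re * Lag_P (b l) i +
        ∑ l, (V₂.1 l * conj (V'.1 l)).re * Lag_P (b l) i
    rw [← Finset.sum_add_distrib]
    refine Finset.sum_congr rfl fun l _ => ?_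
    rw [add_mul, Complex.add_re]
    ring
  · change ∑ l, (1 / 2 : ℂ) * ((V.1 l + V₂.1 l) * conj (V'.2 l) + V'.1 l * conj (V.2 l + V₂.2 l)) *
      (Lag_P (b l) i : ℂ) =
      ∑ l, (1 / 2 : ℂ) * (V.1 l * conj (V'.2 l) + V'.1 l * conj (V.2 l)) * (Lag_P (b l) i : ℂ) +
        ∑ l, (1 / 2 : ℂ) * (V₂.1 l * conj (V'.2 l) + V'.1 l * conj (V₂.2 l)) *
          (Lag_P (b l) i : ℂ)
    rw [← Finset.sum_add_distrib]
    refine Finset.sum_congr rfl fun l _ => ?_
    rw [map_add]
    ring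
  · change ∑ l, ((V.2 l + V₂.2 l) * conj (V'.2 l)).re * Lag_P (b l) i =
      ∑ l, (V.2 l * conj (V'.2 l)).re * Lag_P (b l) i +
        ∑ l, (V₂.2 l * conj (V'.2 l)).re * Lag_P (b l) i
    rw [← Finset.sum_add_distrib]
    refine Finset.sum_congr rfl fun l _ => ?_
    rw [add_mul, Complex.add_re]
    ring

theorem Lag_q_smul {n : ℕ} (b : Fin n → ℂ) (c : ℝ) (V V' : Lag_E n) :
    Lag_q b (c • V) V' = c • Lag_q b V V' := by
  unfold Lag_q
  refine Prod.ext (funext fun i => ?_) (Prod.ext (funext fun i => ?_) (funext fun i => ?_))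
  · change ∑ l, ((c • V.1 l) * conj (V'.1 l)).re * Lag_P (b l) i =
      c * ∑ l, (V.1 l * conj (V'.1 l)).re * Lag_P (b l) i
    rw [Finset.mul_sum]
    refine Finset.sum_congr rfl fun l _ => ?_
    rw [Complex.real_smul, mul_assoc, Complex.re_ofReal_mul]
    ring
  · change ∑ l, (1 / 2 : ℂ) * ((c • V.1 l) * conj (V'.2 l) + V'.1 l * conj (c • V.2 l)) *
      (Lag_P (b l) i : ℂ) = c •
      ∑ l, (1 / 2 : ℂ) * (V.1 l * conj (V'.2 l) + V'.1 l * conj (V.2 l)) * (Lag_P (b l) i : ℂ)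
    rw [Complex.real_smul, Finset.mul_sum]
    refine Finset.sum_congr rfl fun l _ => ?_
    rw [Complex.real_smul, Complex.real_smul, map_mul, Complex.conj_ofReal]
    ring
  · change ∑ l, ((c • V.2 l) * conj (V'.2 l)).re * Lag_P (b l) i =
      c * ∑ l, (V.2 l * conj (V'.2 l)).re * Lag_P (b l) i
    rw [Finset.mul_sum]
    refine Finset.sum_congr rfl fun l _ => ?_
    rw [Complex.real_smul, mul_assoc, Complex.re_ofReal_mul]
    ring

/-- the continuous bilinear map -/
theorem Lag_exists_Q {n : ℕ} (b : Fin n → ℂ) : ∃ Q : Lag_E n →L[ℝ] Lag_E n →L[ℝ] Lag_W,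
    ∀ V V', Q V V' = Lag_q b V V' := by
  let Ql : Lag_E n →ₗ[ℝ] Lag_E n →ₗ[ℝ] Lag_W := LinearMap.mk₂ ℝ (Lag_q b)
    (Lag_q_add b) (Lag_q_smul b)
    (fun V V' V₂ => by rw [Lag_q_symm b V, Lag_q_add, Lag_q_symm b V', Lag_q_symm b V₂])
    (fun c V V' => by rw [Lag_q_symm b V, Lag_q_smul, Lag_q_symm b V'])
  let e : (Lag_E n →ₗ[ℝ] Lag_W) ≃ₗ[ℝ] (Lag_E n →L[ℝ] Lag_W) := LinearMap.toContinuousLinearMap
  exact ⟨LinearMap.toContinuousLinearMap (e.toLinearMap ∘ₗ Ql), fun V V' => rfl⟩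

/-- the linear part -/
theorem Lag_exists_L : ∃ L : ℂ →L[ℝ] Lag_W, ∀ y, L y = (0, 0, ![0, y.re, y.im]) := by
  let Ll : ℂ →ₗ[ℝ] Lag_W :=
    { toFun := fun y => (0, 0, ![0, y.re, y.im])
      map_add' := fun y y' => by
        refine Prod.ext (by simp) (Prod.ext (by simp) (funext fun i => ?_))
        fin_cases i <;> simp
      map_smul' := fun c y => by
        refine Prod.ext (by simp) (Prod.ext (by simp) (funext fun i => ?_))
        fin_cases i <;> simp }
  exact ⟨LinearMap.toContinuousLinearMap Ll, fun y => rfl⟩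

/-- linear forms on `W` -/
theorem Lag_form (m : Lag_W →ₗ[ℝ] ℝ) : ∃ α β₁ β₂ γ : Fin 3 → ℝ, ∀ g : Lag_W,
    m g = ∑ i, α i * g.1 i + 2 * ∑ i, (β₁ i * (g.2.1 i).re + β₂ i * (g.2.1 i).im) +
      ∑ i, γ i * g.2.2 i := by
  let m₁ : (Fin 3 → ℝ) →ₗ[ℝ] ℝ := m ∘ₗ LinearMap.inl ℝ _ _
  let m₂ : (Fin 3 → ℂ) →ₗ[ℝ] ℝ := m ∘ₗ LinearMap.inr ℝ _ _ ∘ₗ LinearMap.inl ℝ _ _
  let m₃ : (Fin 3 → ℝ) →ₗ[ℝ] ℝ := m ∘ₗ LinearMap.inr ℝ _ _ ∘ₗ LinearMap.inr ℝ _ _
  have hm : ∀ g : Lag_W, m g = m₁ g.1 + m₂ g.2.1 + m₃ g.2.2 := by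
    intro g
    change m g = m (g.1, 0) + m (0, (g.2.1, 0)) + m (0, (0, g.2.2))
    rw [← map_add, ← map_add]
    congr 1
    refine Prod.ext (by simp) (Prod.ext (by simp) (by simp))
  have hreal : ∀ (f : (Fin 3 → ℝ) →ₗ[ℝ] ℝ) (g : Fin 3 → ℝ),
      f g = ∑ i, f (Pi.single i (1 : ℝ)) * g i := by
    intro f g
    conv_lhs => rw [← Finset.univ_sum_single g, map_sum]
    refine Finset.sum_congr rfl fun i _ => ?_
    have h1 : (Pi.single i (g i) : Fin 3 → ℝ) = g i • (Pi.single i (1 : ℝ) : Fin 3 → ℝ) := by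
      rw [← Pi.single_smul, smul_eq_mul, mul_one]
    rw [h1, map_smul, smul_eq_mul, mul_comm]
  have hcomplex : ∀ g : Fin 3 → ℂ, m₂ g =
      ∑ i, (m₂ (Pi.single i 1) * (g i).re + m₂ (Pi.single i Complex.I) * (g i).im) := by
    intro g
    conv_lhs => rw [← Finset.univ_sum_single g, map_sum]
    refine Finset.sum_congr rfl fun i _ => ?_
    have h1 : (Pi.single i (g i) : Fin 3 → ℂ) =
        (g i).re • (Pi.single i (1 : ℂ) : Fin 3 → ℂ) +
          (g i).im • (Pi.single i Complex.I : Fin 3 → ℂ) := by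
      rw [← Pi.single_smul, ← Pi.single_smul, ← Pi.single_add]
      congr 1
      rw [Complex.real_smul, Complex.real_smul, mul_one, Complex.re_add_im]
    rw [h1, map_add, map_smul, map_smul, smul_eq_mul, smul_eq_mul]
    ring
  refine ⟨fun i => m₁ (Pi.single i 1), fun i => m₂ (Pi.single i 1) / 2,
    fun i => m₂ (Pi.single i Complex.I) / 2, fun i => m₃ (Pi.single i 1), fun g => ?_⟩
  rw [hm, hreal m₁, hreal m₃, hcomplex, Finset.mul_sum]
  congr 2
  refine Finset.sum_congr rfl fun i _ => ?_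
  ring

/-- a linear form on the values of the compression map -/
theorem Lag_form_q {n : ℕ} (b : Fin n → ℂ) (α β₁ β₂ γ : Fin 3 → ℝ) (V V' : Lag_E n) :
    ∑ i, α i * (Lag_q b V V').1 i +
      2 * ∑ i, (β₁ i * ((Lag_q b V V').2.1 i).re + β₂ i * ((Lag_q b V V').2.1 i).im) +
      ∑ i, γ i * (Lag_q b V V').2.2 i =
    ∑ l, (ev α (b l) * (V.1 l * conj (V'.1 l)).re +
      (ev β₁ (b l) * (V.1 l * conj (V'.2 l) + V'.1 l * conj (V.2 l)).re +
        ev β₂ (b l) * (V.1 l * conj (V'.2 l) + V'.1 l * conj (V.2 l)).im) +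
      ev γ (b l) * (V.2 l * conj (V'.2 l)).re) := by
  have h1 : ∀ (h : Fin 3 → ℝ) (s : Fin n → ℝ), ∑ i, h i * ∑ l, s l * Lag_P (b l) i =
      ∑ l, ev h (b l) * s l := by
    intro h s
    simp only [Finset.mul_sum]
    rw [Finset.sum_comm]
    refine Finset.sum_congr rfl fun l _ => ?_
    rw [Lag_ev, Finset.sum_mul]
    refine Finset.sum_congr rfl fun i _ => ?_
    ring
  have h2 : ∀ i, ((Lag_q b V V').2.1 i).re =
      ∑ l, ((V.1 l * conj (V'.2 l) + V'.1 l * conj (V.2 l)).re / 2) * Lag_P (b l) i := by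
    intro i
    change (∑ l, (1 / 2 : ℂ) * (V.1 l * conj (V'.2 l) + V'.1 l * conj (V.2 l)) *
      (Lag_P (b l) i : ℂ)).re = _
    rw [Complex.re_sum]
    refine Finset.sum_congr rfl fun l _ => ?_
    rw [Complex.re_mul_ofReal]
    have h3 : (1 / 2 : ℂ) = ((1 / 2 : ℝ) : ℂ) := by push_cast; rfl
    rw [h3, Complex.re_ofReal_mul]
    ring
  have h4 : ∀ i, ((Lag_q b V V').2.1 i).im =
      ∑ l, ((V.1 l * conj (V'.2 l) + V'.1 l * conj (V.2 l)).im / 2) * Lag_P (b l) i := by
    intro i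
    change (∑ l, (1 / 2 : ℂ) * (V.1 l * conj (V'.2 l) + V'.1 l * conj (V.2 l)) *
      (Lag_P (b l) i : ℂ)).im = _
    rw [Complex.im_sum]
    refine Finset.sum_congr rfl fun l _ => ?_
    rw [Complex.im_mul_ofReal]
    have h3 : (1 / 2 : ℂ) = ((1 / 2 : ℝ) : ℂ) := by push_cast; rfl
    rw [h3, Complex.im_ofReal_mul]
    ring
  simp only [h2, h4]
  rw [Finset.sum_add_distrib, h1, h1]
  have h5 : ∑ i, α i * (Lag_q b V V').1 i = ∑ l, ev α (b l) * (V.1 l * conj (V'.1 l)).re :=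
    h1 α fun l => (V.1 l * conj (V'.1 l)).re
  have h6 : ∑ i, γ i * (Lag_q b V V').2.2 i = ∑ l, ev γ (b l) * (V.2 l * conj (V'.2 l)).re :=
    h1 γ fun l => (V.2 l * conj (V'.2 l)).re
  rw [h5, h6, mul_add, Finset.mul_sum, Finset.mul_sum, ← Finset.sum_add_distrib,
    ← Finset.sum_add_distrib, ← Finset.sum_add_distrib]
  refine Finset.sum_congr rfl fun l _ => ?_
  ring

theorem Lag_zero_of_re {u : ℂ} (h : ∀ t : ℂ, (conj t * u).re = 0) : u = 0 := by
  have h1 := h u
  rw [← Complex.normSq_eq_conj_mul_self, Complex.ofReal_re] at h1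
  exact Complex.normSq_eq_zero.1 h1

/-- a form which vanishes on the range of the derivative in the `V` directions -/
theorem Lag_rel {n : ℕ} (b p q : Fin n → ℂ) (α β₁ β₂ γ : Fin 3 → ℝ)
    (h : ∀ V' : Lag_E n, ∑ l, (ev α (b l) * (p l * conj (V'.1 l)).re +
      (ev β₁ (b l) * (p l * conj (V'.2 l) + V'.1 l * conj (q l)).re +
        ev β₂ (b l) * (p l * conj (V'.2 l) + V'.1 l * conj (q l)).im) +
      ev γ (b l) * (q l * conj (V'.2 l)).re) = 0) :
    (∀ l, (ev α (b l) : ℂ) * p l + (ev β₁ (b l) + ev β₂ (b l) * Complex.I) * q l = 0) ∧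
    (∀ l, (ev β₁ (b l) - ev β₂ (b l) * Complex.I) * p l + (ev γ (b l) : ℂ) * q l = 0) := by
  constructor
  · intro l
    refine Lag_zero_of_re fun t => ?_
    have h1 := h (Pi.single l t, 0)
    rw [Finset.sum_eq_single l] at h1
    · simp only [Pi.single_eq_same, Pi.zero_apply, map_zero, mul_zero, zero_add, Complex.zero_re,
        add_zero] at h1
      rw [← h1]
      simp only [Complex.mul_re, Complex.mul_im, Complex.add_re, Complex.add_im, Complex.conj_re,
        Complex.conj_im, Complex.ofReal_re, Complex.ofReal_im, Complex.I_re, Complex.I_im]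
      ring
    · intro j _ hj
      simp only [Pi.single_eq_of_ne hj, Pi.zero_apply, map_zero, mul_zero, zero_mul, zero_add,
        Complex.zero_re, Complex.zero_im]
    · intro hn
      exact absurd (Finset.mem_univ l) hn
  · intro l
    refine Lag_zero_of_re fun t => ?_
    have h1 := h (0, Pi.single l t)
    rw [Finset.sum_eq_single l] at h1
    · simp only [Pi.single_eq_same, Pi.zero_apply, map_zero, mul_zero, zero_mul, zero_add,
        Complex.zero_re, add_zero] at h1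
      rw [← h1]
      simp only [Complex.mul_re, Complex.mul_im, Complex.add_re, Complex.add_im, Complex.sub_re,
        Complex.sub_im, Complex.conj_re,
        Complex.conj_im, Complex.ofReal_re, Complex.ofReal_im, Complex.I_re, Complex.I_im]
      ring
    · intro j _ hj
      simp only [Pi.single_eq_of_ne hj, Pi.zero_apply, map_zero, mul_zero, zero_mul, zero_add,
        Complex.zero_re, Complex.zero_im]
    · intro hn
      exact absurd (Finset.mem_univ l) hn

/-- no linear form vanishes on the range -/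
theorem Lag_onto_aux (hGenSupp : St_GenSupp) {n : ℕ} (b p q : Fin n → ℂ) (a x : ℂ)
    (hGen : Gen b a) (hF : Feas b p q a x) (α β₁ β₂ γ : Fin 3 → ℝ)
    (h1 : ∀ l, (ev α (b l) : ℂ) * p l + (ev β₁ (b l) + ev β₂ (b l) * Complex.I) * q l = 0)
    (h2 : ∀ l, (ev β₁ (b l) - ev β₂ (b l) * Complex.I) * p l + (ev γ (b l) : ℂ) * q l = 0)
    (h3 : γ 1 = 0) (h4 : γ 2 = 0) : α = 0 ∧ β₁ = 0 ∧ β₂ = 0 ∧ γ = 0 := by
  have hγ : γ = 0 := by
    have e1 : ∑ l, ((ev β₁ (b l) - ev β₂ (b l) * Complex.I) * p l + (ev γ (b l) : ℂ) * q l) *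
        conj (q l) = 0 := Finset.sum_eq_zero fun l _ => by rw [h2 l, zero_mul]
    have e2 : ∑ l, ((ev β₁ (b l) - ev β₂ (b l) * Complex.I) * p l + (ev γ (b l) : ℂ) * q l) *
        conj (q l) = ∑ l, p l * conj (q l) * (ev β₁ (b l) : ℂ) -
          Complex.I * ∑ l, p l * conj (q l) * (ev β₂ (b l) : ℂ) +
          ((∑ l, Complex.normSq (q l) * ev γ (b l) : ℝ) : ℂ) := by
      rw [Complex.ofReal_sum, Finset.mul_sum, ← Finset.sum_sub_distrib, ← Finset.sum_add_distrib]
      refine Finset.sum_congr rfl fun l _ => ?_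
      rw [Complex.ofReal_mul, ← Complex.mul_conj]
      ring
    rw [e2, hF.2.2, hF.2.2, hF.2.1 γ, mul_zero, sub_zero, zero_add] at e1
    have e3 : ev γ x = 0 := by exact_mod_cast e1
    unfold ev at e3
    rw [h3, h4] at e3
    funext i
    fin_cases i
    · change γ 0 = 0
      linarith
    · exact h3
    · exact h4
  have hw : ∀ f : Fin 3 → ℝ, ∑ l, Complex.normSq (p l) * ev f (b l) = ev f a := hF.1
  have hβ : β₁ = 0 ∧ β₂ = 0 := by
    have e1 : ∀ l, Complex.normSq (p l) ≠ 0 → ev β₁ (b l) = 0 ∧ ev β₂ (b l) = 0 := by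
      intro l hl
      have hp : p l ≠ 0 := fun h => hl (by rw [h, map_zero])
      have e2 := h2 l
      rw [hγ, ev_zero, Complex.ofReal_zero, zero_mul, add_zero] at e2
      have e3 := (mul_eq_zero.1 e2).resolve_right hp
      have e4 := congrArg Complex.re e3
      have e5 := congrArg Complex.im e3
      simp only [Complex.sub_re, Complex.sub_im, Complex.mul_re, Complex.mul_im,
        Complex.ofReal_re, Complex.ofReal_im, Complex.I_re, Complex.I_im, Complex.zero_re,
        Complex.zero_im] at e4 e5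
      exact ⟨by linarith, by linarith⟩
    exact ⟨hGenSupp n b a _ β₁ hGen hw fun l hl => (e1 l hl).1,
      hGenSupp n b a _ β₂ hGen hw fun l hl => (e1 l hl).2⟩
  have hα : α = 0 := by
    refine hGenSupp n b a _ α hGen hw fun l hl => ?_
    have hp : p l ≠ 0 := fun h => hl (by rw [h, map_zero])
    have e2 := h1 l
    rw [hβ.1, hβ.2, ev_zero, Complex.ofReal_zero, zero_mul, add_zero, zero_mul, add_zero] at e2
    have e3 := (mul_eq_zero.1 e2).resolve_right hp
    exact_mod_cast e3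
  exact ⟨hα, hβ.1, hβ.2, hγ⟩

theorem Lag_P_eq (z : ℂ) : (![1, 0, 0] : Fin 3 → ℝ) + ![0, z.re, z.im] = Lag_P z := by
  funext i
  fin_cases i <;> simp [Lag_P]

/-- the constraints in terms of `Lag_q` -/
theorem Lag_feas_iff {n : ℕ} (b p q : Fin n → ℂ) (a y : ℂ) :
    Feas b p q a y ↔ Lag_q b (p, q) (p, q) = (Lag_P a, 0, ![1, 0, 0]) + (0, 0, ![0, y.re, y.im]) := by
  have hre : ∀ z : ℂ, (z * conj z).re = Complex.normSq z := by
    intro z
    rw [Complex.mul_conj, Complex.ofReal_re]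
  have hsum : ∀ (s : Fin n → ℝ) (z : ℂ), (∀ h : Fin 3 → ℝ, ∑ l, s l * ev h (b l) = ev h z) ↔
      (fun i => ∑ l, s l * Lag_P (b l) i) = Lag_P z := by
    intro s z
    constructor
    · intro h
      funext i
      have h1 := h (Pi.single i 1)
      simp only [Lag_ev_single] at h1
      exact h1
    · intro h f
      rw [Lag_ev, ← h]
      simp only [Finset.mul_sum]
      rw [Finset.sum_comm]
      refine Finset.sum_congr rfl fun l _ => ?_
      rw [Lag_ev, Finset.mul_sum]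
      refine Finset.sum_congr rfl fun i _ => ?_
      ring
  have hsumC : (∀ h : Fin 3 → ℝ, ∑ l, p l * conj (q l) * (ev h (b l) : ℂ) = 0) ↔
      (fun i => ∑ l, (1 / 2 : ℂ) * (p l * conj (q l) + p l * conj (q l)) *
      (Lag_P (b l) i : ℂ)) = (0 : Fin 3 → ℂ) := by
    constructor
    · intro h
      funext i
      have h1 := h (Pi.single i 1)
      simp only [Lag_ev_single] at h1
      rw [Pi.zero_apply, ← h1]
      refine Finset.sum_congr rfl fun l _ => ?_
      ring
    · intro h f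
      have h1 : ∀ i, ∑ l, p l * conj (q l) * (Lag_P (b l) i : ℂ) = 0 := by
        intro i
        have h2 := congrFun h i
        rw [Pi.zero_apply] at h2
        rw [← h2]
        refine Finset.sum_congr rfl fun l _ => ?_
        ring
      have h3 : ∑ l, p l * conj (q l) * (ev f (b l) : ℂ) =
          ∑ i, (f i : ℂ) * ∑ l, p l * conj (q l) * (Lag_P (b l) i : ℂ) := by
        simp only [Finset.mul_sum]
        rw [Finset.sum_comm]
        refine Finset.sum_congr rfl fun l _ => ?_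
        rw [Lag_ev, Complex.ofReal_sum, Finset.mul_sum]
        refine Finset.sum_congr rfl fun i _ => ?_
        push_cast
        ring
      rw [h3]
      exact Finset.sum_eq_zero fun i _ => by rw [h1, mul_zero]
  unfold Feas Lag_q
  rw [hsum _ a, hsum _ y, hsumC]
  simp only [hre]
  rw [Prod.mk_add_mk, Prod.mk_add_mk, add_zero, add_zero, Lag_P_eq, Prod.mk.injEq, Prod.mk.injEq]
  tauto

theorem thm_Lag (hLagAbs : St_LagAbs) (hGenSupp : St_GenSupp) : St_Lag := by
  intro n b p q a x z hGen hF hopt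
  obtain ⟨Q, hQ⟩ := Lag_exists_Q b
  obtain ⟨L, hL⟩ := Lag_exists_L
  have hsymm : ∀ u v, Q u v = Q v u := fun u v => by rw [hQ, hQ, Lag_q_symm]
  -- surjectivity
  have honto : ∀ w : Lag_W, ∃ dV dx, Q (p, q) dV + L dx = w := by
    let S : Lag_E n × ℂ →ₗ[ℝ] Lag_W :=
      (Q (p, q) : Lag_E n →ₗ[ℝ] Lag_W).coprod (L : ℂ →ₗ[ℝ] Lag_W)
    have hS : LinearMap.range S = ⊤ := by
      by_contra hne
      obtain ⟨m, hm0, hm⟩ := Submodule.exists_le_ker_of_lt_top _ (lt_top_iff_ne_top.2 hne)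
      have hm' : ∀ v, m (S v) = 0 := fun v => hm (LinearMap.mem_range_self S v)
      obtain ⟨α, β₁, β₂, γ, hform⟩ := Lag_form m
      have hV : ∀ V', m (Lag_q b (p, q) V') = 0 := by
        intro V'
        have h1 := hm' (V', 0)
        change m (Q (p, q) V' + L 0) = 0 at h1
        rwa [map_zero, add_zero, hQ] at h1
      have hx : ∀ y : ℂ, γ 1 * y.re + γ 2 * y.im = 0 := by
        intro y
        have h1 := hm' (0, y)
        change m (Q (p, q) 0 + L y) = 0 at h1
        rw [map_zero, zero_add, hL, hform] at h1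
        simpa [Fin.sum_univ_three] using h1
      have h3 : γ 1 = 0 := by simpa using hx 1
      have h4 : γ 2 = 0 := by simpa using hx Complex.I
      obtain ⟨r1, r2⟩ := Lag_rel b p q α β₁ β₂ γ (fun V' => by
        have h1 := hV V'
        rw [hform, Lag_form_q] at h1
        exact h1)
      obtain ⟨e1, e2, e3, e4⟩ := Lag_onto_aux hGenSupp b p q a x hGen hF α β₁ β₂ γ r1 r2 h3 h4
      refine hm0 (LinearMap.ext fun g => ?_)
      rw [hform, e1, e2, e3, e4]
      simp
    intro w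
    obtain ⟨v, hv⟩ := LinearMap.range_eq_top.1 hS w
    exact ⟨v.1, v.2, hv⟩
  obtain ⟨m, hm1, hm2, hm3⟩ := hLagAbs (Lag_E n) Lag_W Q L (Lag_P a, 0, ![1, 0, 0]) (p, q) x z
    hsymm (by rw [hQ, hL]; exact (Lag_feas_iff b p q a x).1 hF)
    (fun V y hV => by
      rw [hQ, hL] at hV
      exact hopt y ⟨V.1, V.2, (Lag_feas_iff b V.1 V.2 a y).2 hV⟩) honto
  obtain ⟨α, β₁, β₂, γ, hform⟩ := Lag_form m
  obtain ⟨r1, r2⟩ := Lag_rel b p q α β₁ β₂ γ (fun V' => by
    have h1 := hm1 V'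
    rw [hQ, hform, Lag_form_q] at h1
    exact h1)
  have hx : ∀ y : ℂ, γ 1 * y.re + γ 2 * y.im = (x - z).re * y.re + (x - z).im * y.im := by
    intro y
    have h1 := hm2 y
    rw [hL, hform] at h1
    rw [← h1]
    simp [Fin.sum_univ_three]
  refine ⟨α, β₁, β₂, γ, r1, r2, ?_, ?_, ?_⟩
  · simpa using hx 1
  · simpa using hx Complex.I
  · intro δp δq hT
    have h0 : Q (p, q) (δp, δq) = 0 := by
      rw [hQ]
      refine Prod.ext (funext fun i => ?_) (Prod.ext (funext fun i => ?_) (funext fun i => ?_))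
      · have h1 := hT.1 (Pi.single i 1)
        simp only [Lag_ev_single] at h1
        exact h1
      · have h1 := hT.2.2 (Pi.single i 1)
        simp only [Lag_ev_single] at h1
        change ∑ l, (1 / 2 : ℂ) * (p l * conj (δq l) + δp l * conj (q l)) * (Lag_P (b l) i : ℂ) = 0
        have h2 : ∑ l, (1 / 2 : ℂ) * (p l * conj (δq l) + δp l * conj (q l)) *
            (Lag_P (b l) i : ℂ) = (1 / 2 : ℂ) *
            ∑ l, (p l * conj (δq l) + δp l * conj (q l)) * (Lag_P (b l) i : ℂ) := by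
          rw [Finset.mul_sum]
          refine Finset.sum_congr rfl fun l _ => ?_
          ring
        rw [h2, h1, mul_zero]
      · have h1 := hT.2.1 (Pi.single i 1)
        simp only [Lag_ev_single] at h1
        exact h1
    have h1 := hm3 (δp, δq) h0
    rw [hQ, hform, Lag_form_q] at h1
    refine h1.trans (le_of_eq ?_)
    refine Finset.sum_congr rfl fun l _ => ?_
    have hre : ∀ z : ℂ, (z * conj z).re = Complex.normSq z := by
      intro z
      rw [Complex.mul_conj, Complex.ofReal_re]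
    rw [hre, hre]
    have h3 : ((ev β₁ (b l) - ev β₂ (b l) * Complex.I) * δp l * conj (δq l)).re =
        ev β₁ (b l) * (δp l * conj (δq l)).re + ev β₂ (b l) * (δp l * conj (δq l)).im := by
      simp only [Complex.mul_re, Complex.mul_im, Complex.sub_re, Complex.sub_im,
        Complex.conj_re, Complex.conj_im, Complex.ofReal_re, Complex.ofReal_im, Complex.I_re,
        Complex.I_im]
      ring
    rw [h3, Complex.add_re, Complex.add_im]
    ring

end Pool.Agent.CMP
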