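import Mathlib
import Pool.Agent.CMP.Basic

set_option autoImplicit false

namespace Pool.Agent.CMP

open Finset Pool.Agent.Helper45.NC
open scoped ComplexConjugate

/-- metric regularity -/
theorem LagAbs_reg {X W : Type*} [NormedAddCommGroup X] [NormedSpace ℝ X] [CompleteSpace X]
    [NormedAddCommGroup W] [NormedSpace ℝ W] [CompleteSpace W] {F : X → W} {D : X →L[ℝ] W} {a : X}
    (hF : HasStrictFDerivAt F D a) (ha : F a = 0) (hD : Function.Surjective D) :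
    ∃ C r : ℝ, 0 ≤ C ∧ 0 < r ∧ ∀ p, ‖p - a‖ < r → ∃ p', F p' = 0 ∧ ‖p' - p‖ ≤ C * ‖F p‖ := by
  have hD' : D.range = ⊤ := LinearMap.range_eq_top.2 hD
  set R := D.nonlinearRightInverseOfSurjective hD' with hR
  have hn : 0 < R.nnnorm := D.nonlinearRightInverseOfSurjective_nnnorm_pos hD'
  have hn' : (0 : ℝ) < (R.nnnorm : ℝ) := by exact_mod_cast hn
  obtain ⟨s, hs, happ⟩ := hF.approximates_deriv_on_nhds (c := R.nnnorm⁻¹ / 2)
    (Or.inr (half_pos (inv_pos.2 hn)))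
  obtain ⟨ρ, hρ, hball⟩ := Metric.mem_nhds_iff.1 hs
  set C : ℝ := 2 * (R.nnnorm : ℝ) with hC
  have hC0 : 0 ≤ C := by positivity
  have hcont := hF.continuousAt
  rw [Metric.continuousAt_iff] at hcont
  obtain ⟨r₁, hr₁, h₁⟩ := hcont (ρ / (2 * (C + 1))) (by positivity)
  refine ⟨C, min r₁ (ρ / 2), hC0, lt_min hr₁ (by positivity), fun p hp => ?_⟩
  have hp1 : dist (F p) (F a) < ρ / (2 * (C + 1)) :=
    h₁ (by rw [dist_eq_norm]; exact hp.trans_le (min_le_left _ _))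
  rw [ha, dist_zero_right] at hp1
  have hp2 : ‖p - a‖ < ρ / 2 := hp.trans_le (min_le_right _ _)
  have hp3 : C * ‖F p‖ ≤ ρ / 2 := by
    have h2 : C * ‖F p‖ ≤ C * (ρ / (2 * (C + 1))) := mul_le_mul_of_nonneg_left hp1.le hC0
    have h3 : C * (ρ / (2 * (C + 1))) ≤ ρ / 2 := by
      rw [mul_div_assoc', div_le_div_iff₀ (by positivity) (by norm_num)]
      nlinarith
    linarith
  have hsub : Metric.closedBall p (C * ‖F p‖) ⊆ s := by
    refine fun q hq => hball ?_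
    rw [Metric.mem_ball]
    have h2 := dist_triangle q p a
    rw [Metric.mem_closedBall] at hq
    have h3 : dist p a < ρ / 2 := by rw [dist_eq_norm]; exact hp2
    linarith
  have hsurj := happ.surjOn_closedBall_of_nonlinearRightInverse R
    (mul_nonneg hC0 (norm_nonneg _)) hsub
  have h0 : (0 : W) ∈ Metric.closedBall (F p)
      (((R.nnnorm : ℝ)⁻¹ - ((R.nnnorm⁻¹ / 2 : NNReal) : ℝ)) * (C * ‖F p‖)) := by
    rw [Metric.mem_closedBall, dist_zero_left]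
    have h4 : ((R.nnnorm : ℝ)⁻¹ - ((R.nnnorm⁻¹ / 2 : NNReal) : ℝ)) * (C * ‖F p‖) = ‖F p‖ := by
      rw [NNReal.coe_div, NNReal.coe_inv, NNReal.coe_ofNat, hC]
      field_simp
      ring
    rw [h4]
  obtain ⟨p', hp', hFp'⟩ := hsurj h0
  refine ⟨p', hFp', ?_⟩
  rw [Metric.mem_closedBall, dist_eq_norm] at hp'
  exact hp'

/-- a one sided condition of first order -/
theorem LagAbs_dir {x₀ z d : ℂ} {C t₀ : ℝ} (k : ℕ) (ht₀ : 0 < t₀) (hC : 0 ≤ C)
    (hk : 1 ≤ k)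
    (h : ∀ t : ℝ, 0 < t → t < t₀ → ∃ x' : ℂ, ‖x₀ - z‖ ≤ ‖x' - z‖ ∧
      ‖x' - (x₀ + ((t ^ k : ℝ) : ℂ) * d)‖ ≤ C * t ^ (k + 1)) :
    0 ≤ (x₀ - z).re * d.re + (x₀ - z).im * d.im := by
  by_contra hcon
  push Not at hcon
  set s := (x₀ - z).re * d.re + (x₀ - z).im * d.im with hs
  set A : ℝ := 2 * C * ‖x₀ - z‖ + (‖d‖ + C) ^ 2 with hA
  have hA0 : 0 ≤ A := by positivity
  obtain ⟨t, ht, ht1, ht2, ht3⟩ : ∃ t : ℝ, 0 < t ∧ t < t₀ ∧ t ≤ 1 ∧ t * A < -s := by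
    have h1 : 0 < -s / (A + 1) := div_pos (by linarith) (by linarith)
    refine ⟨min (t₀ / 2) (min 1 (-s / (A + 1))), lt_min (by linarith) (lt_min one_pos h1),
      (min_le_left _ _).trans_lt (by linarith), (min_le_right _ _).trans (min_le_left _ _), ?_⟩
    have h2 : min (t₀ / 2) (min 1 (-s / (A + 1))) ≤ -s / (A + 1) :=
      (min_le_right _ _).trans (min_le_right _ _)
    have h3 : min (t₀ / 2) (min 1 (-s / (A + 1))) * A ≤ -s / (A + 1) * A :=
      mul_le_mul_of_nonneg_right h2 hA0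
    have h4 : -s / (A + 1) * A < -s := by
      rw [div_mul_eq_mul_div, div_lt_iff₀ (by linarith)]
      nlinarith
    linarith
  obtain ⟨x', hx1, hx2⟩ := h t ht ht1
  set a := x₀ - z with ha
  set e := x' - (x₀ + ((t ^ k : ℝ) : ℂ) * d) with he
  set f := ((t ^ k : ℝ) : ℂ) * d + e with hf
  have hx3 : x' - z = a + f := by rw [hf, he, ha]; ring
  have htk : 0 < t ^ k := pow_pos ht k
  have hn : ‖a‖ ^ 2 ≤ ‖a + f‖ ^ 2 := by
    rw [hx3] at hx1
    exact pow_le_pow_left₀ (norm_nonneg _) hx1 2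
  rw [Complex.sq_norm, Complex.sq_norm, Complex.normSq_apply, Complex.normSq_apply,
    Complex.add_re, Complex.add_im] at hn
  have hff : f.re * f.re + f.im * f.im ≤ (t ^ k * (‖d‖ + C)) ^ 2 := by
    rw [← Complex.normSq_apply, ← Complex.sq_norm]
    refine pow_le_pow_left₀ (norm_nonneg _) ?_ 2
    calc ‖f‖ ≤ ‖((t ^ k : ℝ) : ℂ) * d‖ + ‖e‖ := norm_add_le _ _
      _ ≤ t ^ k * ‖d‖ + C * t ^ (k + 1) := by
          refine add_le_add ?_ hx2
          rw [norm_mul, Complex.norm_real, Real.norm_of_nonneg htk.le]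
      _ ≤ t ^ k * ‖d‖ + C * t ^ k := by
          have : t ^ (k + 1) ≤ t ^ k := by
            rw [pow_succ]
            exact mul_le_of_le_one_right htk.le ht2
          have := mul_le_mul_of_nonneg_left this hC
          linarith
      _ = t ^ k * (‖d‖ + C) := by ring
  have hae : a.re * e.re + a.im * e.im ≤ ‖a‖ * (C * t ^ (k + 1)) := by
    have h5 := Complex.re_le_norm (a * conj e)
    rw [norm_mul, Complex.norm_conj, Complex.mul_re, Complex.conj_re, Complex.conj_im] at h5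
    have h6 : ‖a‖ * ‖e‖ ≤ ‖a‖ * (C * t ^ (k + 1)) := mul_le_mul_of_nonneg_left hx2 (norm_nonneg _)
    nlinarith
  have haf : a.re * f.re + a.im * f.im = t ^ k * s + (a.re * e.re + a.im * e.im) := by
    rw [hf, hs, Complex.add_re, Complex.add_im, Complex.re_ofReal_mul, Complex.im_ofReal_mul]
    ring
  have h7 : 0 ≤ 2 * (t ^ k * s + ‖a‖ * (C * t ^ (k + 1))) + (t ^ k * (‖d‖ + C)) ^ 2 := by
    nlinarith
  have h8 : (t ^ k * (‖d‖ + C)) ^ 2 ≤ t ^ (k + 1) * (‖d‖ + C) ^ 2 := by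
    rw [mul_pow]
    refine mul_le_mul_of_nonneg_right ?_ (by positivity)
    rw [← pow_mul]
    exact pow_le_pow_of_le_one ht.le ht2 (by omega)
  have h9 : 0 ≤ t ^ k * (2 * s + t * A) := by
    have : t ^ k * (2 * s + t * A) = 2 * (t ^ k * s + ‖a‖ * (C * t ^ (k + 1))) +
        t ^ (k + 1) * (‖d‖ + C) ^ 2 := by
      rw [hA, pow_succ]
      ring
    rw [this]
    linarith
  have h10 : 0 ≤ 2 * s + t * A := nonneg_of_mul_nonneg_right h9 htk
  linarith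

/-- the derivative of the constraint -/
theorem LagAbs_der {E W : Type*} [NormedAddCommGroup E] [NormedSpace ℝ E]
    [NormedAddCommGroup W] [NormedSpace ℝ W] (Q : E →L[ℝ] E →L[ℝ] W) (L : ℂ →L[ℝ] W) (w₁ : W)
    (V₀ : E) (x₀ : ℂ) (hsymm : ∀ u v, Q u v = Q v u) :
    ∃ D : E × ℂ →L[ℝ] W, (∀ p, D p = 2 • Q V₀ p.1 - L p.2) ∧
      HasStrictFDerivAt (fun p : E × ℂ => Q p.1 p.1 - w₁ - L p.2) D (V₀, x₀) := by
  have h0 : HasStrictFDerivAt (Prod.fst : E × ℂ → E) (ContinuousLinearMap.fst ℝ E ℂ) (V₀, x₀) :=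
    hasStrictFDerivAt_fst
  have h1 := ContinuousLinearMap.hasStrictFDerivAt_of_bilinear Q h0 h0
  have h2 : HasStrictFDerivAt (fun p : E × ℂ => L p.2)
      (L.comp (ContinuousLinearMap.snd ℝ E ℂ)) (V₀, x₀) :=
    (L.comp (ContinuousLinearMap.snd ℝ E ℂ)).hasStrictFDerivAt
  have h3 := (h1.sub_const w₁).sub h2
  refine ⟨_, fun p => ?_, h3⟩
  change Q V₀ p.1 + Q p.1 V₀ - L p.2 = _
  rw [hsymm p.1 V₀, two_smul]

theorem thm_LagAbs : St_LagAbs := by
  intro E W _ _ _ _ _ _ Q L w₁ V₀ x₀ z hsymm h0 hopt hsurj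
  have : CompleteSpace E := FiniteDimensional.complete ℝ E
  have : CompleteSpace W := FiniteDimensional.complete ℝ W
  -- the map and its derivative
  let F : E × ℂ → W := fun p => Q p.1 p.1 - w₁ - L p.2
  obtain ⟨D, hD, hF⟩ : ∃ D : E × ℂ →L[ℝ] W, (∀ p, D p = 2 • Q V₀ p.1 - L p.2) ∧
      HasStrictFDerivAt F D (V₀, x₀) := LagAbs_der Q L w₁ V₀ x₀ hsymm
  have ha : F (V₀, x₀) = 0 := by
    change Q V₀ V₀ - w₁ - L x₀ = 0
    rw [h0]; abel
  have hDs : Function.Surjective D := by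
    intro w
    obtain ⟨dV, dx, hw⟩ := hsurj w
    refine ⟨((1 / 2 : ℝ) • dV, -dx), ?_⟩
    rw [hD]
    change 2 • Q V₀ ((1 / 2 : ℝ) • dV) - L (-dx) = w
    rw [map_smul, map_neg, sub_neg_eq_add, ← hw, ← Nat.cast_smul_eq_nsmul ℝ 2, smul_smul]
    norm_num
  obtain ⟨C, r, hC, hr, hreg⟩ := LagAbs_reg hF ha hDs
  -- feasible points near approximate ones
  have hnear : ∀ p : E × ℂ, ‖p - (V₀, x₀)‖ < r → ∃ x' : ℂ, ‖x₀ - z‖ ≤ ‖x' - z‖ ∧
      ‖x' - p.2‖ ≤ C * ‖F p‖ := by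
    intro p hp
    obtain ⟨p', h1, h2⟩ := hreg p hp
    refine ⟨p'.2, hopt p'.1 p'.2 ?_, ?_⟩
    · have h3 : Q p'.1 p'.1 - w₁ - L p'.2 = 0 := h1
      rw [sub_sub, sub_eq_zero] at h3
      exact h3
    · exact (norm_snd_le (p' - p)).trans h2
  -- first order condition
  have hfirst1 : ∀ p : E × ℂ, D p = 0 →
      0 ≤ (x₀ - z).re * p.2.re + (x₀ - z).im * p.2.im := by
    intro p hp
    obtain ⟨t₀, ht₀, ht₁⟩ : ∃ t₀ : ℝ, 0 < t₀ ∧ ∀ t : ℝ, 0 < t → t < t₀ → t * ‖p‖ < r := by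
      refine ⟨r / (‖p‖ + 1), by positivity, fun t ht ht' => ?_⟩
      rw [lt_div_iff₀ (by positivity)] at ht'
      nlinarith [norm_nonneg p]
    refine LagAbs_dir (C := C * ‖Q p.1 p.1‖) 1 ht₀ (by positivity) le_rfl fun t ht ht' => ?_
    obtain ⟨x', h1, h2⟩ := hnear (V₀ + t • p.1, x₀ + (t : ℂ) * p.2) (by
      have h3 : ((V₀ + t • p.1, x₀ + (t : ℂ) * p.2) : E × ℂ) - (V₀, x₀) = t • p := by
        rw [Prod.mk_sub_mk, add_sub_cancel_left, add_sub_cancel_left]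
        rfl
      rw [h3, norm_smul, Real.norm_of_nonneg ht.le]
      exact ht₁ t ht ht')
    refine ⟨x', h1, ?_⟩
    have h4 : F (V₀ + t • p.1, x₀ + (t : ℂ) * p.2) = (t ^ 2) • Q p.1 p.1 := by
      change Q (V₀ + t • p.1) (V₀ + t • p.1) - w₁ - L (x₀ + (t : ℂ) * p.2) = _
      have h5 : (t : ℂ) * p.2 = t • p.2 := (Complex.real_smul).symm
      have h6 := hD p
      rw [hp] at h6
      have h7 : L p.2 = 2 • Q V₀ p.1 := (sub_eq_zero.1 h6.symm).symm
      rw [h5, map_add L, map_smul L, h7]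
      simp only [map_add, map_smul, add_apply, smul_apply,
        hsymm p.1 V₀, h0]
      module
    rw [h4] at h2
    rw [pow_one]
    refine h2.trans ?_
    rw [norm_smul, Real.norm_of_nonneg (by positivity)]
    exact le_of_eq (by ring)
  have hfirst : ∀ p : E × ℂ, D p = 0 →
      (x₀ - z).re * p.2.re + (x₀ - z).im * p.2.im = 0 := by
    intro p hp
    have h1 := hfirst1 p hp
    have h2 := hfirst1 (-p) (by rw [map_neg, hp, neg_zero])
    have h3 : (-p).2.re = - p.2.re := rfl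
    have h4 : (-p).2.im = - p.2.im := rfl
    rw [h3, h4] at h2
    linarith
  -- the multiplier
  obtain ⟨S, hS⟩ := (D : E × ℂ →ₗ[ℝ] W).exists_rightInverse_of_surjective
    (LinearMap.range_eq_top.2 hDs)
  have hS' : ∀ w, D (S w) = w := fun w => LinearMap.congr_fun hS w
  let ℓ : E × ℂ →ₗ[ℝ] ℝ :=
    { toFun := fun p => (x₀ - z).re * p.2.re + (x₀ - z).im * p.2.im
      map_add' := fun p q => by
        change (x₀ - z).re * (p.2 + q.2).re + (x₀ - z).im * (p.2 + q.2).im = _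
        rw [Complex.add_re, Complex.add_im]; ring
      map_smul' := fun c p => by
        change (x₀ - z).re * (c • p.2).re + (x₀ - z).im * (c • p.2).im = c * _
        rw [Complex.smul_re, Complex.smul_im, smul_eq_mul, smul_eq_mul]; ring }
  have hℓ : ∀ p, ℓ p = (x₀ - z).re * p.2.re + (x₀ - z).im * p.2.im := fun p => rfl
  have hfac : ∀ p, ℓ (S (D p)) = ℓ p := by
    intro p
    have h1 := hfirst (S (D p) - p) (by rw [map_sub, hS', sub_self])
    rw [← hℓ, map_sub] at h1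
    linarith
  refine ⟨-(ℓ ∘ₗ S), fun dV => ?_, fun dx => ?_, fun dV hdV => ?_⟩
  · have h1 := hfac ((1 / 2 : ℝ) • dV, 0)
    rw [hD] at h1
    change ℓ (S (2 • Q V₀ ((1 / 2 : ℝ) • dV) - L 0)) = ℓ ((1 / 2 : ℝ) • dV, 0) at h1
    have h2 : (2 • Q V₀ ((1 / 2 : ℝ) • dV) - L 0 : W) = Q V₀ dV := by
      rw [map_smul, map_zero, sub_zero, ← Nat.cast_smul_eq_nsmul ℝ 2, smul_smul]
      norm_num
    rw [h2] at h1
    change -(ℓ (S (Q V₀ dV))) = 0
    rw [h1, hℓ]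
    change -((x₀ - z).re * (0 : ℂ).re + (x₀ - z).im * (0 : ℂ).im) = 0
    simp
  · have h1 := hfac (0, -dx)
    rw [hD] at h1
    change ℓ (S (2 • Q V₀ 0 - L (-dx))) = ℓ (0, -dx) at h1
    rw [map_zero, smul_zero, map_neg, sub_neg_eq_add, zero_add] at h1
    change -(ℓ (S (L dx))) = _
    rw [h1, hℓ]
    change -((x₀ - z).re * (-dx).re + (x₀ - z).im * (-dx).im) = _
    rw [Complex.neg_re, Complex.neg_im]
    ring
  · -- second order
    obtain ⟨e, he⟩ := hDs (-(Q dV dV))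
    have he' := he
    rw [hD] at he'
    have hval : ℓ (S (Q dV dV)) = - ℓ e := by
      have h1 := hfac e
      rw [he, map_neg, map_neg] at h1
      linarith
    change 0 ≤ -(ℓ (S (Q dV dV)))
    rw [hval, neg_neg, hℓ]
    obtain ⟨t₀, ht₀, ht₁⟩ : ∃ t₀ : ℝ, 0 < t₀ ∧ ∀ t : ℝ, 0 < t → t < t₀ → t ≤ 1 ∧
        t * (‖dV‖ + ‖e‖) < r := by
      refine ⟨min 1 (r / (‖dV‖ + ‖e‖ + 1)), lt_min one_pos (by positivity), fun t ht ht' => ?_⟩
      have h1 : t < r / (‖dV‖ + ‖e‖ + 1) := ht'.trans_le (min_le_right _ _)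
      rw [lt_div_iff₀ (by positivity)] at h1
      exact ⟨(ht'.trans_le (min_le_left _ _)).le, by nlinarith [norm_nonneg dV, norm_nonneg e]⟩
    refine LagAbs_dir (C := C * (2 * ‖Q dV e.1‖ + ‖Q e.1 e.1‖)) 2 ht₀ (by positivity) (by norm_num)
      fun t ht ht' => ?_
    obtain ⟨ht2, ht3⟩ := ht₁ t ht ht'
    obtain ⟨x', h1, h2⟩ := hnear (V₀ + (t • dV + t ^ 2 • e.1), x₀ + ((t ^ 2 : ℝ) : ℂ) * e.2) (by
      have h3 : ((V₀ + (t • dV + t ^ 2 • e.1), x₀ + ((t ^ 2 : ℝ) : ℂ) * e.2) : E × ℂ) - (V₀, x₀) =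
          t • (dV, (0 : ℂ)) + t ^ 2 • e := by
        rw [Prod.mk_sub_mk, add_sub_cancel_left, add_sub_cancel_left]
        refine Prod.ext rfl ?_
        change ((t ^ 2 : ℝ) : ℂ) * e.2 = t • (0 : ℂ) + t ^ 2 • e.2
        rw [smul_zero, zero_add, Complex.real_smul]
      rw [h3]
      refine (norm_add_le _ _).trans_lt ?_
      rw [norm_smul, norm_smul, Real.norm_of_nonneg ht.le, Real.norm_of_nonneg (by positivity)]
      have h4 : ‖((dV, (0 : ℂ)) : E × ℂ)‖ = ‖dV‖ := by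
        rw [Prod.norm_def]
        simp
      rw [h4]
      have h5 : t ^ 2 * ‖e‖ ≤ t * ‖e‖ := by
        refine mul_le_mul_of_nonneg_right ?_ (norm_nonneg _)
        nlinarith
      nlinarith)
    refine ⟨x', h1, h2.trans ?_⟩
    have h4 : F (V₀ + (t • dV + t ^ 2 • e.1), x₀ + ((t ^ 2 : ℝ) : ℂ) * e.2) =
        (2 * t ^ 3) • Q dV e.1 + (t ^ 4) • Q e.1 e.1 := by
      change Q (V₀ + (t • dV + t ^ 2 • e.1)) (V₀ + (t • dV + t ^ 2 • e.1)) - w₁ -
        L (x₀ + ((t ^ 2 : ℝ) : ℂ) * e.2) = _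
      have h5 : ((t ^ 2 : ℝ) : ℂ) * e.2 = (t ^ 2) • e.2 := (Complex.real_smul).symm
      have h7 : L e.2 = 2 • Q V₀ e.1 + Q dV dV := by
        have h8 := sub_eq_iff_eq_add.1 he'
        have h9 : L e.2 = 2 • Q V₀ e.1 - -(Q dV dV) := by
          rw [h8]; abel
        rw [h9, sub_neg_eq_add]
      rw [h5, map_add L, map_smul L, h7]
      simp only [map_add, map_smul, add_apply, smul_apply,
        hsymm dV V₀, hsymm e.1 V₀, hsymm e.1 dV, h0, hdV]
      rw [smul_add, ← Nat.cast_smul_eq_nsmul ℝ 2]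
      push_cast
      module
    rw [h4, mul_assoc]
    refine mul_le_mul_of_nonneg_left ?_ hC
    refine (norm_add_le _ _).trans ?_
    rw [norm_smul, norm_smul, Real.norm_of_nonneg (by positivity),
      Real.norm_of_nonneg (by positivity)]
    have h5 : t ^ 4 * ‖Q e.1 e.1‖ ≤ t ^ 3 * ‖Q e.1 e.1‖ :=
      mul_le_mul_of_nonneg_right (pow_le_pow_of_le_one ht.le ht2 (by norm_num)) (norm_nonneg _)
    have h6 : (2 * ‖Q dV e.1‖ + ‖Q e.1 e.1‖) * t ^ (2 + 1) =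
        2 * t ^ 3 * ‖Q dV e.1‖ + t ^ 3 * ‖Q e.1 e.1‖ := by ring
    rw [h6]
    linarith

end Pool.Agent.CMP
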