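import Mathlib
import Pool.Agent.CMP.Basic

set_option autoImplicit false

namespace Pool.Agent.CMP

open Finset Pool.Agent.Helper45.NC
open scoped ComplexConjugate

theorem lim_nrm_cont : Continuous nrm := by
  unfold nrm
  fun_prop

theorem lim_act_cont (p q r s : ℝ) : Continuous (act p q r s) := by
  refine continuous_pi (fun j => continuous_pi (fun i => ?_))
  fin_cases j
  · change Continuous (fun M : Pen => M 0 i * p ^ 2 + 2 * M 1 i * p * r + M 2 i * r ^ 2)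
    fun_prop
  · change Continuous (fun M : Pen => M 0 i * p * q + M 1 i * (p * s + q * r) + M 2 i * r * s)
    fun_prop
  · change Continuous (fun M : Pen => M 0 i * q ^ 2 + 2 * M 1 i * q * s + M 2 i * s ^ 2)
    fun_prop

theorem lim_nrm_smul (c : ℝ) (M : Pen) : nrm (c • M) = c ^ 2 * nrm M := by
  unfold nrm
  rw [Finset.mul_sum]
  refine Finset.sum_congr rfl (fun i _ => ?_)
  simp only [Pi.smul_apply, smul_eq_mul]
  ring

theorem lim_act_smul (p q r s c : ℝ) (M : Pen) : act p q r s (c • M) = c • act p q r s M := by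
  funext j i
  fin_cases j
  · change act p q r s (c • M) 0 i = c * act p q r s M 0 i
    rw [act_zero, act_zero]
    simp only [Pi.smul_apply, smul_eq_mul]
    ring
  · change act p q r s (c • M) 1 i = c * act p q r s M 1 i
    rw [act_one, act_one]
    simp only [Pi.smul_apply, smul_eq_mul]
    ring
  · change act p q r s (c • M) 2 i = c * act p q r s M 2 i
    rw [act_two, act_two]
    simp only [Pi.smul_apply, smul_eq_mul]
    ring

theorem lim_smul_eq_act (c : ℝ) (hc : 0 ≤ c) (M : Pen) :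
    c • M = act (Real.sqrt c) 0 0 (Real.sqrt c) M := by
  have h := Real.mul_self_sqrt hc
  have h2 : Real.sqrt c ^ 2 = c := by rw [sq, h]
  funext j i
  fin_cases j
  · change c * M 0 i = act (Real.sqrt c) 0 0 (Real.sqrt c) M 0 i
    rw [act_zero, h2]; ring
  · change c * M 1 i = act (Real.sqrt c) 0 0 (Real.sqrt c) M 1 i
    rw [act_one, h]; ring
  · change c * M 2 i = act (Real.sqrt c) 0 0 (Real.sqrt c) M 2 i
    rw [act_two, h2]; ring

theorem lim_nrm_nonneg (M : Pen) : 0 ≤ nrm M := by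
  unfold nrm
  exact Finset.sum_nonneg (fun i _ => by positivity)

theorem lim_entry_le (M : Pen) (h : nrm M = 1) (j i : Fin 3) : |M j i| ≤ 1 := by
  have h1 : M 0 i ^ 2 + 2 * M 1 i ^ 2 + M 2 i ^ 2 ≤ 1 := by
    rw [← h]
    unfold nrm
    exact Finset.single_le_sum (f := fun i => M 0 i ^ 2 + 2 * M 1 i ^ 2 + M 2 i ^ 2)
      (fun i _ => by positivity) (Finset.mem_univ i)
  rw [← sq_le_one_iff_abs_le_one]
  fin_cases j
  · change M 0 i ^ 2 ≤ 1
    nlinarith [sq_nonneg (M 1 i), sq_nonneg (M 2 i)]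
  · change M 1 i ^ 2 ≤ 1
    nlinarith [sq_nonneg (M 0 i), sq_nonneg (M 1 i), sq_nonneg (M 2 i)]
  · change M 2 i ^ 2 ≤ 1
    nlinarith [sq_nonneg (M 1 i), sq_nonneg (M 0 i)]

open Filter Topology in
theorem lim_lsc (hNuLsc : St_NuLsc) (M : Pen) (z : ℂ) (N : ℕ → Pen) (Z : ℕ → ℂ)
    (hN : Tendsto N atTop (𝓝 M)) (hZ : Tendsto Z atTop (𝓝 z)) :
    ∀ᶠ m in atTop, nuP M z ≤ nuP (N m) (Z m) ∧ nu0P (N m) (Z m) ≤ nu0P M z := by
  obtain ⟨ε, hε, h⟩ := hNuLsc (ev (M 0) z) (ev (M 1) z) (ev (M 2) z)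
  have hev : ∀ j : Fin 3, ∀ᶠ m in atTop, |ev (N m j) (Z m) - ev (M j) z| < ε := by
    intro j
    have h1 : Tendsto (fun m => N m j) atTop (𝓝 (M j)) := (tendsto_pi_nhds.1 hN) j
    have h2 : Tendsto (fun m => ev (N m j) (Z m)) atTop (𝓝 (ev (M j) z)) :=
      (continuous_ev2.tendsto (M j, z)).comp (h1.prodMk_nhds hZ)
    have h3 := (Metric.tendsto_nhds.1 h2) ε hε
    filter_upwards [h3] with m hm
    rwa [Real.dist_eq] at hm
  filter_upwards [hev 0, hev 1, hev 2] with m h0 h1 h2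
  exact h _ _ _ h0 h1 h2

open Filter Topology in
theorem thm_Lim (hLimA : St_LimA) (hNearMin : St_NearMin) (hMinBal : St_MinBal) (hNuInv : St_NuInv) (hNuLsc : St_NuLsc) : St_Lim := by
  intro n b a₁ a₂ hviol
  -- the sequence
  have hseq : ∀ m : ℕ, ∃ (A₁ A₂ : ℂ) (N : Pen), ‖A₁ - a₁‖ < 1 / ((m : ℝ) + 1) ∧
      ‖A₂ - a₂‖ < 1 / ((m : ℝ) + 1) ∧ nrm N = 1 ∧
      ∑ l, nuP N (b l) < nuP N A₁ + nuP N A₂ ∧
      ∀ p q r s : ℝ, p * s - q * r = 1 → 1 ≤ (1 + 1 / ((m : ℝ) + 1)) * nrm (act p q r s N) := by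
    intro m
    have hm : (0 : ℝ) < 1 / ((m : ℝ) + 1) := by positivity
    obtain ⟨A₁, A₂, h1, h2, h3⟩ := hviol _ hm
    obtain ⟨M, hM1, hM2⟩ := hLimA n b A₁ A₂ h3
    obtain ⟨p, q, r, s, hdet, hne, hmin⟩ := hNearMin M hM2 _ hm
    have hpos : 0 < nrm (act p q r s M) := lt_of_le_of_ne (lim_nrm_nonneg _) (Ne.symm hne)
    set M' := act p q r s M with hM'
    set c : ℝ := (Real.sqrt (nrm M'))⁻¹ with hc
    have hcpos : 0 < c := inv_pos.2 (Real.sqrt_pos.2 hpos)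
    have hc2 : c ^ 2 * nrm M' = 1 := by
      rw [hc, inv_pow, Real.sq_sqrt hpos.le]
      exact inv_mul_cancel₀ hpos.ne'
    have hnu : ∀ z, nuP (c • M') z = nuP M z := by
      intro z
      rw [lim_smul_eq_act c hcpos.le M', nuP_act hNuInv, hM', nuP_act hNuInv]
      · rw [hdet]; exact one_ne_zero
      · rw [Real.mul_self_sqrt hcpos.le]; simp; exact hcpos.ne'
    refine ⟨A₁, A₂, c • M', h1, h2, ?_, ?_, ?_⟩
    · rw [lim_nrm_smul, hc2]
    · simp only [hnu]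
      exact hM1
    · intro p' q' r' s' hdet'
      rw [lim_act_smul, lim_nrm_smul]
      have h4 := hmin p' q' r' s' hdet'
      have h5 : 0 ≤ c ^ 2 := sq_nonneg c
      calc (1 : ℝ) = c ^ 2 * nrm M' := hc2.symm
        _ ≤ c ^ 2 * ((1 + 1 / ((m : ℝ) + 1)) * nrm (act p' q' r' s' M')) :=
            mul_le_mul_of_nonneg_left h4 h5
        _ = (1 + 1 / ((m : ℝ) + 1)) * (c ^ 2 * nrm (act p' q' r' s' M')) := by ring
  choose A₁ A₂ N hA₁ hA₂ hN1 hNv hNm using hseq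
  have hmem : ∀ m, N m ∈ Set.Icc (fun _ _ => (-1 : ℝ) : Pen) (fun _ _ => (1 : ℝ)) := by
    intro m
    rw [Set.mem_Icc]
    constructor
    · intro j i
      exact (abs_le.1 (lim_entry_le (N m) (hN1 m) j i)).1
    · intro j i
      exact (abs_le.1 (lim_entry_le (N m) (hN1 m) j i)).2
  obtain ⟨M, -, φ, hφ, hlim⟩ := (isCompact_Icc (a := (fun _ _ => (-1 : ℝ) : Pen))
    (b := fun _ _ => (1 : ℝ))).tendsto_subseq hmem
  have hinv : Tendsto (fun m : ℕ => 1 / ((m : ℝ) + 1)) atTop (𝓝 0) :=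
    tendsto_one_div_add_atTop_nhds_zero_nat
  have hinvφ : Tendsto (fun m : ℕ => 1 / (((φ m : ℕ) : ℝ) + 1)) atTop (𝓝 0) :=
    hinv.comp hφ.tendsto_atTop
  have hA₁lim : Tendsto (fun m => A₁ (φ m)) atTop (𝓝 a₁) := by
    rw [tendsto_iff_norm_sub_tendsto_zero]
    exact squeeze_zero (fun _ => norm_nonneg _) (fun m => (hA₁ (φ m)).le) hinvφ
  have hA₂lim : Tendsto (fun m => A₂ (φ m)) atTop (𝓝 a₂) := by
    rw [tendsto_iff_norm_sub_tendsto_zero]
    exact squeeze_zero (fun _ => norm_nonneg _) (fun m => (hA₂ (φ m)).le) hinvφ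
  have hnrm : nrm M = 1 := by
    have h1 : Tendsto (fun m => nrm (N (φ m))) atTop (𝓝 (nrm M)) :=
      (lim_nrm_cont.tendsto M).comp hlim
    have h2 : (fun m => nrm (N (φ m))) = fun _ => (1 : ℝ) := by
      funext m
      exact hN1 (φ m)
    rw [h2] at h1
    exact (tendsto_nhds_unique h1 tendsto_const_nhds)
  refine ⟨M, ?_, ?_, ?_⟩
  · intro h
    rw [h] at hnrm
    have : nrm (0 : Pen) = 0 := by
      unfold nrm; simp
    rw [this] at hnrm
    exact zero_ne_one hnrm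
  · apply hMinBal
    intro p q r s hdet
    rw [hnrm]
    have h1 : Tendsto (fun m => nrm (act p q r s (N (φ m)))) atTop (𝓝 (nrm (act p q r s M))) :=
      ((lim_nrm_cont.comp (lim_act_cont p q r s)).tendsto M).comp hlim
    have h2 : Tendsto (fun m => (1 + 1 / (((φ m : ℕ) : ℝ) + 1)) * nrm (act p q r s (N (φ m))))
        atTop (𝓝 ((1 + 0) * nrm (act p q r s M))) :=
      (tendsto_const_nhds.add hinvφ).mul h1
    rw [add_zero, one_mul] at h2
    exact ge_of_tendsto' h2 (fun m => hNm (φ m) p q r s hdet)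
  · have hb : ∀ l, ∀ᶠ m in atTop, nuP M (b l) ≤ nuP (N (φ m)) (b l) := by
      intro l
      filter_upwards [lim_lsc hNuLsc M (b l) (fun m => N (φ m)) (fun _ => b l) hlim
        tendsto_const_nhds] with m hm
      exact hm.1
    have hb' : ∀ᶠ m in atTop, ∀ l, nuP M (b l) ≤ nuP (N (φ m)) (b l) := eventually_all.2 hb
    have h1 := lim_lsc hNuLsc M a₁ (fun m => N (φ m)) (fun m => A₁ (φ m)) hlim hA₁lim
    have h2 := lim_lsc hNuLsc M a₂ (fun m => N (φ m)) (fun m => A₂ (φ m)) hlim hA₂lim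
    obtain ⟨m, hm1, hm2, hm3⟩ := (hb'.and (h1.and h2)).exists
    unfold Weak
    calc ∑ l, nuP M (b l) ≤ ∑ l, nuP (N (φ m)) (b l) := Finset.sum_le_sum (fun l _ => hm1 l)
      _ < nuP (N (φ m)) (A₁ (φ m)) + nuP (N (φ m)) (A₂ (φ m)) := hNv (φ m)
      _ ≤ nu0P (N (φ m)) (A₁ (φ m)) + nu0P (N (φ m)) (A₂ (φ m)) :=
          add_le_add (nu_le_nu0 _ _ _) (nu_le_nu0 _ _ _)
      _ ≤ nu0P M a₁ + nu0P M a₂ := add_le_add hm2.2 hm3.2

end Pool.Agent.CMP
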