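import Mathlib
import Pool.Agent.CMP.Basic

set_option autoImplicit false

namespace Pool.Agent.CMP

open Finset Pool.Agent.Helper45.NC
open scoped ComplexConjugate Topology

theorem LimA_ev (f : Fin 3 → ℝ) (δ : ℝ) (z : ℂ) : ev (f + ![δ, 0, 0]) z = ev f z + δ * 1 := by
  rw [ev_add, ev_mk]
  ring

theorem LimA_ev0 (f : Fin 3 → ℝ) (δ : ℝ) (z : ℂ) : ev f z = ev f z + δ * 0 := by
  ring

theorem thm_LimA (hNuLsc : St_NuLsc) (hPertB : St_PertB) : St_LimA := by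
  intro n b a₁ a₂ hcrit
  unfold Crit at hcrit
  push Not at hcrit
  obtain ⟨M, hM⟩ := hcrit
  rw [sum_ms] at hM
  let N : ℝ → Pen := fun δ => ![M 0 + ![δ, 0, 0], M 1, M 2 + ![δ, 0, 0]]
  have hN : ∀ δ z, nuP (N δ) z = nu (ev (M 0) z + δ * 1) (ev (M 1) z + δ * 0)
      (ev (M 2) z + δ * 1) := by
    intro δ z
    show nu (ev (M 0 + ![δ, 0, 0]) z) (ev (M 1) z) (ev (M 2 + ![δ, 0, 0]) z) = _
    rw [LimA_ev, LimA_ev, ← LimA_ev0]
  have hb : ∀ l, ∀ᶠ δ in 𝓝[>] (0 : ℝ), nuP (N δ) (b l) ≤ nuP M (b l) := by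
    intro l
    obtain ⟨δ₀, h0, h1⟩ := hPertB (ev (M 0) (b l)) (ev (M 1) (b l)) (ev (M 2) (b l)) 1 0 1
      (by
        intro k₁ k₂ hk _ _
        rcases hk with hk | hk
        · have := sq_pos_of_ne_zero hk
          nlinarith [sq_nonneg k₂]
        · have := sq_pos_of_ne_zero hk
          nlinarith [sq_nonneg k₁])
    filter_upwards [Ioo_mem_nhdsGT h0] with δ hδ
    rw [hN]
    exact h1 δ hδ.1 hδ.2
  have ha : ∀ z : ℂ, ∀ᶠ δ in 𝓝[>] (0 : ℝ), nuP M z ≤ nuP (N δ) z := by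
    intro z
    obtain ⟨ε, h0, h1⟩ := hNuLsc (ev (M 0) z) (ev (M 1) z) (ev (M 2) z)
    filter_upwards [Ioo_mem_nhdsGT h0] with δ hδ
    rw [hN]
    refine (h1 _ _ _ ?_ ?_ ?_).1
    · rw [show ev (M 0) z + δ * 1 - ev (M 0) z = δ by ring, abs_of_pos hδ.1]
      exact hδ.2
    · rw [show ev (M 1) z + δ * 0 - ev (M 1) z = 0 by ring, abs_zero]
      exact h0
    · rw [show ev (M 2) z + δ * 1 - ev (M 2) z = δ by ring, abs_of_pos hδ.1]
      exact hδ.2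
  have hall := (Filter.eventually_all.2 hb).and ((ha a₁).and (ha a₂))
  obtain ⟨η, hη, hsub⟩ := mem_nhdsGT_iff_exists_Ioo_subset.mp hall
  have hη : 0 < η := hη
  have hgood : ∀ δ, 0 < δ → δ < η → ∑ l, nuP (N δ) (b l) < nuP (N δ) a₁ + nuP (N δ) a₂ := by
    intro δ h1 h2
    obtain ⟨g1, g2, g3⟩ := hsub ⟨h1, h2⟩
    have g4 : ∑ l, nuP (N δ) (b l) ≤ ∑ l, nuP M (b l) := Finset.sum_le_sum fun l _ => g1 l
    omega
  by_contra hcon
  push Not at hcon
  have hroot : ∀ δ, 0 < δ → δ < η → (M 0 0 + δ) * (M 2 0 + δ) - M 1 0 ^ 2 = 0 := by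
    intro δ h1 h2
    exact hcon (N δ) (hgood δ h1 h2)
  have e1 := hroot (η / 2) (by linarith) (by linarith)
  have e2 := hroot (η / 3) (by linarith) (by linarith)
  have e3 := hroot (η / 4) (by linarith) (by linarith)
  have f1 : (η / 6) * (M 0 0 + M 2 0 + 5 * η / 6) = 0 := by linear_combination e1 - e2
  have f2 : (η / 4) * (M 0 0 + M 2 0 + 3 * η / 4) = 0 := by linear_combination e1 - e3
  have g1 := (mul_eq_zero.mp f1).resolve_left (by linarith)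
  have g2 := (mul_eq_zero.mp f2).resolve_left (by linarith)
  linarith

end Pool.Agent.CMP
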