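import Mathlib
import Pool.Agent.CMP.Basic

set_option autoImplicit false

namespace Pool.Agent.CMP

open Finset Pool.Agent.Helper45.NC
open scoped ComplexConjugate

lemma MinBal_aux (A C : ℝ) (hA : 0 ≤ A) (hC : 0 ≤ C)
    (h : ∀ x : ℝ, 0 < x → A + C ≤ A * x + C * x⁻¹) : A = C := by
  have key : ∀ x : ℝ, 0 < x → 0 ≤ (x - 1) * (A * x - C) := by
    intro x hx
    have h1 := h x hx
    have h2 : (A * x + C * x⁻¹) * x = A * x ^ 2 + C := by
      field_simp
    have h3 := mul_le_mul_of_nonneg_right h1 hx.le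
    rw [h2] at h3
    nlinarith
  rcases lt_trichotomy A C with hlt | heq | hgt
  · exfalso
    have hCpos : 0 < C := lt_of_le_of_lt hA hlt
    set e : ℝ := (C - A) / (2 * C) with he
    have he0 : 0 < e := div_pos (by linarith) (by linarith)
    have he1 : e * (2 * C) = C - A := by
      rw [he]
      exact div_mul_cancel₀ _ (by positivity)
    have h1 := key (1 + e) (by linarith)
    have h2 : A * e ≤ C * e := mul_le_mul_of_nonneg_right hlt.le he0.le
    have h3 : A * (1 + e) - C < 0 := by nlinarith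
    have h4 : (1 + e - 1) * (A * (1 + e) - C) < 0 := by
      have : 1 + e - 1 = e := by ring
      rw [this]
      exact mul_neg_of_pos_of_neg he0 h3
    linarith
  · exact heq
  · exfalso
    have hApos : 0 < A := lt_of_le_of_lt hC hgt
    set e : ℝ := (A - C) / (2 * A) with he
    have he0 : 0 < e := div_pos (by linarith) (by linarith)
    have he1 : e * (2 * A) = A - C := by
      rw [he]
      exact div_mul_cancel₀ _ (by positivity)
    have he2 : e < 1 := by
      rw [he, div_lt_one (by linarith)]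
      linarith
    have h1 := key (1 - e) (by linarith)
    have h3 : 0 < A * (1 - e) - C := by nlinarith
    have h4 : (1 - e - 1) * (A * (1 - e) - C) < 0 := by
      have : 1 - e - 1 = -e := by ring
      rw [this]
      exact mul_neg_of_neg_of_pos (by linarith) h3
    linarith

lemma MinBal_root (x : ℝ) (hx : 0 < x) : ∃ t : ℝ, 0 < t ∧ t ^ 4 = x := by
  refine ⟨Real.sqrt (Real.sqrt x), Real.sqrt_pos.mpr (Real.sqrt_pos.mpr hx), ?_⟩
  have h1 : Real.sqrt (Real.sqrt x) ^ 2 = Real.sqrt x := Real.sq_sqrt (Real.sqrt_nonneg x)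
  have h2 : Real.sqrt x ^ 2 = x := Real.sq_sqrt hx.le
  calc Real.sqrt (Real.sqrt x) ^ 4 = (Real.sqrt (Real.sqrt x) ^ 2) ^ 2 := by ring
    _ = x := by rw [h1, h2]

theorem thm_MinBal : St_MinBal := by
  intro M hM
  constructor
  · refine MinBal_aux _ _ (Finset.sum_nonneg fun i _ => sq_nonneg _)
      (Finset.sum_nonneg fun i _ => sq_nonneg _) ?_
    intro x hx
    obtain ⟨t, ht, htx⟩ := MinBal_root x hx
    have h := hM t 0 0 t⁻¹ (by rw [mul_inv_cancel₀ ht.ne']; ring)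
    have hx' : x⁻¹ = t⁻¹ ^ 4 := by rw [← htx, inv_pow]
    rw [hx', ← htx]
    have e : nrm (act t 0 0 t⁻¹ M) = (∑ i, M 0 i ^ 2) * t ^ 4 + (∑ i, 2 * M 1 i ^ 2) +
        (∑ i, M 2 i ^ 2) * t⁻¹ ^ 4 := by
      unfold nrm act
      rw [Finset.sum_mul, Finset.sum_mul, ← Finset.sum_add_distrib, ← Finset.sum_add_distrib]
      refine Finset.sum_congr rfl fun i _ => ?_
      simp only [Matrix.cons_val_zero, Matrix.cons_val_one, Matrix.cons_val]
      have ht2 : t * t⁻¹ = 1 := mul_inv_cancel₀ ht.ne'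
      have e1 : M 0 i * t * 0 + M 1 i * (t * t⁻¹ + 0 * 0) + M 2 i * 0 * t⁻¹ = M 1 i := by
        rw [ht2]
        ring
      rw [e1]
      ring
    have e2 : nrm M = (∑ i, M 0 i ^ 2) + (∑ i, 2 * M 1 i ^ 2) + ∑ i, M 2 i ^ 2 := by
      unfold nrm
      rw [← Finset.sum_add_distrib, ← Finset.sum_add_distrib]
    rw [e, e2] at h
    linarith
  · have hAC : ∑ i, ((M 0 i + 2 * M 1 i + M 2 i) / 2) ^ 2 =
        ∑ i, ((M 0 i - 2 * M 1 i + M 2 i) / 2) ^ 2 := by
      refine MinBal_aux _ _ (Finset.sum_nonneg fun i _ => sq_nonneg _)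
        (Finset.sum_nonneg fun i _ => sq_nonneg _) ?_
      intro x hx
      obtain ⟨t, ht, htx⟩ := MinBal_root x hx
      set c : ℝ := Real.sqrt (1 / 2) with hc
      have hc2 : c ^ 2 = 1 / 2 := Real.sq_sqrt (by norm_num)
      have ht2 : t * t⁻¹ = 1 := mul_inv_cancel₀ ht.ne'
      have h := hM (t * c) (-(t⁻¹ * c)) (t * c) (t⁻¹ * c) (by
        have : t * c * (t⁻¹ * c) - -(t⁻¹ * c) * (t * c) = 2 * (t * t⁻¹) * c ^ 2 := by ring
        rw [this, ht2, hc2]
        norm_num)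
      have hx' : x⁻¹ = t⁻¹ ^ 4 := by rw [← htx, inv_pow]
      rw [hx', ← htx]
      have e : nrm (act (t * c) (-(t⁻¹ * c)) (t * c) (t⁻¹ * c) M) =
          (∑ i, ((M 0 i + 2 * M 1 i + M 2 i) / 2) ^ 2) * t ^ 4 +
            (∑ i, (M 2 i - M 0 i) ^ 2 / 2) +
            (∑ i, ((M 0 i - 2 * M 1 i + M 2 i) / 2) ^ 2) * t⁻¹ ^ 4 := by
        unfold nrm act
        rw [Finset.sum_mul, Finset.sum_mul, ← Finset.sum_add_distrib, ← Finset.sum_add_distrib]
        refine Finset.sum_congr rfl fun i _ => ?_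
        simp only [Matrix.cons_val_zero, Matrix.cons_val_one, Matrix.cons_val]
        have e1 : M 0 i * (t * c) ^ 2 + 2 * M 1 i * (t * c) * (t * c) + M 2 i * (t * c) ^ 2 =
            (M 0 i + 2 * M 1 i + M 2 i) / 2 * t ^ 2 := by
          have : M 0 i * (t * c) ^ 2 + 2 * M 1 i * (t * c) * (t * c) + M 2 i * (t * c) ^ 2 =
            (M 0 i + 2 * M 1 i + M 2 i) * t ^ 2 * c ^ 2 := by ring
          rw [this, hc2]
          ring
        have e2 : M 0 i * (t * c) * -(t⁻¹ * c) + M 1 i * (t * c * (t⁻¹ * c) +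
            -(t⁻¹ * c) * (t * c)) + M 2 i * (t * c) * (t⁻¹ * c) = (M 2 i - M 0 i) / 2 := by
          have : M 0 i * (t * c) * -(t⁻¹ * c) + M 1 i * (t * c * (t⁻¹ * c) +
            -(t⁻¹ * c) * (t * c)) + M 2 i * (t * c) * (t⁻¹ * c) =
              (M 2 i - M 0 i) * (t * t⁻¹) * c ^ 2 := by ring
          rw [this, hc2, ht2]
          ring
        have e3 : M 0 i * (-(t⁻¹ * c)) ^ 2 + 2 * M 1 i * -(t⁻¹ * c) * (t⁻¹ * c) +
            M 2 i * (t⁻¹ * c) ^ 2 = (M 0 i - 2 * M 1 i + M 2 i) / 2 * t⁻¹ ^ 2 := by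
          have : M 0 i * (-(t⁻¹ * c)) ^ 2 + 2 * M 1 i * -(t⁻¹ * c) * (t⁻¹ * c) +
            M 2 i * (t⁻¹ * c) ^ 2 = (M 0 i - 2 * M 1 i + M 2 i) * t⁻¹ ^ 2 * c ^ 2 := by ring
          rw [this, hc2]
          ring
        rw [e1, e2, e3]
        ring
      have e2 : nrm M = (∑ i, ((M 0 i + 2 * M 1 i + M 2 i) / 2) ^ 2) +
          (∑ i, (M 2 i - M 0 i) ^ 2 / 2) + ∑ i, ((M 0 i - 2 * M 1 i + M 2 i) / 2) ^ 2 := by
        unfold nrm
        rw [← Finset.sum_add_distrib, ← Finset.sum_add_distrib]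
        refine Finset.sum_congr rfl fun i _ => ?_
        ring
      rw [e, e2] at h
      linarith
    have h2 : ∑ i, ((M 0 i + 2 * M 1 i + M 2 i) / 2) ^ 2 -
        ∑ i, ((M 0 i - 2 * M 1 i + M 2 i) / 2) ^ 2 = 2 * ∑ i, (M 0 i + M 2 i) * M 1 i := by
      rw [← Finset.sum_sub_distrib, Finset.mul_sum]
      refine Finset.sum_congr rfl fun i _ => ?_
      ring
    rw [hAC, sub_self] at h2
    linarith

end Pool.Agent.CMP
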