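import Mathlib
import Pool.Agent.CMP.Basic

set_option autoImplicit false

namespace Pool.Agent.CMP

open Finset Pool.Agent.Helper45.NC
open scoped ComplexConjugate

theorem multVal_aux {n : ℕ} (b p q : Fin n → ℂ) (a x : ℂ) (f g : Fin 3 → ℝ)
    (hF : Feas b p q a x)
    (h : ∀ l, (ev f (b l) : ℂ) * p l + (ev g (b l) : ℂ) * q l = 0) :
    ev f a = 0 ∧ ev g x = 0 := by
  obtain ⟨F1, F2, F3⟩ := hF
  have hc : ∑ l, conj (p l) * q l * (ev g (b l) : ℂ) = 0 := by
    have h3 := congrArg (starRingEnd ℂ) (F3 g)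
    rw [map_sum, map_zero] at h3
    rw [← h3]
    refine Finset.sum_congr rfl (fun l _ => ?_)
    rw [map_mul, map_mul, Complex.conj_conj, Complex.conj_ofReal]
  constructor
  · have h1 : ∑ l, ((ev f (b l) : ℂ) * p l + (ev g (b l) : ℂ) * q l) * conj (p l) = 0 :=
      Finset.sum_eq_zero (fun l _ => by rw [h l, zero_mul])
    have h2 : ∑ l, ((ev f (b l) : ℂ) * p l + (ev g (b l) : ℂ) * q l) * conj (p l) =
        ((∑ l, Complex.normSq (p l) * ev f (b l) : ℝ) : ℂ) +
          ∑ l, conj (p l) * q l * (ev g (b l) : ℂ) := by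
      rw [Complex.ofReal_sum, ← Finset.sum_add_distrib]
      refine Finset.sum_congr rfl (fun l _ => ?_)
      rw [Complex.ofReal_mul, ← Complex.mul_conj]
      ring
    rw [h1, hc, add_zero, F1 f] at h2
    exact_mod_cast h2.symm
  · have h1 : ∑ l, ((ev f (b l) : ℂ) * p l + (ev g (b l) : ℂ) * q l) * conj (q l) = 0 :=
      Finset.sum_eq_zero (fun l _ => by rw [h l, zero_mul])
    have h2 : ∑ l, ((ev f (b l) : ℂ) * p l + (ev g (b l) : ℂ) * q l) * conj (q l) =
        ((∑ l, Complex.normSq (q l) * ev g (b l) : ℝ) : ℂ) +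
          ∑ l, p l * conj (q l) * (ev f (b l) : ℂ) := by
      rw [Complex.ofReal_sum, ← Finset.sum_add_distrib]
      refine Finset.sum_congr rfl (fun l _ => ?_)
      rw [Complex.ofReal_mul, ← Complex.mul_conj]
      ring
    rw [h1, F3 f, add_zero, F2 g] at h2
    exact_mod_cast h2.symm

theorem thm_MultVal : St_MultVal := by
  intro n b p q a x α β γ hF h1 h2
  have e1 := multVal_aux b p q a x α β hF h1
  have e2 := multVal_aux b p q a x β γ hF h2
  exact ⟨e1.1, e2.1, e1.2, e2.2⟩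

end Pool.Agent.CMP
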