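import Mathlib
import Pool.Agent.CMP.Basic

set_option autoImplicit false

namespace Pool.Agent.CMP

open Finset Pool.Agent.Helper45.NC
open scoped ComplexConjugate

theorem NearMin_lower (p q r s : ℝ) (h : p * s - q * r = 1) (M : Pen) :
    |M 0 0 * M 2 0 - M 1 0 ^ 2| ≤ nrm (act p q r s M) := by
  have hd : (act p q r s M) 0 0 * (act p q r s M) 2 0 - (act p q r s M) 1 0 ^ 2 =
      M 0 0 * M 2 0 - M 1 0 ^ 2 := by
    rw [act_zero, act_one, act_two]
    linear_combination (M 0 0 * M 2 0 - M 1 0 ^ 2) * (p * s - q * r + 1) * h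
  rw [← hd]
  generalize act p q r s M = N
  unfold nrm
  rw [Fin.sum_univ_three, abs_le]
  constructor
  · nlinarith [sq_nonneg (N 0 0 + N 2 0), sq_nonneg (N 0 0 - N 2 0), sq_nonneg (N 1 0),
      sq_nonneg (N 0 1), sq_nonneg (N 1 1), sq_nonneg (N 2 1), sq_nonneg (N 0 2),
      sq_nonneg (N 1 2), sq_nonneg (N 2 2), sq_nonneg (N 0 0), sq_nonneg (N 2 0)]
  · nlinarith [sq_nonneg (N 0 0 + N 2 0), sq_nonneg (N 0 0 - N 2 0), sq_nonneg (N 1 0),
      sq_nonneg (N 0 1), sq_nonneg (N 1 1), sq_nonneg (N 2 1), sq_nonneg (N 0 2),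
      sq_nonneg (N 1 2), sq_nonneg (N 2 2), sq_nonneg (N 0 0), sq_nonneg (N 2 0)]

theorem thm_NearMin : St_NearMin := by
  intro M hM ε hε
  let S : Set ℝ := {x | ∃ p q r s : ℝ, p * s - q * r = 1 ∧ x = nrm (act p q r s M)}
  have hne : S.Nonempty := ⟨_, 1, 0, 0, 1, by norm_num, rfl⟩
  have hlow : ∀ x ∈ S, |M 0 0 * M 2 0 - M 1 0 ^ 2| ≤ x := by
    rintro x ⟨p, q, r, s, h1, rfl⟩
    exact NearMin_lower p q r s h1 M
  have hD : 0 < |M 0 0 * M 2 0 - M 1 0 ^ 2| := abs_pos.mpr hM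
  have hbdd : BddBelow S := ⟨_, hlow⟩
  have hI : 0 < sInf S := lt_of_lt_of_le hD (le_csInf hne hlow)
  obtain ⟨x, ⟨p, q, r, s, h1, rfl⟩, hx⟩ := exists_lt_of_csInf_lt hne
    (show sInf S < (1 + ε) * sInf S by nlinarith)
  refine ⟨p, q, r, s, h1, ?_, fun p' q' r' s' h2 => ?_⟩
  · exact (lt_of_lt_of_le hD (NearMin_lower p q r s h1 M)).ne'
  · rw [act_act]
    have h3 : sInf S ≤ nrm (act (p * p' + q * r') (p * q' + q * s') (r * p' + s * r')
        (r * q' + s * s') M) :=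
      csInf_le hbdd ⟨_, _, _, _, by linear_combination (p' * s' - q' * r') * h1 + h2, rfl⟩
    refine hx.le.trans ?_
    exact mul_le_mul_of_nonneg_left h3 (by linarith)

end Pool.Agent.CMP
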