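import Mathlib
import Pool.Agent.CMP.Basic

set_option autoImplicit false

namespace Pool.Agent.CMP

open Finset Pool.Agent.Helper45.NC
open scoped ComplexConjugate

/-- the coefficient matrices of a pencil -/
noncomputable def necr_N (M : Pen) (i : Fin 3) : Matrix (Fin 2) (Fin 2) ℂ :=
  !![(M 0 i : ℂ), (M 1 i : ℂ); (M 1 i : ℂ), (M 2 i : ℂ)]

theorem necr_herm (M : Pen) (i : Fin 3) : (necr_N M i).IsHermitian := by
  unfold necr_N
  rw [Matrix.IsHermitian]
  ext j k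
  fin_cases j <;> fin_cases k <;> simp [Matrix.conjTranspose_apply]

theorem necr_eval (M : Pen) (z : ℂ) :
    necr_N M 0 + ((z.re : ℝ) : ℂ) • necr_N M 1 + ((z.im : ℝ) : ℂ) • necr_N M 2 =
      !![(ev (M 0) z : ℂ), (ev (M 1) z : ℂ); (ev (M 1) z : ℂ), (ev (M 2) z : ℂ)] := by
  unfold necr_N ev
  ext j k
  fin_cases j <;> fin_cases k <;> simp <;> ring

theorem thm_NecR (hNecC : St_NecC) (hNegC : St_NegC) (hBridge : St_Bridge) : St_NecR := by
  intro n a₁ a₂ b hR M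
  have h1 : MDil {a₁, a₂} (ms b) := (hBridge n b a₁ a₂).1 hR
  have h2 : ms ![a₁, a₂] = {a₁, a₂} := by
    unfold ms
    simp [Fin.univ_succ]
  have h3 : Dil ![a₁, a₂] b := by
    apply MDil.dil
    rw [h2]
    exact h1
  have h4 := hNecC 2 n 2 ![a₁, a₂] b (necr_N M 0) (necr_N M 1) (necr_N M 2) (necr_herm M 0)
    (necr_herm M 1) (necr_herm M 2) h3
  have hv : ∀ z : ℂ, negC (necr_N M 0 + ((z.re : ℝ) : ℂ) • necr_N M 1 +
      ((z.im : ℝ) : ℂ) • necr_N M 2) = nuP M z := by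
    intro z
    rw [necr_eval]
    exact hNegC _ _ _
  rw [Fin.sum_univ_two, hv, hv, Finset.sum_congr rfl (fun l _ => hv (b l))] at h4
  rw [sum_ms]
  exact h4

end Pool.Agent.CMP
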