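import Mathlib
import Pool.Agent.CMP.Basic

set_option autoImplicit false

namespace Pool.Agent.CMP

open Finset Pool.Agent.Helper45.NC
open scoped ComplexConjugate

theorem NegR_roots (x y w : ℝ) : ∃ s t : ℝ, s ≤ t ∧ s + t = x + w ∧ s * t = x * w - y ^ 2 := by
  have h0 : 0 ≤ (x - w) ^ 2 + 4 * y ^ 2 := by positivity
  have h1 := Real.sqrt_nonneg ((x - w) ^ 2 + 4 * y ^ 2)
  have h2 := Real.mul_self_sqrt h0
  set D := Real.sqrt ((x - w) ^ 2 + 4 * y ^ 2) with hD
  refine ⟨(x + w - D) / 2, (x + w + D) / 2, by linarith, by ring, ?_⟩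
  linear_combination (-1 / 4) * h2

theorem NegR_count {x y w s t : ℝ} (hst : s ≤ t) (h1 : s + t = x + w)
    (h2 : s * t = x * w - y ^ 2) :
    (if s < 0 then 1 else 0) + (if t < 0 then 1 else 0) = nu x y w := by
  have h3 : (x - s) * (x - t) = - y ^ 2 := by linear_combination x * h1 * (-1) + h2
  have hy : 0 ≤ y ^ 2 := sq_nonneg y
  have hsx : s ≤ x := by
    by_contra h
    push Not at h
    have := mul_pos_of_neg_of_neg (a := x - s) (b := x - t) (by linarith) (by linarith)
    linarith
  have hxt : x ≤ t := by
    by_contra h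
    push Not at h
    have := mul_pos (a := x - s) (b := x - t) (by linarith) (by linarith)
    linarith
  have hsw : s ≤ w := by linarith
  unfold nu
  congr 1
  · by_cases h : s < 0
    · rw [if_pos h, if_pos]
      by_contra hn
      push Not at hn
      obtain ⟨n1, n2, n3⟩ := hn
      have ht : 0 < t := by linarith
      have := mul_neg_of_neg_of_pos h ht
      linarith
    · rw [if_neg h, if_neg]
      push Not at h ⊢
      refine ⟨by linarith, by linarith, ?_⟩
      have := mul_nonneg h (le_trans h hst)
      linarith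
  · by_cases h : t < 0
    · rw [if_pos h, if_pos]
      refine ⟨by linarith, ?_⟩
      have := mul_pos_of_neg_of_neg (lt_of_le_of_lt hst h) h
      linarith
    · rw [if_neg h, if_neg]
      rintro ⟨n1, n2⟩
      push Not at h
      have hs : s < 0 := by linarith
      have := mul_nonpos_of_nonpos_of_nonneg hs.le h
      linarith

theorem NegR_charpoly {K : Type*} [Field K] {x y w s t : K} (h1 : s + t = x + w)
    (h2 : s * t = x * w - y ^ 2) :
    (!![x, y; y, w] : Matrix (Fin 2) (Fin 2) K).charpoly =
      (Polynomial.X - Polynomial.C s) * (Polynomial.X - Polynomial.C t) := by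
  rw [Matrix.charpoly_fin_two, Matrix.trace_fin_two_of, Matrix.det_fin_two_of]
  have e1 : x * w - y * y = s * t := by rw [h2]; ring
  rw [← h1, e1, Polynomial.C_add, Polynomial.C_mul]
  ring

theorem thm_NegR : St_NegR := by
  intro x y w
  obtain ⟨s, t, hst, h1, h2⟩ := NegR_roots x y w
  rw [← NegR_count hst h1 h2]
  unfold negR
  rw [NegR_charpoly h1 h2, Polynomial.roots_mul
    (mul_ne_zero (Polynomial.X_sub_C_ne_zero s) (Polynomial.X_sub_C_ne_zero t)),
    Polynomial.roots_X_sub_C, Polynomial.roots_X_sub_C, Multiset.filter_add, Multiset.card_add,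
    Multiset.filter_singleton, Multiset.filter_singleton]
  congr 1
  · split_ifs <;> rfl
  · split_ifs <;> rfl

end Pool.Agent.CMP
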