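import Mathlib
import Pool.Agent.CMP.Basic
import Pool.Agent.CMP.NegR

set_option autoImplicit false

namespace Pool.Agent.CMP

open Finset Pool.Agent.Helper45.NC
open scoped ComplexConjugate

theorem thm_NegC : St_NegC := by
  intro x y w
  obtain ⟨s, t, hst, h1, h2⟩ := NegR_roots x y w
  rw [← NegR_count hst h1 h2]
  unfold negC
  have h1' : (s : ℂ) + (t : ℂ) = (x : ℂ) + (w : ℂ) := by exact_mod_cast h1
  have h2' : (s : ℂ) * (t : ℂ) = (x : ℂ) * (w : ℂ) - (y : ℂ) ^ 2 := by exact_mod_cast h2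
  rw [NegR_charpoly h1' h2', Polynomial.roots_mul
    (mul_ne_zero (Polynomial.X_sub_C_ne_zero _) (Polynomial.X_sub_C_ne_zero _)),
    Polynomial.roots_X_sub_C, Polynomial.roots_X_sub_C, Multiset.filter_add, Multiset.card_add,
    Multiset.filter_singleton, Multiset.filter_singleton, Complex.ofReal_re, Complex.ofReal_re]
  congr 1
  · split_ifs <;> rfl
  · split_ifs <;> rfl

end Pool.Agent.CMP
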