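import Mathlib
import Pool.Agent.CMP.Basic

set_option autoImplicit false

namespace Pool.Agent.CMP

open Finset Pool.Agent.Helper45.NC
open scoped ComplexConjugate

/-- a line through three points -/
theorem nonzero_line {β : Fin 3 → ℝ} (hβ : β ≠ 0) {z w a : ℂ} (h1 : ev β z = 0)
    (h2 : ev β w = 0) (h3 : ev β a = 0) : ((w - z) * conj (a - z)).im = 0 := by
  have hf12 : ¬ (β 1 = 0 ∧ β 2 = 0) := by
    rintro ⟨g1, g2⟩
    apply hβ
    have h0 : β 0 = 0 := by
      unfold ev at h1; rw [g1, g2] at h1; linarith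
    funext i
    fin_cases i
    · exact h0
    · exact g1
    · exact g2
  have e1 : β 1 * (w.re - z.re) + β 2 * (w.im - z.im) = 0 := by
    unfold ev at h1 h2; linarith
  have e2 : β 1 * (a.re - z.re) + β 2 * (a.im - z.im) = 0 := by
    unfold ev at h1 h3; linarith
  have e3 : ((w - z) * conj (a - z)).im =
      (w.im - z.im) * (a.re - z.re) - (w.re - z.re) * (a.im - z.im) := by
    rw [Complex.mul_im, Complex.conj_re, Complex.conj_im, Complex.sub_re, Complex.sub_im,
      Complex.sub_re, Complex.sub_im]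
    ring
  rw [e3]
  by_cases hb : β 1 = 0
  · have hb2 : β 2 ≠ 0 := fun h => hf12 ⟨hb, h⟩
    have : β 2 * ((w.im - z.im) * (a.re - z.re) - (w.re - z.re) * (a.im - z.im)) = 0 := by
      linear_combination (a.re - z.re) * e1 - (w.re - z.re) * e2
    exact (mul_eq_zero.1 this).resolve_left hb2
  · have : β 1 * ((w.im - z.im) * (a.re - z.re) - (w.re - z.re) * (a.im - z.im)) = 0 := by
      linear_combination (w.im - z.im) * e2 - (a.im - z.im) * e1
    exact (mul_eq_zero.1 this).resolve_left hb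

theorem thm_Nonzero (hGenSupp : St_GenSupp) (hMultVal : St_MultVal) : St_Nonzero := by
  intro n b p q a x α β γ hG hax hxb hF hM hγ hβ m hm
  obtain ⟨hm1, hm2, hm3⟩ := hm
  obtain ⟨R1, R2, -⟩ := hM
  obtain ⟨va, vb, vx, vg⟩ := hMultVal n b p q a x α β γ hF R1 R2
  obtain ⟨c1, hc1⟩ := prop_of_two (hG.1 m) hβ vb hm2 va hm1
  obtain ⟨c3, hc3⟩ := prop_of_two (hxb m) hβ vx hm2 vg hm3
  have hc3' : c3 ≠ 0 := by
    intro h
    rw [h, zero_smul] at hc3
    rw [hc3] at hγ
    simp at hγ
  have key : ∀ l, ev β (b l) ≠ 0 → (c1 : ℂ) * p l + q l = 0 ∧ p l + (c3 : ℂ) * q l = 0 := by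
    intro l hl
    have hl' : (ev β (b l) : ℂ) ≠ 0 := by exact_mod_cast hl
    have r1 := R1 l
    have r2 := R2 l
    rw [hc1, ev_smul] at r1
    rw [hc3, ev_smul] at r2
    push_cast at r1 r2
    constructor
    · have : (ev β (b l) : ℂ) * ((c1 : ℂ) * p l + q l) = 0 := by
        linear_combination r1
      exact (mul_eq_zero.1 this).resolve_left hl'
    · have : (ev β (b l) : ℂ) * (p l + (c3 : ℂ) * q l) = 0 := by
        linear_combination r2
      exact (mul_eq_zero.1 this).resolve_left hl'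
  by_cases hcc : c1 * c3 = 1
  · -- the vector `r = p + c3 q` is supported at the position `b m`
    have hr : ∀ l, p l + (c3 : ℂ) * q l ≠ 0 → b l = b m := by
      intro l hl
      by_contra hne
      have h0 : ev β (b l) = 0 := by
        by_contra h
        exact hl (key l h).2
      exact hG.2 l m hne (nonzero_line hβ h0 hm2 vb)
    have hsum : ∀ h : Fin 3 → ℝ, ∑ l, (p l + (c3 : ℂ) * q l) * conj (q l) * (ev h (b l) : ℂ) =
        (c3 : ℂ) * (ev h x : ℂ) := by
      intro h
      have e1 : ∑ l, (p l + (c3 : ℂ) * q l) * conj (q l) * (ev h (b l) : ℂ) =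
          ∑ l, p l * conj (q l) * (ev h (b l) : ℂ) +
            (c3 : ℂ) * ((∑ l, Complex.normSq (q l) * ev h (b l) : ℝ) : ℂ) := by
        rw [Complex.ofReal_sum, Finset.mul_sum, ← Finset.sum_add_distrib]
        refine Finset.sum_congr rfl (fun l _ => ?_)
        rw [Complex.ofReal_mul, ← Complex.mul_conj]
        ring
      rw [e1, hF.2.2 h, hF.2.1 h, zero_add]
    have hsum2 : ∀ h : Fin 3 → ℝ, ∑ l, (p l + (c3 : ℂ) * q l) * conj (q l) * (ev h (b l) : ℂ) =
        (ev h (b m) : ℂ) * ∑ l, (p l + (c3 : ℂ) * q l) * conj (q l) := by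
      intro h
      rw [Finset.mul_sum]
      refine Finset.sum_congr rfl (fun l _ => ?_)
      by_cases h0 : p l + (c3 : ℂ) * q l = 0
      · rw [h0]; ring
      · rw [hr l h0]; ring
    have hone : ∑ l, (p l + (c3 : ℂ) * q l) * conj (q l) = (c3 : ℂ) := by
      have e1 := hsum ![1, 0, 0]
      rw [hsum2 ![1, 0, 0], ev_mk, ev_mk] at e1
      simpa using e1
    apply hxb m
    apply ev_ext
    intro f
    have e1 := hsum f
    rw [hsum2 f, hone] at e1
    have hc3c : (c3 : ℂ) ≠ 0 := by exact_mod_cast hc3'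
    have e2 : (ev f (b m) : ℂ) = (ev f x : ℂ) := by
      apply mul_left_cancel₀ hc3c
      rw [← e1, mul_comm]
    exact_mod_cast e2.symm
  · apply hβ
    refine hGenSupp n b a (fun l => Complex.normSq (p l)) β hG hF.1 ?_
    intro l hl
    by_contra h0
    apply hl
    obtain ⟨k1, k2⟩ := key l h0
    have hne : (1 - (c1 : ℂ) * c3) ≠ 0 := by
      intro h
      apply hcc
      have : (c1 : ℂ) * c3 = 1 := by linear_combination -h
      exact_mod_cast this
    have : (1 - (c1 : ℂ) * c3) * p l = 0 := by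
      linear_combination k2 - (c3 : ℂ) * k1
    rw [(mul_eq_zero.1 this).resolve_left hne]
    simp

end Pool.Agent.CMP
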