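import Mathlib
import Pool.Agent.CMP.Basic

set_option autoImplicit false

namespace Pool.Agent.CMP

open Finset Pool.Agent.Helper45.NC
open scoped ComplexConjugate

theorem nuInv_psd_iff (x y w : ℝ) : ¬ (x < 0 ∨ w < 0 ∨ x * w < y ^ 2) ↔
    ∀ u v : ℝ, 0 ≤ x * u ^ 2 + 2 * y * u * v + w * v ^ 2 := by
  constructor
  · intro h u v
    push Not at h
    obtain ⟨hx, hw, hd⟩ := h
    rcases hx.lt_or_eq with hx | hx
    · by_contra hneg
      push Not at hneg
      have e : x * (x * u ^ 2 + 2 * y * u * v + w * v ^ 2) =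
          (x * u + y * v) ^ 2 + (x * w - y ^ 2) * v ^ 2 := by ring
      have h1 : x * (x * u ^ 2 + 2 * y * u * v + w * v ^ 2) < 0 := mul_neg_of_pos_of_neg hx hneg
      have h2 : 0 ≤ (x * u + y * v) ^ 2 + (x * w - y ^ 2) * v ^ 2 :=
        add_nonneg (sq_nonneg _) (mul_nonneg (by linarith) (sq_nonneg _))
      linarith
    · rw [← hx] at hd ⊢
      have hy : y = 0 := by
        have : y ^ 2 = 0 := le_antisymm (by linarith) (sq_nonneg _)
        exact (pow_eq_zero_iff (n := 2) (by norm_num)).1 this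
      rw [hy]
      have : 0 ≤ w * v ^ 2 := mul_nonneg hw (sq_nonneg _)
      linarith
  · intro h
    push Not
    have hx : 0 ≤ x := by have := h 1 0; linarith
    have hw : 0 ≤ w := by have := h 0 1; linarith
    refine ⟨hx, hw, ?_⟩
    rcases hx.lt_or_eq with hx' | hx'
    · have h1 := h (-y) x
      by_contra hneg
      push Not at hneg
      have e : x * (-y) ^ 2 + 2 * y * (-y) * x + w * x ^ 2 = x * (x * w - y ^ 2) := by ring
      rw [e] at h1
      have : x * (x * w - y ^ 2) < 0 := mul_neg_of_pos_of_neg hx' (by linarith)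
      linarith
    · rcases hw.lt_or_eq with hw' | hw'
      · have h1 := h w (-y)
        by_contra hneg
        push Not at hneg
        have e : x * w ^ 2 + 2 * y * w * (-y) + w * (-y) ^ 2 = w * (x * w - y ^ 2) := by ring
        rw [e] at h1
        have : w * (x * w - y ^ 2) < 0 := mul_neg_of_pos_of_neg hw' (by linarith)
        linarith
      · have h1 := h 1 (-y)
        rw [← hx', ← hw'] at h1 ⊢
        nlinarith [sq_nonneg y]

theorem nuInv_negdef_iff (x y w : ℝ) : (x < 0 ∧ y ^ 2 < x * w) ↔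
    ∀ u v : ℝ, (u ≠ 0 ∨ v ≠ 0) → x * u ^ 2 + 2 * y * u * v + w * v ^ 2 < 0 := by
  constructor
  · rintro ⟨hx, hd⟩ u v huv
    by_contra hneg
    push Not at hneg
    have e : x * (x * u ^ 2 + 2 * y * u * v + w * v ^ 2) =
        (x * u + y * v) ^ 2 + (x * w - y ^ 2) * v ^ 2 := by ring
    have h1 : x * (x * u ^ 2 + 2 * y * u * v + w * v ^ 2) ≤ 0 :=
      mul_nonpos_of_nonpos_of_nonneg hx.le hneg
    by_cases hv : v = 0
    · have hu : u ≠ 0 := by
        rcases huv with h | h
        · exact h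
        · exact absurd hv h
      rw [e, hv] at h1
      have : 0 < (x * u) ^ 2 := by
        have : x * u ≠ 0 := mul_ne_zero hx.ne hu
        positivity
      nlinarith
    · have h2 : 0 < (x * w - y ^ 2) * v ^ 2 := mul_pos (by linarith) (by positivity)
      have h3 := sq_nonneg (x * u + y * v)
      linarith
  · intro h
    have hx : x < 0 := by
      have := h 1 0 (Or.inl one_ne_zero)
      linarith
    refine ⟨hx, ?_⟩
    have h1 := h (-y) x (Or.inr hx.ne)
    have e : x * (-y) ^ 2 + 2 * y * (-y) * x + w * x ^ 2 = x * (x * w - y ^ 2) := by ring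
    rw [e] at h1
    by_contra hneg
    push Not at hneg
    have : 0 ≤ x * (x * w - y ^ 2) := mul_nonneg_of_nonpos_of_nonpos hx.le (by linarith)
    linarith

theorem nuInv_nu (x y w p q r s : ℝ) (hps : p * s - q * r ≠ 0) :
    nu (x * p ^ 2 + 2 * y * p * r + w * r ^ 2) (x * p * q + y * (p * s + q * r) + w * r * s)
      (x * q ^ 2 + 2 * y * q * s + w * s ^ 2) = nu x y w := by
  have e : ∀ u v : ℝ, (x * p ^ 2 + 2 * y * p * r + w * r ^ 2) * u ^ 2 +
      2 * (x * p * q + y * (p * s + q * r) + w * r * s) * u * v +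
      (x * q ^ 2 + 2 * y * q * s + w * s ^ 2) * v ^ 2 =
      x * (p * u + q * v) ^ 2 + 2 * y * (p * u + q * v) * (r * u + s * v) +
        w * (r * u + s * v) ^ 2 := by
    intro u v; ring
  have hsurj : ∀ u v : ℝ, ∃ u' v' : ℝ, p * u' + q * v' = u ∧ r * u' + s * v' = v := by
    intro u v
    refine ⟨(s * u - q * v) * (p * s - q * r)⁻¹, (p * v - r * u) * (p * s - q * r)⁻¹, ?_, ?_⟩
    · linear_combination u * mul_inv_cancel₀ hps
    · linear_combination v * mul_inv_cancel₀ hps
  have h1 : (x * p ^ 2 + 2 * y * p * r + w * r ^ 2 < 0 ∨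
      x * q ^ 2 + 2 * y * q * s + w * s ^ 2 < 0 ∨
      (x * p ^ 2 + 2 * y * p * r + w * r ^ 2) * (x * q ^ 2 + 2 * y * q * s + w * s ^ 2) <
        (x * p * q + y * (p * s + q * r) + w * r * s) ^ 2) ↔
      (x < 0 ∨ w < 0 ∨ x * w < y ^ 2) := by
    rw [← not_iff_not, nuInv_psd_iff, nuInv_psd_iff]
    constructor
    · intro h u v
      obtain ⟨u', v', rfl, rfl⟩ := hsurj u v
      have := h u' v'
      rwa [e] at this
    · intro h u v
      rw [e]
      exact h _ _
  have h2 : (x * p ^ 2 + 2 * y * p * r + w * r ^ 2 < 0 ∧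
      (x * p * q + y * (p * s + q * r) + w * r * s) ^ 2 <
      (x * p ^ 2 + 2 * y * p * r + w * r ^ 2) * (x * q ^ 2 + 2 * y * q * s + w * s ^ 2)) ↔
      (x < 0 ∧ y ^ 2 < x * w) := by
    rw [nuInv_negdef_iff, nuInv_negdef_iff]
    constructor
    · intro h u v huv
      obtain ⟨u', v', rfl, rfl⟩ := hsurj u v
      have hne : u' ≠ 0 ∨ v' ≠ 0 := by
        by_contra hcon
        push Not at hcon
        rw [hcon.1, hcon.2] at huv
        simp at huv
      have := h u' v' hne
      rwa [e] at this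
    · intro h u v huv
      rw [e]
      apply h
      by_contra hcon
      push Not at hcon
      obtain ⟨c1, c2⟩ := hcon
      have e1 : (p * s - q * r) * u = 0 := by linear_combination s * c1 - q * c2
      have e2 : (p * s - q * r) * v = 0 := by linear_combination p * c2 - r * c1
      rcases huv with h3 | h3
      · exact h3 ((mul_eq_zero.1 e1).resolve_left hps)
      · exact h3 ((mul_eq_zero.1 e2).resolve_left hps)
  unfold nu
  rw [if_congr h1 rfl rfl, if_congr h2 rfl rfl]

theorem nuInv_nu0 (x y w : ℝ) : nu0 x y w + nu (-x) (-y) (-w) = 2 := by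
  unfold nu nu0
  have h1 : (-x < 0 ∨ -w < 0 ∨ -x * -w < (-y) ^ 2) ↔ (0 < x ∨ 0 < w ∨ x * w < y ^ 2) := by
    rw [neg_lt_zero, neg_lt_zero, neg_mul_neg, neg_sq]
  have h2 : (-x < 0 ∧ (-y) ^ 2 < -x * -w) ↔ (0 < x ∧ y ^ 2 < x * w) := by
    rw [neg_lt_zero, neg_mul_neg, neg_sq]
  rw [if_congr h1 rfl rfl, if_congr h2 rfl rfl]
  split_ifs <;> rfl

theorem thm_NuInv : St_NuInv := by
  intro x y w p q r s h
  refine ⟨nuInv_nu x y w p q r s h, ?_⟩
  have h1 := nuInv_nu0 (x * p ^ 2 + 2 * y * p * r + w * r ^ 2)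
    (x * p * q + y * (p * s + q * r) + w * r * s) (x * q ^ 2 + 2 * y * q * s + w * s ^ 2)
  have h2 := nuInv_nu0 x y w
  have h3 := nuInv_nu (-x) (-y) (-w) p q r s h
  have e1 : (-x) * p ^ 2 + 2 * (-y) * p * r + (-w) * r ^ 2 =
      -(x * p ^ 2 + 2 * y * p * r + w * r ^ 2) := by ring
  have e2 : (-x) * p * q + (-y) * (p * s + q * r) + (-w) * r * s =
      -(x * p * q + y * (p * s + q * r) + w * r * s) := by ring
  have e3 : (-x) * q ^ 2 + 2 * (-y) * q * s + (-w) * s ^ 2 =
      -(x * q ^ 2 + 2 * y * q * s + w * s ^ 2) := by ring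
  rw [e1, e2, e3] at h3
  omega

end Pool.Agent.CMP
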