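import Mathlib
import Pool.Agent.CMP.Basic

set_option autoImplicit false

namespace Pool.Agent.CMP

open Finset Pool.Agent.Helper45.NC
open scoped ComplexConjugate

theorem nuLsc_ev (P : Set (ℝ × ℝ × ℝ)) (hP : IsOpen P) (t : ℝ × ℝ × ℝ) :
    ∀ᶠ s in nhds t, t ∈ P → s ∈ P := by
  by_cases h : t ∈ P
  · filter_upwards [hP.mem_nhds h] with s hs _
    exact hs
  · exact Filter.Eventually.of_forall fun s h' => absurd h' h

theorem nuLsc_ite {p q : Prop} [Decidable p] [Decidable q] (h : p → q) :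
    (if p then 1 else 0 : ℕ) ≤ if q then 1 else 0 := by
  split_ifs with h1 h2
  · exact le_rfl
  · exact absurd (h h1) h2
  · exact Nat.zero_le _
  · exact le_rfl

theorem nuLsc_ite' {p q : Prop} [Decidable p] [Decidable q] (h : p → q) :
    (if q then 0 else 1 : ℕ) ≤ if p then 0 else 1 := by
  split_ifs with h1 h2 h3
  · exact le_rfl
  · exact Nat.zero_le _
  · exact absurd (h h3) h1
  · exact le_rfl

theorem thm_NuLsc : St_NuLsc := by
  intro x y w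
  have c1 : Continuous fun t : ℝ × ℝ × ℝ => t.1 := continuous_fst
  have c2 : Continuous fun t : ℝ × ℝ × ℝ => t.2.1 := by fun_prop
  have c3 : Continuous fun t : ℝ × ℝ × ℝ => t.2.2 := by fun_prop
  have c4 : Continuous fun t : ℝ × ℝ × ℝ => t.1 * t.2.2 := by fun_prop
  have c5 : Continuous fun t : ℝ × ℝ × ℝ => t.2.1 ^ 2 := by fun_prop
  have o1 : IsOpen {t : ℝ × ℝ × ℝ | t.1 < 0 ∨ t.2.2 < 0 ∨ t.1 * t.2.2 < t.2.1 ^ 2} :=
    (isOpen_lt c1 continuous_const).union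
      ((isOpen_lt c3 continuous_const).union (isOpen_lt c4 c5))
  have o2 : IsOpen {t : ℝ × ℝ × ℝ | t.1 < 0 ∧ t.2.1 ^ 2 < t.1 * t.2.2} :=
    (isOpen_lt c1 continuous_const).inter (isOpen_lt c5 c4)
  have o3 : IsOpen {t : ℝ × ℝ × ℝ | 0 < t.1 ∧ t.2.1 ^ 2 < t.1 * t.2.2} :=
    (isOpen_lt continuous_const c1).inter (isOpen_lt c5 c4)
  have o4 : IsOpen {t : ℝ × ℝ × ℝ | 0 < t.1 ∨ 0 < t.2.2 ∨ t.1 * t.2.2 < t.2.1 ^ 2} :=
    (isOpen_lt continuous_const c1).union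
      ((isOpen_lt continuous_const c3).union (isOpen_lt c4 c5))
  have h := (nuLsc_ev _ o1 (x, y, w)).and ((nuLsc_ev _ o2 (x, y, w)).and
    ((nuLsc_ev _ o3 (x, y, w)).and (nuLsc_ev _ o4 (x, y, w))))
  obtain ⟨ε, hε, h'⟩ := Metric.eventually_nhds_iff.1 h
  refine ⟨ε, hε, fun x' y' w' hx hy hw => ?_⟩
  have hd : dist ((x', y', w') : ℝ × ℝ × ℝ) (x, y, w) < ε := by
    rw [Prod.dist_eq, Prod.dist_eq, max_lt_iff, max_lt_iff]
    exact ⟨by rw [Real.dist_eq]; exact hx, by rw [Real.dist_eq]; exact hy,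
      by rw [Real.dist_eq]; exact hw⟩
  obtain ⟨h1, h2, h3, h4⟩ := h' hd
  constructor
  · unfold nu
    exact add_le_add (nuLsc_ite h1) (nuLsc_ite h2)
  · unfold nu0
    exact add_le_add (nuLsc_ite' h3) (nuLsc_ite' h4)

end Pool.Agent.CMP
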