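import Mathlib
import Pool.Agent.CMP.Basic

set_option autoImplicit false

namespace Pool.Agent.CMP

open Finset Pool.Agent.Helper45.NC
open scoped ComplexConjugate Topology

theorem PertA_ev (a b c : ℝ) (h : a < 0) :
    ∀ᶠ δ in 𝓝[>] (0 : ℝ), a + δ * b + δ ^ 2 * c < 0 := by
  have hc : Continuous fun δ : ℝ => a + δ * b + δ ^ 2 * c := by fun_prop
  have h0 : (fun δ : ℝ => a + δ * b + δ ^ 2 * c) 0 < 0 := by
    simp only; nlinarith
  have h1 : ∀ᶠ δ in 𝓝 (0 : ℝ), (fun δ : ℝ => a + δ * b + δ ^ 2 * c) δ < 0 :=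
    hc.continuousAt.eventually_lt_const h0
  exact h1.filter_mono nhdsWithin_le_nhds

theorem PertA_ev' (b c : ℝ) (h : b < 0) : ∀ᶠ δ in 𝓝[>] (0 : ℝ), δ * b + δ ^ 2 * c < 0 := by
  filter_upwards [PertA_ev b c 0 h, self_mem_nhdsWithin] with δ h1 h2
  have h3 : (0 : ℝ) < δ := h2
  have h4 : δ * b + δ ^ 2 * c = δ * (b + δ * c + δ ^ 2 * 0) := by ring
  rw [h4]
  exact mul_neg_of_pos_of_neg h3 h1

theorem PertA_lin (a b : ℝ) (h : a < 0) : ∀ᶠ δ in 𝓝[>] (0 : ℝ), a + δ * b < 0 := by
  filter_upwards [PertA_ev a b 0 h] with δ h1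
  linarith

theorem PertA_nu_two {x y w : ℝ} (h1 : x < 0) (h2 : y ^ 2 < x * w) : nu x y w = 2 :=
  (nu_two_iff x y w).mpr ⟨h1, h2⟩

theorem PertA_nu_one {x y w : ℝ} (h : x < 0 ∨ w < 0 ∨ x * w < y ^ 2) : 1 ≤ nu x y w := by
  unfold nu
  rw [if_pos h]
  omega

theorem PertA_key (x y w x' y' w' : ℝ)
    (h : ∀ k₁ k₂ : ℝ, (k₁ ≠ 0 ∨ k₂ ≠ 0) → x * k₁ + y * k₂ = 0 → y * k₁ + w * k₂ = 0 →
      x' * k₁ ^ 2 + 2 * y' * k₁ * k₂ + w' * k₂ ^ 2 < 0) :
    ∀ᶠ δ in 𝓝[>] (0 : ℝ), nu0 x y w ≤ nu (x + δ * x') (y + δ * y') (w + δ * w') := by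
  have hdet : ∀ δ : ℝ, (x + δ * x') * (w + δ * w') - (y + δ * y') ^ 2 =
      (x * w - y ^ 2) + δ * (x * w' + w * x' - 2 * y * y') + δ ^ 2 * (x' * w' - y' ^ 2) := by
    intro δ; ring
  rcases lt_trichotomy (x * w) (y ^ 2) with hd | hd | hd
  · -- negative determinant
    have h0 : nu0 x y w ≤ 1 := by
      unfold nu0
      rw [if_pos (Or.inr (Or.inr hd) : 0 < x ∨ 0 < w ∨ x * w < y ^ 2)]
      split_ifs <;> norm_num
    filter_upwards [PertA_ev (x * w - y ^ 2) (x * w' + w * x' - 2 * y * y') (x' * w' - y' ^ 2)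
      (by linarith)] with δ h1
    refine h0.trans (PertA_nu_one (Or.inr (Or.inr ?_)))
    have := hdet δ
    linarith
  · -- zero determinant
    rcases lt_trichotomy x 0 with hx | hx | hx
    · -- x < 0
      have hk := h (-y) x (Or.inr hx.ne) (by ring) (by linarith)
      have h2 : 0 < x * w' + w * x' - 2 * y * y' := by
        have e : x' * (-y) ^ 2 + 2 * y' * (-y) * x + w' * x ^ 2 =
            x * (x * w' + w * x' - 2 * y * y') := by
          have : x' * (-y) ^ 2 = x' * (x * w) := by rw [hd]; ring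
          rw [this]; ring
        rw [e] at hk
        by_contra hn
        exact absurd hk (not_lt.mpr (mul_nonneg_of_nonpos_of_nonpos hx.le (not_lt.mp hn)))
      have h0 : nu0 x y w ≤ 2 := by
        unfold nu0
        split_ifs <;> norm_num
      filter_upwards [PertA_ev' (-(x * w' + w * x' - 2 * y * y')) (-(x' * w' - y' ^ 2))
        (by linarith), PertA_lin x x' hx] with δ h3 h4
      rw [PertA_nu_two h4]
      · exact h0
      · have := hdet δ
        nlinarith
    · -- x = 0
      subst hx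
      have hy : y = 0 := by
        have : y ^ 2 = 0 := by rw [← hd]; ring
        exact pow_eq_zero_iff (two_ne_zero) |>.mp this
      subst hy
      have hk := h 1 0 (Or.inl one_ne_zero) (by ring) (by ring)
      have hx' : x' < 0 := by linarith
      rcases lt_trichotomy w 0 with hw | hw | hw
      · have h0 : nu0 0 0 w ≤ 2 := by
          unfold nu0
          split_ifs <;> norm_num
        have hpos : 0 < w * x' := mul_pos_of_neg_of_neg hw hx'
        filter_upwards [PertA_ev' (-(w * x')) (-(x' * w' - y' ^ 2)) (by linarith),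
          self_mem_nhdsWithin] with δ h3 h4
        have h5 : (0 : ℝ) < δ := h4
        rw [PertA_nu_two (by nlinarith)]
        · exact h0
        · have := hdet δ
          nlinarith
      · subst hw
        have hk2 := h (-y') x' (Or.inr hx'.ne) (by ring) (by ring)
        have hdd : 0 < x' * w' - y' ^ 2 := by
          have e : x' * (-y') ^ 2 + 2 * y' * (-y') * x' + w' * x' ^ 2 =
            x' * (x' * w' - y' ^ 2) := by ring
          rw [e] at hk2
          by_contra hn
          exact absurd hk2 (not_lt.mpr (mul_nonneg_of_nonpos_of_nonpos hx'.le (not_lt.mp hn)))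
        have h0 : nu0 0 0 0 ≤ 2 := by
          unfold nu0
          split_ifs <;> norm_num
        filter_upwards [self_mem_nhdsWithin] with δ h4
        have h5 : (0 : ℝ) < δ := h4
        rw [PertA_nu_two (by nlinarith)]
        · exact h0
        · have h6 : 0 < δ ^ 2 * (x' * w' - y' ^ 2) := mul_pos (pow_pos h5 2) hdd
          nlinarith
      · have h0 : nu0 0 0 w ≤ 1 := by
          unfold nu0
          rw [if_pos (Or.inr (Or.inl hw) : (0 : ℝ) < 0 ∨ 0 < w ∨ 0 * w < 0 ^ 2)]
          split_ifs <;> norm_num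
        filter_upwards [self_mem_nhdsWithin] with δ h4
        have h5 : (0 : ℝ) < δ := h4
        exact h0.trans (PertA_nu_one (Or.inl (by nlinarith)))
    · -- 0 < x
      have hk := h (-y) x (Or.inr hx.ne') (by ring) (by linarith)
      have h2 : x * w' + w * x' - 2 * y * y' < 0 := by
        have e : x' * (-y) ^ 2 + 2 * y' * (-y) * x + w' * x ^ 2 =
            x * (x * w' + w * x' - 2 * y * y') := by
          have : x' * (-y) ^ 2 = x' * (x * w) := by rw [hd]; ring
          rw [this]; ring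
        rw [e] at hk
        by_contra hn
        exact absurd hk (not_lt.mpr (mul_nonneg hx.le (not_lt.mp hn)))
      have h0 : nu0 x y w ≤ 1 := by
        unfold nu0
        rw [if_pos (Or.inl hx : 0 < x ∨ 0 < w ∨ x * w < y ^ 2)]
        split_ifs <;> norm_num
      filter_upwards [PertA_ev' (x * w' + w * x' - 2 * y * y') (x' * w' - y' ^ 2) h2] with δ h3
      refine h0.trans (PertA_nu_one (Or.inr (Or.inr ?_)))
      have := hdet δ
      linarith
  · -- positive determinant
    rcases lt_or_ge 0 x with hx | hx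
    · have h0 : nu0 x y w = 0 := by
        unfold nu0
        rw [if_pos ⟨hx, hd⟩, if_pos (Or.inl hx)]
      filter_upwards with δ
      rw [h0]
      omega
    · have hx' : x < 0 := by
        rcases lt_or_eq_of_le hx with h1 | h1
        · exact h1
        · rw [h1] at hd
          nlinarith [sq_nonneg y]
      have h0 : nu0 x y w ≤ 2 := by
        unfold nu0
        split_ifs <;> norm_num
      filter_upwards [PertA_ev (-(x * w - y ^ 2)) (-(x * w' + w * x' - 2 * y * y'))
        (-(x' * w' - y' ^ 2)) (by linarith), PertA_lin x x' hx'] with δ h3 h4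
      rw [PertA_nu_two h4]
      · exact h0
      · have := hdet δ
        nlinarith

theorem thm_PertA : St_PertA := by
  intro x y w x' y' w' h
  have h1 := PertA_key x y w x' y' w' h
  obtain ⟨u, hu, h2⟩ := mem_nhdsGT_iff_exists_Ioo_subset.mp h1
  exact ⟨u, hu, fun δ h3 h4 => h2 ⟨h3, h4⟩⟩

end Pool.Agent.CMP
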