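import Mathlib
import Pool.Agent.CMP.Basic

set_option autoImplicit false

namespace Pool.Agent.CMP

open Finset Pool.Agent.Helper45.NC
open scoped ComplexConjugate

/-- a polynomial which is positive for small positive arguments -/
private lemma small_pos (c₀ c₁ c₂ : ℝ) (h : 0 < c₀ ∨ (c₀ = 0 ∧ 0 < c₁)) :
    ∃ δ₀ : ℝ, 0 < δ₀ ∧ ∀ δ : ℝ, 0 < δ → δ < δ₀ → 0 < c₀ + c₁ * δ + c₂ * δ ^ 2 := by
  have h1 : 0 ≤ |c₁| := abs_nonneg _
  have h2 : 0 ≤ |c₂| := abs_nonneg _
  rcases h with h | ⟨h, hc⟩
  · refine ⟨min 1 (c₀ / (|c₁| + |c₂| + 1)), lt_min one_pos (by positivity), ?_⟩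
    intro δ hδ hδ0
    have h3 : δ < 1 := hδ0.trans_le (min_le_left _ _)
    have h4 : δ < c₀ / (|c₁| + |c₂| + 1) := hδ0.trans_le (min_le_right _ _)
    rw [lt_div_iff₀ (by positivity)] at h4
    have h5 : -|c₁| * δ ≤ c₁ * δ := mul_le_mul_of_nonneg_right (neg_abs_le c₁) hδ.le
    have h6 : -|c₂| * δ ^ 2 ≤ c₂ * δ ^ 2 :=
      mul_le_mul_of_nonneg_right (neg_abs_le c₂) (sq_nonneg δ)
    have h7 : |c₂| * δ ^ 2 ≤ |c₂| * δ := by
      refine mul_le_mul_of_nonneg_left ?_ h2
      nlinarith
    nlinarith
  · refine ⟨c₁ / (|c₂| + 1), by positivity, ?_⟩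
    intro δ hδ hδ0
    rw [lt_div_iff₀ (by positivity)] at hδ0
    have h6 : -|c₂| * δ ≤ c₂ * δ := mul_le_mul_of_nonneg_right (neg_abs_le c₂) hδ.le
    have h8 : 0 < c₁ + c₂ * δ := by nlinarith
    rw [h, zero_add]
    have h9 : c₁ * δ + c₂ * δ ^ 2 = (c₁ + c₂ * δ) * δ := by ring
    rw [h9]
    exact mul_pos h8 hδ

theorem thm_PertB : St_PertB := by
  intro x y w x' y' w' H
  by_cases h2 : nu x y w = 2
  · exact ⟨1, one_pos, fun δ _ _ => by rw [h2]; exact nu_le_two _ _ _⟩
  -- the determinant
  have hdet : ∀ δ : ℝ, (x + δ * x') * (w + δ * w') - (y + δ * y') ^ 2 =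
      (x * w - y ^ 2) + (x * w' + x' * w - 2 * y * y') * δ + (x' * w' - y' ^ 2) * δ ^ 2 := by
    intro δ; ring
  by_cases h0 : nu x y w = 0
  · -- positive semidefinite
    obtain ⟨hx, hw, hd⟩ := (nu_zero_iff x y w).mp h0
    by_cases hall : x = 0 ∧ w = 0
    · obtain ⟨hx0, hw0⟩ := hall
      have hy0 : y = 0 := by
        rw [hx0, zero_mul] at hd
        exact pow_eq_zero_iff (two_ne_zero) |>.mp (le_antisymm hd (sq_nonneg y))
      subst hx0 hw0 hy0
      have g1 : 0 < x' := by
        have := H 1 0 (Or.inl one_ne_zero) (by ring) (by ring)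
        linarith
      have g2 : 0 < w' := by
        have := H 0 1 (Or.inr one_ne_zero) (by ring) (by ring)
        linarith
      have g3 : y' ^ 2 < x' * w' := by
        have := H (-y') x' (Or.inr g1.ne') (by ring) (by ring)
        have e : x' * (-y') ^ 2 + 2 * y' * (-y') * x' + w' * x' ^ 2 =
          x' * (x' * w' - y' ^ 2) := by ring
        rw [e] at this
        have := (mul_pos_iff_of_pos_left g1).mp this
        linarith
      refine ⟨1, one_pos, fun δ hδ _ => ?_⟩
      rw [h0, Nat.le_zero, nu_zero_iff]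
      refine ⟨?_, ?_, ?_⟩
      · rw [zero_add]; exact (mul_pos hδ g1).le
      · rw [zero_add]; exact (mul_pos hδ g2).le
      · rw [zero_add, zero_add, zero_add]
        have : (δ * y') ^ 2 = δ ^ 2 * y' ^ 2 := by ring
        rw [this]
        have : δ * x' * (δ * w') = δ ^ 2 * (x' * w') := by ring
        rw [this]
        exact mul_le_mul_of_nonneg_left g3.le (sq_nonneg δ)
    · have hdp : 0 < x * w - y ^ 2 ∨ (x * w - y ^ 2 = 0 ∧ 0 < x * w' + x' * w - 2 * y * y') := by
        rcases lt_or_eq_of_le hd with h | h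
        · left; linarith
        · right
          refine ⟨by linarith, ?_⟩
          by_cases hx0 : x = 0
          · have hw0 : w ≠ 0 := fun h' => hall ⟨hx0, h'⟩
            have hwp : 0 < w := lt_of_le_of_ne hw (Ne.symm hw0)
            have := H w (-y) (Or.inl hw0) (by ring_nf; linarith) (by ring)
            have e : x' * w ^ 2 + 2 * y' * w * (-y) + w' * (-y) ^ 2 =
              w * (x * w' + x' * w - 2 * y * y') := by
              have : w' * (-y) ^ 2 = w' * (x * w) := by rw [neg_sq, h]
              rw [this]; ring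
            rw [e] at this
            exact (mul_pos_iff_of_pos_left hwp).mp this
          · have hxp : 0 < x := lt_of_le_of_ne hx (Ne.symm hx0)
            have := H (-y) x (Or.inr hx0) (by ring) (by ring_nf; linarith)
            have e : x' * (-y) ^ 2 + 2 * y' * (-y) * x + w' * x ^ 2 =
              x * (x * w' + x' * w - 2 * y * y') := by
              have : x' * (-y) ^ 2 = x' * (x * w) := by rw [neg_sq, h]
              rw [this]; ring
            rw [e] at this
            exact (mul_pos_iff_of_pos_left hxp).mp this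
      obtain ⟨δ₁, hδ₁, k1⟩ := small_pos _ _ (x' * w' - y' ^ 2) hdp
      have htr : 0 < x + w := by
        rcases lt_or_eq_of_le hx with h | h
        · linarith
        · have hw0 : w ≠ 0 := fun h' => hall ⟨h.symm, h'⟩
          have : 0 < w := lt_of_le_of_ne hw (Ne.symm hw0)
          linarith
      obtain ⟨δ₂, hδ₂, k2⟩ := small_pos (x + w) (x' + w') 0 (Or.inl htr)
      refine ⟨min δ₁ δ₂, lt_min hδ₁ hδ₂, fun δ hδ hδ0 => ?_⟩
      have m1 := k1 δ hδ (hδ0.trans_le (min_le_left _ _))
      have m2 := k2 δ hδ (hδ0.trans_le (min_le_right _ _))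
      rw [← hdet δ] at m1
      rw [h0, Nat.le_zero, nu_zero_iff]
      have m3 : 0 < (x + δ * x') * (w + δ * w') := by nlinarith [sq_nonneg (y + δ * y')]
      have m4 : 0 < (x + δ * x') + (w + δ * w') := by nlinarith
      refine ⟨?_, ?_, by linarith⟩
      · by_contra hneg
        push Not at hneg
        have : w + δ * w' < 0 := by
          by_contra hw'
          push Not at hw'
          nlinarith
        linarith
      · by_contra hneg
        push Not at hneg
        have : x + δ * x' < 0 := by
          by_contra hw'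
          push Not at hw'
          nlinarith
        linarith
  · -- index one
    have h1 : nu x y w = 1 := by
      have := nu_le_two x y w
      omega
    have hA : x < 0 ∨ w < 0 ∨ x * w < y ^ 2 := by
      by_contra hcon
      push Not at hcon
      exact h0 ((nu_zero_iff x y w).mpr hcon)
    have hB : ¬ (x < 0 ∧ y ^ 2 < x * w) := fun h => h2 ((nu_two_iff x y w).mpr h)
    have hdn : 0 < -(x * w - y ^ 2) ∨
        (-(x * w - y ^ 2) = 0 ∧ 0 < -(x * w' + x' * w - 2 * y * y')) := by
      rcases lt_or_ge (x * w) (y ^ 2) with h | h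
      · left; linarith
      · right
        have hxw : x < 0 ∨ w < 0 := by
          rcases hA with h' | h' | h'
          · exact Or.inl h'
          · exact Or.inr h'
          · exact absurd h (not_le.mpr h')
        have heq : x * w = y ^ 2 := by
          by_contra hne
          have hlt : y ^ 2 < x * w := lt_of_le_of_ne h (Ne.symm hne)
          have hxn : ¬ x < 0 := fun hx => hB ⟨hx, hlt⟩
          push Not at hxn
          have hwn : w < 0 := by
            rcases hxw with h' | h'
            · exact absurd hxn (not_le.mpr h')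
            · exact h'
          nlinarith [sq_nonneg y]
        refine ⟨by linarith, ?_⟩
        rcases hxw with hx | hw
        · have := H (-y) x (Or.inr hx.ne) (by ring) (by ring_nf; linarith)
          have e : x' * (-y) ^ 2 + 2 * y' * (-y) * x + w' * x ^ 2 =
            (-x) * (-(x * w' + x' * w - 2 * y * y')) := by
            have : x' * (-y) ^ 2 = x' * (x * w) := by rw [neg_sq, heq]
            rw [this]; ring
          rw [e] at this
          exact (mul_pos_iff_of_pos_left (neg_pos.mpr hx)).mp this
        · have := H w (-y) (Or.inl hw.ne) (by ring_nf; linarith) (by ring)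
          have e : x' * w ^ 2 + 2 * y' * w * (-y) + w' * (-y) ^ 2 =
            (-w) * (-(x * w' + x' * w - 2 * y * y')) := by
            have : w' * (-y) ^ 2 = w' * (x * w) := by rw [neg_sq, heq]
            rw [this]; ring
          rw [e] at this
          exact (mul_pos_iff_of_pos_left (neg_pos.mpr hw)).mp this
    obtain ⟨δ₁, hδ₁, k1⟩ := small_pos _ _ (-(x' * w' - y' ^ 2)) hdn
    refine ⟨δ₁, hδ₁, fun δ hδ hδ0 => ?_⟩
    have m1 := k1 δ hδ hδ0
    have m2 : (x + δ * x') * (w + δ * w') < (y + δ * y') ^ 2 := by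
      have := hdet δ
      linarith
    rw [h1]
    by_contra hcon
    have h3 : nu (x + δ * x') (y + δ * y') (w + δ * w') = 2 := by
      have := nu_le_two (x + δ * x') (y + δ * y') (w + δ * w')
      omega
    have h4 := (nu_two_iff _ _ _).mp h3
    linarith [h4.2]

end Pool.Agent.CMP
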