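import Mathlib
import Pool.Agent.CMP.Basic

set_option autoImplicit false

namespace Pool.Agent.CMP

open Finset Pool.Agent.Helper45.NC
open scoped ComplexConjugate

theorem phase_polar (c : ℂ) : ∃ (r : ℝ) (w : ℂ), w * conj w = 1 ∧ c = (r : ℂ) * w := by
  by_cases hc : c = 0
  · exact ⟨0, 1, by simp, by rw [hc]; simp⟩
  · have hn : (‖c‖ : ℂ) ≠ 0 := by
      rw [Complex.ofReal_ne_zero]
      exact norm_ne_zero_iff.mpr hc
    refine ⟨‖c‖, c / (‖c‖ : ℂ), ?_, ?_⟩
    · rw [map_div₀, Complex.conj_ofReal, div_mul_div_comm, Complex.mul_conj,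
        Complex.normSq_eq_norm_sq, ← Complex.ofReal_mul, ← pow_two]
      rw [div_self]
      rw [Complex.ofReal_ne_zero]
      exact pow_ne_zero 2 (norm_ne_zero_iff.mpr hc)
    · rw [mul_div_cancel₀ _ hn]

/-- two real affine functions with two common zeros are multiples of a third one -/
theorem phase_prop {a x : ℂ} (hax : a ≠ x) {f g : Fin 3 → ℝ} (f1 : ev f a = 0) (f2 : ev f x = 0)
    (g1 : ev g a = 0) (g2 : ev g x = 0) :
    ∃ (h : Fin 3 → ℝ) (c d : ℝ), f = c • h ∧ g = d • h := by
  by_cases hf : f = 0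
  · exact ⟨g, 0, 1, by rw [hf, zero_smul], by rw [one_smul]⟩
  · obtain ⟨d, hd⟩ := prop_of_two hax hf f1 f2 g1 g2
    exact ⟨f, 1, d, by rw [one_smul], hd⟩

theorem thm_Phase : St_Phase := by
  intro n b p q a x α β₁ β₂ γ hax hF hr1 hr2 hso
  obtain ⟨hF1, hF2, hF3⟩ := hF
  -- the values at `x`
  have hx : (ev β₁ x : ℂ) + ev β₂ x * Complex.I = 0 := by
    have s1 : ∑ l, ((ev α (b l) : ℂ) * p l + (ev β₁ (b l) + ev β₂ (b l) * Complex.I) * q l) *
        conj (q l) = 0 := Finset.sum_eq_zero (fun l _ => by rw [hr1 l, zero_mul])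
    have s2 : ∑ l, ((ev α (b l) : ℂ) * p l + (ev β₁ (b l) + ev β₂ (b l) * Complex.I) * q l) *
        conj (q l) = ∑ l, p l * conj (q l) * (ev α (b l) : ℂ) +
        (((∑ l, Complex.normSq (q l) * ev β₁ (b l) : ℝ) : ℂ) +
          ((∑ l, Complex.normSq (q l) * ev β₂ (b l) : ℝ) : ℂ) * Complex.I) := by
      rw [Complex.ofReal_sum, Complex.ofReal_sum, Finset.sum_mul, ← Finset.sum_add_distrib,
        ← Finset.sum_add_distrib]
      refine Finset.sum_congr rfl (fun l _ => ?_)
      rw [Complex.ofReal_mul, Complex.ofReal_mul, ← Complex.mul_conj]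
      ring
    rw [s2, hF3, hF2, hF2, zero_add] at s1
    exact s1
  have ha : (ev β₁ a : ℂ) - ev β₂ a * Complex.I = 0 := by
    have s1 : ∑ l, ((ev β₁ (b l) - ev β₂ (b l) * Complex.I) * p l + (ev γ (b l) : ℂ) * q l) *
        conj (p l) = 0 := Finset.sum_eq_zero (fun l _ => by rw [hr2 l, zero_mul])
    have s2 : ∑ l, ((ev β₁ (b l) - ev β₂ (b l) * Complex.I) * p l + (ev γ (b l) : ℂ) * q l) *
        conj (p l) = conj (∑ l, p l * conj (q l) * (ev γ (b l) : ℂ)) +
        (((∑ l, Complex.normSq (p l) * ev β₁ (b l) : ℝ) : ℂ) -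
          ((∑ l, Complex.normSq (p l) * ev β₂ (b l) : ℝ) : ℂ) * Complex.I) := by
      rw [Complex.ofReal_sum, Complex.ofReal_sum, Finset.sum_mul, map_sum,
        ← Finset.sum_sub_distrib, ← Finset.sum_add_distrib]
      refine Finset.sum_congr rfl (fun l _ => ?_)
      rw [Complex.ofReal_mul, Complex.ofReal_mul, ← Complex.mul_conj, map_mul, map_mul,
        Complex.conj_conj, Complex.conj_ofReal]
      ring
    rw [s2, hF3, hF1, hF1, map_zero, zero_add] at s1
    exact s1
  have hx1 : ev β₁ x = 0 := by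
    have := congrArg Complex.re hx
    simpa using this
  have hx2 : ev β₂ x = 0 := by
    have := congrArg Complex.im hx
    simpa using this
  have ha1 : ev β₁ a = 0 := by
    have := congrArg Complex.re ha
    simpa using this
  have ha2 : ev β₂ a = 0 := by
    have := congrArg Complex.im ha
    simpa using this
  obtain ⟨h, c, d, hc, hd⟩ := phase_prop hax ha1 hx1 ha2 hx2
  obtain ⟨r, w, hw, hcd⟩ := phase_polar ((c : ℂ) + d * Complex.I)
  have hw' : conj w * w = 1 := by rw [mul_comm]; exact hw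
  have hcd' : (c : ℂ) - d * Complex.I = (r : ℂ) * conj w := by
    have := congrArg conj hcd
    rw [map_add, map_mul, map_mul, Complex.conj_ofReal, Complex.conj_ofReal, Complex.conj_ofReal,
      Complex.conj_I] at this
    rw [← this]
    ring
  have hB : ∀ z, (ev β₁ z : ℂ) + ev β₂ z * Complex.I = (ev (r • h) z : ℂ) * w := by
    intro z
    rw [hc, hd, ev_smul, ev_smul, ev_smul, Complex.ofReal_mul, Complex.ofReal_mul,
      Complex.ofReal_mul]
    linear_combination (ev h z : ℂ) * hcd
  have hB' : ∀ z, (ev β₁ z : ℂ) - ev β₂ z * Complex.I = (ev (r • h) z : ℂ) * conj w := by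
    intro z
    rw [hc, hd, ev_smul, ev_smul, ev_smul, Complex.ofReal_mul, Complex.ofReal_mul,
      Complex.ofReal_mul]
    linear_combination (ev h z : ℂ) * hcd'
  have hnw : Complex.normSq w = 1 := by
    have : (Complex.normSq w : ℂ) = 1 := by rw [← Complex.mul_conj]; exact hw
    exact_mod_cast this
  refine ⟨fun l => w * q l, r • h, ⟨hF1, ?_, ?_⟩, ?_, ?_, ?_⟩
  · intro g
    rw [← hF2 g]
    refine Finset.sum_congr rfl (fun l _ => ?_)
    rw [map_mul, hnw, one_mul]
  · intro g
    have : ∑ l, p l * conj (w * q l) * (ev g (b l) : ℂ) =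
        conj w * ∑ l, p l * conj (q l) * (ev g (b l) : ℂ) := by
      rw [Finset.mul_sum]
      refine Finset.sum_congr rfl (fun l _ => ?_)
      rw [map_mul]; ring
    rw [this, hF3, mul_zero]
  · intro l
    have := hr1 l
    rw [hB] at this
    linear_combination this
  · intro l
    have h5 := hr2 l
    rw [hB'] at h5
    linear_combination w * h5 - (ev (r • h) (b l) : ℂ) * p l * hw
  · intro δp δq hT
    obtain ⟨t1, t2, t3⟩ := hT
    have hT' : Tan b p q δp (fun l => conj w * δq l) := by
      refine ⟨t1, ?_, ?_⟩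
      · intro g
        rw [← t2 g]
        refine Finset.sum_congr rfl (fun l _ => ?_)
        rw [map_mul, Complex.conj_conj]
        congr 2
        ring
      · intro g
        have : ∑ l, (p l * conj (conj w * δq l) + δp l * conj (q l)) * (ev g (b l) : ℂ) =
            w * ∑ l, (p l * conj (δq l) + δp l * conj (w * q l)) * (ev g (b l) : ℂ) := by
          rw [Finset.mul_sum]
          refine Finset.sum_congr rfl (fun l _ => ?_)
          rw [map_mul, map_mul, Complex.conj_conj]
          linear_combination (-(δp l * conj (q l) * (ev g (b l) : ℂ))) * hw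
        rw [this, t3, mul_zero]
    have h6 := hso δp _ hT'
    refine le_of_le_of_eq h6 (Finset.sum_congr rfl (fun l _ => ?_))
    have h7 : ((ev β₁ (b l) - ev β₂ (b l) * Complex.I) * δp l * conj (conj w * δq l)) =
        (ev (r • h) (b l) : ℂ) * (δp l * conj (δq l)) := by
      rw [hB', map_mul, Complex.conj_conj]
      linear_combination ((ev (r • h) (b l) : ℂ) * (δp l * conj (δq l))) * hw
    have h8 : Complex.normSq (conj w * δq l) = Complex.normSq (δq l) := by
      rw [map_mul, Complex.normSq_conj, hnw, one_mul]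
    rw [h7, h8, Complex.re_ofReal_mul]
    ring

end Pool.Agent.CMP
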