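import Mathlib
import Pool.Agent.CMP.Basic

set_option autoImplicit false

namespace Pool.Agent.CMP

open Finset Pool.Agent.Helper45.NC
open scoped ComplexConjugate

theorem rank2_sum {n : ℕ} (u v e : Fin n → ℝ) (c d c' d' : ℝ) :
    ∑ l, (c * u l + d * v l) * (c' * u l + d' * v l) * e l =
      c * c' * ∑ l, u l ^ 2 * e l + (c * d' + d * c') * ∑ l, u l * v l * e l +
        d * d' * ∑ l, v l ^ 2 * e l := by
  rw [Finset.mul_sum, Finset.mul_sum, Finset.mul_sum, ← Finset.sum_add_distrib,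
    ← Finset.sum_add_distrib]
  refine Finset.sum_congr rfl fun l _ => ?_
  ring

theorem thm_Rank2 : St_Rank2 := by
  intro n b a₁ a₂ M u v X₁ X₂ Y₁ Y₂ hC hD
  obtain ⟨_, _, _, _, _, _, _, hu, huv, hv⟩ := hC
  set D := X₁ * Y₂ - X₂ * Y₁ with hDdef
  refine ⟨fun l => ((Y₂ / D * u l + (-Y₁ / D) * v l : ℝ) : ℂ),
    fun l => ((-X₂ / D * u l + X₁ / D * v l : ℝ) : ℂ), ?_, ?_, ?_⟩
  · intro h
    have e : ∀ l, Complex.normSq ((Y₂ / D * u l + (-Y₁ / D) * v l : ℝ) : ℂ) * ev h (b l) =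
        (Y₂ / D * u l + (-Y₁ / D) * v l) * (Y₂ / D * u l + (-Y₁ / D) * v l) * ev h (b l) := by
      intro l
      rw [Complex.normSq_ofReal]
    rw [Finset.sum_congr rfl fun l _ => e l, rank2_sum u v (fun l => ev h (b l)), hu, huv, hv]
    field_simp
    rw [hDdef]
    ring
  · intro h
    have e : ∀ l, Complex.normSq ((-X₂ / D * u l + X₁ / D * v l : ℝ) : ℂ) * ev h (b l) =
        (-X₂ / D * u l + X₁ / D * v l) * (-X₂ / D * u l + X₁ / D * v l) * ev h (b l) := by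
      intro l
      rw [Complex.normSq_ofReal]
    rw [Finset.sum_congr rfl fun l _ => e l, rank2_sum u v (fun l => ev h (b l)), hu, huv, hv]
    field_simp
    rw [hDdef]
    ring
  · intro h
    have e : ∀ l, ((Y₂ / D * u l + (-Y₁ / D) * v l : ℝ) : ℂ) *
        conj ((-X₂ / D * u l + X₁ / D * v l : ℝ) : ℂ) * (ev h (b l) : ℂ) =
        (((Y₂ / D * u l + (-Y₁ / D) * v l) * (-X₂ / D * u l + X₁ / D * v l) * ev h (b l) : ℝ) :
          ℂ) := by
      intro l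
      rw [Complex.conj_ofReal]
      push_cast
      ring
    rw [Finset.sum_congr rfl fun l _ => e l, ← Complex.ofReal_sum,
      rank2_sum u v (fun l => ev h (b l)), hu, huv, hv]
    have e2 : Y₂ / D * (-X₂ / D) * (X₁ ^ 2 * ev h a₁ + Y₁ ^ 2 * ev h a₂) +
        (Y₂ / D * (X₁ / D) + -Y₁ / D * (-X₂ / D)) * (X₁ * X₂ * ev h a₁ + Y₁ * Y₂ * ev h a₂) +
        -Y₁ / D * (X₁ / D) * (X₂ ^ 2 * ev h a₁ + Y₂ ^ 2 * ev h a₂) = 0 := by
      field_simp
      ring
    rw [e2]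
    simp

end Pool.Agent.CMP
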