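import Mathlib
import Pool.Agent.CMP.Basic

set_option autoImplicit false

namespace Pool.Agent.CMP

open Finset Pool.Agent.Helper45.NC
open scoped ComplexConjugate

theorem realV_phase (z : ℂ) : ∃ ω : ℂ, ω * conj ω = 1 ∧ z = ω * ((‖z‖ : ℝ) : ℂ) := by
  by_cases hz : z = 0
  · refine ⟨1, by simp, ?_⟩
    rw [hz]; simp
  · have hn : ((‖z‖ : ℝ) : ℂ) ≠ 0 := by
      rw [Ne, Complex.ofReal_eq_zero]
      exact norm_ne_zero_iff.2 hz
    refine ⟨z / ((‖z‖ : ℝ) : ℂ), ?_, ?_⟩
    · have h2 : z * conj z = ((‖z‖ : ℝ) : ℂ) * ((‖z‖ : ℝ) : ℂ) := by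
        rw [Complex.mul_conj, Complex.normSq_eq_norm_sq]
        push_cast
        ring
      rw [map_div₀, Complex.conj_ofReal, div_mul_div_comm, h2]
      exact div_self (mul_ne_zero hn hn)
    · field_simp

theorem realV_point (A B C : ℝ) (p q : ℂ) (h0 : ¬ (A = 0 ∧ B = 0 ∧ C = 0))
    (h1 : (A : ℂ) * p + (B : ℂ) * q = 0) (h2 : (B : ℂ) * p + (C : ℂ) * q = 0) :
    ∃ (ω : ℂ) (P Q : ℝ), ω * conj ω = 1 ∧ p = ω * (P : ℂ) ∧ q = ω * (Q : ℂ) := by
  have key : ∀ r s : ℝ, r ≠ 0 → ∀ u v : ℂ, (r : ℂ) * u + (s : ℂ) * v = 0 →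
      ∃ (ω : ℂ) (U V : ℝ), ω * conj ω = 1 ∧ u = ω * (U : ℂ) ∧ v = ω * (V : ℂ) := by
    intro r s hr u v h
    obtain ⟨ω, hω, hv⟩ := realV_phase v
    refine ⟨ω, -(s / r) * ‖v‖, ‖v‖, hω, ?_, hv⟩
    have hr' : (r : ℂ) ≠ 0 := by exact_mod_cast hr
    have hu : u = -((s : ℂ) / (r : ℂ)) * v := by
      field_simp
      linear_combination h
    rw [hu]
    push_cast
    have hv' : -((s : ℂ) / (r : ℂ)) * v = -((s : ℂ) / (r : ℂ)) * (ω * ((‖v‖ : ℝ) : ℂ)) :=
      congrArg (fun t => -((s : ℂ) / (r : ℂ)) * t) hv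
    rw [hv']
    ring
  by_cases hA : A = 0
  · by_cases hB : B = 0
    · have hC : C ≠ 0 := fun h => h0 ⟨hA, hB, h⟩
      obtain ⟨ω, U, V, hω, hu, hv⟩ := key C B hC q p (by linear_combination h2)
      exact ⟨ω, V, U, hω, hv, hu⟩
    · obtain ⟨ω, U, V, hω, hu, hv⟩ := key B C hB p q h2
      exact ⟨ω, U, V, hω, hu, hv⟩
  · obtain ⟨ω, U, V, hω, hu, hv⟩ := key A B hA p q h1
    exact ⟨ω, U, V, hω, hu, hv⟩

theorem thm_RealV : St_RealV := by
  intro n b p q a x α β γ hF hM h0
  obtain ⟨hF1, hF2, hF3⟩ := hF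
  obtain ⟨hM1, hM2, hM3⟩ := hM
  choose ω P Q hω hp hq using fun l => realV_point _ _ _ (p l) (q l) (h0 l) (hM1 l) (hM2 l)
  have hω0 : ∀ l, ω l ≠ 0 := by
    intro l h
    have := hω l
    rw [h, zero_mul] at this
    exact zero_ne_one this
  have hωn : ∀ l, Complex.normSq (ω l) = 1 := by
    intro l
    have := hω l
    rw [Complex.mul_conj] at this
    exact_mod_cast this
  have nP : ∀ l, Complex.normSq (p l) = P l ^ 2 := by
    intro l
    rw [hp l, Complex.normSq_mul, hωn l, Complex.normSq_ofReal]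
    ring
  have nQ : ∀ l, Complex.normSq (q l) = Q l ^ 2 := by
    intro l
    rw [hq l, Complex.normSq_mul, hωn l, Complex.normSq_ofReal]
    ring
  have cPQ : ∀ l, p l * conj (q l) = ((P l * Q l : ℝ) : ℂ) := by
    intro l
    rw [hp l, hq l, map_mul, Complex.conj_ofReal]
    push_cast
    linear_combination (P l : ℂ) * (Q l : ℂ) * hω l
  refine ⟨P, Q, ?_, ?_, ?_, ?_, ?_, ?_⟩
  · intro h
    rw [← hF1 h]
    exact Finset.sum_congr rfl (fun l _ => by rw [nP l])
  · intro h
    rw [← hF2 h]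
    exact Finset.sum_congr rfl (fun l _ => by rw [nQ l])
  · intro h
    have h1 := hF3 h
    have h2 : ((∑ l, P l * Q l * ev h (b l) : ℝ) : ℂ) = 0 := by
      rw [← h1]
      push_cast
      refine Finset.sum_congr rfl (fun l _ => ?_)
      rw [cPQ l]
      push_cast
      ring
    exact_mod_cast h2
  · intro l
    have h1 := hM1 l
    rw [hp l, hq l] at h1
    have h2 : ω l * ((ev α (b l) * P l + ev β (b l) * Q l : ℝ) : ℂ) = 0 := by
      push_cast
      linear_combination h1
    exact_mod_cast (mul_eq_zero.1 h2).resolve_left (hω0 l)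
  · intro l
    have h1 := hM2 l
    rw [hp l, hq l] at h1
    have h2 : ω l * ((ev β (b l) * P l + ev γ (b l) * Q l : ℝ) : ℂ) = 0 := by
      push_cast
      linear_combination h1
    exact_mod_cast (mul_eq_zero.1 h2).resolve_left (hω0 l)
  · intro ξ η hξ
    have hI : Complex.I * Complex.I = -1 := Complex.I_mul_I
    have hprod : ∀ l (s t : ℝ), (Complex.I * ω l * (s : ℂ)) * conj (Complex.I * ω l * (t : ℂ)) =
        ((s * t : ℝ) : ℂ) := by
      intro l s t
      rw [map_mul, map_mul, Complex.conj_I, Complex.conj_ofReal]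
      push_cast
      linear_combination (s : ℂ) * (t : ℂ) * hω l - (s : ℂ) * (t : ℂ) * (ω l * conj (ω l)) * hI
    have hprod1 : ∀ l (s t : ℝ), (ω l * (s : ℂ)) * conj (Complex.I * ω l * (t : ℂ)) =
        -(Complex.I * ((s * t : ℝ) : ℂ)) := by
      intro l s t
      rw [map_mul, map_mul, Complex.conj_I, Complex.conj_ofReal]
      push_cast
      linear_combination -(Complex.I * (s : ℂ) * (t : ℂ)) * hω l
    have hprod2 : ∀ l (s t : ℝ), (Complex.I * ω l * (s : ℂ)) * conj (ω l * (t : ℂ)) =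
        Complex.I * ((s * t : ℝ) : ℂ) := by
      intro l s t
      rw [map_mul, Complex.conj_ofReal]
      push_cast
      linear_combination (Complex.I * (s : ℂ) * (t : ℂ)) * hω l
    have hre : ∀ s : ℝ, (-(Complex.I * (s : ℂ))).re = 0 := by
      intro s
      simp
    have hTan : Tan b p q (fun l => Complex.I * ω l * (ξ l : ℂ))
        (fun l => Complex.I * ω l * (η l : ℂ)) := by
      refine ⟨?_, ?_, ?_⟩
      · intro h
        refine Finset.sum_eq_zero (fun l _ => ?_)
        show (p l * conj (Complex.I * ω l * (ξ l : ℂ))).re * ev h (b l) = 0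
        rw [hp l, hprod1, hre, zero_mul]
      · intro h
        refine Finset.sum_eq_zero (fun l _ => ?_)
        show (q l * conj (Complex.I * ω l * (η l : ℂ))).re * ev h (b l) = 0
        rw [hq l, hprod1, hre, zero_mul]
      · intro h
        have h1 := hξ h
        have h2 : ∑ l, (p l * conj (Complex.I * ω l * (η l : ℂ)) +
            (Complex.I * ω l * (ξ l : ℂ)) * conj (q l)) * (ev h (b l) : ℂ) =
            -(Complex.I * ((∑ l, (P l * η l - Q l * ξ l) * ev h (b l) : ℝ) : ℂ)) := by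
          rw [Complex.ofReal_sum, Finset.mul_sum, ← Finset.sum_neg_distrib]
          refine Finset.sum_congr rfl (fun l _ => ?_)
          rw [hp l, hq l, hprod1, hprod2]
          push_cast
          ring
        show ∑ l, (p l * conj (Complex.I * ω l * (η l : ℂ)) +
            (Complex.I * ω l * (ξ l : ℂ)) * conj (q l)) * (ev h (b l) : ℂ) = 0
        rw [h2, h1]
        simp
    have h3 := hM3 _ _ hTan
    have h4 : ∑ l, (ev α (b l) * Complex.normSq (Complex.I * ω l * (ξ l : ℂ)) +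
      2 * ev β (b l) * ((Complex.I * ω l * (ξ l : ℂ)) * conj (Complex.I * ω l * (η l : ℂ))).re +
        ev γ (b l) * Complex.normSq (Complex.I * ω l * (η l : ℂ))) =
      ∑ l, (ev α (b l) * ξ l ^ 2 + 2 * ev β (b l) * ξ l * η l + ev γ (b l) * η l ^ 2) := by
      refine Finset.sum_congr rfl (fun l _ => ?_)
      have e1 : ∀ s : ℝ, Complex.normSq (Complex.I * ω l * (s : ℂ)) = s ^ 2 := by
        intro s
        rw [Complex.normSq_mul, Complex.normSq_mul, hωn l, Complex.normSq_I,
          Complex.normSq_ofReal]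
        ring
      rw [e1, e1, hprod, Complex.ofReal_re]
      ring
    rw [← h4]
    exact h3

end Pool.Agent.CMP
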