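import Mathlib
import Pool.Agent.CMP.Basic

set_option autoImplicit false

namespace Pool.Agent.CMP

open Finset Pool.Agent.Helper45.NC
open scoped ComplexConjugate

/-- the compact set of pairs of orthonormal columns -/
def relc_K {n : ℕ} (b : Fin n → ℂ) : Set ((Fin n → ℂ) × (Fin n → ℂ)) :=
  {x | ∑ l, Complex.normSq (x.1 l) = 1 ∧ ∑ l, Complex.normSq (x.2 l) = 1 ∧
    ∀ h : Fin 3 → ℝ, ∑ l, x.1 l * conj (x.2 l) * (ev h (b l) : ℂ) = 0}

/-- the two diagonal entries of the compression -/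
noncomputable def relc_F {n : ℕ} (b : Fin n → ℂ) (x : (Fin n → ℂ) × (Fin n → ℂ)) : ℂ × ℂ :=
  (∑ l, ((Complex.normSq (x.1 l) : ℝ) : ℂ) * b l, ∑ l, ((Complex.normSq (x.2 l) : ℝ) : ℂ) * b l)

theorem relc_aux {n : ℕ} (b p : Fin n → ℂ) (a : ℂ) :
    (∀ h : Fin 3 → ℝ, ∑ l, Complex.normSq (p l) * ev h (b l) = ev h a) ↔
      (∑ l, Complex.normSq (p l) = 1 ∧ ∑ l, ((Complex.normSq (p l) : ℝ) : ℂ) * b l = a) := by
  constructor
  · intro hp
    have h1 : ∑ l, Complex.normSq (p l) = 1 := by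
      have h2 := hp ![1, 0, 0]
      simp only [ev_mk] at h2
      simpa using h2
    refine ⟨h1, ev_ext fun f => ?_⟩
    rw [ev_sum Finset.univ (fun l => Complex.normSq (p l)) b h1 f]
    exact hp f
  · rintro ⟨h1, h2⟩ h
    rw [← h2, ev_sum Finset.univ (fun l => Complex.normSq (p l)) b h1 h]

theorem relc_iff {n : ℕ} (b : Fin n → ℂ) (a₁ a₂ : ℂ) :
    Rel2 b a₁ a₂ ↔ (a₁, a₂) ∈ relc_F b '' relc_K b := by
  constructor
  · rintro ⟨p, q, h1, h2, h3⟩
    rw [relc_aux] at h1 h2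
    exact ⟨(p, q), ⟨h1.1, h2.1, h3⟩, Prod.ext h1.2 h2.2⟩
  · rintro ⟨⟨p, q⟩, ⟨h1, h2, h3⟩, h4⟩
    have h5 := (Prod.ext_iff.1 h4).1
    have h6 := (Prod.ext_iff.1 h4).2
    exact ⟨p, q, (relc_aux b p a₁).2 ⟨h1, h5⟩, (relc_aux b q a₂).2 ⟨h2, h6⟩, h3⟩

theorem relc_le {n : ℕ} (p : Fin n → ℂ) (h : ∑ l, Complex.normSq (p l) = 1) : ‖p‖ ≤ 1 := by
  refine (pi_norm_le_iff_of_nonneg zero_le_one).2 fun l => ?_
  have h1 : Complex.normSq (p l) ≤ 1 := by
    rw [← h]
    exact Finset.single_le_sum (f := fun l => Complex.normSq (p l))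
      (fun i _ => Complex.normSq_nonneg _) (Finset.mem_univ l)
  rw [Complex.normSq_eq_norm_sq] at h1
  exact (sq_le_one_iff₀ (norm_nonneg _)).1 h1

theorem relc_cont {n : ℕ} (b : Fin n → ℂ) : Continuous (relc_F b) := by
  unfold relc_F
  have hn : Continuous Complex.normSq := Complex.continuous_normSq
  refine Continuous.prodMk ?_ ?_
  · refine continuous_finsetSum _ fun l _ => ?_
    exact (Complex.continuous_ofReal.comp (hn.comp ((continuous_apply l).comp
      continuous_fst))).mul continuous_const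
  · refine continuous_finsetSum _ fun l _ => ?_
    exact (Complex.continuous_ofReal.comp (hn.comp ((continuous_apply l).comp
      continuous_snd))).mul continuous_const

theorem relc_closed {n : ℕ} (b : Fin n → ℂ) : IsClosed (relc_K b) := by
  have hn : Continuous Complex.normSq := Complex.continuous_normSq
  unfold relc_K
  refine IsClosed.inter ?_ (IsClosed.inter ?_ ?_)
  · exact isClosed_eq (continuous_finsetSum _ fun l _ =>
      hn.comp ((continuous_apply l).comp continuous_fst)) continuous_const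
  · exact isClosed_eq (continuous_finsetSum _ fun l _ =>
      hn.comp ((continuous_apply l).comp continuous_snd)) continuous_const
  · have e : {x : (Fin n → ℂ) × (Fin n → ℂ) | ∀ h : Fin 3 → ℝ,
        ∑ l, x.1 l * conj (x.2 l) * (ev h (b l) : ℂ) = 0} =
        ⋂ h : Fin 3 → ℝ, {x : (Fin n → ℂ) × (Fin n → ℂ) |
          ∑ l, x.1 l * conj (x.2 l) * (ev h (b l) : ℂ) = 0} := by
      ext x
      simp
    change IsClosed {x : (Fin n → ℂ) × (Fin n → ℂ) | ∀ h : Fin 3 → ℝ,
        ∑ l, x.1 l * conj (x.2 l) * (ev h (b l) : ℂ) = 0}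
    rw [e]
    refine isClosed_iInter fun h => isClosed_eq (continuous_finsetSum _ fun l _ => ?_)
      continuous_const
    exact (((continuous_apply l).comp continuous_fst).mul
      (Complex.continuous_conj.comp ((continuous_apply l).comp continuous_snd))).mul
        continuous_const

theorem relc_compact {n : ℕ} (b : Fin n → ℂ) : IsCompact (relc_K b) := by
  refine (isCompact_closedBall (0 : (Fin n → ℂ) × (Fin n → ℂ)) 1).of_isClosed_subset
    (relc_closed b) ?_
  rintro ⟨p, q⟩ ⟨h1, h2, -⟩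
  rw [mem_closedBall_zero_iff, Prod.norm_def]
  exact max_le (relc_le p h1) (relc_le q h2)

theorem thm_RelClosed : St_RelClosed := by
  intro n b a₁ a₂ hR
  have hcl : IsClosed (relc_F b '' relc_K b) := ((relc_compact b).image (relc_cont b)).isClosed
  have hmem : (a₁, a₂) ∈ (relc_F b '' relc_K b)ᶜ := fun h => hR ((relc_iff b a₁ a₂).2 h)
  obtain ⟨ε, hε, hball⟩ := Metric.isOpen_iff.1 hcl.isOpen_compl _ hmem
  refine ⟨ε, hε, fun a₁' a₂' h1 h2 h => ?_⟩
  have h3 : (a₁', a₂') ∈ Metric.ball (a₁, a₂) ε := by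
    rw [Metric.mem_ball, Prod.dist_eq, dist_eq_norm, dist_eq_norm]
    exact max_lt h1 h2
  exact hball h3 ((relc_iff b a₁' a₂').1 h)

end Pool.Agent.CMP
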