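import Mathlib
import Pool.Agent.CMP.Basic

set_option autoImplicit false

namespace Pool.Agent.CMP

open Finset Pool.Agent.Helper45.NC
open scoped ComplexConjugate

theorem thm_Sep : St_Sep := by
  intro a β ha
  have hfin : (pts β).Finite := by
    classical
    exact (β.toFinset.finite_toSet).subset fun z hz => by
      simpa [pts] using hz
  obtain ⟨f, u, h1, h2⟩ := geometric_hahn_banach_point_closed (convex_convexHull ℝ (pts β))
    (hfin.isClosed_convexHull ℝ) ha
  have hf : ∀ z : ℂ, f z = f 1 * z.re + f Complex.I * z.im := by
    intro z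
    have hz : z = (z.re : ℝ) • (1 : ℂ) + (z.im : ℝ) • Complex.I := by
      apply Complex.ext <;> simp
    conv_lhs => rw [hz]
    rw [map_add, map_smul, map_smul, smul_eq_mul, smul_eq_mul]
    ring
  refine ⟨![-u, f 1, f Complex.I], ?_, fun z hz => ?_⟩
  · have h3 : ev ![-u, f 1, f Complex.I] a = f a - u := by
      rw [hf a]
      simp only [ev, Matrix.cons_val_zero, Matrix.cons_val_one, Matrix.cons_val]
      ring
    rw [h3]
    linarith
  · have h3 : ev ![-u, f 1, f Complex.I] z = f z - u := by
      rw [hf z]
      simp only [ev, Matrix.cons_val_zero, Matrix.cons_val_one, Matrix.cons_val]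
      ring
    have h4 := h2 z (subset_convexHull ℝ (pts β) hz)
    rw [h3]
    linarith

end Pool.Agent.CMP
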