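import Mathlib
import Pool.Agent.CMP.Basic

set_option autoImplicit false

namespace Pool.Agent.CMP

open Finset Pool.Agent.Helper45.NC
open scoped ComplexConjugate

theorem Spec_up (K m : ℝ) (hm : m < K) (R : Multiset ℝ) (h : ∀ y ∈ R, y < K) :
    ∃ κ : ℝ, κ < K ∧ m ≤ κ ∧ ∀ y ∈ R, y < κ := by
  induction R using Multiset.induction_on with
  | empty => exact ⟨m, hm, le_refl _, fun z hz => absurd hz (Multiset.notMem_zero z)⟩
  | cons a C ih =>
    obtain ⟨κ, h1, h0, h2⟩ := ih (fun z hz => h z (Multiset.mem_cons_of_mem hz))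
    have h3 := h a (Multiset.mem_cons_self a C)
    refine ⟨max κ ((a + K) / 2), max_lt h1 (by linarith), le_trans h0 (le_max_left _ _),
      fun z hz => ?_⟩
    rcases Multiset.mem_cons.mp hz with rfl | hz
    · exact lt_of_lt_of_le (by linarith) (le_max_right _ _)
    · exact lt_of_lt_of_le (h2 z hz) (le_max_left _ _)

theorem Spec_down (K m : ℝ) (hm : K < m) (R : Multiset ℝ) (h : ∀ y ∈ R, K < y) :
    ∃ κ : ℝ, K < κ ∧ κ ≤ m ∧ ∀ y ∈ R, κ < y := by
  induction R using Multiset.induction_on with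
  | empty => exact ⟨m, hm, le_refl _, fun z hz => absurd hz (Multiset.notMem_zero z)⟩
  | cons a C ih =>
    obtain ⟨κ, h1, h0, h2⟩ := ih (fun z hz => h z (Multiset.mem_cons_of_mem hz))
    have h3 := h a (Multiset.mem_cons_self a C)
    refine ⟨min κ ((a + K) / 2), lt_min h1 (by linarith), le_trans (min_le_left _ _) h0,
      fun z hz => ?_⟩
    rcases Multiset.mem_cons.mp hz with rfl | hz
    · exact lt_of_le_of_lt (min_le_right _ _) (by linarith)
    · exact lt_of_le_of_lt (min_le_left _ _) (h2 z hz)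

theorem thm_Spec (hTL : St_TL) : St_Spec := by
  intro a₁ a₂ b₀ R C hcrit hb hC ha hR
  obtain ⟨r₂, hr2, hm2, hR2⟩ := Spec_up a₂ ((a₁ + a₂) / 2) (by linarith) R (fun y hy => (hR y hy).2)
  obtain ⟨r₁, hr1, hm1, hR1⟩ := Spec_down a₁ ((a₁ + a₂) / 2) (by linarith) R
    (fun y hy => (hR y hy).1)
  have hψ : ∀ z : ℂ, ev ![1, 0, 0] z = 1 := by
    intro z
    rw [ev_mk]
    ring
  have h := hTL a₁ a₂ _ ![-(r₁ * r₂), r₁ + r₂, 0] ![0, 1, 0] ![1, 0, 0] hcrit
    (fun z _ _ => by rw [hψ]; norm_num) (fun _ => by rw [hψ]; norm_num)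
    (fun _ => by rw [hψ]; norm_num)
  have hreal : ∀ x : ℝ, kap ![-(r₁ * r₂), r₁ + r₂, 0] ![0, 1, 0] ![1, 0, 0] (x : ℂ) =
      nu (-(r₁ * r₂) + (r₁ + r₂) * x) x 1 := by
    intro x
    unfold kap
    rw [if_pos (Complex.ofReal_im x), hψ, ev_mk, ev_mk, Complex.ofReal_re, Complex.ofReal_im]
    ring_nf
  have hR0 : (R.map (fun x : ℝ => (x : ℂ))).map
      (kap ![-(r₁ * r₂), r₁ + r₂, 0] ![0, 1, 0] ![1, 0, 0]) = R.map (fun _ => 0) := by
    rw [Multiset.map_map]
    refine Multiset.map_congr rfl fun y hy => ?_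
    rw [Function.comp_apply, hreal, nu_zero_iff]
    have h1 := hR1 y hy
    have h2 := hR2 y hy
    have h3 : 0 < (y - r₁) * (r₂ - y) := mul_pos (by linarith) (by linarith)
    refine ⟨by nlinarith [sq_nonneg y], zero_le_one, by nlinarith⟩
  have hC0 : C.map (kap ![-(r₁ * r₂), r₁ + r₂, 0] ![0, 1, 0] ![1, 0, 0]) = C.map (fun _ => 0) := by
    refine Multiset.map_congr rfl fun z hz => ?_
    have h1 := hC z hz
    unfold kap neg
    rw [if_neg h1.ne', hψ, if_neg (by linarith), if_neg (by linarith)]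
  have hb0 : kap ![-(r₁ * r₂), r₁ + r₂, 0] ![0, 1, 0] ![1, 0, 0] b₀ = 1 := by
    unfold kap neg
    rw [if_neg hb.ne, hψ, if_pos hb, if_neg (by linarith)]
  have hone : ∀ x : ℝ, 0 < (x - r₁) * (x - r₂) → 1 ≤ nu (-(r₁ * r₂) + (r₁ + r₂) * x) x 1 := by
    intro x hx
    unfold nu
    rw [if_pos (Or.inr (Or.inr (by nlinarith)))]
    omega
  rw [Multiset.map_cons, Multiset.sum_cons, Multiset.map_add, Multiset.sum_add, hR0, hC0, hb0,
    hreal, hreal, Multiset.map_const', Multiset.map_const', Multiset.sum_replicate,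
    Multiset.sum_replicate] at h
  have h1 := hone a₁ (mul_pos_of_neg_of_neg (by linarith) (by linarith))
  have h2 := hone a₂ (mul_pos (by linarith) (by linarith))
  simp only [smul_zero] at h
  omega

end Pool.Agent.CMP
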