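import Mathlib
import Pool.Agent.CMP.Basic

set_option autoImplicit false

namespace Pool.Agent.CMP

open Finset Pool.Agent.Helper45.NC Matrix
open scoped ComplexConjugate

theorem thm_Sub : St_Sub := by
  intro α β h
  classical
  obtain ⟨γ, rfl⟩ := Multiset.le_iff_exists_add.1 h
  obtain ⟨a, ha⟩ := exists_ms α
  obtain ⟨c, hc⟩ := exists_ms γ
  have hD : Dil a (Sum.elim a c) := by
    refine ⟨(1 : Matrix (Fin α.card ⊕ Fin γ.card) (Fin α.card ⊕ Fin γ.card) ℂ).submatrix id Sum.inl,
      ?_, ?_⟩
    · ext i j
      simp [Matrix.mul_apply, Matrix.one_apply]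
    · ext i j
      rw [Matrix.mul_assoc, Matrix.mul_apply]
      simp only [conjTranspose_apply, submatrix_apply, id, diagonal_mul, Matrix.one_apply]
      by_cases hij : i = j
      · subst hij
        simp
      · rw [diagonal_apply_ne _ hij]
        apply Finset.sum_eq_zero
        intro x _
        by_cases hx : x = Sum.inl i
        · subst hx; simp [hij]
        · simp [hx]
  have := MDil.of_dil hD
  rwa [ms_sum, ha, hc] at this

end Pool.Agent.CMP
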