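import Mathlib
import Pool.Agent.CMP.Basic

set_option autoImplicit false

namespace Pool.Agent.CMP

open Finset Pool.Agent.Helper45.NC
open scoped ComplexConjugate

/-- the tilted pencil -/
noncomputable def tlN (α c ψ : Fin 3 → ℝ) (t : ℝ) : Pen := ![![α 0, α 1, α 2 + t], c, ψ]

lemma tl_nuP (α c ψ : Fin 3 → ℝ) (t : ℝ) (z : ℂ) :
    nuP (tlN α c ψ t) z = nu (t * z.im + ev α z) (ev c z) (ev ψ z) := by
  have h0 : ev (tlN α c ψ t 0) z = t * z.im + ev α z := by
    simp only [tlN, ev, Matrix.cons_val_zero, Matrix.cons_val_one, Matrix.cons_val]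
    ring
  have h1 : ev (tlN α c ψ t 1) z = ev c z := rfl
  have h2 : ev (tlN α c ψ t 2) z = ev ψ z := rfl
  unfold nuP
  rw [h0, h1, h2]

lemma tl_event (α c ψ : Fin 3 → ℝ) (z : ℂ) (hz : z.im ≠ 0 → ev ψ z ≠ 0) :
    ∀ᶠ t in Filter.atTop, nuP (tlN α c ψ t) z = kap α c ψ z := by
  by_cases h0 : z.im = 0
  · refine Filter.Eventually.of_forall fun t => ?_
    rw [tl_nuP, kap, if_pos h0, h0, mul_zero, zero_add]
  · have hw := hz h0
    set w := ev ψ z with hwdef
    set y := ev c z with hydef
    set x := ev α z with hxdef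
    have hA : ∀ᶠ t : ℝ in Filter.atTop, |x| < t * |z.im| := by
      have h1 : Filter.Tendsto (fun t : ℝ => t * |z.im|) Filter.atTop Filter.atTop :=
        Filter.tendsto_id.atTop_mul_const (abs_pos.mpr h0)
      exact h1.eventually_gt_atTop _
    have hB : ∀ᶠ t : ℝ in Filter.atTop, y ^ 2 + |x * w| < t * (|z.im| * |w|) := by
      have h1 : Filter.Tendsto (fun t : ℝ => t * (|z.im| * |w|)) Filter.atTop Filter.atTop :=
        Filter.tendsto_id.atTop_mul_const (mul_pos (abs_pos.mpr h0) (abs_pos.mpr hw))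
      exact h1.eventually_gt_atTop _
    filter_upwards [hA, hB] with t ht1 ht2
    rw [tl_nuP, kap, if_neg h0, ← hwdef, ← hydef, ← hxdef]
    have hx1 := abs_lt.mp (show |x| < t * |z.im| from ht1)
    have hx2 := neg_abs_le (x * w)
    have hx3 := le_abs_self (x * w)
    unfold nu neg
    rcases lt_or_gt_of_ne h0 with hi | hi
    · -- Im z < 0
      rw [abs_of_neg hi] at hx1 ht2
      have hxneg : t * z.im + x < 0 := by linarith [hx1.2]
      rcases lt_or_gt_of_ne hw with hw' | hw'
      · rw [abs_of_neg hw'] at ht2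
        have h3 : y ^ 2 < (t * z.im + x) * w := by nlinarith
        rw [if_pos (Or.inl hxneg), if_pos ⟨hxneg, h3⟩, if_pos hi, if_pos hw']
      · have h3 : ¬ (y ^ 2 < (t * z.im + x) * w) := by
          have : (t * z.im + x) * w < 0 := mul_neg_of_neg_of_pos hxneg hw'
          have := sq_nonneg y
          linarith
        rw [if_pos (Or.inl hxneg), if_neg (fun h => h3 h.2), if_pos hi, if_neg (not_lt.mpr hw'.le)]
    · rw [abs_of_pos hi] at hx1 ht2
      have hxpos : 0 < t * z.im + x := by linarith [hx1.1]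
      rcases lt_or_gt_of_ne hw with hw' | hw'
      · rw [if_pos (Or.inr (Or.inl hw')), if_neg (fun h => absurd h.1 (not_lt.mpr hxpos.le)),
          if_neg (not_lt.mpr hi.le), if_pos hw']
      · rw [abs_of_pos hw'] at ht2
        have h3 : y ^ 2 < (t * z.im + x) * w := by nlinarith
        rw [if_neg, if_neg (fun h => absurd h.1 (not_lt.mpr hxpos.le)),
          if_neg (not_lt.mpr hi.le), if_neg (not_lt.mpr hw'.le)]
        rintro (h | h | h)
        · exact absurd h (not_lt.mpr hxpos.le)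
        · exact absurd h (not_lt.mpr hw'.le)
        · exact absurd h (not_lt.mpr h3.le)

theorem thm_TL : St_TL := by
  intro a₁ a₂ β α c ψ hC hβ h1 h2
  have hall : ∀ᶠ t in Filter.atTop, ∀ z ∈ β.toFinset, nuP (tlN α c ψ t) z = kap α c ψ z := by
    rw [Filter.eventually_all_finset]
    intro z hz
    exact tl_event α c ψ z (hβ z (Multiset.mem_toFinset.mp hz))
  obtain ⟨t, ht, ht1, ht2⟩ := (hall.and ((tl_event α c ψ a₁ h1).and (tl_event α c ψ a₂ h2))).exists
  have hc := hC (tlN α c ψ t)
  rw [ht1, ht2] at hc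
  rw [Multiset.map_congr rfl (fun z hz => ht z (Multiset.mem_toFinset.mpr hz))] at hc
  exact hc

end Pool.Agent.CMP
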