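import Mathlib
import Pool.Agent.CMP.Basic

set_option autoImplicit false

namespace Pool.Agent.CMP

open Finset Pool.Agent.Helper45.NC
open scoped ComplexConjugate

/-- a bounded nonempty open set has infinitely many boundary points -/
private lemma exists_frontier (U : Set ℂ) (F : Finset ℂ) (hU : IsOpen U) (hne : U.Nonempty)
    (hb : Bornology.IsBounded U) : ∃ ξ ∈ frontier U, ξ ∉ F := by
  by_contra hcon
  push Not at hcon
  have hconn : IsConnected ((F : Set ℂ)ᶜ) := by
    refine (F.countable_toSet).isConnected_compl_of_one_lt_rank ?_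
    rw [Complex.rank_real_complex]
    exact Nat.one_lt_ofNat
  -- `U` contains the complement of `F`
  have hsub : (F : Set ℂ)ᶜ ⊆ U := by
    have hcl : ∀ z ∈ (F : Set ℂ)ᶜ, z ∈ closure U → z ∈ U := by
      intro z hz hzc
      by_contra hzU
      have : z ∈ frontier U := by
        rw [hU.frontier_eq]
        exact ⟨hzc, hzU⟩
      exact hz (hcon z this)
    have hmeet : ((F : Set ℂ)ᶜ ∩ U).Nonempty := by
      by_contra hemp
      rw [Set.not_nonempty_iff_eq_empty] at hemp
      have hUF : U ⊆ (F : Set ℂ) := by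
        intro z hz
        by_contra hzF
        have : z ∈ (F : Set ℂ)ᶜ ∩ U := ⟨hzF, hz⟩
        rw [hemp] at this
        exact this
      obtain ⟨z, hz⟩ := hne
      have hinf : (U : Set ℂ).Infinite := by
        have := infinite_of_mem_nhds z (hU.mem_nhds hz)
        exact this
      exact hinf (F.finite_toSet.subset hUF)
    have hpre := hconn.isPreconnected
    refine hpre.subset_left_of_subset_union hU
      (isOpen_compl_iff.mpr (isClosed_closure : IsClosed (closure U))) ?_ ?_ hmeet
    · rw [Set.disjoint_compl_right_iff_subset]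
      exact subset_closure
    · intro z hz
      by_cases hzc : z ∈ closure U
      · exact Or.inl (hcl z hz hzc)
      · exact Or.inr hzc
  have huniv : Bornology.IsBounded (Set.univ : Set ℂ) := by
    have h1 : Bornology.IsBounded (U ∪ (F : Set ℂ)) := hb.union F.finite_toSet.isBounded
    refine h1.subset ?_
    intro z _
    by_cases hz : z ∈ (F : Set ℂ)
    · exact Or.inr hz
    · exact Or.inl (hsub hz)
  exact NoncompactSpace.noncompact_univ (Metric.isCompact_of_isClosed_isBounded isClosed_univ huniv)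

theorem thm_TopAbs : St_TopAbs := by
  intro U K F hU hne hb hK hdisj hcl
  obtain ⟨ξ, hξ, hξF⟩ := exists_frontier U F hU hne hb
  have hξ' : ξ ∈ closure U ∧ ξ ∉ U := by
    rw [hU.frontier_eq] at hξ
    exact hξ
  have hξK : ξ ∈ K := by
    rcases hcl hξ'.1 with h | h
    · exact absurd h hξ'.2
    · exact h
  -- the distance to `F`
  obtain ⟨ε, hε, hεF⟩ : ∃ ε : ℝ, 0 < ε ∧ ∀ y ∈ F, ε ≤ ‖y - ξ‖ := by
    have h1 : ((F : Set ℂ)ᶜ) ∈ nhds ξ := (F.finite_toSet.isClosed.isOpen_compl).mem_nhds hξF
    obtain ⟨ε, hε, hball⟩ := Metric.mem_nhds_iff.mp h1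
    refine ⟨ε, hε, fun y hy => ?_⟩
    by_contra hlt
    push Not at hlt
    have : y ∈ Metric.ball ξ ε := by rw [Metric.mem_ball, dist_eq_norm]; exact hlt
    exact hball this hy
  obtain ⟨z', hz'U, hz'⟩ := Metric.mem_closure_iff.mp hξ'.1 (ε / 2) (half_pos hε)
  rw [dist_eq_norm] at hz'
  obtain ⟨x, hxK, hx⟩ := hK.exists_infDist_eq_dist ⟨ξ, hξK⟩ z'
  have hmin : ∀ y ∈ K, ‖x - z'‖ ≤ ‖y - z'‖ := by
    intro y hy
    have h1 := Metric.infDist_le_dist_of_mem (x := z') hy
    rw [hx, dist_comm, dist_eq_norm, dist_comm, dist_eq_norm] at h1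
    exact h1
  refine ⟨z', hz'U, x, hxK, ?_, hmin, ?_⟩
  · intro hxF
    have h1 := hεF x hxF
    have h2 : ‖x - ξ‖ ≤ ‖x - z'‖ + ‖z' - ξ‖ := by
      have : x - ξ = (x - z') + (z' - ξ) := by ring
      rw [this]; exact norm_add_le _ _
    have h3 := hmin ξ hξK
    have h4 : ‖z' - ξ‖ = ‖ξ - z'‖ := norm_sub_rev _ _
    linarith
  · -- the open ball around `z'`
    have hball : Metric.ball z' ‖x - z'‖ ⊆ U := by
      have hr : 0 < ‖x - z'‖ := by
        rw [norm_pos_iff, sub_ne_zero]
        rintro rfl
        exact Set.disjoint_left.mp hdisj hz'U hxK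
      have hpre : IsPreconnected (Metric.ball z' ‖x - z'‖) :=
        (convex_ball z' ‖x - z'‖).isPreconnected
      refine hpre.subset_left_of_subset_union hU
        (isOpen_compl_iff.mpr (isClosed_closure : IsClosed (closure U))) ?_ ?_ ?_
      · rw [Set.disjoint_compl_right_iff_subset]
        exact subset_closure
      · intro z hz
        by_cases hzc : z ∈ closure U
        · rcases hcl hzc with h | h
          · exact Or.inl h
          · have h1 := hmin z h
            rw [Metric.mem_ball, dist_eq_norm] at hz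
            exact absurd h1 (not_le.mpr hz)
        · exact Or.inr hzc
      · exact ⟨z', Metric.mem_ball_self hr, hz'U⟩
    intro t ht ht1
    apply hball
    have hr : 0 < ‖x - z'‖ := by
      rw [norm_pos_iff, sub_ne_zero]
      rintro rfl
      exact Set.disjoint_left.mp hdisj hz'U hxK
    rw [Metric.mem_ball, dist_eq_norm]
    have h1 : x + (t : ℂ) * (z' - x) - z' = ((1 - t : ℝ) : ℂ) * (x - z') := by
      push_cast; ring
    rw [h1, norm_mul, Complex.norm_real, Real.norm_of_nonneg (by linarith)]
    nlinarith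

end Pool.Agent.CMP
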