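import Mathlib
import Pool.Agent.CMP.Basic

set_option autoImplicit false

namespace Pool.Agent.CMP

open Finset Pool.Agent.Helper45.NC
open scoped ComplexConjugate

theorem Viol_ev (f : Fin 3 → ℝ) (x z : ℂ) (t : ℝ) : ev f (x + (t : ℂ) * (z - x)) =
    ev f x + t * (f 1 * (z - x).re + f 2 * (z - x).im) := by
  unfold ev
  simp only [Complex.add_re, Complex.add_im, Complex.re_ofReal_mul, Complex.im_ofReal_mul]
  ring

theorem Viol_nu_one {x y w : ℝ} (h : x < 0 ∨ w < 0) : 1 ≤ nu x y w := by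
  unfold nu
  rw [if_pos (by tauto)]
  omega

theorem Viol_small (P : ℝ → Prop) (h : ∃ δ₀ : ℝ, 0 < δ₀ ∧ ∀ δ : ℝ, 0 < δ → δ < δ₀ → P δ) :
    ∀ᶠ δ in nhdsWithin (0 : ℝ) (Set.Ioi 0), P δ := by
  obtain ⟨δ₀, h0, h⟩ := h
  filter_upwards [Ioo_mem_nhdsGT h0] with δ hδ
  exact h δ hδ.1 hδ.2

theorem Viol_at (g p q r : ℝ) (hp : p < 0) : ∃ δ₀ : ℝ, 0 < δ₀ ∧ ∀ δ : ℝ, 0 < δ → δ < δ₀ →
    1 + neg g ≤ nu (0 + δ * p) (0 + δ * q) (g + δ * r) := by
  by_cases hg : g < 0
  · have hprod : 0 < p * g := mul_pos_of_neg_of_neg hp hg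
    refine ⟨p * g / (|q ^ 2 - p * r| + 1), div_pos hprod (by positivity), ?_⟩
    intro δ hδ0 hδ
    rw [lt_div_iff₀ (by positivity)] at hδ
    have h2 : nu (0 + δ * p) (0 + δ * q) (g + δ * r) = 2 := by
      rw [nu_two_iff]
      constructor
      · have := mul_neg_of_pos_of_neg hδ0 hp
        linarith
      · have h3 : δ * (q ^ 2 - p * r) < p * g := by
          have h5 : δ * (q ^ 2 - p * r) ≤ δ * |q ^ 2 - p * r| :=
            mul_le_mul_of_nonneg_left (le_abs_self _) hδ0.le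
          have h6 : δ * (|q ^ 2 - p * r| + 1) = δ * |q ^ 2 - p * r| + δ := by ring
          linarith
        have h4 := mul_lt_mul_of_pos_left h3 hδ0
        have e : (0 + δ * q) ^ 2 - (0 + δ * p) * (g + δ * r) =
            δ * (δ * (q ^ 2 - p * r)) - δ * (p * g) := by ring
        linarith
    rw [h2]
    unfold neg
    rw [if_pos hg]
  · refine ⟨1, one_pos, ?_⟩
    intro δ hδ0 _
    have h0 : neg g = 0 := by unfold neg; rw [if_neg hg]
    rw [h0]
    apply Viol_nu_one
    left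
    have := mul_neg_of_pos_of_neg hδ0 hp
    linarith

theorem thm_Viol (hPertB : St_PertB) (hNuLsc : St_NuLsc) : St_Viol := by
  intro n b a x z α β γ N hzx g1 g2 va vb wb wg hsum hN0 hker
  -- step 1: the values near x
  have hd : 0 < (z - x).re ^ 2 + (z - x).im ^ 2 := by
    by_contra hcon
    push Not at hcon
    apply hzx
    have h1 : (z - x).re = 0 := by nlinarith [sq_nonneg (z - x).re, sq_nonneg (z - x).im]
    have h2 : (z - x).im = 0 := by nlinarith [sq_nonneg (z - x).re, sq_nonneg (z - x).im]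
    exact sub_eq_zero.1 (Complex.ext h1 h2)
  set d := (z - x).re ^ 2 + (z - x).im ^ 2 with hd'
  have hγ : ∀ t : ℝ, ev γ (x + (t : ℂ) * (z - x)) = - (t * d) := by
    intro t
    rw [Viol_ev, wg, g1, g2, hd']
    simp only [Complex.sub_re, Complex.sub_im]
    ring
  have hstep : ∃ t₀ : ℝ, 0 < t₀ ∧ ∀ t : ℝ, 0 < t → t < t₀ → 1 + neg (ev α x) ≤
      nu (ev α (x + (t : ℂ) * (z - x))) (ev β (x + (t : ℂ) * (z - x)))
        (ev γ (x + (t : ℂ) * (z - x))) := by
    by_cases hα : ev α x < 0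
    · set La := α 1 * (z - x).re + α 2 * (z - x).im with hLa
      set Lb := β 1 * (z - x).re + β 2 * (z - x).im with hLb
      refine ⟨min (-ev α x / (2 * (|La| + 1))) (d * (-ev α x) / (2 * (Lb ^ 2 + 1))), ?_, ?_⟩
      · apply lt_min
        · apply div_pos (by linarith) (by positivity)
        · apply div_pos (mul_pos hd (by linarith)) (by positivity)
      · intro t ht0 ht
        have ht1 := lt_of_lt_of_le ht (min_le_left _ _)
        have ht2 := lt_of_lt_of_le ht (min_le_right _ _)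
        rw [lt_div_iff₀ (by positivity)] at ht1 ht2
        have e1 : ev α (x + (t : ℂ) * (z - x)) = ev α x + t * La := Viol_ev α x z t
        have e2 : ev β (x + (t : ℂ) * (z - x)) = t * Lb := by rw [Viol_ev, wb, zero_add]
        have hA : ev α (x + (t : ℂ) * (z - x)) < ev α x / 2 := by
          rw [e1]
          have : t * La ≤ t * |La| := mul_le_mul_of_nonneg_left (le_abs_self _) ht0.le
          nlinarith
        have hND : nu (ev α (x + (t : ℂ) * (z - x))) (ev β (x + (t : ℂ) * (z - x)))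
            (ev γ (x + (t : ℂ) * (z - x))) = 2 := by
          rw [nu_two_iff]
          refine ⟨by linarith, ?_⟩
          rw [e2, hγ]
          have h3 : t * Lb ^ 2 < d * (-ev α x) / 2 := by nlinarith [sq_nonneg Lb]
          have h4 : t * (t * Lb ^ 2) < t * (d * (-ev α x) / 2) := mul_lt_mul_of_pos_left h3 ht0
          have h5 : ev α (x + (t : ℂ) * (z - x)) * -(t * d) > ev α x / 2 * -(t * d) := by
            have : 0 < t * d := mul_pos ht0 hd
            nlinarith
          nlinarith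
        rw [hND]
        unfold neg
        rw [if_pos hα]
    · refine ⟨1, one_pos, ?_⟩
      intro t ht0 _
      have : neg (ev α x) = 0 := by unfold neg; rw [if_neg hα]
      rw [this]
      apply Viol_nu_one
      right
      rw [hγ]
      have : 0 < t * d := mul_pos ht0 hd
      linarith
  obtain ⟨t₀, ht₀, hstep⟩ := hstep
  refine ⟨t₀, ht₀, ?_⟩
  intro t ht0 ht hC
  have h1 := hstep t ht0 ht
  set y := x + (t : ℂ) * (z - x) with hy
  -- step 2: perturbation
  have hb : ∀ᶠ δ in nhdsWithin (0 : ℝ) (Set.Ioi 0), ∀ l,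
      nu (ev α (b l) + δ * ev (N 0) (b l)) (ev β (b l) + δ * ev (N 1) (b l))
        (ev γ (b l) + δ * ev (N 2) (b l)) ≤ nu (ev α (b l)) (ev β (b l)) (ev γ (b l)) := by
    rw [Filter.eventually_all]
    intro l
    apply Viol_small
    exact hPertB _ _ _ _ _ _ (hker l)
  have hy1 : ∀ᶠ δ in nhdsWithin (0 : ℝ) (Set.Ioi 0),
      nu (ev α y) (ev β y) (ev γ y) ≤ nu (ev α y + δ * ev (N 0) y) (ev β y + δ * ev (N 1) y)
        (ev γ y + δ * ev (N 2) y) := by
    apply Viol_small
    obtain ⟨ε, hε, hlsc⟩ := hNuLsc (ev α y) (ev β y) (ev γ y)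
    refine ⟨ε / (|ev (N 0) y| + |ev (N 1) y| + |ev (N 2) y| + 1), by positivity, ?_⟩
    intro δ hδ0 hδ
    rw [lt_div_iff₀ (by positivity)] at hδ
    have hle : ∀ u : ℝ, |u| ≤ |ev (N 0) y| + |ev (N 1) y| + |ev (N 2) y| → |δ * u| < ε := by
      intro u hu
      rw [abs_mul, abs_of_pos hδ0]
      nlinarith [abs_nonneg u]
    refine (hlsc _ _ _ ?_ ?_ ?_).1
    · rw [add_sub_cancel_left]
      exact hle _ (by nlinarith [abs_nonneg (ev (N 1) y), abs_nonneg (ev (N 2) y)])
    · rw [add_sub_cancel_left]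
      exact hle _ (by nlinarith [abs_nonneg (ev (N 0) y), abs_nonneg (ev (N 2) y)])
    · rw [add_sub_cancel_left]
      exact hle _ (by nlinarith [abs_nonneg (ev (N 1) y), abs_nonneg (ev (N 0) y)])
  have ha1 : ∀ᶠ δ in nhdsWithin (0 : ℝ) (Set.Ioi 0),
      1 + neg (ev γ a) ≤ nu (ev α a + δ * ev (N 0) a) (ev β a + δ * ev (N 1) a)
        (ev γ a + δ * ev (N 2) a) := by
    apply Viol_small
    rw [va, vb]
    exact Viol_at (ev γ a) (ev (N 0) a) (ev (N 1) a) (ev (N 2) a) hN0
  obtain ⟨δ, ⟨hδb, hδy⟩, hδa⟩ := ((hb.and hy1).and ha1).exists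
  have hM := hC ![α + δ • N 0, β + δ • N 1, γ + δ • N 2]
  rw [sum_ms] at hM
  have hval : ∀ w : ℂ, nuP ![α + δ • N 0, β + δ • N 1, γ + δ • N 2] w =
      nu (ev α w + δ * ev (N 0) w) (ev β w + δ * ev (N 1) w) (ev γ w + δ * ev (N 2) w) := by
    intro w
    unfold nuP
    simp only [Matrix.cons_val_zero, Matrix.cons_val_one, Matrix.cons_val]
    rw [ev_add, ev_add, ev_add, ev_smul, ev_smul, ev_smul]
  simp only [hval] at hM
  have hs := Finset.sum_le_sum (fun l (_ : l ∈ Finset.univ) => hδb l)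
  omega

end Pool.Agent.CMP
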