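import Mathlib
import Pool.Agent.CMP.Basic

set_option autoImplicit false

namespace Pool.Agent.CMP

open Finset Pool.Agent.Helper45.NC
open scoped ComplexConjugate

theorem Zero_vec {p1 p2 m0 m1 m2 v0 v1 v2 : ℝ} (hm : ¬ (m0 = 0 ∧ m1 = 0 ∧ m2 = 0))
    (hpm : m0 + m1 * p1 + m2 * p2 = 0) (h1 : v0 + v1 * p1 + v2 * p2 = 0)
    (h2 : v0 * m0 + v1 * m1 + v2 * m2 = 0)
    (h3 : v0 * (p1 * m2 - p2 * m1) + v1 * (p2 * m0 - m2) + v2 * (m1 - p1 * m0) = 0) :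
    v0 = 0 ∧ v1 = 0 ∧ v2 = 0 := by
  set K : ℝ := (p1 * m2 - p2 * m1) ^ 2 + (p2 * m0 - m2) ^ 2 + (m1 - p1 * m0) ^ 2 with hK
  have hK1 : K = (1 + p1 ^ 2 + p2 ^ 2) * (m0 ^ 2 + m1 ^ 2 + m2 ^ 2) := by
    rw [hK]
    linear_combination (-(m0 + m1 * p1 + m2 * p2)) * hpm
  have hm2 : 0 < m0 ^ 2 + m1 ^ 2 + m2 ^ 2 := by
    by_contra h
    push Not at h
    apply hm
    refine ⟨?_, ?_, ?_⟩ <;> nlinarith [sq_nonneg m0, sq_nonneg m1, sq_nonneg m2]
  have hK0 : K ≠ 0 := by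
    rw [hK1]
    have : 0 < 1 + p1 ^ 2 + p2 ^ 2 := by positivity
    positivity
  have e0 : K * v0 = 0 := by
    rw [hK]
    linear_combination ((m0 ^ 2 + m1 ^ 2 + m2 ^ 2) - (m0 + m1 * p1 + m2 * p2) * m0) * h1 +
      ((1 + p1 ^ 2 + p2 ^ 2) * m0 - (m0 + m1 * p1 + m2 * p2)) * h2 + (p1 * m2 - p2 * m1) * h3
  have e1 : K * v1 = 0 := by
    rw [hK]
    linear_combination ((m0 ^ 2 + m1 ^ 2 + m2 ^ 2) * p1 - (m0 + m1 * p1 + m2 * p2) * m1) * h1 +
      ((1 + p1 ^ 2 + p2 ^ 2) * m1 - (m0 + m1 * p1 + m2 * p2) * p1) * h2 + (p2 * m0 - m2) * h3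
  have e2 : K * v2 = 0 := by
    rw [hK]
    linear_combination ((m0 ^ 2 + m1 ^ 2 + m2 ^ 2) * p2 - (m0 + m1 * p1 + m2 * p2) * m2) * h1 +
      ((1 + p1 ^ 2 + p2 ^ 2) * m2 - (m0 + m1 * p1 + m2 * p2) * p2) * h2 + (m1 - p1 * m0) * h3
  exact ⟨(mul_eq_zero.1 e0).resolve_left hK0, (mul_eq_zero.1 e1).resolve_left hK0,
    (mul_eq_zero.1 e2).resolve_left hK0⟩

theorem Zero_rot {M : Pen} {x y : ℝ} (hxy : x ≠ 0 ∨ y ≠ 0)
    (h : ∀ i, x * (M 0 i - M 2 i) + y * (2 * M 1 i) = 0) :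
    ∃ c s : ℝ, c ^ 2 + s ^ 2 = 1 ∧ (act c (-s) s c M) 1 = 0 := by
  set z : ℂ := ⟨y, -x⟩ with hz
  have hz0 : z ≠ 0 := by
    intro h0
    have h1 := congrArg Complex.re h0
    have h2 := congrArg Complex.im h0
    simp only [hz, Complex.zero_re, Complex.zero_im, neg_eq_zero] at h1 h2
    rcases hxy with h3 | h3
    · exact h3 h2
    · exact h3 h1
  have hn : (0 : ℝ) < ‖z‖ := norm_pos_iff.2 hz0
  have hcos : Real.cos (Complex.arg z) = y / ‖z‖ := Complex.cos_arg hz0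
  have hsin : Real.sin (Complex.arg z) = -x / ‖z‖ := Complex.sin_arg z
  set t : ℝ := Complex.arg z / 2 with ht
  have h2t : Complex.arg z = 2 * t := by rw [ht]; ring
  rw [h2t, Real.cos_two_mul] at hcos
  rw [h2t, Real.sin_two_mul] at hsin
  have hcs : Real.cos t ^ 2 + Real.sin t ^ 2 = 1 := Real.cos_sq_add_sin_sq t
  refine ⟨Real.cos t, Real.sin t, hcs, ?_⟩
  funext i
  rw [act_one]
  have h4 : y = (2 * Real.cos t ^ 2 - 1) * ‖z‖ := by rw [hcos]; field_simp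
  have h5 : x = -(2 * Real.sin t * Real.cos t) * ‖z‖ := by rw [hsin]; field_simp
  have h6 : 2 * ‖z‖ * (M 0 i * Real.cos t * -Real.sin t +
      M 1 i * (Real.cos t * Real.cos t + -Real.sin t * Real.sin t) +
      M 2 i * Real.sin t * Real.cos t) = 0 := by
    have h7 := h i
    rw [h4, h5] at h7
    linear_combination h7 + 2 * ‖z‖ * M 1 i * (-hcs)
  have h8 : (2 * ‖z‖ : ℝ) ≠ 0 := by positivity
  simpa using (mul_eq_zero.1 h6).resolve_left h8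

theorem Zero_nu {t u δ : ℝ} (h : δ ^ 2 < t ^ 2 + u ^ 2) : nu (t + δ) u (-t + δ) = 1 := by
  unfold nu
  have h1 : (t + δ) * (-t + δ) < u ^ 2 := by nlinarith
  rw [if_pos (Or.inr (Or.inr h1)), if_neg]
  rintro ⟨_, h2⟩
  exact absurd h1 (not_lt.2 h2.le)

theorem Zero_nu0 {t u : ℝ} (h : 0 < t ^ 2 + u ^ 2) : nu0 t u (-t) = 1 := by
  unfold nu0
  have h1 : t * (-t) < u ^ 2 := by nlinarith
  rw [if_neg, if_pos (Or.inr (Or.inr h1))]
  rintro ⟨_, h2⟩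
  exact absurd h1 (not_lt.2 h2.le)

theorem thm_Zero (hDiag : St_Diag) (hNuInv : St_NuInv) : St_Zero := by
  intro n b a₁ a₂ M hC hM hB hW hab1 hab2 hV
  obtain ⟨P, hP, hPab⟩ : ∃ P : ℂ, VanAt M P ∧ (P = a₁ ∨ P = a₂ ∨ ∃ l, P = b l) := by
    rcases hV with h | h | ⟨l, h⟩
    · exact ⟨a₁, h, Or.inl rfl⟩
    · exact ⟨a₂, h, Or.inr (Or.inl rfl)⟩
    · exact ⟨b l, h, Or.inr (Or.inr ⟨l, rfl⟩)⟩
  by_cases hdep : ∃ x y : ℝ, (x ≠ 0 ∨ y ≠ 0) ∧ ∀ i, x * (M 0 i - M 2 i) + y * (2 * M 1 i) = 0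
  · obtain ⟨x, y, hxy, h⟩ := hdep
    exact hDiag n b a₁ a₂ M hM hB hW (Zero_rot hxy h)
  exfalso
  obtain ⟨v0, v1, v2⟩ := hP
  unfold ev at v0 v1 v2
  obtain ⟨b1, b2⟩ := hB
  simp only [Fin.sum_univ_three] at b1 b2
  -- the trace vanishes
  have htr : ∀ i, M 0 i + M 2 i = 0 := by
    by_contra hne
    apply hdep
    have hm : ¬ (M 0 0 + M 2 0 = 0 ∧ M 0 1 + M 2 1 = 0 ∧ M 0 2 + M 2 2 = 0) := by
      rintro ⟨h0, h1, h2⟩
      apply hne
      intro i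
      fin_cases i
      · exact h0
      · exact h1
      · exact h2
    have hpm : (M 0 0 + M 2 0) + (M 0 1 + M 2 1) * P.re + (M 0 2 + M 2 2) * P.im = 0 := by
      linear_combination v0 + v2
    set k0 : ℝ := P.re * (M 0 2 + M 2 2) - P.im * (M 0 1 + M 2 1) with hk0
    set k1 : ℝ := P.im * (M 0 0 + M 2 0) - (M 0 2 + M 2 2) with hk1
    set k2 : ℝ := (M 0 1 + M 2 1) - P.re * (M 0 0 + M 2 0) with hk2
    set s1 : ℝ := (M 0 0 - M 2 0) * k0 + (M 0 1 - M 2 1) * k1 + (M 0 2 - M 2 2) * k2 with hs1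
    set s2 : ℝ := (2 * M 1 0) * k0 + (2 * M 1 1) * k1 + (2 * M 1 2) * k2 with hs2
    have key : ∀ x y : ℝ, x * s1 + y * s2 = 0 →
        ∀ i, x * (M 0 i - M 2 i) + y * (2 * M 1 i) = 0 := by
      intro x y hxy
      have h := Zero_vec (v0 := x * (M 0 0 - M 2 0) + y * (2 * M 1 0))
        (v1 := x * (M 0 1 - M 2 1) + y * (2 * M 1 1))
        (v2 := x * (M 0 2 - M 2 2) + y * (2 * M 1 2)) hm hpm
        (by linear_combination x * v0 - x * v2 + 2 * y * v1)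
        (by linear_combination x * b1 + 2 * y * b2)
        (by rw [← hk0, ← hk1, ← hk2]; linear_combination hxy)
      intro i
      fin_cases i
      · exact h.1
      · exact h.2.1
      · exact h.2.2
    by_cases hs : s1 = 0 ∧ s2 = 0
    · exact ⟨1, 0, Or.inl one_ne_zero, key 1 0 (by rw [hs.1, hs.2]; ring)⟩
    · refine ⟨s2, -s1, ?_, key s2 (-s1) (by ring)⟩
      by_contra hcon
      push Not at hcon
      exact hs ⟨neg_eq_zero.1 hcon.2, hcon.1⟩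
  have hM2 : ∀ z, ev (M 2) z = - ev (M 0) z := by
    intro z
    have h0 := htr 0
    have h1 := htr 1
    have h2 := htr 2
    unfold ev
    linear_combination h0 + z.re * h1 + z.im * h2
  have hM00 : M 0 ≠ 0 := by
    intro h0
    apply hdep
    refine ⟨1, 0, Or.inl one_ne_zero, fun i => ?_⟩
    have h1 := htr i
    have h2 := congrFun h0 i
    simp only [Pi.zero_apply] at h2
    rw [h2] at h1 ⊢
    linarith
  have hpos : ∀ z, z ≠ P → 0 < ev (M 0) z ^ 2 + ev (M 1) z ^ 2 := by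
    intro z hz
    by_contra hcon
    push Not at hcon
    have h0 : ev (M 0) z = 0 := by nlinarith [sq_nonneg (ev (M 0) z), sq_nonneg (ev (M 1) z)]
    have h1 : ev (M 1) z = 0 := by nlinarith [sq_nonneg (ev (M 0) z), sq_nonneg (ev (M 1) z)]
    obtain ⟨c, hc⟩ := prop_of_two (Ne.symm hz) hM00 v0 h0 v1 h1
    apply hdep
    refine ⟨-c, 1, Or.inr one_ne_zero, fun i => ?_⟩
    have h2 := htr i
    have h3 := congrFun hc i
    simp only [Pi.smul_apply, smul_eq_mul] at h3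
    rw [h3]
    linear_combination c * h2
  have hP0 : ev (M 0) P = 0 := v0
  have hP1 : ev (M 1) P = 0 := v1
  -- a small number
  have hsm : ∀ z, z ≠ P → ∀ᶠ δ in nhdsWithin (0 : ℝ) (Set.Ioi 0),
      δ ^ 2 < ev (M 0) z ^ 2 + ev (M 1) z ^ 2 := by
    intro z hz
    have h1 : Filter.Tendsto (fun δ : ℝ => δ ^ 2) (nhdsWithin (0 : ℝ) (Set.Ioi 0)) (nhds 0) := by
      have h2 : Continuous fun δ : ℝ => δ ^ 2 := by fun_prop
      have h3 := h2.tendsto 0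
      simp only [ne_eq, OfNat.ofNat_ne_zero, not_false_eq_true, zero_pow] at h3
      exact h3.mono_left nhdsWithin_le_nhds
    exact h1.eventually (gt_mem_nhds (hpos z hz))
  obtain ⟨δ, ⟨⟨hδb, hδa⟩, hδ0⟩⟩ : ∃ δ : ℝ, ((∀ l, b l ≠ P →
      δ ^ 2 < ev (M 0) (b l) ^ 2 + ev (M 1) (b l) ^ 2) ∧
      ((a₁ ≠ P → δ ^ 2 < ev (M 0) a₁ ^ 2 + ev (M 1) a₁ ^ 2) ∧
      (a₂ ≠ P → δ ^ 2 < ev (M 0) a₂ ^ 2 + ev (M 1) a₂ ^ 2))) ∧ δ ∈ Set.Ioi (0 : ℝ) := by
    have hcond : ∀ z, ∀ᶠ δ in nhdsWithin (0 : ℝ) (Set.Ioi 0),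
        z ≠ P → δ ^ 2 < ev (M 0) z ^ 2 + ev (M 1) z ^ 2 := by
      intro z
      by_cases hz : z = P
      · exact Filter.Eventually.of_forall fun δ h => absurd hz h
      · exact (hsm z hz).mono fun δ h _ => h
    exact (((Filter.eventually_all.2 fun l => hcond (b l)).and
      ((hcond a₁).and (hcond a₂))).and self_mem_nhdsWithin).exists
  have hδ0' : (0 : ℝ) < δ := hδ0
  -- values of the perturbed pencil
  have hN : ∀ (ε : ℝ) (z : ℂ), nuP ![M 0 + ![ε, 0, 0], M 1, M 2 + ![ε, 0, 0]] z =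
      nu (ev (M 0) z + ε) (ev (M 1) z) (-ev (M 0) z + ε) := by
    intro ε z
    show nu (ev (M 0 + ![ε, 0, 0]) z) (ev (M 1) z) (ev (M 2 + ![ε, 0, 0]) z) = _
    rw [ev_add, ev_add, hM2, ev_mk]
    congr 1 <;> ring
  have hMz : ∀ z, nuP M z = nu (ev (M 0) z) (ev (M 1) z) (-ev (M 0) z) := by
    intro z
    unfold nuP
    rw [hM2]
  have hMz0 : ∀ z, nu0P M z = nu0 (ev (M 0) z) (ev (M 1) z) (-ev (M 0) z) := by
    intro z
    unfold nu0P
    rw [hM2]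
  have hM1 : ∀ z, z ≠ P → nuP M z = 1 := by
    intro z hz
    rw [hMz]
    have h := Zero_nu (t := ev (M 0) z) (u := ev (M 1) z) (δ := 0) (by
      have := hpos z hz
      simpa using this)
    simpa using h
  have hM01 : ∀ z, z ≠ P → nu0P M z = 1 := fun z hz => by
    rw [hMz0]; exact Zero_nu0 (hpos z hz)
  unfold Weak at hW
  by_cases hPb : ∃ l, P = b l
  · -- positive perturbation
    obtain ⟨l₀, hl₀⟩ := hPb
    have ha1 : a₁ ≠ P := by rw [hl₀]; exact hab1 l₀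
    have ha2 : a₂ ≠ P := by rw [hl₀]; exact hab2 l₀
    have h := hC ![M 0 + ![δ, 0, 0], M 1, M 2 + ![δ, 0, 0]]
    rw [sum_ms, hN, hN, Zero_nu (hδa.1 ha1), Zero_nu (hδa.2 ha2)] at h
    rw [hM01 a₁ ha1, hM01 a₂ ha2] at hW
    have h2 : ∑ l, nuP ![M 0 + ![δ, 0, 0], M 1, M 2 + ![δ, 0, 0]] (b l) = ∑ l, nuP M (b l) := by
      refine Finset.sum_congr rfl fun l _ => ?_
      by_cases hl : b l = P
      · rw [hN, hMz, hl, hP0, hP1]
        have e1 : nu (0 + δ) 0 (-0 + δ) = 0 := by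
          rw [nu_zero_iff]
          refine ⟨by linarith, by linarith, ?_⟩
          nlinarith
        have e2 : nu 0 0 (-0) = 0 := by
          rw [nu_zero_iff]
          norm_num
        rw [e1, e2]
      · rw [hN, Zero_nu (hδb l hl), hM1 _ hl]
    rw [h2] at h
    omega
  · -- negative perturbation
    have hb : ∀ l, b l ≠ P := fun l hl => hPb ⟨l, hl.symm⟩
    have h := hC ![M 0 + ![-δ, 0, 0], M 1, M 2 + ![-δ, 0, 0]]
    have h2 : ∑ l, nuP ![M 0 + ![-δ, 0, 0], M 1, M 2 + ![-δ, 0, 0]] (b l) =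
        ∑ l, nuP M (b l) := by
      refine Finset.sum_congr rfl fun l _ => ?_
      rw [hN, Zero_nu (by rw [neg_sq]; exact hδb l (hb l)), hM1 _ (hb l)]
    have h3 : ∀ z, (z ≠ P → δ ^ 2 < ev (M 0) z ^ 2 + ev (M 1) z ^ 2) →
        nuP ![M 0 + ![-δ, 0, 0], M 1, M 2 + ![-δ, 0, 0]] z = nu0P M z := by
      intro z hz
      by_cases hzP : z = P
      · rw [hN, hMz0, hzP, hP0, hP1]
        have e1 : nu (0 + -δ) 0 (-0 + -δ) = 2 := by
          rw [nu_two_iff]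
          refine ⟨by linarith, ?_⟩
          nlinarith
        have e2 : nu0 0 0 (-0) = 2 := by
          unfold nu0
          norm_num
        rw [e1, e2]
      · rw [hN, Zero_nu (by rw [neg_sq]; exact hz hzP), hM01 _ hzP]
    rw [sum_ms, h2, h3 _ hδa.1, h3 _ hδa.2] at h
    omega

end Pool.Agent.CMP
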