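import Mathlib
import Pool.Agent.CMP.Fin2
import Pool.Agent.CMP.Bridge
import Pool.Agent.CMP.K1
import Pool.Agent.CMP.Sub
import Pool.Agent.CMP.Int3
import Pool.Agent.CMP.FP2
import Pool.Agent.CMP.AffM
import Pool.Agent.CMP.AffC
import Pool.Agent.CMP.C1
import Pool.Agent.CMP.Sep
import Pool.Agent.CMP.Hull
import Pool.Agent.CMP.Cancel
import Pool.Agent.CMP.TL
import Pool.Agent.CMP.L1c
import Pool.Agent.CMP.L1d
import Pool.Agent.CMP.L1
import Pool.Agent.CMP.L2zero
import Pool.Agent.CMP.SepY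
import Pool.Agent.CMP.Spec
import Pool.Agent.CMP.L2one
import Pool.Agent.CMP.L2
import Pool.Agent.CMP.L
import Pool.Agent.CMP.NuInv
import Pool.Agent.CMP.NuLsc
import Pool.Agent.CMP.PertB
import Pool.Agent.CMP.PertA
import Pool.Agent.CMP.Gordan
import Pool.Agent.CMP.LimA
import Pool.Agent.CMP.NearMin
import Pool.Agent.CMP.MinBal
import Pool.Agent.CMP.Lim
import Pool.Agent.CMP.Diag
import Pool.Agent.CMP.Zero
import Pool.Agent.CMP.Cert
import Pool.Agent.CMP.Rank2
import Pool.Agent.CMP.Rank1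
import Pool.Agent.CMP.CritOpen
import Pool.Agent.CMP.RelClosed
import Pool.Agent.CMP.GenDense
import Pool.Agent.CMP.TopAbs
import Pool.Agent.CMP.GenSupp
import Pool.Agent.CMP.LagAbs
import Pool.Agent.CMP.Lag
import Pool.Agent.CMP.Phase
import Pool.Agent.CMP.MultVal
import Pool.Agent.CMP.Nonzero
import Pool.Agent.CMP.RealV
import Pool.Agent.CMP.Index
import Pool.Agent.CMP.GordanN
import Pool.Agent.CMP.Viol
import Pool.Agent.CMP.Comp
import Pool.Agent.CMP.Gamma
import Pool.Agent.CMP.NecC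
import Pool.Agent.CMP.NegR
import Pool.Agent.CMP.NegC
import Pool.Agent.CMP.NecR

set_option autoImplicit false

namespace Pool.Agent.CMP

open Finset Pool.Agent.Helper45.NC

theorem m_Bridge : St_Bridge := thm_Bridge
theorem m_K1 : St_K1 := thm_K1
theorem m_Sub : St_Sub := thm_Sub
theorem m_Int3 : St_Int3 := thm_Int3
theorem m_FP2 : St_FP2 := thm_FP2 m_K1 m_Sub m_Int3
theorem m_AffM : St_AffM := thm_AffM
theorem m_AffC : St_AffC := thm_AffC
theorem m_C1 : St_C1 := thm_C1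
theorem m_Sep : St_Sep := thm_Sep
theorem m_Hull : St_Hull := thm_Hull m_C1 m_Sep
theorem m_Cancel : St_Cancel := thm_Cancel m_C1 m_Sep m_K1
theorem m_TL : St_TL := thm_TL
theorem m_L1c : St_L1c := thm_L1c m_TL m_Sep m_Hull
theorem m_L1d : St_L1d := thm_L1d m_TL m_Sep m_Hull
theorem m_L1 : St_L1 := thm_L1 m_TL m_Hull m_K1 m_Sub m_Int3 m_L1c m_L1d m_AffM m_AffC
theorem m_L2zero : St_L2zero := thm_L2zero m_TL m_FP2 m_Sub
theorem m_SepY : St_SepY := thm_SepY
theorem m_Spec : St_Spec := thm_Spec m_TL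
theorem m_L2one : St_L2one := thm_L2one m_TL m_C1 m_FP2 m_K1 m_Sub m_SepY m_Spec
theorem m_L2 : St_L2 := thm_L2 m_L2zero m_L2one m_AffM m_AffC
theorem m_L : St_L := thm_L m_L1 m_L2 m_AffM m_AffC m_C1
theorem m_NuInv : St_NuInv := thm_NuInv
theorem m_NuLsc : St_NuLsc := thm_NuLsc
theorem m_PertB : St_PertB := thm_PertB
theorem m_PertA : St_PertA := thm_PertA
theorem m_Gordan : St_Gordan := thm_Gordan
theorem m_LimA : St_LimA := thm_LimA m_NuLsc m_PertB
theorem m_NearMin : St_NearMin := thm_NearMin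
theorem m_MinBal : St_MinBal := thm_MinBal
theorem m_Lim : St_Lim := thm_Lim m_LimA m_NearMin m_MinBal m_NuInv m_NuLsc
theorem m_Diag : St_Diag := thm_Diag m_NuInv
theorem m_Zero : St_Zero := thm_Zero m_Diag m_NuInv
theorem m_Cert : St_Cert := thm_Cert m_Gordan m_PertA m_PertB
theorem m_Rank2 : St_Rank2 := thm_Rank2
theorem m_Rank1 : St_Rank1 := thm_Rank1 m_Diag m_NuInv
theorem m_CritOpen : St_CritOpen := thm_CritOpen m_NuLsc
theorem m_RelClosed : St_RelClosed := thm_RelClosed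
theorem m_GenDense : St_GenDense := thm_GenDense
theorem m_TopAbs : St_TopAbs := thm_TopAbs
theorem m_GenSupp : St_GenSupp := thm_GenSupp
theorem m_LagAbs : St_LagAbs := thm_LagAbs
theorem m_Lag : St_Lag := thm_Lag m_LagAbs m_GenSupp
theorem m_Phase : St_Phase := thm_Phase
theorem m_MultVal : St_MultVal := thm_MultVal
theorem m_Nonzero : St_Nonzero := thm_Nonzero m_GenSupp m_MultVal
theorem m_RealV : St_RealV := thm_RealV
theorem m_Index : St_Index := thm_Index
theorem m_GordanN : St_GordanN := thm_GordanN m_Gordan m_GenSupp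
theorem m_Viol : St_Viol := thm_Viol m_PertB m_NuLsc
theorem m_Comp : St_Comp := thm_Comp
theorem m_Gamma : St_Gamma := thm_Gamma m_GenSupp m_Comp
theorem m_NecC : St_NecC := thm_NecC
theorem m_NegR : St_NegR := thm_NegR
theorem m_NegC : St_NegC := thm_NegC
theorem m_NecR : St_NecR := thm_NecR m_NecC m_NegC m_Bridge

theorem m_CL : St_CL := asm_CL m_Lim m_Zero m_Cert m_Rank2 m_Rank1 m_L m_Cancel m_Bridge

theorem m_Suff : St_Suff := asm_Suff m_CL m_Bridge m_CritOpen m_RelClosed m_GenDense m_TopAbs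
  m_Hull m_Lag m_Phase m_MultVal m_Nonzero m_RealV m_Index m_GordanN m_Viol m_Gamma

theorem m_final (n : ℕ) (a : Fin 2 → ℂ) (b : Fin n → ℂ) : Dil a b ↔
    ∀ N₀ N₁ N₂ : Matrix (Fin 2) (Fin 2) ℝ, N₀.IsSymm → N₁.IsSymm → N₂.IsSymm →
      ∑ j, negR (N₀ + (a j).re • N₁ + (a j).im • N₂) ≤
        ∑ l, negR (N₀ + (b l).re • N₁ + (b l).im • N₂) :=
  asm_final m_Suff m_NegR m_NecR m_Bridge n a b

end Pool.Agent.CMP
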