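import Mathlib
import Pool.Agent.CMP.Basic

set_option autoImplicit false

namespace Pool.Agent.CMP

open Finset Pool.Agent.Helper45.NC
open scoped ComplexConjugate Matrix

namespace NecCAux

/-- diagonalisation -/
theorem diag_herm {r : ℕ} {A : Matrix (Fin r) (Fin r) ℂ} (hA : A.IsHermitian) :
    ∃ (U : Matrix (Fin r) (Fin r) ℂ) (s : Fin r → ℝ), Uᴴ * U = 1 ∧ U * Uᴴ = 1 ∧
      Uᴴ * A * U = Matrix.diagonal (fun i => (s i : ℂ)) ∧
      A = U * Matrix.diagonal (fun i => (s i : ℂ)) * Uᴴ ∧
      negC A = Fintype.card {i // 0 < - s i} := by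
  classical
  let U : Matrix (Fin r) (Fin r) ℂ := (hA.eigenvectorUnitary : Matrix (Fin r) (Fin r) ℂ)
  have h1 : Uᴴ * U = 1 := by
    have := Unitary.coe_star_mul_self hA.eigenvectorUnitary
    simpa [Matrix.star_eq_conjTranspose, U] using this
  have h2 : U * Uᴴ = 1 := by
    have := Unitary.coe_mul_star_self hA.eigenvectorUnitary
    simpa [Matrix.star_eq_conjTranspose, U] using this
  have h3 : A = U * Matrix.diagonal (fun i => (hA.eigenvalues i : ℂ)) * Uᴴ := by
    have h := hA.spectral_theorem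
    rw [Unitary.conjStarAlgAut_apply] at h
    exact h
  refine ⟨U, hA.eigenvalues, h1, h2, ?_, h3, ?_⟩
  · calc Uᴴ * A * U = Uᴴ * (U * Matrix.diagonal (fun i => (hA.eigenvalues i : ℂ)) * Uᴴ) * U := by
          rw [← h3]
      _ = (Uᴴ * U) * Matrix.diagonal (fun i => (hA.eigenvalues i : ℂ)) * (Uᴴ * U) := by
          simp only [Matrix.mul_assoc]
      _ = _ := by rw [h1, Matrix.one_mul, Matrix.mul_one]
  · unfold negC
    rw [hA.roots_charpoly_eq_eigenvalues, Multiset.filter_map, Multiset.card_map,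
      Fintype.card_subtype]
    have : ∀ i : Fin r, ((fun z : ℂ => z.re < 0) ∘ (RCLike.ofReal ∘ hA.eigenvalues)) i ↔
        0 < - hA.eigenvalues i := by
      intro i
      simp only [Function.comp_apply]
      constructor
      · intro h
        have h' : hA.eigenvalues i < 0 := by simpa using h
        linarith
      · intro h
        have h' : hA.eigenvalues i < 0 := by linarith
        simpa using h'
    rw [Multiset.filter_congr (fun i _ => this i)]
    rfl

theorem key {k n r : ℕ} (W : Matrix (Fin n) (Fin k) ℂ)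
    (A : Fin k → Matrix (Fin r) (Fin r) ℂ) (B : Fin n → Matrix (Fin r) (Fin r) ℂ)
    (hW : ∀ j j', ∑ l, star (W l j) * W l j' = if j = j' then 1 else 0)
    (hWB : ∀ j j', ∑ l, (star (W l j) * W l j') • B l = if j = j' then A j else 0)
    (hA : ∀ j, (A j).IsHermitian) (hB : ∀ l, (B l).IsHermitian) :
    ∑ j, negC (A j) ≤ ∑ l, negC (B l) := by
  classical
  choose U s hU1 hU2 hU3 _ hU5 using fun j => diag_herm (hA j)
  choose V t hV1 hV2 _ hV4 hV5 using fun l => diag_herm (hB l)
  let X : Matrix (Fin n × Fin r) (Fin k × Fin r) ℂ :=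
    fun p q => W p.1 q.1 * ((V p.1)ᴴ * U q.1) p.2 q.2
  have hX : ∀ (d : Fin n → Fin r → ℂ) (j j' : Fin k) (i i' : Fin r),
      (Xᴴ * Matrix.diagonal (fun p : Fin n × Fin r => d p.1 p.2) * X) (j, i) (j', i') =
        ((U j)ᴴ * (∑ l, (star (W l j) * W l j') •
          (V l * Matrix.diagonal (d l) * (V l)ᴴ)) * U j') i i' := by
    intro d j j' i i'
    rw [Matrix.mul_apply]
    simp only [Matrix.mul_diagonal]
    rw [Fintype.sum_prod_type]
    rw [Matrix.mul_sum, Matrix.sum_mul, Matrix.sum_apply]
    refine Finset.sum_congr rfl (fun l _ => ?_)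
    have e1 : (U j)ᴴ * ((star (W l j) * W l j') • (V l * Matrix.diagonal (d l) * (V l)ᴴ)) * U j' =
        (star (W l j) * W l j') •
          (((V l)ᴴ * U j)ᴴ * Matrix.diagonal (d l) * ((V l)ᴴ * U j')) := by
      rw [Matrix.mul_smul, Matrix.smul_mul, Matrix.conjTranspose_mul,
        Matrix.conjTranspose_conjTranspose]
      simp only [Matrix.mul_assoc]
    rw [e1, Matrix.smul_apply, Matrix.mul_apply, smul_eq_mul, Finset.mul_sum]
    refine Finset.sum_congr rfl (fun m _ => ?_)
    have e5 : Xᴴ (j, i) (l, m) = star (W l j) * star (((V l)ᴴ * U j) m i) := by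
      rw [Matrix.conjTranspose_apply]
      exact star_mul' _ _
    have e6 : X (l, m) (j', i') = W l j' * ((V l)ᴴ * U j') m i' := rfl
    have e7 : (((V l)ᴴ * U j)ᴴ * Matrix.diagonal (d l)) i m = star (((V l)ᴴ * U j) m i) * d l m := by
      rw [Matrix.mul_diagonal, Matrix.conjTranspose_apply]
    rw [e5, e6, e7]
    ring
  have h1 : Xᴴ * X = 1 := by
    have e : Xᴴ * X = Xᴴ * Matrix.diagonal (fun p : Fin n × Fin r => (fun _ _ => (1 : ℂ)) p.1 p.2)
        * X := by
      have : Matrix.diagonal (fun p : Fin n × Fin r => (fun (_ : Fin n) (_ : Fin r) => (1 : ℂ))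
          p.1 p.2) = 1 := Matrix.diagonal_one
      rw [this, Matrix.mul_one]
    rw [e]
    ext ⟨j, i⟩ ⟨j', i'⟩
    rw [hX (fun _ _ => (1 : ℂ))]
    have e2 : ∀ l, V l * Matrix.diagonal (fun _ : Fin r => (1 : ℂ)) * (V l)ᴴ = 1 := by
      intro l
      rw [Matrix.diagonal_one, Matrix.mul_one, hV2]
    simp only [e2]
    rw [← Finset.sum_smul, hW]
    by_cases hj : j = j'
    · subst hj
      rw [if_pos rfl, one_smul, Matrix.mul_one, hU1]
      by_cases hi : i = i'
      · subst hi; simp
      · rw [Matrix.one_apply_ne hi, Matrix.one_apply_ne (by simpa using hi)]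
    · rw [if_neg hj, zero_smul, Matrix.mul_zero, Matrix.zero_mul, Matrix.zero_apply,
        Matrix.one_apply_ne (by intro h; exact hj (congrArg Prod.fst h))]
  have h2 : Xᴴ * Matrix.diagonal (fun p : Fin n × Fin r => (((- t p.1 p.2 : ℝ)) : ℂ)) * X =
      Matrix.diagonal (fun q : Fin k × Fin r => (((- s q.1 q.2 : ℝ)) : ℂ)) := by
    have e : (fun p : Fin n × Fin r => (((- t p.1 p.2 : ℝ)) : ℂ)) =
        (fun p : Fin n × Fin r => (fun l m => ((((- t l m : ℝ)) : ℂ))) p.1 p.2) := rfl
    rw [e]
    ext ⟨j, i⟩ ⟨j', i'⟩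
    rw [hX (fun l m => ((((- t l m : ℝ)) : ℂ)))]
    have e2 : ∀ l, V l * Matrix.diagonal (fun m : Fin r => (((- t l m : ℝ)) : ℂ)) * (V l)ᴴ
        = - B l := by
      intro l
      have e3 : Matrix.diagonal (fun m : Fin r => (((- t l m : ℝ)) : ℂ)) =
          - Matrix.diagonal (fun m : Fin r => ((t l m : ℝ) : ℂ)) := by
        rw [Matrix.diagonal_neg]
        congr 1
        funext m
        push_cast
        rfl
      rw [e3, Matrix.mul_neg, Matrix.neg_mul, ← hV4]
    simp only [e2]
    have e4 : ∑ l, (star (W l j) * W l j') • (- B l) = - (if j = j' then A j else 0) := by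
      rw [← hWB, ← Finset.sum_neg_distrib]
      exact Finset.sum_congr rfl (fun l _ => by rw [smul_neg])
    rw [e4]
    by_cases hj : j = j'
    · subst hj
      rw [if_pos rfl, Matrix.mul_neg, Matrix.neg_mul, hU3]
      by_cases hi : i = i'
      · subst hi; simp
      · rw [Matrix.neg_apply, Matrix.diagonal_apply_ne _ hi,
          Matrix.diagonal_apply_ne _ (by simpa using hi)]
        simp
    · rw [if_neg hj, neg_zero, Matrix.mul_zero, Matrix.zero_mul, Matrix.zero_apply,
        Matrix.diagonal_apply_ne _ (by intro h; exact hj (congrArg Prod.fst h))]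
  have h3 := (cauchy (fun q : Fin k × Fin r => - s q.1 q.2) (fun p : Fin n × Fin r => - t p.1 p.2)
    X h1 h2 0).1
  have hc : ∀ (m : ℕ) (f : Fin m → Fin r → ℝ),
      Fintype.card {q : Fin m × Fin r // 0 < - f q.1 q.2} =
        ∑ j, Fintype.card {i // 0 < - f j i} := by
    intro m f
    rw [Fintype.card_subtype]
    have : ∀ j, Fintype.card {i // 0 < - f j i} = ∑ i, if 0 < - f j i then 1 else 0 := by
      intro j
      rw [Fintype.card_subtype, Finset.card_filter]
    simp only [this]
    rw [Finset.card_filter, Fintype.sum_prod_type]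
  rw [Finset.sum_congr rfl (fun j _ => hU5 j), Finset.sum_congr rfl (fun l _ => hV5 l),
    ← hc k s, ← hc n t]
  exact h3

end NecCAux

open NecCAux in
theorem thm_NecC : St_NecC := by
  classical
  intro k n r a b N₀ N₁ N₂ h0 h1 h2 hD
  obtain ⟨W, hW1, hW2⟩ := hD
  have hreal : ∀ (c : ℝ) (N : Matrix (Fin r) (Fin r) ℂ), N.IsHermitian →
      ((c : ℂ) • N).IsHermitian := by
    intro c N hN
    unfold Matrix.IsHermitian
    rw [Matrix.conjTranspose_smul, hN.eq]
    congr 1
    exact Complex.conj_ofReal c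
  have hH : ∀ z : ℂ, (N₀ + (z.re : ℂ) • N₁ + (z.im : ℂ) • N₂).IsHermitian := fun z =>
    (h0.add (hreal _ _ h1)).add (hreal _ _ h2)
  have hWa : ∀ j j', ∑ l, star (W l j) * W l j' = if j = j' then 1 else 0 := by
    intro j j'
    have h := congrFun (congrFun hW1 j) j'
    rw [Matrix.mul_apply, Matrix.one_apply] at h
    simpa only [Matrix.conjTranspose_apply] using h
  have hWb : ∀ j j', ∑ l, star (W l j) * W l j' * b l = if j = j' then a j else 0 := by
    intro j j'
    have h := congrFun (congrFun hW2 j) j'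
    rw [Matrix.mul_apply, Matrix.diagonal_apply] at h
    rw [← h]
    refine Finset.sum_congr rfl (fun l _ => ?_)
    rw [Matrix.mul_diagonal, Matrix.conjTranspose_apply]
    ring
  have hWc : ∀ j j', ∑ l, star (W l j) * W l j' * conj (b l) = if j = j' then conj (a j) else 0 := by
    intro j j'
    have h := congrArg conj (hWb j' j)
    rw [map_sum] at h
    have h' : ∑ l, star (W l j) * W l j' * conj (b l) =
        ∑ l, conj (star (W l j') * W l j * b l) := by
      refine Finset.sum_congr rfl (fun l _ => ?_)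
      rw [map_mul, map_mul]
      have : conj (star (W l j')) = W l j' := Complex.conj_conj _
      rw [this]
      have : conj (W l j) = star (W l j) := rfl
      rw [this]
      ring
    rw [h', h]
    by_cases hj : j = j'
    · subst hj; simp
    · rw [if_neg hj, if_neg (fun h => hj h.symm)]; simp
  have hWr : ∀ j j', ∑ l, star (W l j) * W l j' * ((b l).re : ℂ) =
      if j = j' then ((a j).re : ℂ) else 0 := by
    intro j j'
    have e : ∀ z : ℂ, (z.re : ℂ) = (z + conj z) / 2 := fun z => by
      rw [Complex.add_conj]; push_cast; ring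
    have : ∑ l, star (W l j) * W l j' * ((b l).re : ℂ) =
        (∑ l, star (W l j) * W l j' * b l + ∑ l, star (W l j) * W l j' * conj (b l)) / 2 := by
      rw [← Finset.sum_add_distrib, Finset.sum_div]
      refine Finset.sum_congr rfl (fun l _ => ?_)
      rw [e]; ring
    rw [this, hWb, hWc]
    by_cases hj : j = j'
    · rw [if_pos hj, if_pos hj, if_pos hj, e]
    · rw [if_neg hj, if_neg hj, if_neg hj]; simp
  have hWi : ∀ j j', ∑ l, star (W l j) * W l j' * ((b l).im : ℂ) =
      if j = j' then ((a j).im : ℂ) else 0 := by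
    intro j j'
    have e : ∀ z : ℂ, (z.im : ℂ) = (z - conj z) / (2 * Complex.I) := fun z => by
      rw [Complex.sub_conj]
      field_simp
      push_cast
      ring
    have : ∑ l, star (W l j) * W l j' * ((b l).im : ℂ) =
        (∑ l, star (W l j) * W l j' * b l - ∑ l, star (W l j) * W l j' * conj (b l)) /
          (2 * Complex.I) := by
      rw [← Finset.sum_sub_distrib, Finset.sum_div]
      refine Finset.sum_congr rfl (fun l _ => ?_)
      rw [e]; ring
    rw [this, hWb, hWc]
    by_cases hj : j = j'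
    · rw [if_pos hj, if_pos hj, if_pos hj, e]
    · rw [if_neg hj, if_neg hj, if_neg hj]; simp
  refine key W (fun j => N₀ + ((a j).re : ℂ) • N₁ + ((a j).im : ℂ) • N₂)
    (fun l => N₀ + ((b l).re : ℂ) • N₁ + ((b l).im : ℂ) • N₂) hWa ?_ (fun j => hH _)
    (fun l => hH _)
  intro j j'
  have e : ∑ l, (star (W l j) * W l j') • (N₀ + ((b l).re : ℂ) • N₁ + ((b l).im : ℂ) • N₂) =
      (∑ l, star (W l j) * W l j') • N₀ + (∑ l, star (W l j) * W l j' * ((b l).re : ℂ)) • N₁ +
        (∑ l, star (W l j) * W l j' * ((b l).im : ℂ)) • N₂ := by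
    rw [Finset.sum_smul, Finset.sum_smul, Finset.sum_smul, ← Finset.sum_add_distrib,
      ← Finset.sum_add_distrib]
    refine Finset.sum_congr rfl (fun l _ => ?_)
    rw [smul_add, smul_add, smul_smul, smul_smul]
  rw [e, hWa, hWr, hWi]
  by_cases hj : j = j'
  · rw [if_pos hj, if_pos hj, if_pos hj, if_pos hj, one_smul]
  · rw [if_neg hj, if_neg hj, if_neg hj, if_neg hj]; simp

end Pool.Agent.CMP
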