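import Mathlib
import Pool.Agent.CMP.Basic

set_option autoImplicit false

namespace Pool.Agent.CMP

open Finset Pool.Agent.Helper45.NC
open scoped ComplexConjugate

/-- two parallel vectors lie on a line -/
theorem rank1_line {X₁ X₂ Y₁ Y₂ : ℝ} (h0 : X₁ ^ 2 + X₂ ^ 2 + Y₁ ^ 2 + Y₂ ^ 2 ≠ 0)
    (h : X₁ * Y₂ - X₂ * Y₁ = 0) : ∃ c s x y : ℝ, c ^ 2 + s ^ 2 = 1 ∧ X₁ = x * c ∧ X₂ = x * s ∧
      Y₁ = y * c ∧ Y₂ = y * s := by
  by_cases hX : X₁ ^ 2 + X₂ ^ 2 = 0
  · have hX1 : X₁ = 0 := by nlinarith [sq_nonneg X₁, sq_nonneg X₂]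
    have hX2 : X₂ = 0 := by nlinarith [sq_nonneg X₁, sq_nonneg X₂]
    have hY : Y₁ ^ 2 + Y₂ ^ 2 ≠ 0 := by
      intro hY
      apply h0
      rw [hX1, hX2]
      linarith
    have hpos : 0 < Y₁ ^ 2 + Y₂ ^ 2 := lt_of_le_of_ne (by positivity) (Ne.symm hY)
    set ρ := Real.sqrt (Y₁ ^ 2 + Y₂ ^ 2) with hρ
    have hρ0 : 0 < ρ := Real.sqrt_pos.2 hpos
    have hρ2 : ρ ^ 2 = Y₁ ^ 2 + Y₂ ^ 2 := Real.sq_sqrt hpos.le
    refine ⟨Y₁ / ρ, Y₂ / ρ, 0, ρ, ?_, ?_, ?_, ?_, ?_⟩
    · rw [div_pow, div_pow, ← add_div, ← hρ2]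
      exact div_self (pow_ne_zero 2 hρ0.ne')
    · rw [hX1, zero_mul]
    · rw [hX2, zero_mul]
    · field_simp
    · field_simp
  · have hpos : 0 < X₁ ^ 2 + X₂ ^ 2 := lt_of_le_of_ne (by positivity) (Ne.symm hX)
    set ρ := Real.sqrt (X₁ ^ 2 + X₂ ^ 2) with hρ
    have hρ0 : 0 < ρ := Real.sqrt_pos.2 hpos
    have hρ2 : ρ ^ 2 = X₁ ^ 2 + X₂ ^ 2 := Real.sq_sqrt hpos.le
    refine ⟨X₁ / ρ, X₂ / ρ, ρ, (X₁ * Y₁ + X₂ * Y₂) / ρ, ?_, ?_, ?_, ?_, ?_⟩
    · rw [div_pow, div_pow, ← add_div, ← hρ2]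
      exact div_self (pow_ne_zero 2 hρ0.ne')
    · field_simp
    · field_simp
    · have : (X₁ * Y₁ + X₂ * Y₂) / ρ * (X₁ / ρ) = (X₁ * Y₁ + X₂ * Y₂) * X₁ / ρ ^ 2 := by
        field_simp
      rw [this, eq_div_iff (pow_ne_zero 2 hρ0.ne'), hρ2]
      linear_combination (-X₂) * h
    · have : (X₁ * Y₁ + X₂ * Y₂) / ρ * (X₂ / ρ) = (X₁ * Y₁ + X₂ * Y₂) * X₂ / ρ ^ 2 := by
        field_simp
      rw [this, eq_div_iff (pow_ne_zero 2 hρ0.ne'), hρ2]
      linear_combination X₁ * h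

/-- balanced pencils stay balanced under rotations -/
theorem rank1_bal {M : Pen} (hM : Bal M) {c s : ℝ} (_hcs : c ^ 2 + s ^ 2 = 1) :
    Bal (act c (-s) s c M) := by
  obtain ⟨h1, h2⟩ := hM
  rw [Fin.sum_univ_three] at h1 h2
  rw [Fin.sum_univ_three] at h1
  constructor
  · rw [Fin.sum_univ_three, Fin.sum_univ_three]
    simp only [act_zero, act_two]
    linear_combination (c ^ 2 + s ^ 2) * (c ^ 2 - s ^ 2) * h1 +
      4 * c * s * (c ^ 2 + s ^ 2) * h2
  · rw [Fin.sum_univ_three]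
    simp only [act_zero, act_one, act_two]
    linear_combination (-(c ^ 2 + s ^ 2) * c * s) * h1 + (c ^ 2 + s ^ 2) * (c ^ 2 - s ^ 2) * h2

theorem thm_Rank1 (hDiag : St_Diag) (hNuInv : St_NuInv) : St_Rank1 := by
  intro n b a₁ a₂ M u v X₁ X₂ Y₁ Y₂ hM0 hBal hWeak hv1 hv2 hvb ha1 ha2 hC hdet
  obtain ⟨hne, hU1, hU2, hX1, hX2, hY1, hY2, hs1, hs2, hs3⟩ := hC
  obtain ⟨c, s, x, y, hcs, rfl, rfl, rfl, rfl⟩ := rank1_line hne hdet
  -- the orthogonal components vanish
  have e1 := hs1 ![1, 0, 0]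
  have e2 := hs2 ![1, 0, 0]
  have e3 := hs3 ![1, 0, 0]
  simp only [ev_mk, zero_mul, add_zero, mul_one] at e1 e2 e3
  have horth : ∑ l, (c * v l - s * u l) ^ 2 = 0 := by
    have h1 : ∑ l, (c * v l - s * u l) ^ 2 =
        c ^ 2 * ∑ l, v l ^ 2 - 2 * c * s * ∑ l, u l * v l + s ^ 2 * ∑ l, u l ^ 2 := by
      rw [Finset.mul_sum, Finset.mul_sum, Finset.mul_sum, ← Finset.sum_sub_distrib,
        ← Finset.sum_add_distrib]
      refine Finset.sum_congr rfl fun l _ => ?_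
      ring
    rw [h1, e1, e2, e3]
    ring
  have hl0 : ∀ l, c * v l - s * u l = 0 := by
    intro l
    have h1 := (Finset.sum_eq_zero_iff_of_nonneg (fun l _ => sq_nonneg _)).1 horth l
      (Finset.mem_univ l)
    exact pow_eq_zero_iff (two_ne_zero) |>.1 h1
  -- the parallel components
  set t : Fin n → ℝ := fun l => c * u l + s * v l with ht
  have hu : ∀ l, u l = t l * c := by
    intro l
    show u l = (c * u l + s * v l) * c
    linear_combination (-u l) * hcs - s * hl0 l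
  have hv : ∀ l, v l = t l * s := by
    intro l
    show v l = (c * u l + s * v l) * s
    linear_combination (-v l) * hcs + c * hl0 l
  have hxy : x ^ 2 + y ^ 2 ≠ 0 := by
    intro h
    apply hne
    linear_combination (c ^ 2 + s ^ 2) * h
  have hsum : ∑ l, t l ^ 2 = x ^ 2 + y ^ 2 := by
    have h1 : ∑ l, t l ^ 2 = ∑ l, u l ^ 2 + ∑ l, v l ^ 2 := by
      rw [← Finset.sum_add_distrib]
      refine Finset.sum_congr rfl fun l _ => ?_
      rw [hu l, hv l]
      linear_combination (-(t l) ^ 2) * hcs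
    rw [h1, e1, e3]
    linear_combination (x ^ 2 + y ^ 2) * hcs
  obtain ⟨l, hl⟩ : ∃ l, t l ≠ 0 := by
    by_contra hcon
    push Not at hcon
    apply hxy
    rw [← hsum]
    refine Finset.sum_eq_zero fun l _ => ?_
    rw [hcon l]
    ring
  -- `M e` vanishes at `b l`
  have hb1 : ev (M 0) (b l) * c + ev (M 1) (b l) * s = 0 := by
    have h1 := hU1 l
    rw [hu l, hv l] at h1
    have h2 : t l * (ev (M 0) (b l) * c + ev (M 1) (b l) * s) = 0 := by linear_combination h1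
    exact (mul_eq_zero.1 h2).resolve_left hl
  have hb2 : ev (M 1) (b l) * c + ev (M 2) (b l) * s = 0 := by
    have h1 := hU2 l
    rw [hu l, hv l] at h1
    have h2 : t l * (ev (M 1) (b l) * c + ev (M 2) (b l) * s) = 0 := by linear_combination h1
    exact (mul_eq_zero.1 h2).resolve_left hl
  -- `M e` vanishes at one of the `a`
  obtain ⟨a, hab, hA1, hA2⟩ : ∃ a : ℂ, a ≠ b l ∧ ev (M 0) a * c + ev (M 1) a * s = 0 ∧
      ev (M 1) a * c + ev (M 2) a * s = 0 := by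
    by_cases hx : x = 0
    · have hy : y ≠ 0 := by
        intro hy
        apply hxy
        rw [hx, hy]
        ring
      refine ⟨a₂, ha2 l, ?_, ?_⟩
      · have h2 : y * (ev (M 0) a₂ * c + ev (M 1) a₂ * s) = 0 := by linear_combination hY1
        exact (mul_eq_zero.1 h2).resolve_left hy
      · have h2 : y * (ev (M 1) a₂ * c + ev (M 2) a₂ * s) = 0 := by linear_combination hY2
        exact (mul_eq_zero.1 h2).resolve_left hy
    · refine ⟨a₁, ha1 l, ?_, ?_⟩
      · have h2 : x * (ev (M 0) a₁ * c + ev (M 1) a₁ * s) = 0 := by linear_combination hX1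
        exact (mul_eq_zero.1 h2).resolve_left hx
      · have h2 : x * (ev (M 1) a₁ * c + ev (M 2) a₁ * s) = 0 := by linear_combination hX2
        exact (mul_eq_zero.1 h2).resolve_left hx
  by_cases hg : (act c (-s) s c M) 1 = 0
  · exact hDiag n b a₁ a₂ M hM0 hBal hWeak ⟨c, s, hcs, hg⟩
  · exfalso
    have hB := rank1_bal hBal hcs
    -- both entries vanish at the two points
    have z1 : ev ((act c (-s) s c M) 1) a = 0 := by
      rw [ev_act_one]
      linear_combination (-s) * hA1 + c * hA2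
    have z2 : ev ((act c (-s) s c M) 1) (b l) = 0 := by
      rw [ev_act_one]
      linear_combination (-s) * hb1 + c * hb2
    have z3 : ev ((act c (-s) s c M) 0) a = 0 := by
      rw [ev_act_zero]
      linear_combination c * hA1 + s * hA2
    have z4 : ev ((act c (-s) s c M) 0) (b l) = 0 := by
      rw [ev_act_zero]
      linear_combination c * hb1 + s * hb2
    obtain ⟨κ, hκ⟩ := prop_of_two hab hg z1 z2 z3 z4
    obtain ⟨hB1, hB2⟩ := hB
    rw [hκ] at hB1 hB2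
    set g := (act c (-s) s c M) 1 with hgdef
    set k := (act c (-s) s c M) 2 with hkdef
    have hsq : ∑ i, (k i + κ * g i) ^ 2 = 0 := by
      rw [Fin.sum_univ_three] at hB1 hB2 ⊢
      rw [Fin.sum_univ_three] at hB1
      simp only [Pi.smul_apply, smul_eq_mul] at hB1 hB2
      linear_combination (-1 : ℝ) * hB1 + 2 * κ * hB2
    have hk : ∀ i, k i = - κ * g i := by
      intro i
      have h1 := (Finset.sum_eq_zero_iff_of_nonneg (fun i _ => sq_nonneg _)).1 hsq i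
        (Finset.mem_univ i)
      have h2 := pow_eq_zero_iff (two_ne_zero) |>.1 h1
      linarith
    have z5 : ev ((act c (-s) s c M) 2) (b l) = 0 := by
      rw [← hkdef]
      have h1 : k = (-κ) • g := by
        funext i
        rw [Pi.smul_apply, smul_eq_mul]
        exact hk i
      rw [h1, ev_smul, z2, mul_zero]
    rw [ev_act_zero] at z4
    rw [hgdef, ev_act_one] at z2
    rw [ev_act_two] at z5
    apply hvb l
    have hcs2 : (c ^ 2 + s ^ 2) ^ 2 = 1 := by rw [hcs]; ring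
    refine ⟨?_, ?_, ?_⟩
    · linear_combination c ^ 2 * z4 - 2 * c * s * z2 + s ^ 2 * z5 - ev (M 0) (b l) * hcs2
    · linear_combination c * s * z4 + (c ^ 2 - s ^ 2) * z2 - c * s * z5 - ev (M 1) (b l) * hcs2
    · linear_combination s ^ 2 * z4 + 2 * c * s * z2 + c ^ 2 * z5 - ev (M 2) (b l) * hcs2

end Pool.Agent.CMP
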