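import Mathlib
import Pool.Agent.CMP.Basic

set_option autoImplicit false

namespace Pool.Agent.CMP

open Finset Pool.Agent.Helper45.NC
open scoped ComplexConjugate

theorem SepY_aux (f : ℂ → ℝ) (K : ℝ) (C : Multiset ℂ) (h : ∀ z ∈ C, f z < K) :
    ∃ κ : ℝ, κ < K ∧ ∀ z ∈ C, f z < κ := by
  induction C using Multiset.induction_on with
  | empty => exact ⟨K - 1, by linarith, fun z hz => absurd hz (Multiset.notMem_zero z)⟩
  | cons a C ih =>
    obtain ⟨κ, h1, h2⟩ := ih (fun z hz => h z (Multiset.mem_cons_of_mem hz))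
    have h3 := h a (Multiset.mem_cons_self a C)
    refine ⟨max κ ((f a + K) / 2), max_lt h1 (by linarith), fun z hz => ?_⟩
    rcases Multiset.mem_cons.mp hz with rfl | hz
    · exact lt_of_lt_of_le (by linarith) (le_max_right _ _)
    · exact lt_of_lt_of_le (h2 z hz) (le_max_left _ _)

theorem thm_SepY : St_SepY := by
  intro b₀ C r hb hC hr
  have key : ∀ z ∈ C, -(z.re - r) / z.im < (b₀.re - r) / (-b₀.im) := by
    intro z hz
    have hz1 := hC z hz
    have hd : 0 < z.im - b₀.im := by linarith
    have h1 := hr ((z.im * b₀.re - b₀.im * z.re) / (z.im - b₀.im)) ?_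
    · rw [lt_div_iff₀ hd] at h1
      rw [div_lt_div_iff₀ hz1 (by linarith)]
      nlinarith
    · have hb1 : b₀ ∈ pts (b₀ ::ₘ C) := Multiset.mem_cons_self b₀ C
      have hz2 : z ∈ pts (b₀ ::ₘ C) := Multiset.mem_cons_of_mem hz
      have hs := (convex_convexHull ℝ (pts (b₀ ::ₘ C))) (subset_convexHull ℝ _ hb1)
        (subset_convexHull ℝ _ hz2) (a := z.im / (z.im - b₀.im)) (b := -b₀.im / (z.im - b₀.im))
        (by positivity) (div_nonneg (by linarith) hd.le) (by field_simp; ring)
      have he : (z.im / (z.im - b₀.im)) • b₀ + (-b₀.im / (z.im - b₀.im)) • z =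
          (((z.im * b₀.re - b₀.im * z.re) / (z.im - b₀.im) : ℝ) : ℂ) := by
        apply Complex.ext
        · simp only [Complex.add_re, Complex.real_smul, Complex.re_ofReal_mul, Complex.ofReal_re]
          field_simp
          ring
        · simp only [Complex.add_im, Complex.real_smul, Complex.im_ofReal_mul, Complex.ofReal_im]
          field_simp
          ring
      rw [he] at hs
      exact hs
  obtain ⟨κ, h1, h2⟩ := SepY_aux _ _ C key
  refine ⟨κ, ?_, fun z hz => ?_⟩
  · rw [lt_div_iff₀ (by linarith)] at h1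
    linarith
  · have h3 := h2 z hz
    rw [div_lt_iff₀ (hC z hz)] at h3
    linarith

end Pool.Agent.CMP
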